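import Mathlib

/-!
Rational enclosures of sine, cosine and exponential by Taylor polynomials.
-/

open Real Finset

namespace Pool.Agent.H4.Shore

/-- Taylor polynomial of the cosine of degree 12. -/
noncomputable def cosT (x : ℝ) : ℝ :=
  1 - x ^ 2 / 2 + x ^ 4 / 24 - x ^ 6 / 720 + x ^ 8 / 40320 - x ^ 10 / 3628800
    + x ^ 12 / 479001600

/-- Taylor polynomial of the sine of degree 13. -/
noncomputable def sinT (x : ℝ) : ℝ :=
  x - x ^ 3 / 6 + x ^ 5 / 120 - x ^ 7 / 5040 + x ^ 9 / 362880 - x ^ 11 / 39916800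
    + x ^ 13 / 6227020800

lemma taylor_sum (x : ℝ) : ∑ m ∈ range 14, ((x : ℂ) * Complex.I) ^ m / (m.factorial : ℂ) =
    (cosT x : ℂ) + (sinT x : ℂ) * Complex.I := by
  have I2 := Complex.I_sq
  have I3 : Complex.I ^ 3 = -Complex.I := Complex.I_pow_three
  have I4 : Complex.I ^ 4 = 1 := Complex.I_pow_four
  have I5 : Complex.I ^ 5 = Complex.I := by
    rw [show (5 : ℕ) = 4 + 1 from rfl, pow_add, I4]; ring
  have I6 : Complex.I ^ 6 = -1 := by rw [show (6 : ℕ) = 4 + 2 from rfl, pow_add, I4, I2]; ring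
  have I7 : Complex.I ^ 7 = -Complex.I := by
    rw [show (7 : ℕ) = 4 + 3 from rfl, pow_add, I4, I3]; ring
  have I8 : Complex.I ^ 8 = 1 := by rw [show (8 : ℕ) = 4 + 4 from rfl, pow_add, I4]; ring
  have I9 : Complex.I ^ 9 = Complex.I := by
    rw [show (9 : ℕ) = 8 + 1 from rfl, pow_add, I8]; ring
  have I10 : Complex.I ^ 10 = -1 := by rw [show (10 : ℕ) = 8 + 2 from rfl, pow_add, I8, I2]; ring
  have I11 : Complex.I ^ 11 = -Complex.I := by
    rw [show (11 : ℕ) = 8 + 3 from rfl, pow_add, I8, I3]; ring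
  have I12 : Complex.I ^ 12 = 1 := by rw [show (12 : ℕ) = 8 + 4 from rfl, pow_add, I8, I4]; ring
  have I13 : Complex.I ^ 13 = Complex.I := by
    rw [show (13 : ℕ) = 12 + 1 from rfl, pow_add, I12]; ring
  simp only [sum_range_succ, sum_range_zero, mul_pow, Nat.factorial]
  rw [I2, I3, I4, I5, I6, I7, I8, I9, I10, I11, I12, I13]
  unfold cosT sinT
  push_cast
  ring

lemma trig_bound (x : ℝ) (hx : |x| ≤ 1) :
    |cos x - cosT x| ≤ |x| ^ 14 / 80000000000 ∧ |sin x - sinT x| ≤ |x| ^ 14 / 80000000000 := by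
  have hn : ‖(x : ℂ) * Complex.I‖ = |x| := by
    rw [norm_mul, Complex.norm_I, mul_one, Complex.norm_real, Real.norm_eq_abs]
  have h := Complex.exp_bound (x := (x : ℂ) * Complex.I) (by rw [hn]; exact hx) (n := 14)
    (by norm_num)
  rw [taylor_sum, hn, Complex.exp_mul_I] at h
  have h2 : Complex.cos x + Complex.sin x * Complex.I - ((cosT x : ℂ) + (sinT x : ℂ) * Complex.I)
      = ((cos x - cosT x : ℝ) : ℂ) + ((sin x - sinT x : ℝ) : ℂ) * Complex.I := by
    push_cast
    ring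
  rw [h2] at h
  have h3 : |x| ^ 14 * (((14 : ℕ).succ : ℝ) * (((14 : ℕ).factorial : ℝ) * (14 : ℕ))⁻¹)
      ≤ |x| ^ 14 / 80000000000 := by
    rw [div_eq_mul_inv]
    apply mul_le_mul_of_nonneg_left _ (by positivity)
    norm_num [Nat.factorial]
  constructor
  · have h4 := (Complex.abs_re_le_norm _).trans (h.trans h3)
    rwa [Complex.add_re, Complex.ofReal_re, Complex.re_ofReal_mul, Complex.I_re, mul_zero,
      add_zero] at h4
  · have h4 := (Complex.abs_im_le_norm _).trans (h.trans h3)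
    rwa [Complex.add_im, Complex.ofReal_im, Complex.im_ofReal_mul, Complex.I_im, mul_one,
      zero_add] at h4

/-- Partial sum of the exponential series. -/
noncomputable def expT (x : ℝ) : ℝ := ∑ m ∈ range 16, x ^ m / m.factorial

lemma exp_lower (x : ℝ) (h0 : 0 ≤ x) : expT x ≤ exp x := Real.sum_le_exp_of_nonneg h0 16

lemma exp_upper (x : ℝ) (h0 : 0 ≤ x) (h1 : x ≤ 1) :
    exp x ≤ expT x + x ^ 16 / 19000000000000 := by
  have h := Real.exp_bound' h0 h1 (n := 16) (by norm_num)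
  refine h.trans ?_
  unfold expT
  apply add_le_add le_rfl
  rw [mul_div_assoc, div_eq_mul_inv (x ^ 16)]
  apply mul_le_mul_of_nonneg_left _ (by positivity)
  norm_num [Nat.factorial]

end Pool.Agent.H4.Shore
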