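import Mathlib
import Pool.Agent.H4.Shore.Taylor

/-!
Shoreline search: existence and numerical enclosure of the constants `α`, `ω` of the optimal
exponential spiral.
-/

open Real

namespace Pool.Agent.H4.Shore

lemma sin_enc (x l u : ℝ) (hx : |x| ≤ 1) (hl : l + |x| ^ 14 / 80000000000 ≤ sinT x)
    (hu : sinT x + |x| ^ 14 / 80000000000 ≤ u) : l ≤ sin x ∧ sin x ≤ u := by
  have := abs_le.1 (trig_bound x hx).2
  constructor <;> linarith [this.1, this.2]

lemma cos_enc (x l u : ℝ) (hx : |x| ≤ 1) (hl : l + |x| ^ 14 / 80000000000 ≤ cosT x)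
    (hu : cosT x + |x| ^ 14 / 80000000000 ≤ u) : l ≤ cos x ∧ cos x ≤ u := by
  have := abs_le.1 (trig_bound x hx).1
  constructor <;> linarith [this.1, this.2]

/-- Lower end point for `α`. -/
noncomputable def am : ℝ := 0.2093562673813
/-- Upper end point for `α`. -/
noncomputable def ap : ℝ := 0.2093562673833
/-- Lower end point for `ω`. -/
noncomputable def wm : ℝ := 1.2149466769676
/-- Centre for `ω`. -/
noncomputable def wc : ℝ := 1.2149466769716
/-- Upper end point for `ω`. -/
noncomputable def wp : ℝ := 1.2149466769756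

lemma sin_am : 0.2078302662956544 ≤ sin am ∧ sin am ≤ 0.2078302662956545 := by
  apply sin_enc <;> norm_num [am, sinT, abs_of_pos]

lemma cos_am : 0.97816490450817 ≤ cos am ∧ cos am ≤ 0.97816490450817002 := by
  apply cos_enc <;> norm_num [am, cosT, abs_of_pos]

lemma sin_ap : 0.20783026629761078 ≤ sin ap ∧ sin ap ≤ 0.20783026629761079 := by
  apply sin_enc <;> norm_num [ap, sinT, abs_of_pos]

lemma cos_ap : 0.97816490450775435 ≤ cos ap ∧ cos ap ≤ 0.97816490450775436 := by
  apply cos_enc <;> norm_num [ap, cosT, abs_of_pos]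

lemma omega_enc (w xl xh cl ch sl sh : ℝ) (h0 : 0 ≤ xl) (h1 : xh ≤ 1)
    (hxl : xl ≤ 3.14159265358979323846 / 2 - w) (hxh : 3.14159265358979323847 / 2 - w ≤ xh)
    (c1 : cl + |xl| ^ 14 / 80000000000 ≤ sinT xl) (c2 : sinT xh + |xh| ^ 14 / 80000000000 ≤ ch)
    (s1 : sl + |xh| ^ 14 / 80000000000 ≤ cosT xh) (s2 : cosT xl + |xl| ^ 14 / 80000000000 ≤ sh) :
    (cl ≤ cos w ∧ cos w ≤ ch) ∧ (sl ≤ sin w ∧ sin w ≤ sh) := by
  have p1 := Real.pi_gt_d20
  have p2 := Real.pi_lt_d20
  have hlo : xl ≤ π / 2 - w := by linarith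
  have hhi : π / 2 - w ≤ xh := by linarith
  have hle : xl ≤ xh := hlo.trans hhi
  have hb1 : |xl| ≤ 1 := by rw [abs_of_nonneg h0]; linarith
  have hb2 : |xh| ≤ 1 := by rw [abs_of_nonneg (h0.trans hle)]; exact h1
  have tl := trig_bound xl hb1
  have th := trig_bound xh hb2
  have tl1 := abs_le.1 tl.1
  have tl2 := abs_le.1 tl.2
  have th1 := abs_le.1 th.1
  have th2 := abs_le.1 th.2
  have e1 : cos w = sin (π / 2 - w) := by rw [sin_pi_div_two_sub]
  have e2 : sin w = cos (π / 2 - w) := by rw [cos_pi_div_two_sub]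
  have m1 : sin xl ≤ sin (π / 2 - w) :=
    sin_le_sin_of_le_of_le_pi_div_two (by linarith) (by linarith) hlo
  have m2 : sin (π / 2 - w) ≤ sin xh :=
    sin_le_sin_of_le_of_le_pi_div_two (by linarith) (by linarith) hhi
  have m3 : cos xh ≤ cos (π / 2 - w) :=
    cos_le_cos_of_nonneg_of_le_pi (by linarith) (by linarith) hhi
  have m4 : cos (π / 2 - w) ≤ cos xl :=
    cos_le_cos_of_nonneg_of_le_pi h0 (by linarith) hlo
  rw [e1, e2]
  refine ⟨⟨?_, ?_⟩, ?_, ?_⟩
  · linarith [tl2.1]
  · linarith [th2.2]
  · linarith [th1.1]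
  · linarith [tl1.2]

lemma wm_enc : (0.3483869108536474 ≤ cos wm ∧ cos wm ≤ 0.3483869108536475) ∧
    (0.9373508203153463 ≤ sin wm ∧ sin wm ≤ 0.9373508203153464) := by
  apply omega_enc wm 0.35584964982729661923 0.355849649827296619235 <;>
    norm_num [wm, sinT, cosT, abs_of_pos]

lemma wc_enc : (0.34838691084989801 ≤ cos wc ∧ cos wc ≤ 0.34838691084989803) ∧
    (0.93735082031673989 ≤ sin wc ∧ sin wc ≤ 0.93735082031673993) := by
  apply omega_enc wc 0.35584964982329661923 0.355849649823296619235 <;>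
    norm_num [wc, sinT, cosT, abs_of_pos]

lemma wp_enc : (0.34838691084614861 ≤ cos wp ∧ cos wp ≤ 0.34838691084614863) ∧
    (0.93735082031813344 ≤ sin wp ∧ sin wp ≤ 0.93735082031813348) := by
  apply omega_enc wp 0.35584964981929661923 0.355849649819296619235 <;>
    norm_num [wp, sinT, cosT, abs_of_pos]

/-- First equation: `f α ω = 0` says that the spiral condition is an equality. -/
noncomputable def fE (α ω : ℝ) : ℝ := log (cos α) - log (cos ω) - (2 * π - α - ω) * tan α

/-- Second equation (optimality). -/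
noncomputable def gE (α ω : ℝ) : ℝ :=
  (2 * π - α - ω) * (sin α * sin ω) - cos α ^ 2 * sin (α + ω)

lemma tan_am : 0.2078302662956544 / 0.97816490450817002 ≤ tan am := by
  rw [tan_eq_sin_div_cos]
  have h1 := sin_am
  have h2 := cos_am
  have h3 : 0 < cos am := by linarith [h2.1]
  exact div_le_div₀ (by linarith [h1.1]) h1.1 h3 h2.2

lemma tan_ap : tan ap ≤ 0.20783026629761079 / 0.97816490450775435 := by
  rw [tan_eq_sin_div_cos]
  have h1 := sin_ap
  have h2 := cos_ap
  have h3 : 0 < cos ap := by linarith [h2.1]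
  exact div_le_div₀ (by norm_num) h1.2 (by norm_num) h2.1

lemma f_neg : fE am wm < 0 := by
  have p1 := Real.pi_gt_d20
  have hca := cos_am
  have hcw := wm_enc.1
  have hca0 : 0 < cos am := by linarith [hca.1]
  have hcw0 : 0 < cos wm := by linarith [hcw.1]
  have hE : 2 * (0.51618229743895 : ℝ) ≤ (2 * π - am - wm) * tan am := by
    have h1 : (2 * 3.14159265358979323846 - 0.2093562673813 - 1.2149466769676 : ℝ) ≤
        2 * π - am - wm := by
      unfold am wm
      linarith
    calc (2 * (0.51618229743895 : ℝ)) ≤ (2 * 3.14159265358979323846 - 0.2093562673813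
          - 1.2149466769676) * (0.2078302662956544 / 0.97816490450817002) := by norm_num
      _ ≤ _ := mul_le_mul h1 tan_am (by norm_num) (by linarith)
  have h2 : cos am < cos wm * exp ((2 * π - am - wm) * tan am) := by
    have h3 : (1.6756184105017 : ℝ) ≤ exp 0.51618229743895 := by
      refine le_trans ?_ (exp_lower _ (by norm_num))
      norm_num [expT, Finset.sum_range_succ, Nat.factorial]
    have h4 : exp (2 * (0.51618229743895 : ℝ)) ≤ exp ((2 * π - am - wm) * tan am) :=
      Real.exp_le_exp.2 hE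
    have h5 : exp (2 * (0.51618229743895 : ℝ)) = exp 0.51618229743895 ^ 2 := by
      rw [← Real.exp_nat_mul]
      norm_num
    have h6 : (1.6756184105017 : ℝ) ^ 2 ≤ exp 0.51618229743895 ^ 2 :=
      pow_le_pow_left₀ (by norm_num) h3 2
    calc cos am ≤ 0.97816490450817002 := hca.2
      _ < 0.3483869108536474 * 1.6756184105017 ^ 2 := by norm_num
      _ ≤ cos wm * exp ((2 * π - am - wm) * tan am) :=
        mul_le_mul hcw.1 (by linarith) (by norm_num) hcw0.le
  have h7 := Real.log_lt_log hca0 h2
  rw [Real.log_mul hcw0.ne' (Real.exp_pos _).ne', Real.log_exp] at h7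
  unfold fE
  linarith

lemma f_pos : 0 < fE ap wp := by
  have p1 := Real.pi_lt_d20
  have p2 := Real.pi_gt_d20
  have hca := cos_ap
  have hcw := wp_enc.1
  have hca0 : 0 < cos ap := by linarith [hca.1]
  have hcw0 : 0 < cos wp := by linarith [hcw.1]
  have htan0 : 0 ≤ tan ap := by
    rw [tan_eq_sin_div_cos]
    exact div_nonneg (by linarith [sin_ap.1]) hca0.le
  have hE : (2 * π - ap - wp) * tan ap ≤ 2 * (0.51618229744297 : ℝ) := by
    have h1 : 2 * π - ap - wp ≤
        (2 * 3.14159265358979323847 - 0.2093562673833 - 1.2149466769756 : ℝ) := by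
      unfold ap wp
      linarith
    calc (2 * π - ap - wp) * tan ap ≤ (2 * 3.14159265358979323847 - 0.2093562673833
          - 1.2149466769756) * (0.20783026629761079 / 0.97816490450775435) :=
          mul_le_mul h1 tan_ap htan0 (by norm_num)
      _ ≤ _ := by norm_num
  have h2 : cos wp * exp ((2 * π - ap - wp) * tan ap) < cos ap := by
    have h3 : exp 0.51618229744297 ≤ (1.67561841050854 : ℝ) := by
      refine (exp_upper _ (by norm_num) (by norm_num)).trans ?_
      norm_num [expT, Finset.sum_range_succ, Nat.factorial]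
    have h4 : exp ((2 * π - ap - wp) * tan ap) ≤ exp (2 * (0.51618229744297 : ℝ)) :=
      Real.exp_le_exp.2 hE
    have h5 : exp (2 * (0.51618229744297 : ℝ)) = exp 0.51618229744297 ^ 2 := by
      rw [← Real.exp_nat_mul]
      norm_num
    have h6 : exp 0.51618229744297 ^ 2 ≤ (1.67561841050854 : ℝ) ^ 2 :=
      pow_le_pow_left₀ (Real.exp_pos _).le h3 2
    calc cos wp * exp ((2 * π - ap - wp) * tan ap)
        ≤ 0.34838691084614863 * 1.67561841050854 ^ 2 :=
          mul_le_mul hcw.2 (by linarith) (Real.exp_pos _).le (by norm_num)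
      _ < 0.97816490450775435 := by norm_num
      _ ≤ cos ap := hca.1
  have h7 := Real.log_lt_log (by positivity) h2
  rw [Real.log_mul hcw0.ne' (Real.exp_pos _).ne', Real.log_exp] at h7
  unfold fE
  linarith

lemma g_ap : 4e-12 ≤ gE ap wc := by
  have p1 := Real.pi_gt_d20
  have h1 := sin_ap
  have h2 := cos_ap
  have h3 := wc_enc.1
  have h4 := wc_enc.2
  unfold gE
  rw [sin_add]
  have hlam : (4.8588823628246864 : ℝ) ≤ 2 * π - ap - wc := by
    unfold ap wc
    linarith
  have a1 : (4.8588823628246864 : ℝ) * (0.20783026629761078 * 0.93735082031673989) ≤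
      (2 * π - ap - wc) * (sin ap * sin wc) :=
    mul_le_mul hlam (mul_le_mul h1.1 h4.1 (by norm_num) (by linarith [h1.1])) (by norm_num)
      (by linarith)
  have a2 : cos ap ^ 2 * (sin ap * cos wc + cos ap * sin wc) ≤
      0.97816490450775436 ^ 2 * (0.20783026629761079 * 0.34838691084989803
        + 0.97816490450775436 * 0.93735082031673993) := by
    apply mul_le_mul (pow_le_pow_left₀ (by linarith [h2.1]) h2.2 2)
    · apply add_le_add
      · exact mul_le_mul h1.2 h3.2 (by linarith [h3.1]) (by norm_num)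
      · exact mul_le_mul h2.2 h4.2 (by linarith [h4.1]) (by norm_num)
    · apply add_nonneg
      · exact mul_nonneg (by linarith [h1.1]) (by linarith [h3.1])
      · exact mul_nonneg (by linarith [h2.1]) (by linarith [h4.1])
    · norm_num
  refine le_trans ?_ (sub_le_sub a1 a2)
  norm_num

lemma g_am : gE am wc ≤ -4e-12 := by
  have p1 := Real.pi_lt_d20
  have p2 := Real.pi_gt_d20
  have h1 := sin_am
  have h2 := cos_am
  have h3 := wc_enc.1
  have h4 := wc_enc.2
  unfold gE
  rw [sin_add]
  have hlam : 2 * π - am - wc ≤ (4.8588823628266866 : ℝ) := by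
    unfold am wc
    linarith
  have hlam0 : 0 ≤ 2 * π - am - wc := by
    unfold am wc
    linarith
  have a1 : (2 * π - am - wc) * (sin am * sin wc) ≤
      (4.8588823628266866 : ℝ) * (0.2078302662956545 * 0.93735082031673993) :=
    mul_le_mul hlam (mul_le_mul h1.2 h4.2 (by linarith [h4.1]) (by norm_num))
      (mul_nonneg (by linarith [h1.1]) (by linarith [h4.1])) (by norm_num)
  have a2 : 0.97816490450817 ^ 2 * (0.2078302662956544 * 0.34838691084989801
        + 0.97816490450817 * 0.93735082031673989) ≤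
      cos am ^ 2 * (sin am * cos wc + cos am * sin wc) := by
    apply mul_le_mul (pow_le_pow_left₀ (by norm_num) h2.1 2)
    · apply add_le_add
      · exact mul_le_mul h1.1 h3.1 (by norm_num) (by linarith [h1.1])
      · exact mul_le_mul h2.1 h4.1 (by norm_num) (by linarith [h2.1])
    · norm_num
    · positivity
  refine le_trans (sub_le_sub a1 a2) ?_
  norm_num

end Pool.Agent.H4.Shore
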