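import Mathlib
import Pool.Agent.H4.Shore.Constants

/-!
Shoreline search: the constants `α`, `ω` exist, with enclosures.
-/

open Real Set

namespace Pool.Agent.H4.Shore

lemma pi_bounds : (3.14159265358979323846 : ℝ) < π ∧ π < 3.14159265358979323847 :=
  ⟨Real.pi_gt_d20, Real.pi_lt_d20⟩

lemma tan_pos_of (α : ℝ) (h : α ∈ Icc am ap) : 0 < tan α := by
  have p := pi_bounds
  apply tan_pos_of_pos_of_lt_pi_div_two
  · have := h.1
    unfold am at this
    linarith
  · have := h.2
    unfold ap at this
    linarith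

lemma cos_bounds_alpha (α : ℝ) (h : α ∈ Icc am ap) :
    0.97816490450775435 ≤ cos α ∧ cos α ≤ 0.97816490450817002 := by
  have p := pi_bounds
  have h1 := h.1
  have h2 := h.2
  have b1 : cos ap ≤ cos α := cos_le_cos_of_nonneg_of_le_pi (by unfold am at h1; linarith)
    (by unfold ap; linarith) h2
  have b2 : cos α ≤ cos am := cos_le_cos_of_nonneg_of_le_pi (by unfold am; linarith)
    (by unfold ap at h2; linarith) h1
  exact ⟨cos_ap.1.trans b1, b2.trans cos_am.2⟩

lemma sin_bounds_alpha (α : ℝ) (h : α ∈ Icc am ap) :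
    0.2078302662956544 ≤ sin α ∧ sin α ≤ 0.20783026629761079 := by
  have p := pi_bounds
  have h1 := h.1
  have h2 := h.2
  have b1 : sin am ≤ sin α := sin_le_sin_of_le_of_le_pi_div_two (by unfold am; linarith)
    (by unfold ap at h2; linarith) h1
  have b2 : sin α ≤ sin ap := sin_le_sin_of_le_of_le_pi_div_two (by unfold am at h1; linarith)
    (by unfold ap; linarith) h2
  exact ⟨sin_am.1.trans b1, b2.trans sin_ap.2⟩

lemma cos_bounds_omega (ω : ℝ) (h : ω ∈ Icc wm wp) :
    0.34838691084614861 ≤ cos ω ∧ cos ω ≤ 0.3483869108536475 := by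
  have p := pi_bounds
  have h1 := h.1
  have h2 := h.2
  have b1 : cos wp ≤ cos ω := cos_le_cos_of_nonneg_of_le_pi (by unfold wm at h1; linarith)
    (by unfold wp; linarith) h2
  have b2 : cos ω ≤ cos wm := cos_le_cos_of_nonneg_of_le_pi (by unfold wm; linarith)
    (by unfold wp at h2; linarith) h1
  exact ⟨wp_enc.1.1.trans b1, b2.trans wm_enc.1.2⟩

lemma sin_bounds_omega (ω : ℝ) (h : ω ∈ Icc wm wp) :
    0.9373508203153463 ≤ sin ω ∧ sin ω ≤ 0.93735082031813348 := by
  have p := pi_bounds
  have h1 := h.1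
  have h2 := h.2
  have b1 : sin wm ≤ sin ω := sin_le_sin_of_le_of_le_pi_div_two (by unfold wm; linarith)
    (by unfold wp at h2; linarith) h1
  have b2 : sin ω ≤ sin wp := sin_le_sin_of_le_of_le_pi_div_two (by unfold wm at h1; linarith)
    (by unfold wp; linarith) h2
  exact ⟨wm_enc.2.1.trans b1, b2.trans wp_enc.2.2⟩

lemma f_strictMono (α : ℝ) (hα : α ∈ Icc am ap) (w1 w2 : ℝ) (h1 : w1 ∈ Icc wm wp)
    (h2 : w2 ∈ Icc wm wp) (h : w1 < w2) : fE α w1 < fE α w2 := by
  have p := pi_bounds
  have t := tan_pos_of α hα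
  have c2 := (cos_bounds_omega w2 h2).1
  have hc : cos w2 < cos w1 := by
    apply cos_lt_cos_of_nonneg_of_le_pi
    · have := h1.1
      unfold wm at this
      linarith
    · have := h2.2
      unfold wp at this
      linarith
    · exact h
  have hl := Real.log_lt_log (by linarith) hc
  unfold fE
  nlinarith

lemma f_anti (ω : ℝ) (hω : ω ∈ Icc wm wp) (a1 a2 : ℝ) (h1 : a1 ∈ Icc am ap)
    (h2 : a2 ∈ Icc am ap) (h : a1 ≤ a2) : fE a2 ω ≤ fE a1 ω := by
  have p := pi_bounds
  have c1 := cos_bounds_alpha a1 h1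
  have c2 := cos_bounds_alpha a2 h2
  have s1 := sin_bounds_alpha a1 h1
  have hc : cos a2 ≤ cos a1 := by
    apply cos_le_cos_of_nonneg_of_le_pi
    · have := h1.1
      unfold am at this
      linarith
    · have := h2.2
      unfold ap at this
      linarith
    · exact h
  have hl := Real.log_le_log (by linarith [c2.1]) hc
  have hd : 2 / π * (a2 - a1) ≤ tan a2 - tan a1 := by
    have e1 : tan a2 - tan a1 = sin (a2 - a1) / (cos a1 * cos a2) := by
      have z1 : cos a1 ≠ 0 := by linarith [c1.1]
      have z2 : cos a2 ≠ 0 := by linarith [c2.1]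
      rw [tan_eq_sin_div_cos, tan_eq_sin_div_cos, sin_sub]
      field_simp
    rw [e1]
    have hs : 2 / π * (a2 - a1) ≤ sin (a2 - a1) := by
      apply Real.mul_le_sin (by linarith)
      have := h1.1
      have := h2.2
      unfold am at *
      unfold ap at *
      linarith
    have hs0 : 0 ≤ sin (a2 - a1) := by
      refine le_trans ?_ hs
      have : 0 ≤ a2 - a1 := by linarith
      positivity
    refine hs.trans ?_
    rw [le_div_iff₀ (mul_pos (by linarith [c1.1]) (by linarith [c2.1]))]
    have : cos a1 * cos a2 ≤ 1 := by nlinarith [c1.1, c1.2, c2.1, c2.2]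
    nlinarith
  have hd2 : (1 / 2 : ℝ) * (a2 - a1) ≤ tan a2 - tan a1 := by
    refine le_trans ?_ hd
    apply mul_le_mul_of_nonneg_right _ (by linarith)
    rw [div_le_div_iff₀ (by norm_num) (by linarith)]
    linarith
  have ht1 : tan a1 ≤ 1 / 2 := by
    rw [tan_eq_sin_div_cos, div_le_div_iff₀ (by linarith [c1.1]) (by norm_num)]
    linarith [c1.1, s1.2]
  have hlam : 1 ≤ 2 * π - a2 - ω := by
    have := hω.2
    have := h2.2
    unfold wp ap at *
    linarith
  have hkey : (2 * π - a1 - ω) * tan a1 ≤ (2 * π - a2 - ω) * tan a2 := by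
    have k1 : (a2 - a1) * tan a1 ≤ (a2 - a1) * (1 / 2) :=
      mul_le_mul_of_nonneg_left ht1 (by linarith)
    have k2 : 1 * (tan a2 - tan a1) ≤ (2 * π - a2 - ω) * (tan a2 - tan a1) := by
      apply mul_le_mul_of_nonneg_right hlam
      have : 0 ≤ a2 - a1 := by linarith
      linarith
    nlinarith
  unfold fE
  linarith

lemma g_lipschitz (α : ℝ) (hα : α ∈ Icc am ap) (ω : ℝ) (hω : ω ∈ Icc wm wp) :
    |gE α ω - gE α wc| < 4e-12 := by
  have p := pi_bounds
  have ca := cos_bounds_alpha α hα
  have sa := sin_bounds_alpha α hα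
  have cw := cos_bounds_omega ω hω
  have sw := sin_bounds_omega ω hω
  have hwc : wc ∈ Icc wm wp := by unfold wm wc wp; constructor <;> norm_num
  have cc := cos_bounds_omega wc hwc
  have sc := sin_bounds_omega wc hwc
  have hm : (ω + wc) / 2 ∈ Icc wm wp := by
    constructor
    · linarith [hω.1, hwc.1]
    · linarith [hω.2, hwc.2]
  have cm := cos_bounds_omega _ hm
  have sm := sin_bounds_omega _ hm
  have hδ : |ω - wc| ≤ 4e-12 := by
    rw [abs_le]
    have h1 := hω.1
    have h2 := hω.2
    unfold wm at h1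
    unfold wp at h2
    unfold wc
    constructor <;> linarith
  have hs : |2 * sin ((ω - wc) / 2)| ≤ |ω - wc| := by
    rw [abs_mul, abs_of_pos (by norm_num : (0:ℝ) < 2)]
    have := Real.abs_sin_le_abs (x := (ω - wc) / 2)
    rw [abs_div, abs_of_pos (by norm_num : (0:ℝ) < 2)] at this
    linarith
  have e1 : sin ω - sin wc = (2 * sin ((ω - wc) / 2)) * cos ((ω + wc) / 2) := by
    rw [Real.sin_sub_sin]
  have e2 : sin (α + ω) - sin (α + wc) = (2 * sin ((ω - wc) / 2)) * cos (α + (ω + wc) / 2) := by
    rw [Real.sin_sub_sin]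
    congr 2
    · congr 1
      ring
    · ring
  have e3 : cos (α + (ω + wc) / 2) = cos α * cos ((ω + wc) / 2) - sin α * sin ((ω + wc) / 2) :=
    cos_add _ _
  have b3 : |cos (α + (ω + wc) / 2)| ≤ 0.15 := by
    rw [e3, abs_le]
    constructor
    · nlinarith [ca.1, ca.2, sa.1, sa.2, cm.1, cm.2, sm.1, sm.2]
    · nlinarith [ca.1, ca.2, sa.1, sa.2, cm.1, cm.2, sm.1, sm.2]
  set S := 2 * sin ((ω - wc) / 2) with hS
  have e4 : gE α ω - gE α wc = (2 * π - α - ω) * sin α * cos ((ω + wc) / 2) * S
      - (ω - wc) * (sin α * sin wc) - cos α ^ 2 * cos (α + (ω + wc) / 2) * S := by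
    unfold gE
    have : sin ω = sin wc + S * cos ((ω + wc) / 2) := by linarith
    have h2 : sin (α + ω) = sin (α + wc) + S * cos (α + (ω + wc) / 2) := by linarith
    rw [this, h2]
    ring
  have hlam0 : 0 ≤ 2 * π - α - ω := by
    have h1 := hα.2
    have h2 := hω.2
    unfold ap at h1
    unfold wp at h2
    linarith
  have hlam : 2 * π - α - ω ≤ 4.86 := by
    have h1 := hα.1
    have h2 := hω.1
    unfold am at h1
    unfold wm at h2
    linarith
  have q1 : |(2 * π - α - ω) * sin α * cos ((ω + wc) / 2) * S| ≤ 4.86 * 0.208 * 0.349 * |ω - wc| := by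
    rw [abs_mul, abs_mul, abs_mul, abs_of_nonneg hlam0, abs_of_nonneg (by linarith [sa.1] : 0 ≤ sin α),
      abs_of_nonneg (by linarith [cm.1] : 0 ≤ cos ((ω + wc) / 2))]
    apply mul_le_mul _ hs (abs_nonneg _) (by norm_num)
    apply mul_le_mul _ (by linarith [cm.2]) (by linarith [cm.1]) (by norm_num)
    exact mul_le_mul hlam (by linarith [sa.2]) (by linarith [sa.1]) (by norm_num)
  have q2 : |(ω - wc) * (sin α * sin wc)| ≤ |ω - wc| * (0.208 * 0.938) := by
    rw [abs_mul, abs_mul, abs_of_nonneg (by linarith [sa.1] : 0 ≤ sin α),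
      abs_of_nonneg (by linarith [sc.1] : 0 ≤ sin wc)]
    apply mul_le_mul_of_nonneg_left _ (abs_nonneg _)
    exact mul_le_mul (by linarith [sa.2]) (by linarith [sc.2]) (by linarith [sc.1]) (by norm_num)
  have q3 : |cos α ^ 2 * cos (α + (ω + wc) / 2) * S| ≤ 1 * 0.15 * |ω - wc| := by
    rw [abs_mul, abs_mul, abs_of_nonneg (sq_nonneg (cos α))]
    apply mul_le_mul _ hs (abs_nonneg _) (by norm_num)
    apply mul_le_mul _ b3 (abs_nonneg _) (by norm_num)
    exact Real.cos_sq_le_one α
  rw [e4]
  have t1 := abs_sub ((2 * π - α - ω) * sin α * cos ((ω + wc) / 2) * S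
      - (ω - wc) * (sin α * sin wc)) (cos α ^ 2 * cos (α + (ω + wc) / 2) * S)
  have t2 := abs_sub ((2 * π - α - ω) * sin α * cos ((ω + wc) / 2) * S)
    ((ω - wc) * (sin α * sin wc))
  have hd0 := abs_nonneg (ω - wc)
  nlinarith

/-- Existence of the constants of the optimal spiral, with enclosures. -/
theorem exists_constants : ∃ α ω : ℝ, (0.2093562673813 ≤ α ∧ α ≤ 0.2093562673833) ∧
    (1.2149466769676 ≤ ω ∧ ω ≤ 1.2149466769756) ∧
    (2 * π - α - ω) * tan α = log (cos α / cos ω) ∧
    (2 * π - α - ω) * (sin α * sin ω) = cos α ^ 2 * sin (α + ω) ∧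
    (0.2078302662956544 ≤ sin α ∧ sin α ≤ 0.20783026629761079) ∧
    (0.97816490450775435 ≤ cos α ∧ cos α ≤ 0.97816490450817002) ∧
    (0.34838691084614861 ≤ cos ω ∧ cos ω ≤ 0.3483869108536475) ∧
    (0.9373508203153463 ≤ sin ω ∧ sin ω ≤ 0.93735082031813348) := by
  classical
  have p := pi_bounds
  have hle : am ≤ ap := by unfold am ap; norm_num
  have hwle : wm ≤ wp := by unfold wm wp; norm_num
  have hwm : wm ∈ Icc wm wp := left_mem_Icc.2 hwle
  have hwp : wp ∈ Icc wm wp := right_mem_Icc.2 hwle
  have ham : am ∈ Icc am ap := left_mem_Icc.2 hle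
  have hap : ap ∈ Icc am ap := right_mem_Icc.2 hle
  have hneg : ∀ α ∈ Icc am ap, fE α wm < 0 := fun α hα =>
    (f_anti wm hwm am α ham hα hα.1).trans_lt f_neg
  have hpos : ∀ α ∈ Icc am ap, 0 < fE α wp := fun α hα =>
    f_pos.trans_le (f_anti wp hwp α ap hα hap hα.2)
  have hcontw : ∀ α ∈ Icc am ap, ContinuousOn (fun ω => fE α ω) (Icc wm wp) := by
    intro α _
    unfold fE
    apply ContinuousOn.sub
    · apply ContinuousOn.sub continuousOn_const
      apply ContinuousOn.log Real.continuous_cos.continuousOn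
      intro ω hω
      linarith [(cos_bounds_omega ω hω).1]
    · fun_prop
  have hex : ∀ α ∈ Icc am ap, ∃ ω ∈ Icc wm wp, fE α ω = 0 := by
    intro α hα
    have := intermediate_value_Icc hwle (hcontw α hα)
    obtain ⟨ω, hω, h⟩ := this ⟨(hneg α hα).le, (hpos α hα).le⟩
    exact ⟨ω, hω, h⟩
  choose! W hW hWf using hex
  have hconta : ∀ ω ∈ Icc wm wp, ContinuousOn (fun α => fE α ω) (Icc am ap) := by
    intro ω _
    unfold fE
    apply ContinuousOn.sub
    · apply ContinuousOn.sub _ continuousOn_const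
      apply ContinuousOn.log Real.continuous_cos.continuousOn
      intro α hα
      linarith [(cos_bounds_alpha α hα).1]
    · apply ContinuousOn.mul (by fun_prop)
      apply Real.continuousOn_tan.mono
      intro α hα
      simp only [mem_ofPred_eq]
      linarith [(cos_bounds_alpha α hα).1]
  have hWc : ContinuousOn W (Icc am ap) := by
    intro a1 ha1
    apply tendsto_order.2
    constructor
    · intro a ha
      by_cases h : a < wm
      · filter_upwards [self_mem_nhdsWithin] with x hx
        exact h.trans_le (hW x hx).1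
      · push Not at h
        have ha' : a ∈ Icc wm wp := ⟨h, ha.le.trans (hW a1 ha1).2⟩
        have h1 : fE a1 a < 0 := by
          rw [← hWf a1 ha1]
          exact f_strictMono a1 ha1 _ _ ha' (hW a1 ha1) ha
        have h2 := (hconta a ha' a1 ha1).eventually (gt_mem_nhds h1)
        filter_upwards [h2, self_mem_nhdsWithin] with x hx1 hx2
        by_contra hcon
        push Not at hcon
        have h3 : fE x (W x) ≤ fE x a := by
          rcases hcon.lt_or_eq with h4 | h4
          · exact (f_strictMono x hx2 _ _ (hW x hx2) ha' h4).le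
          · rw [h4]
        rw [hWf x hx2] at h3
        linarith
    · intro a ha
      by_cases h : wp < a
      · filter_upwards [self_mem_nhdsWithin] with x hx
        exact (hW x hx).2.trans_lt h
      · push Not at h
        have ha' : a ∈ Icc wm wp := ⟨(hW a1 ha1).1.trans ha.le, h⟩
        have h1 : 0 < fE a1 a := by
          rw [← hWf a1 ha1]
          exact f_strictMono a1 ha1 _ _ (hW a1 ha1) ha' ha
        have h2 := (hconta a ha' a1 ha1).eventually (lt_mem_nhds h1)
        filter_upwards [h2, self_mem_nhdsWithin] with x hx1 hx2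
        by_contra hcon
        push Not at hcon
        have h3 : fE x a ≤ fE x (W x) := by
          rcases hcon.lt_or_eq with h4 | h4
          · exact (f_strictMono x hx2 _ _ ha' (hW x hx2) h4).le
          · rw [h4]
        rw [hWf x hx2] at h3
        linarith
  have hGc : ContinuousOn (fun α => gE α (W α)) (Icc am ap) := by
    unfold gE
    have hsW : ContinuousOn (fun α => sin (W α)) (Icc am ap) := Real.continuous_sin.comp_continuousOn hWc
    have hs2 : ContinuousOn (fun α => sin (α + W α)) (Icc am ap) :=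
      Real.continuous_sin.comp_continuousOn (continuousOn_id.add hWc)
    apply ContinuousOn.sub
    · apply ContinuousOn.mul
      · exact (continuousOn_const.sub continuousOn_id).sub hWc
      · exact Real.continuous_sin.continuousOn.mul hsW
    · exact (Real.continuous_cos.continuousOn.pow 2).mul hs2
  have hGam : gE am (W am) ≤ 0 := by
    have h1 := abs_lt.1 (g_lipschitz am ham (W am) (hW am ham))
    linarith [g_am, h1.2]
  have hGap : 0 ≤ gE ap (W ap) := by
    have h1 := abs_lt.1 (g_lipschitz ap hap (W ap) (hW ap hap))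
    linarith [g_ap, h1.1]
  obtain ⟨α, hα, hG⟩ := intermediate_value_Icc hle hGc ⟨hGam, hGap⟩
  have hf := hWf α hα
  have hω := hW α hα
  have ca := cos_bounds_alpha α hα
  have cw := cos_bounds_omega (W α) hω
  refine ⟨α, W α, ?_, ?_, ?_, ?_, sin_bounds_alpha α hα, ca, cw, sin_bounds_omega _ hω⟩
  · have h1 := hα.1
    have h2 := hα.2
    unfold am at h1
    unfold ap at h2
    exact ⟨h1, h2⟩
  · have h1 := hω.1
    have h2 := hω.2
    unfold wm at h1
    unfold wp at h2
    exact ⟨h1, h2⟩
  · unfold fE at hf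
    rw [Real.log_div (by linarith [ca.1]) (by linarith [cw.1])]
    linarith
  · simp only [gE] at hG
    linarith

end Pool.Agent.H4.Shore
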