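import Mathlib

/-!
Shoreline search, module (B1): the unit speed exponential spiral reaches every line at distance
`D` from the origin before time `D / (sin α cos ω)`.
-/

open Real

namespace Pool.Agent.H4.Shore

/-- A trajectory of speed at most one in the complex plane, starting at the origin. -/
def IsTraj (g : ℝ → ℂ) : Prop :=
  g 0 = 0 ∧ ∀ s t : ℝ, 0 ≤ s → 0 ≤ t → ‖g s - g t‖ ≤ |s - t|

/-- For every direction and every time `t` the trajectory has been at signed distance at least
`t / ρ` from the origin in that direction up to time `t`. -/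
def Covers (g : ℝ → ℂ) (ρ : ℝ) : Prop :=
  ∀ φ t : ℝ, 0 < t → ∃ s, 0 ≤ s ∧ s ≤ t ∧
    t / ρ ≤ (g s * Complex.exp (((-φ : ℝ) : ℂ) * Complex.I)).re

/-- The exponential spiral with angle parameter `α` (polar equation `R = c e^{(tan α) θ}`),
traversed with unit speed. -/
noncomputable def spiral (α : ℝ) (t : ℝ) : ℂ :=
  ((sin α * t : ℝ) : ℂ) * Complex.exp (((log t / tan α : ℝ) : ℂ) * Complex.I)

lemma spiral_zero (α : ℝ) : spiral α 0 = 0 := by simp [spiral]

lemma spiral_re (α φ t : ℝ) :
    (spiral α t * Complex.exp (((-φ : ℝ) : ℂ) * Complex.I)).re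
      = sin α * t * cos (log t / tan α - φ) := by
  unfold spiral
  rw [mul_assoc, ← Complex.exp_add, ← add_mul, ← Complex.ofReal_add, Complex.re_ofReal_mul,
    Complex.exp_ofReal_mul_I_re]
  ring_nf

lemma norm_spiral (α t : ℝ) : ‖spiral α t‖ = |sin α * t| := by
  unfold spiral
  rw [norm_mul, Complex.norm_exp_ofReal_mul_I, mul_one, Complex.norm_real, Real.norm_eq_abs]

lemma hasDerivAt_spiral (α t : ℝ) (ht : 0 < t) :
    HasDerivAt (spiral α) (((sin α : ℝ) : ℂ) * Complex.exp (((log t / tan α : ℝ) : ℂ) * Complex.I)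
      * (1 + ((1 / tan α : ℝ) : ℂ) * Complex.I)) t := by
  have h1 : HasDerivAt (fun t : ℝ => ((sin α * t : ℝ) : ℂ)) ((sin α : ℝ) : ℂ) t := by
    have : HasDerivAt (fun t : ℝ => (sin α * t : ℝ)) (sin α * 1) t :=
      (hasDerivAt_id t).const_mul _
    simpa using this.ofReal_comp
  have h2 : HasDerivAt (fun t : ℝ => (((log t / tan α : ℝ) : ℂ) * Complex.I))
      (((t⁻¹ / tan α : ℝ) : ℂ) * Complex.I) t := by
    have : HasDerivAt (fun t : ℝ => (log t / tan α : ℝ)) (t⁻¹ / tan α) t :=
      (Real.hasDerivAt_log ht.ne').div_const _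
    exact this.ofReal_comp.mul_const _
  have h3 := h1.mul h2.cexp
  refine HasDerivAt.congr_deriv (f' := _) h3 ?_
  have ht' : (t : ℂ) ≠ 0 := by exact_mod_cast ht.ne'
  have h4 : (((t⁻¹ / tan α : ℝ)) : ℂ) = (t : ℂ)⁻¹ * ((1 / tan α : ℝ) : ℂ) := by
    push_cast
    ring
  rw [h4, Complex.ofReal_mul]
  generalize ((1 / tan α : ℝ) : ℂ) = c
  generalize Complex.exp _ = e
  have h5 : (t : ℂ) * (t : ℂ)⁻¹ = 1 := mul_inv_cancel₀ ht'
  linear_combination (((sin α : ℝ) : ℂ) * e * c * Complex.I) * h5

lemma norm_deriv_spiral (α t : ℝ) (h0 : 0 < α) (h1 : α < π / 2) :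
    ‖((sin α : ℝ) : ℂ) * Complex.exp (((log t / tan α : ℝ) : ℂ) * Complex.I)
      * (1 + ((1 / tan α : ℝ) : ℂ) * Complex.I)‖ = 1 := by
  have hs : 0 < sin α := sin_pos_of_pos_of_lt_pi h0 (by linarith)
  have hc : 0 < cos α := cos_pos_of_mem_Ioo ⟨by linarith, h1⟩
  rw [norm_mul, norm_mul, Complex.norm_exp_ofReal_mul_I, mul_one, Complex.norm_real,
    Real.norm_eq_abs, abs_of_pos hs]
  have h2 : ‖(1 + ((1 / tan α : ℝ) : ℂ) * Complex.I)‖ = 1 / sin α := by
    have h3 : ‖(1 + ((1 / tan α : ℝ) : ℂ) * Complex.I)‖ ^ 2 = (1 / sin α) ^ 2 := by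
      rw [← Complex.normSq_eq_norm_sq, Complex.normSq_apply]
      simp only [Complex.add_re, Complex.one_re, Complex.mul_re, Complex.ofReal_re, Complex.I_re,
        mul_zero, Complex.ofReal_im, Complex.I_im, mul_one, sub_zero, add_zero, Complex.add_im,
        Complex.one_im, Complex.mul_im, zero_add]
      rw [tan_eq_sin_div_cos]
      field_simp
      nlinarith [sin_sq_add_cos_sq α]
    have h4 : 0 ≤ 1 / sin α := by positivity
    exact (pow_left_inj₀ (norm_nonneg _) h4 two_ne_zero).1 h3
  rw [h2]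
  field_simp

/-- The spiral is a trajectory of speed (at most) one. -/
lemma isTraj_spiral (α : ℝ) (h0 : 0 < α) (h1 : α < π / 2) : IsTraj (spiral α) := by
  refine ⟨spiral_zero α, ?_⟩
  have hs : 0 < sin α := sin_pos_of_pos_of_lt_pi h0 (by linarith)
  have key : ∀ s t : ℝ, 0 ≤ s → s ≤ t → ‖spiral α s - spiral α t‖ ≤ |s - t| := by
    intro s t hs0 hst
    rcases hs0.eq_or_lt with h | h
    · rw [← h, spiral_zero, zero_sub, norm_neg, norm_spiral, zero_sub, abs_neg, abs_mul]
      have : |sin α| ≤ 1 := abs_sin_le_one α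
      have := abs_nonneg t
      nlinarith
    · have h5 : ∀ x ∈ Set.Ioi (0 : ℝ), HasDerivWithinAt (spiral α)
          (((sin α : ℝ) : ℂ) * Complex.exp (((log x / tan α : ℝ) : ℂ) * Complex.I)
          * (1 + ((1 / tan α : ℝ) : ℂ) * Complex.I)) (Set.Ioi 0) x :=
        fun x hx => (hasDerivAt_spiral α x hx).hasDerivWithinAt
      have h6 := (convex_Ioi (0 : ℝ)).norm_image_sub_le_of_norm_hasDerivWithin_le h5
        (fun x _ => (norm_deriv_spiral α x h0 h1).le) (Set.mem_Ioi.2 (h.trans_le hst))
        (Set.mem_Ioi.2 h)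
      simpa using h6
  intro s t hs0 ht0
  rcases le_total s t with h | h
  · exact key s t hs0 h
  · rw [norm_sub_rev, abs_sub_comm]
    exact key t s ht0 h

/-- The covering property of the spiral. -/
theorem covers_spiral (α ω : ℝ) (h0 : 0 < α) (h1 : α < ω) (h2 : ω < π / 2)
    (hE : (2 * π - α - ω) * tan α ≤ log (cos α / cos ω)) :
    Covers (spiral α) (1 / (sin α * cos ω)) := by
  have hs : 0 < sin α := sin_pos_of_pos_of_lt_pi h0 (by linarith)
  have hca : 0 < cos α := cos_pos_of_mem_Ioo ⟨by linarith, by linarith⟩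
  have hcw : 0 < cos ω := cos_pos_of_mem_Ioo ⟨by linarith, by linarith⟩
  have htan : 0 < tan α := tan_pos_of_pos_of_lt_pi_div_two h0 (by linarith)
  intro φ t ht
  set w := log t / tan α - φ with hw
  rw [div_div_eq_mul_div, div_one]
  by_cases hc : cos ω ≤ cos w
  · refine ⟨t, ht.le, le_rfl, ?_⟩
    rw [spiral_re]
    have : t * (sin α * cos ω) ≤ t * (sin α * cos w) := by gcongr
    linarith
  · push Not at hc
    set k : ℤ := ⌊(w - α) / (2 * π)⌋ with hk
    have hpi := Real.pi_pos
    have hk1 : (k : ℝ) * (2 * π) ≤ w - α := by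
      have := Int.floor_le ((w - α) / (2 * π))
      rwa [← hk, le_div_iff₀ (by positivity)] at this
    have hk2 : w - α < ((k : ℝ) + 1) * (2 * π) := by
      have := Int.lt_floor_add_one ((w - α) / (2 * π))
      rwa [← hk, div_lt_iff₀ (by positivity)] at this
    set w' : ℝ := α + k * (2 * π) with hw'
    have hle : w - w' ≤ 2 * π - α - ω := by
      by_contra hcon
      push Not at hcon
      apply absurd hc
      push Not
      have h5 : cos w = cos (w - (k + 1 : ℤ) * (2 * π)) := (cos_sub_int_mul_two_pi w (k + 1)).symm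
      rw [h5]
      rw [← Real.cos_abs (w - (k + 1 : ℤ) * (2 * π))]
      apply Real.cos_le_cos_of_nonneg_of_le_pi (abs_nonneg _) (by linarith)
      rw [abs_le]
      push_cast
      constructor
      · nlinarith
      · nlinarith
    have hge : 0 ≤ w - w' := by rw [hw']; linarith
    refine ⟨t * exp (-(tan α * (w - w'))), by positivity, ?_, ?_⟩
    · have : exp (-(tan α * (w - w'))) ≤ 1 := by
        rw [Real.exp_le_one_iff]
        have := mul_nonneg htan.le hge
        linarith
      nlinarith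
    · rw [spiral_re, Real.log_mul ht.ne' (Real.exp_pos _).ne', Real.log_exp]
      have h6 : (log t + -(tan α * (w - w'))) / tan α - φ = w' := by
        rw [hw]
        field_simp
        ring
      rw [h6, hw', cos_add_int_mul_two_pi]
      have h7 : cos ω ≤ cos α * exp (-(tan α * (w - w'))) := by
        have h8 : tan α * (w - w') ≤ log (cos α / cos ω) := by
          refine le_trans ?_ hE
          rw [mul_comm]
          gcongr
        have h9 : exp (tan α * (w - w')) ≤ cos α / cos ω := by
          have := Real.exp_le_exp.2 h8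
          rwa [Real.exp_log (by positivity)] at this
        rw [Real.exp_neg]
        rw [le_div_iff₀ hcw] at h9
        rw [← div_eq_mul_inv, le_div_iff₀ (Real.exp_pos _)]
        linarith
      calc t * (sin α * cos ω) ≤ t * (sin α * (cos α * exp (-(tan α * (w - w'))))) := by gcongr
        _ = sin α * (t * exp (-(tan α * (w - w')))) * cos α := by ring

end Pool.Agent.H4.Shore
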