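import Mathlib
import Pool.Agent.H4.Shore.Spiral

/-!
Shoreline search, module (B2): the model (trajectories in the Euclidean plane, lines, hitting
times, competitive ratio) and its translation to the covering property.
-/

open Real Set
open scoped ENNReal NNReal

namespace Pool.Agent.H4.Shore

/-- The Euclidean plane. -/
abbrev Plane := EuclideanSpace ℝ (Fin 2)

/-- A trajectory of the searcher: a map `γ : [0,∞) → ℝ²` with `γ 0 = 0` and
`|γ s - γ t| ≤ |s - t|`. -/
def IsTrajectory (γ : ℝ≥0 → Plane) : Prop := γ 0 = 0 ∧ LipschitzWith 1 γ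

/-- A possible shore: a straight line not passing through the origin. -/
def IsShore (L : AffineSubspace ℝ Plane) : Prop :=
  Module.finrank ℝ L.direction = 1 ∧ (0 : Plane) ∉ L

/-- The hitting time `inf {t ≥ 0 : γ t ∈ L}` (infinite if `L` is never hit). -/
noncomputable def hitTime (γ : ℝ≥0 → Plane) (L : AffineSubspace ℝ Plane) : ℝ≥0∞ :=
  ⨅ (t : ℝ≥0) (_ : γ t ∈ L), (t : ℝ≥0∞)

/-- The competitive ratio: supremum over all shores of hitting time divided by the distance of the
shore from the origin. -/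
noncomputable def ratio (γ : ℝ≥0 → Plane) : ℝ≥0∞ :=
  ⨆ (L : AffineSubspace ℝ Plane) (_ : IsShore L),
    hitTime γ L / ENNReal.ofReal (Metric.infDist 0 (L : Set Plane))

/-- The minimax competitive ratio. -/
noncomputable def minimaxRatio : ℝ≥0∞ := ⨅ (γ : ℝ≥0 → Plane) (_ : IsTrajectory γ), ratio γ

/-- The exponential spiral `R = c e^{bθ}` about the origin with `c = b / √(1 + b²)`, traversed
outward with unit speed: at time `t > 0` its polar angle is `log t / b`. -/
noncomputable def expSpiral (b : ℝ) (t : ℝ≥0) : Plane :=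
  !₂[b / √(1 + b ^ 2) * t * cos (log t / b), b / √(1 + b ^ 2) * t * sin (log t / b)]

/-- Identification of the plane with the complex numbers. -/
noncomputable def toC (v : Plane) : ℂ := ⟨v 0, v 1⟩

/-- Inverse identification. -/
noncomputable def ofC (z : ℂ) : Plane := !₂[z.re, z.im]

lemma toC_ofC (z : ℂ) : toC (ofC z) = z := by
  apply Complex.ext <;> simp [toC, ofC]

lemma ofC_toC (v : Plane) : ofC (toC v) = v := by
  ext i
  fin_cases i <;> simp [toC, ofC]

lemma toC_sub (v w : Plane) : toC (v - w) = toC v - toC w := by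
  apply Complex.ext <;> simp [toC]

lemma toC_zero : toC 0 = 0 := by
  apply Complex.ext <;> simp [toC]

lemma norm_toC (v : Plane) : ‖toC v‖ = ‖v‖ := by
  rw [EuclideanSpace.norm_eq, Complex.norm_eq_sqrt_sq_add_sq]
  simp [toC, Fin.sum_univ_two]

lemma continuous_toC : Continuous toC := by
  have : Isometry toC := by
    apply Isometry.of_dist_eq
    intro v w
    rw [dist_eq_norm, dist_eq_norm, ← toC_sub, norm_toC]
  exact this.continuous

/-- The signed coordinate in direction `φ`. -/
noncomputable def coord (φ : ℝ) (z : ℂ) : ℝ :=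
  (z * Complex.exp (((-φ : ℝ) : ℂ) * Complex.I)).re

lemma coord_eq (φ : ℝ) (z : ℂ) : coord φ z = z.re * cos φ + z.im * sin φ := by
  unfold coord
  rw [Complex.mul_re, Complex.exp_ofReal_mul_I_re, Complex.exp_ofReal_mul_I_im, cos_neg, sin_neg]
  ring

lemma continuous_coord (φ : ℝ) : Continuous (coord φ) := by
  have : coord φ = fun z => z.re * cos φ + z.im * sin φ := by
    ext z
    exact coord_eq φ z
  rw [this]
  fun_prop

/-- The line `{v : ⟨v, n_φ⟩ = d}`. -/
noncomputable def lineAt (φ d : ℝ) : AffineSubspace ℝ Plane :=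
  AffineSubspace.mk' (ofC ⟨d * cos φ, d * sin φ⟩) (Submodule.span ℝ {ofC ⟨-sin φ, cos φ⟩})

lemma mem_span_iff (φ : ℝ) (v : Plane) :
    v ∈ Submodule.span ℝ {ofC ⟨-sin φ, cos φ⟩} ↔ coord φ (toC v) = 0 := by
  rw [Submodule.mem_span_singleton, coord_eq]
  have hsc := sin_sq_add_cos_sq φ
  constructor
  · rintro ⟨a, rfl⟩
    simp [toC, ofC]
    ring
  · intro h
    simp only [toC] at h
    refine ⟨-(v 0) * sin φ + v 1 * cos φ, ?_⟩
    ext i
    fin_cases i
    · simp [ofC]
      linear_combination (-(cos φ)) * h + (v 0) * hsc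
    · simp [ofC]
      linear_combination (-(sin φ)) * h + (v 1) * hsc

lemma mem_lineAt (φ d : ℝ) (v : Plane) : v ∈ lineAt φ d ↔ coord φ (toC v) = d := by
  unfold lineAt
  rw [AffineSubspace.mem_mk', vsub_eq_sub, mem_span_iff, toC_sub, toC_ofC, coord_eq, coord_eq]
  simp only [Complex.sub_re, Complex.sub_im]
  have hsc := sin_sq_add_cos_sq φ
  constructor
  · intro h
    linear_combination h + d * hsc
  · intro h
    linear_combination h - d * hsc

lemma abs_coord_le (φ : ℝ) (z : ℂ) : |coord φ z| ≤ ‖z‖ := by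
  unfold coord
  refine (Complex.abs_re_le_norm _).trans ?_
  rw [norm_mul, Complex.norm_exp_ofReal_mul_I, mul_one]

lemma infDist_lineAt (φ d : ℝ) (hd : 0 < d) :
    Metric.infDist 0 (lineAt φ d : Set Plane) = d := by
  have hmem : ofC ⟨d * cos φ, d * sin φ⟩ ∈ lineAt φ d := AffineSubspace.self_mem_mk' _ _
  apply le_antisymm
  · refine (Metric.infDist_le_dist_of_mem (SetLike.mem_coe.2 hmem)).trans ?_
    rw [dist_zero_left, ← norm_toC, toC_ofC, Complex.norm_eq_sqrt_sq_add_sq]
    have : (d * cos φ) ^ 2 + (d * sin φ) ^ 2 = d ^ 2 := by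
      linear_combination d ^ 2 * sin_sq_add_cos_sq φ
    simp only [this]
    rw [Real.sqrt_sq hd.le]
  · rw [Metric.le_infDist ⟨_, SetLike.mem_coe.2 hmem⟩]
    intro v hv
    rw [SetLike.mem_coe, mem_lineAt] at hv
    rw [dist_zero_left, ← norm_toC, ← hv]
    exact (le_abs_self _).trans (abs_coord_le _ _)

lemma isShore_lineAt (φ d : ℝ) (hd : 0 < d) : IsShore (lineAt φ d) := by
  constructor
  · unfold lineAt
    rw [AffineSubspace.direction_mk', finrank_span_singleton]
    intro h
    have h2 := congrArg toC h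
    rw [toC_ofC, toC_zero] at h2
    have h3 := congrArg Complex.re h2
    have h4 := congrArg Complex.im h2
    simp only [Complex.zero_re, Complex.zero_im] at h3 h4
    have := sin_sq_add_cos_sq φ
    rw [h4] at this
    have h5 : sin φ = 0 := by linarith
    rw [h5] at this
    norm_num at this
  · rw [mem_lineAt, toC_zero, coord_eq]
    simp
    exact hd.ne

/-- Every shore is one of the lines `lineAt φ d` with `d > 0`. -/
lemma exists_lineAt (L : AffineSubspace ℝ Plane) (hL : IsShore L) :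
    ∃ φ d : ℝ, 0 < d ∧ L = lineAt φ d := by
  obtain ⟨hdim, h0⟩ := hL
  obtain ⟨u, hu, hspan⟩ := finrank_eq_one_iff'.1 hdim
  have hne : (L : Set Plane).Nonempty := by
    rw [AffineSubspace.nonempty_iff_ne_bot]
    intro hb
    rw [hb, AffineSubspace.direction_bot, finrank_bot] at hdim
    exact zero_ne_one hdim
  obtain ⟨q, hq⟩ := hne
  -- polar form of the rotated direction vector
  have hdir : L.direction = Submodule.span ℝ {(u : Plane)} := by
    apply le_antisymm
    · intro v hv
      obtain ⟨c, hc⟩ := hspan ⟨v, hv⟩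
      rw [Submodule.mem_span_singleton]
      exact ⟨c, by simpa using congrArg Subtype.val hc⟩
    · rw [Submodule.span_singleton_le_iff_mem]
      exact u.2
  have hu0 : toC (u : Plane) ≠ 0 := by
    intro h
    apply hu
    have h1 : ‖(u : Plane)‖ = 0 := by rw [← norm_toC, h, norm_zero]
    exact Subtype.ext (norm_eq_zero.1 h1)
  set r := ‖toC (u : Plane)‖ with hr
  have hr0 : 0 < r := norm_pos_iff.2 hu0
  -- choose an angle with direction vector `r (- sin φ, cos φ)`
  obtain ⟨φ, hφ⟩ : ∃ φ : ℝ, toC (u : Plane) = (r : ℂ) * ⟨-sin φ, cos φ⟩ := by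
    refine ⟨Complex.arg (toC (u : Plane)) - π / 2, ?_⟩
    have h1 := Complex.norm_mul_exp_arg_mul_I (toC (u : Plane))
    have h2 : Complex.exp (((toC (u : Plane)).arg : ℂ) * Complex.I) =
        ⟨-sin ((toC (u : Plane)).arg - π / 2), cos ((toC (u : Plane)).arg - π / 2)⟩ := by
      apply Complex.ext
      · rw [Complex.exp_ofReal_mul_I_re]
        simp [sin_sub]
      · rw [Complex.exp_ofReal_mul_I_im]
        simp [cos_sub]
    rw [← h2]
    exact h1.symm
  have hspan2 : ∀ v : Plane, v ∈ L.direction ↔ coord φ (toC v) = 0 := by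
    intro v
    rw [hdir, ← mem_span_iff]
    have h2 : (u : Plane) = r • ofC ⟨-sin φ, cos φ⟩ := by
      rw [← ofC_toC (u : Plane), hφ]
      ext i
      fin_cases i <;> simp [ofC]
    have h3 : Submodule.span ℝ {(u : Plane)} = Submodule.span ℝ {ofC ⟨-sin φ, cos φ⟩} := by
      rw [h2]
      exact Submodule.span_singleton_smul_eq (IsUnit.mk0 r hr0.ne') _
    rw [h3]
  have hmem : ∀ v : Plane, v ∈ L ↔ coord φ (toC v) = coord φ (toC q) := by
    intro v
    rw [← AffineSubspace.vsub_right_mem_direction_iff_mem hq, vsub_eq_sub, hspan2, toC_sub,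
      coord_eq, coord_eq, coord_eq]
    simp only [Complex.sub_re, Complex.sub_im]
    constructor
    · intro h
      linear_combination h
    · intro h
      linear_combination h
  have hd : coord φ (toC q) ≠ 0 := by
    intro h
    apply h0
    rw [hmem, h, toC_zero, coord_eq]
    simp
  rcases lt_or_gt_of_ne hd with h | h
  · refine ⟨φ + π, -coord φ (toC q), by linarith, ?_⟩
    ext v
    rw [hmem, mem_lineAt, coord_eq (φ + π), coord_eq φ (toC v), cos_add_pi, sin_add_pi]
    constructor
    · intro h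
      linear_combination -h
    · intro h
      linear_combination -h
  · refine ⟨φ, coord φ (toC q), h, ?_⟩
    ext v
    rw [hmem, mem_lineAt]

/-- The complex trajectory associated with `γ`. -/
noncomputable def gC (γ : ℝ≥0 → Plane) (t : ℝ) : ℂ := toC (γ t.toNNReal)

lemma isTraj_gC (γ : ℝ≥0 → Plane) (h : IsTrajectory γ) : IsTraj (gC γ) := by
  constructor
  · unfold gC
    rw [Real.toNNReal_zero, h.1, toC_zero]
  · intro s t hs ht
    unfold gC
    rw [← toC_sub, norm_toC, ← dist_eq_norm]
    refine (h.2.dist_le_mul _ _).trans ?_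
    rw [NNReal.dist_eq, Real.coe_toNNReal s hs, Real.coe_toNNReal t ht]
    simp

lemma continuous_gC (γ : ℝ≥0 → Plane) (h : IsTrajectory γ) : Continuous (gC γ) :=
  continuous_toC.comp (h.2.continuous.comp continuous_real_toNNReal)

/-- Covering implies the competitive ratio bound. -/
theorem ratio_le_of_covers (γ : ℝ≥0 → Plane) (h : IsTrajectory γ) (ρ : ℝ) (hρ : 0 < ρ)
    (hc : Covers (gC γ) ρ) : ratio γ ≤ ENNReal.ofReal ρ := by
  unfold ratio
  refine iSup₂_le ?_
  intro L hL
  obtain ⟨φ, d, hd, rfl⟩ := exists_lineAt L hL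
  rw [infDist_lineAt φ d hd]
  obtain ⟨s, hs0, hs1, hs2⟩ := hc φ (ρ * d) (by positivity)
  rw [mul_div_cancel_left₀ d hρ.ne'] at hs2
  -- intermediate value theorem
  have hcont : ContinuousOn (fun x : ℝ => coord φ (gC γ x)) (Set.Icc 0 s) :=
    ((continuous_coord φ).comp (continuous_gC γ h)).continuousOn
  have h0 : coord φ (gC γ 0) = 0 := by
    rw [(isTraj_gC γ h).1, coord_eq]
    simp
  have hivt := intermediate_value_Icc hs0 hcont
  obtain ⟨x, hx, hxd⟩ := hivt (show d ∈ Set.Icc (coord φ (gC γ 0)) (coord φ (gC γ s)) from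
    ⟨by rw [h0]; exact hd.le, hs2⟩)
  have hhit : γ x.toNNReal ∈ lineAt φ d := by
    rw [mem_lineAt]
    exact hxd
  have h5 : hitTime γ (lineAt φ d) ≤ ENNReal.ofReal (ρ * d) := by
    unfold hitTime
    refine (iInf₂_le x.toNNReal hhit).trans ?_
    exact ENNReal.ofReal_le_ofReal (hx.2.trans hs1)
  rw [ENNReal.div_le_iff (by simpa using hd) (by simp)]
  rwa [← ENNReal.ofReal_mul hρ.le]

/-- The competitive ratio bound implies covering. -/
theorem covers_of_ratio_le (γ : ℝ≥0 → Plane) (h : IsTrajectory γ) (ρ : ℝ) (hρ : 0 < ρ)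
    (hr : ratio γ ≤ ENNReal.ofReal ρ) : Covers (gC γ) ρ := by
  intro φ t ht
  have hd : 0 < t / ρ := by positivity
  have h1 : hitTime γ (lineAt φ (t / ρ)) / ENNReal.ofReal (t / ρ) ≤ ENNReal.ofReal ρ := by
    refine le_trans ?_ hr
    unfold ratio
    refine le_trans ?_ (le_iSup₂ (f := fun (L : AffineSubspace ℝ Plane) (_ : IsShore L) =>
      hitTime γ L / ENNReal.ofReal (Metric.infDist 0 (L : Set Plane)))
      (lineAt φ (t / ρ)) (isShore_lineAt φ _ hd))
    rw [infDist_lineAt φ _ hd]
  rw [ENNReal.div_le_iff (by simpa using hd) (by simp), ← ENNReal.ofReal_mul hρ.le,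
    mul_div_cancel₀ t hρ.ne'] at h1
  -- the set of hitting times is closed
  have hcl : IsClosed {s : ℝ | 0 ≤ s ∧ coord φ (gC γ s) = t / ρ} := by
    apply IsClosed.inter isClosed_Ici
    exact isClosed_eq ((continuous_coord φ).comp (continuous_gC γ h)) continuous_const
  have hex : ∀ ε : ℝ, 0 < ε → ∃ s ∈ {s : ℝ | 0 ≤ s ∧ coord φ (gC γ s) = t / ρ}, s < t + ε := by
    intro ε hε
    have h2 : hitTime γ (lineAt φ (t / ρ)) < ENNReal.ofReal (t + ε) := by
      refine h1.trans_lt ?_
      rw [ENNReal.ofReal_lt_ofReal_iff (by linarith)]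
      linarith
    unfold hitTime at h2
    simp only [iInf_lt_iff] at h2
    obtain ⟨x, hx, hx2⟩ := h2
    refine ⟨x, ⟨x.2, ?_⟩, ?_⟩
    · have := (mem_lineAt φ (t / ρ) (γ x)).1 hx
      unfold gC
      rwa [Real.toNNReal_coe]
    · rw [← ENNReal.ofReal_coe_nnreal, ENNReal.ofReal_lt_ofReal_iff (by linarith)] at hx2
      exact hx2
  set S := {s : ℝ | 0 ≤ s ∧ coord φ (gC γ s) = t / ρ} with hS
  have hne : S.Nonempty := by
    obtain ⟨s, hs, -⟩ := hex 1 one_pos
    exact ⟨s, hs⟩
  have hbdd : BddBelow S := ⟨0, fun s hs => hs.1⟩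
  have hmem := hcl.csInf_mem hne hbdd
  refine ⟨sInf S, hmem.1, ?_, ?_⟩
  · apply le_of_forall_pos_lt_add
    intro ε hε
    obtain ⟨s, hs, hs2⟩ := hex ε hε
    exact (csInf_le hbdd hs).trans_lt hs2
  · exact hmem.2.ge

/-- The exponential spiral in the plane corresponds to the complex spiral. -/
lemma gC_expSpiral (α : ℝ) (h0 : 0 < α) (h1 : α < π / 2) (t : ℝ) (ht : 0 ≤ t) :
    gC (expSpiral (tan α)) t = spiral α t := by
  have hc : 0 < cos α := cos_pos_of_mem_Ioo ⟨by linarith, h1⟩
  have hs : 0 < sin α := sin_pos_of_pos_of_lt_pi h0 (by linarith)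
  have h2 : tan α / √(1 + tan α ^ 2) = sin α := by
    have h3 : 1 + tan α ^ 2 = (1 / cos α) ^ 2 := by
      rw [tan_eq_sin_div_cos]
      field_simp
      linear_combination sin_sq_add_cos_sq α
    rw [h3, Real.sqrt_sq (by positivity), tan_eq_sin_div_cos]
    field_simp
  unfold gC expSpiral spiral toC
  rw [h2, Real.coe_toNNReal t ht]
  apply Complex.ext
  · rw [Complex.re_ofReal_mul, Complex.exp_ofReal_mul_I_re]
    simp
  · rw [Complex.im_ofReal_mul, Complex.exp_ofReal_mul_I_im]
    simp

lemma isTrajectory_of_isTraj (γ : ℝ≥0 → Plane) (h : IsTraj (gC γ)) : IsTrajectory γ := by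
  constructor
  · have := h.1
    unfold gC at this
    rw [Real.toNNReal_zero] at this
    rw [← ofC_toC (γ 0), this]
    ext i
    fin_cases i <;> simp [ofC]
  · apply LipschitzWith.of_dist_le_mul
    intro s t
    have := h.2 s t s.2 t.2
    unfold gC at this
    rw [Real.toNNReal_coe, Real.toNNReal_coe, ← toC_sub, norm_toC] at this
    rw [dist_eq_norm, NNReal.dist_eq]
    simpa using this

lemma isTrajectory_expSpiral (α : ℝ) (h0 : 0 < α) (h1 : α < π / 2) :
    IsTrajectory (expSpiral (tan α)) := by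
  apply isTrajectory_of_isTraj
  have h := isTraj_spiral α h0 h1
  constructor
  · rw [gC_expSpiral α h0 h1 0 le_rfl]
    exact h.1
  · intro s t hs ht
    rw [gC_expSpiral α h0 h1 s hs, gC_expSpiral α h0 h1 t ht]
    exact h.2 s t hs ht

/-- Assembly: the lower bound theorem for all trajectories plus the spiral equation give the
value of the minimax competitive ratio and its attainment by the spiral. -/
theorem assembly (α ω : ℝ) (h0 : 0 < α) (h1 : α < ω) (h2 : ω < π / 2)
    (hE : (2 * π - α - ω) * tan α = log (cos α / cos ω))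
    (hlow : ∀ g : ℝ → ℂ, IsTraj g → ∀ ρ : ℝ, 1 < ρ → ρ < 1 / (sin α * cos ω) → ¬ Covers g ρ) :
    IsTrajectory (expSpiral (tan α)) ∧
    ratio (expSpiral (tan α)) = ENNReal.ofReal (1 / (sin α * cos ω)) ∧
    minimaxRatio = ENNReal.ofReal (1 / (sin α * cos ω)) := by
  have hs : 0 < sin α := sin_pos_of_pos_of_lt_pi h0 (by linarith)
  have hca : 0 < cos α := cos_pos_of_mem_Ioo ⟨by linarith, by linarith⟩
  have hcw : 0 < cos ω := cos_pos_of_mem_Ioo ⟨by linarith, by linarith⟩
  have hcw1 : cos ω < 1 := by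
    have := Real.cos_lt_cos_of_nonneg_of_le_pi (x := 0) (y := ω) le_rfl (by linarith) (by linarith)
    rwa [cos_zero] at this
  have hs1 : sin α ≤ 1 := sin_le_one α
  set ρ0 := 1 / (sin α * cos ω) with hρ0
  have hρ01 : 1 < ρ0 := by
    rw [hρ0, lt_div_iff₀ (by positivity), one_mul]
    nlinarith
  have htr := isTrajectory_expSpiral α h0 (by linarith)
  have hup : ratio (expSpiral (tan α)) ≤ ENNReal.ofReal ρ0 := by
    apply ratio_le_of_covers _ htr _ (by linarith)
    intro φ t ht
    obtain ⟨s, hs0, hs1, hs2⟩ := covers_spiral α ω h0 h1 h2 hE.le φ t ht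
    refine ⟨s, hs0, hs1, ?_⟩
    rw [gC_expSpiral α h0 (by linarith) s hs0]
    exact hs2
  have hlo : ∀ γ : ℝ≥0 → Plane, IsTrajectory γ → ENNReal.ofReal ρ0 ≤ ratio γ := by
    intro γ hγ
    by_contra hcon
    push Not at hcon
    set ρ := max (ratio γ).toReal ((1 + ρ0) / 2) with hρ
    have hne : ratio γ ≠ ⊤ := ne_top_of_lt hcon
    have h5 : (ratio γ).toReal < ρ0 := by
      rw [ENNReal.lt_ofReal_iff_toReal_lt hne] at hcon
      exact hcon
    have h6 : ρ < ρ0 := max_lt h5 (by linarith)
    have h7 : 1 < ρ := lt_of_lt_of_le (by linarith) (le_max_right _ _)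
    have h8 : ratio γ ≤ ENNReal.ofReal ρ := by
      rw [← ENNReal.ofReal_toReal hne]
      exact ENNReal.ofReal_le_ofReal (le_max_left _ _)
    exact hlow (gC γ) (isTraj_gC γ hγ) ρ h7 h6 (covers_of_ratio_le γ hγ ρ (by linarith) h8)
  refine ⟨htr, le_antisymm hup (hlo _ htr), ?_⟩
  apply le_antisymm
  · unfold minimaxRatio
    exact (iInf₂_le _ htr).trans hup
  · unfold minimaxRatio
    exact le_iInf₂ hlo

end Pool.Agent.H4.Shore
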