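import Mathlib
import Pool.Agent.H4.Shore.Model
import Pool.Agent.H4.Shore.Exists

/-!
Shoreline search: final assembly, given the lower bound for the constants `α`, `ω`.
-/

open Real Set
open scoped ENNReal NNReal

namespace Pool.Agent.H4.Shore

/-- The properties of the constants used by the lower bound. -/
structure Consts (α ω : ℝ) : Prop where
  al : 0.2093562673813 ≤ α
  au : α ≤ 0.2093562673833
  wl : 1.2149466769676 ≤ ω
  wu : ω ≤ 1.2149466769756
  E1 : (2 * π - α - ω) * tan α = log (cos α / cos ω)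
  E2 : (2 * π - α - ω) * (sin α * sin ω) = cos α ^ 2 * sin (α + ω)
  sal : 0.2078302662956544 ≤ sin α
  sau : sin α ≤ 0.20783026629761079
  cal : 0.97816490450775435 ≤ cos α
  cau : cos α ≤ 0.97816490450817002
  cwl : 0.34838691084614861 ≤ cos ω
  cwu : cos ω ≤ 0.3483869108536475
  swl : 0.9373508203153463 ≤ sin ω
  swu : sin ω ≤ 0.93735082031813348

theorem exists_consts : ∃ α ω : ℝ, Consts α ω := by
  obtain ⟨α, ω, h1, h2, h3, h4, h5, h6, h7, h8⟩ := exists_constants
  exact ⟨α, ω, h1.1, h1.2, h2.1, h2.2, h3, h4, h5.1, h5.2, h6.1, h6.2, h7.1, h7.2, h8.1, h8.2⟩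

lemma Consts.rho_bounds {α ω : ℝ} (h : Consts α ω) :
    13.811135178 < 1 / (sin α * cos ω) ∧ 1 / (sin α * cos ω) < 13.811135181 := by
  have h1 := h.sal
  have h2 := h.sau
  have h3 := h.cwl
  have h4 := h.cwu
  have l : 0.2078302662956544 * 0.34838691084614861 ≤ sin α * cos ω :=
    mul_le_mul h1 h3 (by norm_num) (by linarith)
  have u : sin α * cos ω ≤ 0.20783026629761079 * 0.3483869108536475 :=
    mul_le_mul h2 h4 (by linarith) (by norm_num)
  have hp : 0 < sin α * cos ω := by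
    refine lt_of_lt_of_le ?_ l
    norm_num
  constructor
  · rw [lt_div_iff₀ hp]
    nlinarith
  · rw [div_lt_iff₀ hp]
    nlinarith

lemma Consts.tan_bounds {α ω : ℝ} (h : Consts α ω) :
    0.2124695594 < tan α ∧ tan α < 0.2124695595 := by
  have h1 := h.sal
  have h2 := h.sau
  have h3 := h.cal
  have h4 := h.cau
  have hc : 0 < cos α := by linarith
  rw [tan_eq_sin_div_cos]
  constructor
  · rw [lt_div_iff₀ hc]
    nlinarith
  · rw [div_lt_iff₀ hc]
    nlinarith

/-- Final assembly. -/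
theorem final_of_lower
    (hlow : ∀ α ω : ℝ, Consts α ω → ∀ g : ℝ → ℂ, IsTraj g → ∀ ρ : ℝ, 1 < ρ →
      ρ < 1 / (sin α * cos ω) → ¬ Covers g ρ) :
    ∃ α ω : ℝ, 0 < α ∧ α < ω ∧ ω < π / 2 ∧
      (2 * π - α - ω) * tan α = log (cos α / cos ω) ∧
      (2 * π - α - ω) * (sin α * sin ω) = cos α ^ 2 * sin (α + ω) ∧
      0.2124695594 < tan α ∧ tan α < 0.2124695595 ∧
      13.811135178 < 1 / (sin α * cos ω) ∧ 1 / (sin α * cos ω) < 13.811135181 ∧
      IsTrajectory (expSpiral (tan α)) ∧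
      ratio (expSpiral (tan α)) = ENNReal.ofReal (1 / (sin α * cos ω)) ∧
      minimaxRatio = ENNReal.ofReal (1 / (sin α * cos ω)) := by
  obtain ⟨α, ω, h⟩ := exists_consts
  have p := Real.pi_gt_d20
  have h0 : 0 < α := by linarith [h.al]
  have h1 : α < ω := by linarith [h.au, h.wl]
  have h2 : ω < π / 2 := by linarith [h.wu]
  obtain ⟨a1, a2, a3⟩ := assembly α ω h0 h1 h2 h.E1 (hlow α ω h)
  exact ⟨α, ω, h0, h1, h2, h.E1, h.E2, h.tan_bounds.1, h.tan_bounds.2, h.rho_bounds.1,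
    h.rho_bounds.2, a1, a2, a3⟩

end Pool.Agent.H4.Shore
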