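import Mathlib
import Pool.Agent.H4.Shore.Final
import Pool.Agent.H44.Shore.Framework

/-!
Shoreline search: the bridge between the certificate framework and the final statement.
-/

open Real Set
open scoped ENNReal NNReal

namespace Pool.Agent.H4.Shore

lemma IsTraj.toH44 {g : ℝ → ℂ} (h : IsTraj g) : H44.Shore.IsTraj g := ⟨h.1, h.2⟩

lemma Covers.toH44 {g : ℝ → ℂ} {ρ : ℝ} (h : Covers g ρ) : H44.Shore.Covers g ρ := by
  intro a t ht
  obtain ⟨s, hs0, hs1, hs2⟩ := h (-a) t ht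
  refine ⟨s, ⟨hs0, hs1⟩, ?_⟩
  rwa [neg_neg] at hs2

/-- The full answer from a certificate for each admissible pair of constants. -/
theorem final_of_cert
    (hcert : ∀ α ω : ℝ, Consts α ω → ∃ (β N : ℂ → ℝ) (Kr : Set ℝ),
      H44.Shore.Cert (1 / (sin α * cos ω)) β N Kr) :
    ∃ α ω : ℝ, 0 < α ∧ α < ω ∧ ω < π / 2 ∧
      (2 * π - α - ω) * tan α = log (cos α / cos ω) ∧
      (2 * π - α - ω) * (sin α * sin ω) = cos α ^ 2 * sin (α + ω) ∧
      0.2124695594 < tan α ∧ tan α < 0.2124695595 ∧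
      13.811135178 < 1 / (sin α * cos ω) ∧ 1 / (sin α * cos ω) < 13.811135181 ∧
      IsTrajectory (expSpiral (tan α)) ∧
      ratio (expSpiral (tan α)) = ENNReal.ofReal (1 / (sin α * cos ω)) ∧
      minimaxRatio = ENNReal.ofReal (1 / (sin α * cos ω)) := by
  apply final_of_lower
  intro α ω hc g hg ρ h1 h2 hcov
  obtain ⟨β, N, Kr, hC⟩ := hcert α ω hc
  exact H44.Shore.not_covers hC h1 h2 hg.toH44 hcov.toH44

end Pool.Agent.H4.Shore
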