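import Mathlib
import Pool.Agent.H4.Shore.Final

/-!
Shoreline search: the explicit inequality near the tight point of the certificate.
-/

open Real Set

namespace Pool.Agent.H4.Shore

/-- The function `H`: up to the factor `cos χ` the derivative of `J`. -/
noncomputable def cH (α ω χ : ℝ) : ℝ :=
  α - χ - log (cos α / cos ω) * tan α + tan χ * log (cos χ / cos ω)

/-- The value of `r F(r, χ)` at `r = sin α`. -/
noncomputable def cJ (α ω χ : ℝ) : ℝ :=
  sin α * (2 * π - ω - χ) + (sin χ - sin α) * (α - χ - log (cos α / cos ω) * tan α)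
    - cos χ * log (cos χ / cos ω)

lemma cos_pos_of_small {χ : ℝ} (h1 : 0 ≤ χ) (h2 : χ ≤ 1) : 0 < cos χ :=
  cos_pos_of_mem_Ioo ⟨by linarith [Real.pi_gt_three], by linarith [Real.pi_gt_three]⟩

lemma hasDerivAt_logcos {c χ : ℝ} (hc : 0 < c) (h : 0 < cos χ) :
    HasDerivAt (fun x => log (cos x / c)) (-tan χ) χ := by
  have h1 := ((hasDerivAt_cos χ).div_const c).log (by positivity)
  refine h1.congr_deriv ?_
  rw [tan_eq_sin_div_cos]
  field_simp

lemma hasDerivAt_cH {α ω χ : ℝ} (hc : 0 < cos ω) (h : 0 < cos χ) :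
    HasDerivAt (cH α ω) ((log (cos χ / cos ω) - 1) / cos χ ^ 2) χ := by
  have h1 := hasDerivAt_logcos hc h
  have h2 := hasDerivAt_tan h.ne'
  have h3 : HasDerivAt (fun x : ℝ => α - x - log (cos α / cos ω) * tan α) (-1) χ := by
    have := ((hasDerivAt_id χ).const_sub α).sub_const (log (cos α / cos ω) * tan α)
    simpa using this
  refine (h3.add (h2.mul h1)).congr_deriv ?_
  rw [tan_eq_sin_div_cos]
  have := sin_sq_add_cos_sq χ
  field_simp
  linear_combination -this

lemma hasDerivAt_cJ {α ω χ : ℝ} (hc : 0 < cos ω) (h : 0 < cos χ) :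
    HasDerivAt (cJ α ω) (cos χ * cH α ω χ) χ := by
  have h1 := hasDerivAt_logcos hc h
  have h3 : HasDerivAt (fun x : ℝ => α - x - log (cos α / cos ω) * tan α) (-1) χ := by
    have := ((hasDerivAt_id χ).const_sub α).sub_const (log (cos α / cos ω) * tan α)
    simpa using this
  have h4 : HasDerivAt (fun x : ℝ => sin α * (2 * π - ω - x)) (sin α * (-1)) χ := by
    have := ((hasDerivAt_id χ).const_sub (2 * π - ω)).const_mul (sin α)
    simpa using this
  have h5 := ((hasDerivAt_sin χ).sub_const (sin α)).mul h3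
  have h6 := (hasDerivAt_cos χ).mul h1
  refine ((h4.add h5).sub h6).congr_deriv ?_
  rw [cH, tan_eq_sin_div_cos χ]
  field_simp
  ring

lemma Consts.cos_al_pos {α ω : ℝ} (h : Consts α ω) : 0 < cos α := by linarith [h.cal]

lemma Consts.cos_w_pos {α ω : ℝ} (h : Consts α ω) : 0 < cos ω := by linarith [h.cwl]

lemma Consts.T_eq {α ω : ℝ} (h : Consts α ω) :
    log (cos α / cos ω) = (2 * π - α - ω) * tan α := h.E1.symm

lemma Consts.T_bounds {α ω : ℝ} (h : Consts α ω) :
    1.0323645 ≤ log (cos α / cos ω) ∧ log (cos α / cos ω) ≤ 1.0323647 := by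
  rw [h.T_eq]
  have h1 := h.al
  have h2 := h.au
  have h3 := h.wl
  have h4 := h.wu
  have p1 := Real.pi_gt_d20
  have p2 := Real.pi_lt_d20
  have t1 := h.tan_bounds.1
  have t2 := h.tan_bounds.2
  have l1 : 4.85888236 ≤ 2 * π - α - ω := by linarith
  have l2 : 2 * π - α - ω ≤ 4.85888237 := by linarith
  constructor
  · nlinarith
  · nlinarith

/-- Lower bound for `log (cos χ / cos ω)` when `χ ≤ α`. -/
lemma Consts.log_ge_T {α ω χ : ℝ} (h : Consts α ω) (h0 : 0 ≤ χ) (h1 : χ ≤ α) :
    log (cos α / cos ω) ≤ log (cos χ / cos ω) := by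
  have hα := h.au
  have hc := h.cos_w_pos
  have hca := h.cos_al_pos
  have : cos α ≤ cos χ := Real.cos_le_cos_of_nonneg_of_le_pi h0
    (by linarith [Real.pi_gt_three]) h1
  apply Real.log_le_log (by positivity)
  gcongr

lemma Consts.H_alpha {α ω : ℝ} (_h : Consts α ω) : cH α ω α = 0 := by
  unfold cH; ring

lemma Consts.H_left {α ω χ : ℝ} (h : Consts α ω) (h0 : 0 ≤ χ) (h1 : χ ≤ α) :
    0.0323 * (α - χ) ≤ -cH α ω χ := by
  have hα := h.au
  have hc := h.cos_w_pos
  have key := Convex.mul_sub_le_image_sub_of_le_deriv (D := Icc χ α) (convex_Icc χ α)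
    (f := cH α ω) (C := 0.0323) ?_ ?_ ?_ χ (left_mem_Icc.2 h1) α (right_mem_Icc.2 h1) h1
  · rw [h.H_alpha] at key
    linarith
  · intro x hx
    exact (hasDerivAt_cH hc (cos_pos_of_small (h0.trans hx.1)
      (by linarith [hx.2]))).continuousAt.continuousWithinAt
  · intro x hx
    rw [interior_Icc] at hx
    exact (hasDerivAt_cH hc (cos_pos_of_small (h0.trans hx.1.le)
      (by linarith [hx.2]))).differentiableAt.differentiableWithinAt
  · intro x hx
    rw [interior_Icc] at hx
    have hcx := cos_pos_of_small (h0.trans hx.1.le) (by linarith [hx.2] : x ≤ 1)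
    rw [(hasDerivAt_cH hc hcx).deriv, le_div_iff₀ (by positivity)]
    have h5 := h.log_ge_T (h0.trans hx.1.le) hx.2.le
    have h6 := h.T_bounds.1
    have h7 : cos x ^ 2 ≤ 1 := by nlinarith [cos_le_one x]
    nlinarith

lemma cos035 : 0.93937 ≤ cos 0.35 ∧ cos 0.35 ≤ 0.93938 := by
  have h := (trig_bound 0.35 (by rw [abs_of_pos] <;> norm_num)).1
  rw [abs_of_pos (by norm_num : (0:ℝ) < 0.35)] at h
  have h1 := (abs_le.1 h).1
  have h2 := (abs_le.1 h).2
  unfold cosT at h1 h2
  constructor
  · norm_num at h1 ⊢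
    linarith
  · norm_num at h2 ⊢
    linarith

lemma sin035 : 0.34289 ≤ sin 0.35 ∧ sin 0.35 ≤ 0.3429 := by
  have h := (trig_bound 0.35 (by rw [abs_of_pos] <;> norm_num)).2
  rw [abs_of_pos (by norm_num : (0:ℝ) < 0.35)] at h
  have h1 := (abs_le.1 h).1
  have h2 := (abs_le.1 h).2
  unfold sinT at h1 h2
  constructor
  · norm_num at h1 ⊢
    linarith
  · norm_num at h2 ⊢
    linarith

lemma Consts.log035 {α ω : ℝ} (h : Consts α ω) : 0.9917 ≤ log (cos 0.35 / cos ω) := by
  have hc := h.cos_w_pos
  have hca := h.cos_al_pos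
  have hT := h.T_bounds.1
  have e : log (cos 0.35 / cos ω) = log (cos α / cos ω) + log (cos 0.35 / cos α) := by
    have : (0:ℝ) < cos 0.35 := by linarith [cos035.1]
    rw [← Real.log_mul (by positivity) (by positivity)]
    congr 1
    field_simp
  have hr1 : 0.9603 ≤ cos 0.35 / cos α := by
    rw [le_div_iff₀ hca]
    nlinarith [h.cau, cos035.1]
  have hr2 : cos 0.35 / cos α ≤ 0.9604 := by
    rw [div_le_iff₀ hca]
    nlinarith [h.cal, cos035.2]
  have hl : -0.0406 ≤ log (cos 0.35 / cos α) := by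
    have h1 : log 0.9603 ≤ log (cos 0.35 / cos α) := Real.log_le_log (by norm_num) hr1
    have h2 := Real.abs_log_sub_add_sum_range_le (x := 0.0397) (by rw [abs_of_pos] <;> norm_num) 2
    rw [abs_of_pos (by norm_num : (0:ℝ) < 0.0397)] at h2
    have h3 := (abs_le.1 h2).1
    norm_num [Finset.sum_range_succ] at h3
    norm_num at h3 h1 ⊢
    linarith
  rw [e]
  linarith

lemma Consts.H035 {α ω : ℝ} (h : Consts α ω) :
    0.639 * (0.35 - α) ^ 3 ≤ cH α ω 0.35 := by
  have h1 := h.log035
  have h2 := cos035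
  have h3 := sin035
  have ht : 0.365 ≤ tan 0.35 := by
    rw [tan_eq_sin_div_cos, le_div_iff₀ (by linarith)]
    nlinarith
  have hT := h.T_bounds
  have htα := h.tan_bounds
  have hα := h.al
  have hα2 := h.au
  have e1 : log (cos α / cos ω) * tan α ≤ 0.219347 := by
    nlinarith
  have e2 : 0.36197 ≤ tan 0.35 * log (cos 0.35 / cos ω) := by
    nlinarith
  have e3 : (0.35 - α) ^ 3 ≤ 0.140644 ^ 3 := by
    apply pow_le_pow_left₀ (by linarith)
    linarith
  unfold cH
  nlinarith

/-- `H` is bounded below by a cubic on `[α, 0.35]`. -/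
lemma Consts.H_right {α ω χ : ℝ} (h : Consts α ω) (h0 : α ≤ χ) (h1 : χ ≤ 0.35) :
    0.639 * (χ - α) ^ 3 ≤ cH α ω χ := by
  have hα := h.al
  have hα2 := h.au
  have hc := h.cos_w_pos
  have hca := h.cos_al_pos
  have hT := h.T_bounds
  set S : ℝ → ℝ := fun x => cH α ω x - 0.639 * (x - α) ^ 3 with hS
  have hcos : ∀ x ∈ Icc α 0.35, 0 < cos x := fun x hx =>
    cos_pos_of_small (by linarith [hx.1]) (by linarith [hx.2])
  have hconc : ConcaveOn ℝ (Icc α 0.35) S := by
    apply concaveOn_of_hasDerivWithinAt2_nonpos (convex_Icc _ _)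
      (f' := fun x => (log (cos x / cos ω) - 1) / cos x ^ 2 - 0.639 * (3 * (x - α) ^ 2))
      (f'' := fun x => sin x * (2 * (log (cos x / cos ω) - 1) - 1) / cos x ^ 3
        - 0.639 * (3 * (2 * (x - α))))
    · intro x hx
      apply ContinuousAt.continuousWithinAt
      have h2 := (hasDerivAt_cH (α := α) hc (hcos x hx)).continuousAt
      apply ContinuousAt.sub h2
      fun_prop
    · intro x hx
      rw [interior_Icc] at hx ⊢
      apply HasDerivAt.hasDerivWithinAt
      have h2 := (hasDerivAt_cH (α := α) hc (hcos x ⟨hx.1.le, hx.2.le⟩))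
      have h3 : HasDerivAt (fun x : ℝ => 0.639 * (x - α) ^ 3) (0.639 * (3 * (x - α) ^ 2)) x := by
        have := (((hasDerivAt_id x).sub_const α).pow 3).const_mul 0.639
        simpa using this
      exact h2.sub h3
    · intro x hx
      rw [interior_Icc] at hx ⊢
      apply HasDerivAt.hasDerivWithinAt
      have hcx := hcos x ⟨hx.1.le, hx.2.le⟩
      have h2 := (hasDerivAt_logcos hc hcx).sub_const 1
      have h4 := (hasDerivAt_cos x).pow 2
      have h5 := h2.div h4 (pow_ne_zero 2 hcx.ne')
      have h3 : HasDerivAt (fun x : ℝ => 0.639 * (3 * (x - α) ^ 2))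
          (0.639 * (3 * (2 * (x - α)))) x := by
        have := ((((hasDerivAt_id x).sub_const α).pow 2).const_mul 3).const_mul 0.639
        simpa using this
      refine (h5.sub h3).congr_deriv ?_
      congr 1
      rw [tan_eq_sin_div_cos]
      simp only [Pi.pow_apply]
      field_simp
      ring
    · intro x hx
      rw [interior_Icc] at hx
      have hcx := hcos x ⟨hx.1.le, hx.2.le⟩
      have hsx : 0 ≤ sin x := sin_nonneg_of_nonneg_of_le_pi (by linarith [hx.1])
        (by linarith [hx.2, Real.pi_gt_three])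
      have hlog : log (cos x / cos ω) ≤ log (cos α / cos ω) := by
        have : cos x ≤ cos α := Real.cos_le_cos_of_nonneg_of_le_pi (by linarith)
          (by linarith [hx.2, Real.pi_gt_three]) hx.1.le
        apply Real.log_le_log (by positivity)
        gcongr
      have h6 : sin x * (2 * (log (cos x / cos ω) - 1) - 1) / cos x ^ 3 ≤ 0 := by
        apply div_nonpos_of_nonpos_of_nonneg _ (by positivity)
        apply mul_nonpos_of_nonneg_of_nonpos hsx
        linarith
      have h7 : 0 ≤ x - α := by linarith [hx.1]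
      linarith
  have hab : α ≤ (0.35 : ℝ) := by linarith
  have hmin := hconc.min_le_of_mem_Icc (left_mem_Icc.2 hab) (right_mem_Icc.2 hab) ⟨h0, h1⟩
  have hSα : S α = 0 := by simp [hS, h.H_alpha]
  have hS35 : 0 ≤ S 0.35 := by
    have := h.H035
    simp only [hS]
    linarith
  rw [hSα, min_eq_left hS35] at hmin
  simp only [hS] at hmin
  linarith

/-- The one variable inequality. -/
theorem Consts.J_ge {α ω χ : ℝ} (h : Consts α ω) (h0 : 0 ≤ χ) (h1 : χ ≤ 0.35) :
    0.6 * (1 - cos (χ - α)) ^ 2 ≤ cJ α ω χ := by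
  have hα := h.al
  have hα2 := h.au
  have hc := h.cos_w_pos
  have hca := h.cos_al_pos
  have hT := h.T_bounds
  set D : ℝ → ℝ := fun x => cJ α ω x - 0.6 * (1 - cos (x - α)) ^ 2 with hD
  have hderiv : ∀ x ∈ Icc (0:ℝ) 0.35, HasDerivAt D
      (cos x * cH α ω x - 1.2 * ((1 - cos (x - α)) * sin (x - α))) x := by
    intro x hx
    have hcx : 0 < cos x := cos_pos_of_small hx.1 (by linarith [hx.2])
    have h2 := hasDerivAt_cJ (α := α) hc hcx
    have h3 : HasDerivAt (fun x : ℝ => 0.6 * (1 - cos (x - α)) ^ 2)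
        (1.2 * ((1 - cos (x - α)) * sin (x - α))) x := by
      have := (((((hasDerivAt_id x).sub_const α).cos).const_sub 1).pow 2).const_mul 0.6
      refine this.congr_deriv ?_
      simp
      ring
    exact h2.sub h3
  have hDα : D α = 0 := by
    simp only [hD, cJ]
    rw [h.T_eq, tan_eq_sin_div_cos]
    simp
    field_simp
    ring
  have hcont : ContinuousOn D (Icc 0 0.35) := fun x hx =>
    (hderiv x hx).continuousAt.continuousWithinAt
  rcases le_total χ α with hle | hle
  · -- left part: D is antitone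
    have hanti : AntitoneOn D (Icc 0 α) := by
      apply antitoneOn_of_deriv_nonpos (convex_Icc _ _)
      · exact hcont.mono (Icc_subset_Icc le_rfl (by linarith))
      · intro x hx
        rw [interior_Icc] at hx
        exact (hderiv x ⟨hx.1.le, by linarith [hx.2]⟩).differentiableAt.differentiableWithinAt
      · intro x hx
        rw [interior_Icc] at hx
        rw [(hderiv x ⟨hx.1.le, by linarith [hx.2]⟩).deriv]
        have h5 := h.H_left hx.1.le hx.2.le
        have h6 : cos α ≤ cos x := Real.cos_le_cos_of_nonneg_of_le_pi hx.1.le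
          (by linarith [Real.pi_gt_three]) hx.2.le
        have h6' := h.cal
        set e := α - x with he
        have he0 : 0 < e := by rw [he]; linarith [hx.2]
        have he1 : e ≤ 0.2094 := by rw [he]; linarith [hx.1]
        have h7 : cos (x - α) = cos e := by rw [he, ← cos_neg]; congr 1; ring
        have h8 : sin (x - α) = -sin e := by rw [he, ← sin_neg]; congr 1; ring
        rw [h7, h8]
        have h9 : 1 - cos e ≤ e ^ 2 / 2 := by linarith [Real.one_sub_sq_div_two_le_cos (x := e)]
        have h10 : 0 ≤ 1 - cos e := by linarith [cos_le_one e]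
        have h11 : sin e ≤ e := Real.sin_le he0.le
        have h12 : 0 ≤ sin e := sin_nonneg_of_nonneg_of_le_pi he0.le
          (by linarith [Real.pi_gt_three])
        have h13 : (1 - cos e) * sin e ≤ e ^ 2 / 2 * e :=
          mul_le_mul h9 h11 h12 (by positivity)
        have h14 : 0.978 * (0.0323 * e) ≤ cos x * (-cH α ω x) := by
          apply mul_le_mul (by linarith) h5 (by positivity) (by linarith)
        nlinarith [mul_nonneg he0.le (by nlinarith : (0:ℝ) ≤ 0.2094 ^ 2 - e ^ 2)]
    have := hanti ⟨h0, hle⟩ ⟨by linarith, le_rfl⟩ hle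
    rw [hDα] at this
    simp only [hD] at this
    linarith
  · have hmono : MonotoneOn D (Icc α 0.35) := by
      apply monotoneOn_of_deriv_nonneg (convex_Icc _ _)
      · exact hcont.mono (Icc_subset_Icc (by linarith) le_rfl)
      · intro x hx
        rw [interior_Icc] at hx
        exact (hderiv x ⟨by linarith [hx.1], hx.2.le⟩).differentiableAt.differentiableWithinAt
      · intro x hx
        rw [interior_Icc] at hx
        rw [(hderiv x ⟨by linarith [hx.1], hx.2.le⟩).deriv]
        have h5 := h.H_right hx.1.le hx.2.le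
        have h6 : cos 0.35 ≤ cos x := Real.cos_le_cos_of_nonneg_of_le_pi (by linarith [hx.1])
          (by linarith [Real.pi_gt_three]) hx.2.le
        have h6' := cos035.1
        set e := x - α with he
        have he0 : 0 < e := by rw [he]; linarith [hx.1]
        have he1 : e ≤ 0.15 := by rw [he]; linarith [hx.2]
        have h9 : 1 - cos e ≤ e ^ 2 / 2 := by linarith [Real.one_sub_sq_div_two_le_cos (x := e)]
        have h10 : 0 ≤ 1 - cos e := by linarith [cos_le_one e]
        have h11 : sin e ≤ e := Real.sin_le he0.le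
        have h12 : 0 ≤ sin e := sin_nonneg_of_nonneg_of_le_pi he0.le
          (by linarith [Real.pi_gt_three])
        have h13 : (1 - cos e) * sin e ≤ e ^ 2 / 2 * e :=
          mul_le_mul h9 h11 h12 (by positivity)
        have h14 : 0.93937 * (0.639 * e ^ 3) ≤ cos x * cH α ω x := by
          apply mul_le_mul (by linarith) h5 (by positivity) (by linarith)
        have h15 : 0 < e ^ 3 := by positivity
        nlinarith
    have := hmono ⟨le_rfl, by linarith⟩ ⟨hle, h1⟩ hle
    rw [hDα] at this
    simp only [hD] at this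
    linarith

/-- The gauge function `X`. -/
noncomputable def cX (α ω r : ℝ) : ℝ :=
  -(log (cos α / cos ω)) / cos α
    + (log (cos α / cos ω) - 1) / (sin α * cos α) * (r - sin α)

/-- Lower bound for `r * arccos (- sin α cos ω / r)` near `r = sin α` (tangent line). -/
lemma Consts.arccos_ge {α ω r : ℝ} (h : Consts α ω) (hr : |r - sin α| ≤ 0.01) :
    r * (π - ω) - (r - sin α) * (cos ω / sin ω) ≤ r * arccos (-(sin α * cos ω) / r) := by
  have hs1 := h.sal
  have hs2 := h.sau
  have hw1 := h.cwl
  have hw2 := h.cwu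
  have hv1 := h.swl
  have hv2 := h.swu
  have hl := h.wl
  have hu := h.wu
  have p1 := Real.pi_gt_d20
  have p2 := Real.pi_lt_d20
  obtain ⟨hr1, hr2⟩ := abs_le.1 hr
  have hr0 : 0 < r := by linarith
  have hx : sin α * cos ω ≤ 0.07241 := by nlinarith
  have hx0 : 0 < sin α * cos ω := mul_pos (by linarith) (by linarith)
  have hq : sin α * cos ω / r ≤ 0.37 := by
    rw [div_le_iff₀ hr0]
    linarith
  have hq0 : 0 < sin α * cos ω / r := by positivity
  rw [neg_div, arccos_neg]
  set y := arccos (sin α * cos ω / r) with hy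
  have hcy : cos y = sin α * cos ω / r := by
    rw [hy, cos_arccos] <;> linarith
  have hcy2 : r * cos y = sin α * cos ω := by
    rw [hcy]; field_simp
  set t := ω - y with ht
  have hyw : y = ω - t := by rw [ht]; ring
  -- claim: t * sin ω ≥ sin ω sin t - cos ω (1 - cos t)
  have hcos : cos y = cos ω * cos t + sin ω * sin t := by rw [hyw, cos_sub]
  have key : sin ω * sin t - cos ω * (1 - cos t) ≤ t * sin ω := by
    rcases le_total 0 t with h0 | h0
    · have := Real.sin_le h0
      nlinarith [cos_le_one t]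
    · -- t ≤ 0 small
      set e := -t with he
      have he0 : 0 ≤ e := by rw [he]; linarith
      have hye : y = ω + e := by rw [hyw, he]; ring
      have hy2 : y ≤ π / 2 := by
        rw [hy]
        exact arccos_le_pi_div_two.2 hq0.le
      have he2 : e ≤ 0.4 := by linarith
      -- sin (ω+e)... cos y ≥ 0.33
      have hcyl : 0.33 ≤ cos y := by
        rw [hcy, le_div_iff₀ hr0]
        nlinarith
      have hte : cos t = cos e := by rw [he, cos_neg]
      have hse : sin t = -sin e := by rw [he, sin_neg, neg_neg]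
      rw [hte, hse]
      rw [hte, hse] at hcos
      -- from cos y ≥ 0.33: e small
      have he3 : e ≤ 0.1 := by
        by_contra hcon
        push Not at hcon
        have h1 : sin 0.1 ≤ sin e := by
          apply Real.sin_le_sin_of_le_of_le_pi_div_two <;> linarith
        have h2 : 0.0995 ≤ sin 0.1 := by
          have := Real.sin_gt_sub_cube (x := 0.1) (by norm_num)
          norm_num at this ⊢
          linarith
        have h3 := cos_le_one e
        nlinarith
      have h1 : e - sin e ≤ e ^ 3 / 4 := by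
        rcases he0.eq_or_lt with h0 | h0
        · rw [← h0]; simp
        · have := Real.sin_gt_sub_cube h0
          have h4 : 0 < e ^ 3 := by positivity
          linarith
      have h2 : 0.2 * e ^ 2 ≤ 1 - cos e := by
        have h3 := Real.cos_le_one_sub_mul_cos_sq (x := e) (by
          rw [abs_of_nonneg he0]; linarith)
        have h4 : 0.2 ≤ 2 / π ^ 2 := by
          rw [le_div_iff₀ (by positivity)]
          nlinarith
        nlinarith [mul_le_mul_of_nonneg_right h4 (sq_nonneg e)]
      have a1 : sin ω * (e - sin e) ≤ 1 * (e ^ 3 / 4) := by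
        apply mul_le_mul (sin_le_one ω) h1 _ (by norm_num)
        linarith [Real.sin_le he0]
      have a2 : 0.3483 * (0.2 * e ^ 2) ≤ cos ω * (1 - cos e) := by
        apply mul_le_mul (by linarith) h2 (by positivity) (by linarith)
      have a3 : e ^ 3 ≤ 0.1 * e ^ 2 := by
        have : e ^ 3 = e * e ^ 2 := by ring
        rw [this]
        exact mul_le_mul_of_nonneg_right he3 (sq_nonneg e)
      have a4 : t = -e := by rw [he]; ring
      rw [a4]
      have a5 : 0 ≤ e ^ 2 := sq_nonneg e
      linarith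
  have hkey2 := mul_le_mul_of_nonneg_left key hr0.le
  have hsw : 0 < sin ω := by linarith
  have e1 : r * (sin ω * sin t - cos ω * (1 - cos t)) = -(r - sin α) * cos ω := by
    have : r * cos y = r * (cos ω * cos t + sin ω * sin t) := by rw [hcos]
    rw [hcy2] at this
    linear_combination -this
  rw [e1] at hkey2
  have e2 : (r - sin α) * (cos ω / sin ω) = ((r - sin α) * cos ω) / sin ω := by ring
  rw [e2, sub_le_iff_le_add, ← sub_le_iff_le_add', le_div_iff₀ hsw]
  have e3 : π - y = π - ω + t := by rw [hyw]; ring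
  rw [e3]
  linarith

lemma log_one_add_le {u : ℝ} (hu : |u| ≤ 0.0485) : log (1 + u) ≤ u - 0.449 * u ^ 2 := by
  have h := Real.abs_log_sub_add_sum_range_le (x := -u) (by rw [abs_neg]; linarith) 2
  have h1 := (abs_le.1 h).2
  norm_num [Finset.sum_range_succ] at h1
  have h2 : |u| ^ 3 / (1 - |u|) ≤ 0.051 * u ^ 2 := by
    rw [div_le_iff₀ (by linarith)]
    have h3 : |u| ^ 3 = |u| * u ^ 2 := by rw [← sq_abs u]; ring
    rw [h3]
    nlinarith [mul_nonneg (sq_nonneg u) (by linarith : (0:ℝ) ≤ 0.0485 - |u|)]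
  linarith

/-- The linear coefficient identity (uses both equations for the constants). -/
lemma Consts.lin_coeff {α ω : ℝ} (h : Consts α ω) (χ : ℝ) :
    (2 * π - ω - χ) - cos ω / sin ω - (sin χ - sin α) / cos α - (α - χ)
      + log (cos α / cos ω) * tan α - cos χ / sin α
      = (1 - cos (χ - α)) / (sin α * cos α) := by
  have hS : sin α ≠ 0 := by linarith [h.sal] |> ne_of_gt
  have hC : cos α ≠ 0 := h.cos_al_pos.ne'
  have hSo : sin ω ≠ 0 := by linarith [h.swl] |> ne_of_gt
  have hE2 := h.E2
  rw [sin_add] at hE2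
  have e1 : (2 * π - α - ω) / cos α ^ 2 = cos ω / sin ω + cos α / sin α := by
    field_simp
    linear_combination hE2
  rw [h.T_eq, tan_eq_sin_div_cos, cos_sub]
  have hsc := sin_sq_add_cos_sq α
  have e2 : (2 * π - α - ω) * (sin α / cos α) * (sin α / cos α)
      = (2 * π - α - ω) / cos α ^ 2 - (2 * π - α - ω) := by
    field_simp
    linear_combination (2 * π - α - ω) * hsc
  rw [e2, e1]
  field_simp
  linear_combination (sin ω) * hsc

lemma aux_inv_sq {S : ℝ} (h0 : 0 < S) (h2 : S ≤ 0.2078303) : 23.15 ≤ 1 / S ^ 2 := by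
  rw [le_div_iff₀ (by positivity)]
  nlinarith

lemma aux_SC {S C : ℝ} (h1 : 0.2078302 ≤ S) (h2 : 0.9781649 ≤ C) : 0.20328 ≤ S * C := by
  nlinarith

lemma aux_disc {w δ p : ℝ} (h : 0.20328 ≤ p) :
    0 ≤ 0.6 * w ^ 2 + δ * (w / p) + 10.24 * δ ^ 2 := by
  have hp : 0 < p := by linarith
  have a1 : (w / p) ^ 2 ≤ 24.21 * w ^ 2 := by
    rw [div_pow, div_le_iff₀ (by positivity)]
    have : 0.20328 ^ 2 ≤ p ^ 2 := by
      apply pow_le_pow_left₀ (by norm_num) h
    nlinarith [sq_nonneg w]
  nlinarith [sq_nonneg (w / p + 20.48 * δ)]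

/-- Quadratic lower bound near the tight point. -/
theorem Consts.central_lower {α ω r χ : ℝ} (h : Consts α ω) (hr : |r - sin α| ≤ 0.01)
    (h0 : 0 ≤ χ) (h1 : χ ≤ 0.35) :
    cJ α ω χ + (r - sin α) * ((1 - cos (χ - α)) / (sin α * cos α))
        + 10.68 * (r - sin α) ^ 2 ≤
      r * (π + arccos (-(sin α * cos ω) / r) - χ)
      + (sin χ - r) * (r * cX α ω r + (α - χ))
      - cos χ * log (cos χ / cos ω * (r / sin α)) := by
  have hS1 := h.sal
  have hS2 := h.sau
  have hC1 := h.cal
  have hC2 := h.cau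
  have hcw := h.cos_w_pos
  have hT := h.T_bounds
  have hS : 0 < sin α := by linarith
  have hC : 0 < cos α := by linarith
  obtain ⟨hr1, hr2⟩ := abs_le.1 hr
  have hr0 : 0 < r := by linarith
  have hcχ : 0.93937 ≤ cos χ := by
    have h6 : cos 0.35 ≤ cos χ := Real.cos_le_cos_of_nonneg_of_le_pi h0
      (by linarith [Real.pi_gt_three]) h1
    linarith [cos035.1]
  have hcχ0 : 0 < cos χ := by linarith
  have hsχ : 0 ≤ sin χ := sin_nonneg_of_nonneg_of_le_pi h0 (by linarith [Real.pi_gt_three])
  have harc := h.arccos_ge hr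
  have hlin := h.lin_coeff χ
  set δ := r - sin α with hδ
  have hrδ : r = sin α + δ := by rw [hδ]; ring
  set T := log (cos α / cos ω) with hTdef
  set S := sin α with hSdef
  set C := cos α with hCdef
  -- logarithm
  have hlog : log (cos χ / cos ω * (r / S)) = log (cos χ / cos ω) + log (1 + δ / S) := by
    rw [Real.log_mul (by positivity) (by positivity)]
    congr 2
    rw [hrδ]
    field_simp
  have hu : |δ / S| ≤ 0.0485 := by
    rw [abs_div, abs_of_pos hS, div_le_iff₀ hS]
    linarith
  have hlog2 := log_one_add_le hu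
  rw [hlog]
  set ℓ := log (cos χ / cos ω) with hℓ
  -- the cubic identity
  have hX1 : r * cX α ω r = -(T * tan α) - δ / C + δ ^ 2 * ((T - 1) / (S * C)) := by
    unfold cX
    rw [← hTdef, ← hSdef, ← hCdef, ← hδ, hrδ, tan_eq_sin_div_cos, ← hSdef, ← hCdef]
    field_simp
    ring
  have hid : r * (π - ω) - δ * (cos ω / sin ω) + r * (π - χ)
      + (sin χ - r) * (r * cX α ω r + (α - χ)) - cos χ * (ℓ + δ / S)
      = cJ α ω χ + δ * ((1 - cos (χ - α)) / (S * C))
        + δ ^ 2 * (1 / C + (sin χ - S - δ) * ((T - 1) / (S * C))) := by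
    rw [hX1, ← hlin]
    unfold cJ
    rw [← hTdef, ← hSdef, ← hℓ, hrδ]
    ring
  -- lower bounds for the quadratic coefficient
  have hq1 : 0.98 ≤ 1 / C + (sin χ - S - δ) * ((T - 1) / (S * C)) := by
    have a1 : 1 ≤ 1 / C := by
      rw [le_div_iff₀ hC]
      linarith [cos_le_one α]
    have a2 : (T - 1) / (S * C) ≤ 0.16 := by
      rw [div_le_iff₀ (by positivity)]
      linarith [aux_SC (S := S) (C := C) (by linarith) (by linarith)]
    have a3 : 0 ≤ (T - 1) / (S * C) := by
      apply div_nonneg (by linarith) (by positivity)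
    have a4 : 1.02 ≤ 1 / C := by
      rw [le_div_iff₀ hC]
      linarith
    have a5 : -0.218 ≤ sin χ - S - δ := by linarith
    have a6 := mul_le_mul_of_nonneg_right a5 a3
    linarith
  have hq2 : 0.449 * δ ^ 2 / S ^ 2 * cos χ ≥ 9.7 * δ ^ 2 := by
    have a1 : 23.15 ≤ 1 / S ^ 2 := aux_inv_sq hS (by linarith)
    have a2 : 0.449 * δ ^ 2 / S ^ 2 * cos χ = δ ^ 2 * (0.449 * ((1 / S ^ 2) * cos χ)) := by
      ring
    rw [a2]
    have a3 : 23.15 * 0.93937 ≤ (1 / S ^ 2) * cos χ := by
      apply mul_le_mul a1 hcχ (by norm_num) (by positivity)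
    have a4 : 9.7 ≤ 0.449 * ((1 / S ^ 2) * cos χ) := by linarith
    have a5 := mul_le_mul_of_nonneg_left a4 (sq_nonneg δ)
    linarith
  have hlog3 : cos χ * log (1 + δ / S) ≤ cos χ * (δ / S) - 9.7 * δ ^ 2 := by
    have a1 := mul_le_mul_of_nonneg_left hlog2 hcχ0.le
    have a2 : cos χ * (δ / S - 0.449 * (δ / S) ^ 2) = cos χ * (δ / S)
        - 0.449 * δ ^ 2 / S ^ 2 * cos χ := by ring
    rw [a2] at a1
    linarith
  have hq3 : 0.98 * δ ^ 2 ≤ δ ^ 2 * (1 / C + (sin χ - S - δ) * ((T - 1) / (S * C))) := by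
    rw [mul_comm]
    exact mul_le_mul_of_nonneg_left hq1 (sq_nonneg δ)
  have e1 : r * (π + arccos (-(S * cos ω) / r) - χ)
      = r * arccos (-(S * cos ω) / r) + r * (π - χ) := by ring
  rw [e1]
  have hpos : 0 ≤ δ ^ 2 := sq_nonneg δ
  linarith

/-- Quadratic lower bound for `cJ` on the left of `α`. -/
theorem Consts.J_left {α ω χ : ℝ} (h : Consts α ω) (h0 : 0 ≤ χ) (h1 : χ ≤ α) :
    0.01579 * (α - χ) ^ 2 ≤ cJ α ω χ := by
  have hα := h.al
  have hα2 := h.au
  have hc := h.cos_w_pos
  have hca := h.cos_al_pos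
  set D : ℝ → ℝ := fun x => cJ α ω x - 0.01579 * (α - x) ^ 2 with hD
  have hderiv : ∀ x ∈ Icc (0:ℝ) α, HasDerivAt D
      (cos x * cH α ω x + 0.03158 * (α - x)) x := by
    intro x hx
    have hcx : 0 < cos x := cos_pos_of_small hx.1 (by linarith [hx.2])
    have h2 := hasDerivAt_cJ (α := α) hc hcx
    have h3 : HasDerivAt (fun x : ℝ => 0.01579 * (α - x) ^ 2) (-(0.03158 * (α - x))) x := by
      have := (((hasDerivAt_id x).const_sub α).pow 2).const_mul 0.01579
      refine this.congr_deriv ?_
      simp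
      ring
    exact (h2.sub h3).congr_deriv (by ring)
  have hDα : D α = 0 := by
    simp only [hD, cJ]
    rw [h.T_eq, tan_eq_sin_div_cos]
    simp
    field_simp
    ring
  have hanti : AntitoneOn D (Icc 0 α) := by
    apply antitoneOn_of_deriv_nonpos (convex_Icc _ _)
    · exact fun x hx => (hderiv x hx).continuousAt.continuousWithinAt
    · intro x hx
      rw [interior_Icc] at hx
      exact (hderiv x ⟨hx.1.le, hx.2.le⟩).differentiableAt.differentiableWithinAt
    · intro x hx
      rw [interior_Icc] at hx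
      rw [(hderiv x ⟨hx.1.le, hx.2.le⟩).deriv]
      have h5 := h.H_left hx.1.le hx.2.le
      have h6 : cos α ≤ cos x := Real.cos_le_cos_of_nonneg_of_le_pi hx.1.le
        (by linarith [Real.pi_gt_three]) hx.2.le
      have h6' := h.cal
      have he0 : 0 < α - x := by linarith [hx.2]
      have h14 : 0.978 * (0.0323 * (α - x)) ≤ cos x * (-cH α ω x) := by
        apply mul_le_mul (by linarith) h5 (by positivity) (by linarith)
      linarith
  have := hanti ⟨h0, h1⟩ ⟨by linarith, le_rfl⟩ h1
  rw [hDα] at this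
  simp only [hD] at this
  linarith

lemma aux_e {e : ℝ} (he : 0 ≤ e) (h : e ≤ 0.1394) : 2.46 * e ^ 2 ≤ 0.343 * e := by
  nlinarith

lemma aux_w {w e p : ℝ} (hp : 0.20328 ≤ p) (h : w ≤ e ^ 2 / 2) : w / p ≤ 2.46 * e ^ 2 := by
  rw [div_le_iff₀ (by linarith)]
  nlinarith [sq_nonneg e]

lemma aux_abs {δ a : ℝ} (ha : 0 ≤ a) : -(|δ| * a) ≤ δ * a := by
  have := neg_abs_le δ
  nlinarith

lemma aux_disc2 {e δ b : ℝ} (hb : b ≤ 0.8 * e) :
    0 ≤ 0.01579 * e ^ 2 - |δ| * b + 10.24 * δ ^ 2 := by
  have h1 : |δ| * b ≤ |δ| * (0.8 * e) := mul_le_mul_of_nonneg_left hb (abs_nonneg _)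
  have h2 : δ ^ 2 = |δ| ^ 2 := (sq_abs δ).symm
  rw [h2]
  nlinarith [sq_nonneg (e - 25.35 * |δ|), abs_nonneg δ]

/-- The explicit inequality near the tight point, with an additional gauge term. -/
theorem Consts.central {α ω r χ k : ℝ} (h : Consts α ω) (hr : |r - sin α| ≤ 0.01)
    (h0 : 0.07 ≤ χ) (h1 : χ ≤ 0.35) (hk0 : 0 ≤ k) (hk2 : k ≤ 2) :
    0 ≤ r * (π + arccos (-(sin α * cos ω) / r) - χ)
      + (sin χ - r) * (r * (cX α ω r + k * |r - sin α|) + (α - χ))
      - cos χ * log (cos χ / cos ω * (r / sin α)) := by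
  have hlow := h.central_lower hr (by linarith) h1
  have hS1 := h.sal
  have hS2 := h.sau
  have hC1 := h.cal
  have hC2 := h.cau
  have hα := h.al
  have hα2 := h.au
  have hpi := Real.pi_gt_three
  obtain ⟨hr1, hr2⟩ := abs_le.1 hr
  have hr0 : 0 < r := by linarith
  have hS : 0 < sin α := by linarith
  have hC : 0 < cos α := by linarith
  have e1 : (sin χ - r) * (r * (cX α ω r + k * |r - sin α|) + (α - χ)) =
      (sin χ - r) * (r * cX α ω r + (α - χ)) + (sin χ - r) * (r * (k * |r - sin α|)) := by ring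
  rw [e1]
  have hSC : 0.20328 ≤ sin α * cos α := aux_SC (by linarith) (by linarith)
  have hSC0 : 0 < sin α * cos α := by positivity
  set δ := r - sin α with hδ
  have hrδ : r = sin α + δ := by rw [hδ]; ring
  set w := 1 - cos (χ - α) with hw
  have hw0 : 0 ≤ w := by rw [hw]; linarith [cos_le_one (χ - α)]
  have hrk : r * k ≤ 0.43568 := by nlinarith
  have hrk0 : 0 ≤ r * k := by positivity
  have hδk : -(0.4357 * δ ^ 2) ≤ -δ * (r * (k * |δ|)) := by
    have a1 : -(|δ| * (r * (k * |δ|))) ≤ -δ * (r * (k * |δ|)) := by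
      have : 0 ≤ r * (k * |δ|) := by positivity
      have h7 := mul_le_mul_of_nonneg_right (le_abs_self δ) this
      linarith
    have a2 : |δ| * (r * (k * |δ|)) = r * k * δ ^ 2 := by
      rw [← sq_abs δ]; ring
    rw [a2] at a1
    have h8 := mul_le_mul_of_nonneg_right hrk (sq_nonneg δ)
    linarith [sq_nonneg δ]
  have hδ2 : 0 ≤ δ ^ 2 := sq_nonneg δ
  rcases le_total χ α with hle | hle
  · -- left part
    have hJ := h.J_left (by linarith) hle
    set e := α - χ with he
    have he0 : 0 ≤ e := by rw [he]; linarith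
    have he1 : e ≤ 0.1394 := by rw [he]; linarith
    have h9 : w ≤ e ^ 2 / 2 := by
      have := Real.one_sub_sq_div_two_le_cos (x := χ - α)
      have e3 : (χ - α) ^ 2 = e ^ 2 := by rw [he]; ring
      rw [e3] at this
      linarith
    have h10 : sin α - sin χ ≤ e := by
      have h11 : sin α - sin χ = 2 * sin ((α - χ) / 2) * cos ((α + χ) / 2) := Real.sin_sub_sin α χ
      have h12 : sin ((α - χ) / 2) ≤ e / 2 := by
        rw [← he]
        exact Real.sin_le (by linarith)
      have h13 : 0 ≤ sin ((α - χ) / 2) := sin_nonneg_of_nonneg_of_le_pi (by linarith) (by linarith)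
      have h14 := cos_le_one ((α + χ) / 2)
      rw [h11]
      have h15 := mul_le_mul_of_nonneg_left h14 h13
      linarith
    have h10' : 0 ≤ sin α - sin χ := by
      have := Real.sin_le_sin_of_le_of_le_pi_div_two (by linarith : -(π / 2) ≤ χ)
        (by linarith : α ≤ π / 2) hle
      linarith
    have hb1 : w / (sin α * cos α) ≤ 2.46 * e ^ 2 := aux_w hSC h9
    have hb2 := aux_e he0 he1
    have hb0 : 0 ≤ w / (sin α * cos α) := by positivity
    have hdisc := aux_disc2 (e := e) (δ := δ)
      (b := w / (sin α * cos α) + r * k * (sin α - sin χ)) (by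
        have : r * k * (sin α - sin χ) ≤ 0.43568 * e := mul_le_mul hrk h10 h10' (by norm_num)
        linarith)
    have a1 : -(|δ| * (w / (sin α * cos α))) ≤ δ * (w / (sin α * cos α)) := aux_abs hb0
    have a2 : (sin χ - r) * (r * (k * |δ|)) =
        -(|δ| * (r * k * (sin α - sin χ))) + -δ * (r * (k * |δ|)) := by
      rw [hrδ]; ring
    rw [a2]
    linarith
  · -- right part
    have hJ := h.J_ge (by linarith) h1
    rw [← hw] at hJ
    have h10' : 0 ≤ sin χ - sin α := by
      have := Real.sin_le_sin_of_le_of_le_pi_div_two (by linarith : -(π / 2) ≤ α)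
        (by linarith : χ ≤ π / 2) hle
      linarith
    have hdisc := aux_disc (w := w) (δ := δ) hSC
    have a2 : (sin χ - r) * (r * (k * |δ|)) =
        (sin χ - sin α) * (r * (k * |δ|)) + -δ * (r * (k * |δ|)) := by
      rw [hrδ]; ring
    rw [a2]
    have a3 : 0 ≤ (sin χ - sin α) * (r * (k * |δ|)) := by positivity
    linarith

end Pool.Agent.H4.Shore
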