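import Mathlib
import Pool.Agent.H44.Shore.Grid

/-!
Shoreline search: trapezoid bound for the integral of a semiconvex function of two variables over a
strip with a moving right end.
-/

open Real Set MeasureTheory

namespace Pool.Agent.H4.Shore

open Pool.Agent.H44.Shore

/-- interpolation bound for a semiconvex function -/
theorem semi2' {f : ℝ → ℝ} {S : Set ℝ} {K x y μ : ℝ} (hK : 0 ≤ K)
    (hf : ConvexOn ℝ S (fun x => f x + K * x ^ 2 / 2)) (hx : x ∈ S) (hy : y ∈ S)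
    (h0 : 0 ≤ μ) (h1 : μ ≤ 1) :
    f ((1 - μ) * x + μ * y) ≤ (1 - μ) * f x + μ * f y + K * (y - x) ^ 2 / 8 := by
  have h1' : 0 ≤ 1 - μ := by linarith
  have h := hf.2 hx hy h1' h0 (by ring)
  simp only [smul_eq_mul] at h
  have e3 : K * (y - x) ^ 2 * (μ * (1 - μ)) ≤ K * (y - x) ^ 2 * (1 / 4) := by
    apply mul_le_mul_of_nonneg_left _ (by positivity)
    nlinarith [sq_nonneg (μ - 1 / 2)]
  nlinarith

/-- hypotheses for a pair of rows on the fixed grid, for a general function -/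
structure SGrid (G : ℝ → ℝ → ℝ) (r0 r1 δ : ℝ) (a b : ℕ) (Kr Kt : ℝ) : Prop where
  hδ : 0 < δ
  hab : a ≤ b
  hr : r0 ≤ r1
  hKr : 0 ≤ Kr
  hKt : 0 ≤ Kt
  hc : ∀ j : ℕ, a ≤ j → j ≤ b + 1 →
    ConvexOn ℝ (Icc r0 r1) (fun r => G r (j * δ) + Kr * r ^ 2 / 2)
  hd : ∀ r ∈ Icc r0 r1, ConvexOn ℝ (Icc ((a:ℝ) * δ) (((b:ℝ) + 1) * δ))
      (fun θ => G r θ + Kt * θ ^ 2 / 2)

/-- pointwise interpolation bound on a cell -/
theorem SGrid.point {G : ℝ → ℝ → ℝ} {r0 r1 δ Kr Kt : ℝ} {a b : ℕ}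
    (h : SGrid G r0 r1 δ a b Kr Kt) {lam : ℝ} (hl : lam ∈ Icc (0:ℝ) 1)
    {j : ℕ} (hj : a ≤ j) (hj' : j ≤ b) {θ : ℝ} (hθ : θ ∈ Icc ((j:ℝ) * δ) (((j:ℝ) + 1) * δ)) :
    G (lin r0 r1 lam) θ ≤
      ((1 - lam) * G r0 (j * δ) + lam * G r1 (j * δ)) +
      (((1 - lam) * G r0 ((j + 1 : ℕ) * δ) + lam * G r1 ((j + 1 : ℕ) * δ)) -
        ((1 - lam) * G r0 (j * δ) + lam * G r1 (j * δ))) * ((θ - j * δ) / δ) +
      (Kr * (r1 - r0) ^ 2 / 8 + Kt * δ ^ 2 / 8) := by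
  have hδ := h.hδ
  have hlam0 := hl.1
  have hlam1 : lam ≤ 1 := hl.2
  set μ := (θ - j * δ) / δ with hμ
  have hμ0 : 0 ≤ μ := div_nonneg (by linarith [hθ.1]) hδ.le
  have hμ1 : μ ≤ 1 := by
    rw [hμ, div_le_one hδ]
    linarith [hθ.2]
  have hja : (a:ℝ) ≤ j := by exact_mod_cast hj
  have hjb : (j:ℝ) ≤ b := by exact_mod_cast hj'
  have e1 : (1 - μ) * (j * δ) + μ * (((j + 1 : ℕ) : ℝ) * δ) = θ := by
    rw [hμ]
    push_cast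
    field_simp
    ring
  have m1 : (j:ℝ) * δ ∈ Icc ((a:ℝ) * δ) (((b:ℝ) + 1) * δ) := ⟨by nlinarith, by nlinarith⟩
  have m2 : ((j + 1 : ℕ) : ℝ) * δ ∈ Icc ((a:ℝ) * δ) (((b:ℝ) + 1) * δ) := by
    push_cast
    exact ⟨by nlinarith, by nlinarith⟩
  have m3 := lin_mem h.hr hl
  have r0m : r0 ∈ Icc r0 r1 := ⟨le_rfl, h.hr⟩
  have r1m : r1 ∈ Icc r0 r1 := ⟨h.hr, le_rfl⟩
  have s1 := semi2' h.hKt (h.hd _ m3) m1 m2 hμ0 hμ1
  rw [e1] at s1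
  have s2 := semi2' h.hKr (h.hc j hj (by omega)) r0m r1m hlam0 hlam1
  have s3 := semi2' h.hKr (h.hc (j + 1) (by omega) (by omega)) r0m r1m hlam0 hlam1
  have e2 : ((j + 1 : ℕ) : ℝ) * δ - j * δ = δ := by
    push_cast
    ring
  rw [e2] at s1
  have e3 : (1 - lam) * r0 + lam * r1 = lin r0 r1 lam := rfl
  rw [e3] at s2 s3
  have hμ1' : 0 ≤ 1 - μ := by linarith
  have t2 := mul_le_mul_of_nonneg_left s2 hμ1'
  have t3 := mul_le_mul_of_nonneg_left s3 hμ0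
  nlinarith [s1, t2, t3]

/-- trapezoid bound over the strip -/
theorem SGrid.int_le {G : ℝ → ℝ → ℝ} {r0 r1 δ Kr Kt Ps0 Ps1 Lam : ℝ} {a b : ℕ}
    (h : SGrid G r0 r1 δ a b Kr Kt) (hG : ∀ r, Continuous (G r))
    (hP : Ps1 ≤ Ps0) (hb1 : (b:ℝ) * δ ≤ Ps1) (hb0 : Ps0 ≤ ((b:ℝ) + 1) * δ) (hLam : 0 ≤ Lam)
    (hL : ∀ j j' : ℕ, (j = b ∨ j = b + 1) → (j' = b ∨ j' = b + 1) →
      G r1 (j * δ) - G r0 (j' * δ) ≤ Lam)
    {lam : ℝ} (hl : lam ∈ Icc (0:ℝ) 1) :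
    ∫ θ in ((a:ℝ) * δ)..(lin Ps0 Ps1 lam), G (lin r0 r1 lam) θ ≤
      (1 - lam) * TT (fun j : ℕ => G r0 (j * δ)) δ a b (Ps0 - b * δ) +
      lam * TT (fun j : ℕ => G r1 (j * δ)) δ a b (Ps1 - b * δ) +
      (Ps0 - a * δ) * (Kr * (r1 - r0) ^ 2 / 8 + Kt * δ ^ 2 / 8) + (Ps0 - Ps1) * Lam / 4 := by
  have hδ := h.hδ
  have hr := h.hr
  have hab : (a:ℝ) ≤ b := by exact_mod_cast h.hab
  have habδ : (a:ℝ) * δ ≤ b * δ := by gcongr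
  have hlam0 := hl.1
  have hlam1 : 0 ≤ 1 - lam := by linarith [hl.2]
  set Ps := lin Ps0 Ps1 lam with hPs
  have hPs1 : Ps ≤ Ps0 := by
    rw [hPs]
    unfold lin
    nlinarith
  have hPs2 : Ps1 ≤ Ps := by
    rw [hPs]
    unfold lin
    nlinarith
  have hgi := grid_int (hG (lin r0 r1 lam)) (δ := δ)
    (c := Kr * (r1 - r0) ^ 2 / 8 + Kt * δ ^ 2 / 8)
    (w := Ps - b * δ)
    (A := fun j : ℕ => (1 - lam) * G r0 (j * δ) + lam * G r1 (j * δ))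
    hδ h.hab (by linarith) (by linarith)
    (fun j hj hj' θ hθ => h.point hl hj hj' hθ)
  have e1 : (b:ℝ) * δ + (Ps - b * δ) = Ps := by ring
  rw [e1] at hgi
  have hpart := TT_part (G r0 (b * δ)) (G r0 ((b + 1 : ℕ) * δ)) (G r1 (b * δ))
    (G r1 ((b + 1 : ℕ) * δ)) δ (Ps0 - b * δ) (Ps1 - b * δ) lam Lam hδ hl (by linarith)
    (by linarith) (by linarith) (hL b b (Or.inl rfl) (Or.inl rfl))
    (hL b (b + 1) (Or.inl rfl) (Or.inr rfl)) (hL (b + 1) b (Or.inr rfl) (Or.inl rfl))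
    (hL (b + 1) (b + 1) (Or.inr rfl) (Or.inr rfl)) hLam
  have e2 : lin (Ps0 - b * δ) (Ps1 - b * δ) lam = Ps - b * δ := by
    rw [hPs]
    unfold lin
    ring
  rw [e2] at hpart
  have hTT : TT (fun j : ℕ => (1 - lam) * G r0 (j * δ) + lam * G r1 (j * δ)) δ a b
      (Ps - b * δ) ≤ (1 - lam) * TT (fun j : ℕ => G r0 (j * δ)) δ a b (Ps0 - b * δ) +
      lam * TT (fun j : ℕ => G r1 (j * δ)) δ a b (Ps1 - b * δ) + (Ps0 - Ps1) * Lam / 4 := by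
    unfold TT
    rw [Finset.sum_add_distrib, ← Finset.mul_sum, ← Finset.mul_sum]
    nlinarith [hpart]
  have hc0 : 0 ≤ Kr * (r1 - r0) ^ 2 / 8 + Kt * δ ^ 2 / 8 := by
    have := h.hKr
    have := h.hKt
    positivity
  have hlast : (Kr * (r1 - r0) ^ 2 / 8 + Kt * δ ^ 2 / 8) * (Ps - a * δ) ≤
      (Ps0 - a * δ) * (Kr * (r1 - r0) ^ 2 / 8 + Kt * δ ^ 2 / 8) := by
    nlinarith
  linarith

theorem TT_neg (A : ℕ → ℝ) (δ : ℝ) (a b : ℕ) (w : ℝ) :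
    TT (fun j => -A j) δ a b w = -TT A δ a b w := by
  unfold TT
  rw [Finset.sum_neg_distrib]
  ring

end Pool.Agent.H4.Shore
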