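import Mathlib
import Pool.Agent.H4.Shore.Central
import Pool.Agent.H44.Shore.Polar

/-!
Shoreline search: the main inequality of the polar reduction in the central region.
-/

open Real Set MeasureTheory

namespace Pool.Agent.H4.Shore

open Pool.Agent.H44.Shore (Dat)

/-- Radial derivative of the weight on the strip. -/
noncomputable def brs (D : Dat) (r θ : ℝ) : ℝ :=
  -cos θ * D.bx (-(r * cos θ)) (D.W r) - 2 * r / D.rB ^ 2 * D.bw (-(r * cos θ)) (D.W r)

/-- The function `m` on the ring around `r = sin α`; `k` is a free gauge parameter. -/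
noncomputable def mC (α ω k : ℝ) (D : Dat) (r : ℝ) : ℝ :=
  (cX α ω r + k * |r - sin α| - (arccos (D.xL / r) - α) / r
    - ∫ θ in arccos (D.xL / r)..arccos (-(1 / D.ρ) / r), brs D r θ) / π

lemma gs_eq (D : Dat) (r vr vt θ : ℝ) : D.gs r vr vt (cos θ) (sin θ) =
    -1 - (vr - r) * brs D r θ - vt * (sin θ * D.bx (-(r * cos θ)) (D.W r)) := by
  unfold Dat.gs brs
  ring

lemma hasDerivAt_b_theta (D : Dat) (r w θ : ℝ) :
    HasDerivAt (fun θ => D.b (-(r * cos θ)) w) (D.bx (-(r * cos θ)) w * (r * sin θ)) θ := by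
  have hx : HasDerivAt (fun θ => -(r * cos θ)) (r * sin θ) θ := by
    have := ((hasDerivAt_cos θ).const_mul r).neg
    refine this.congr_deriv ?_
    ring
  have hB : ∀ q : Polynomial ℝ, HasDerivAt (fun s => q.eval (-(r * cos s)))
      (q.derivative.eval (-(r * cos θ)) * (r * sin θ)) θ :=
    fun q => HasDerivAt.comp (h₂ := fun y => q.eval y) θ (q.hasDerivAt (-(r * cos θ))) hx
  have h1 := (((hB D.B0).add ((hB D.B2).const_mul (w ^ 2))).add
    ((hB D.B3).const_mul (w ^ 3))).add ((hB D.B4).const_mul (w ^ 4))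
  refine h1.congr_deriv ?_
  unfold Dat.bx
  ring

lemma continuous_bx (D : Dat) : Continuous (fun p : ℝ × ℝ => D.bx p.1 p.2) := by
  unfold Dat.bx
  have h : ∀ q : Polynomial ℝ, Continuous (fun p : ℝ × ℝ => q.eval p.1) := fun q =>
    q.continuous.comp continuous_fst
  have h0 := h (Polynomial.derivative D.B0)
  have h2 := h (Polynomial.derivative D.B2)
  have h3 := h (Polynomial.derivative D.B3)
  have h4 := h (Polynomial.derivative D.B4)
  fun_prop

lemma continuous_bw (D : Dat) : Continuous (fun p : ℝ × ℝ => D.bw p.1 p.2) := by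
  unfold Dat.bw
  have h : ∀ q : Polynomial ℝ, Continuous (fun p : ℝ × ℝ => q.eval p.1) := fun q =>
    q.continuous.comp continuous_fst
  have h2 := h D.B2
  have h3 := h D.B3
  have h4 := h D.B4
  fun_prop

lemma continuous_W (D : Dat) : Continuous D.W := by
  unfold Dat.W
  fun_prop

lemma continuous_brs (D : Dat) : Continuous (fun p : ℝ × ℝ => brs D p.1 p.2) := by
  unfold brs
  have h1 : Continuous (fun p : ℝ × ℝ => D.bx (-(p.1 * cos p.2)) (D.W p.1)) :=
    (continuous_bx D).comp ((continuous_fst.mul (continuous_cos.comp continuous_snd)).neg.prodMk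
      ((continuous_W D).comp continuous_fst))
  have h2 : Continuous (fun p : ℝ × ℝ => D.bw (-(p.1 * cos p.2)) (D.W p.1)) :=
    (continuous_bw D).comp ((continuous_fst.mul (continuous_cos.comp continuous_snd)).neg.prodMk
      ((continuous_W D).comp continuous_fst))
  fun_prop

/-- Integral of the strip part. -/
lemma integral_gs (D : Dat) {r : ℝ} (hr : r ≠ 0) (vr vt a b : ℝ) :
    ∫ θ in a..b, D.gs r vr vt (cos θ) (sin θ) =
      -(b - a) - (vr - r) * (∫ θ in a..b, brs D r θ)
        - vt / r * (D.b (-(r * cos b)) (D.W r) - D.b (-(r * cos a)) (D.W r)) := by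
  have hp1 : Continuous (fun θ : ℝ => (r, θ)) := by fun_prop
  have hc1 := (continuous_brs D).comp hp1
  simp only [Function.comp_def] at hc1
  have hp2 : Continuous (fun θ : ℝ => (-(r * cos θ), D.W r)) := by fun_prop
  have hc2 := (continuous_bx D).comp hp2
  simp only [Function.comp_def] at hc2
  have hftc : ∫ θ in a..b, D.bx (-(r * cos θ)) (D.W r) * (r * sin θ) =
      D.b (-(r * cos b)) (D.W r) - D.b (-(r * cos a)) (D.W r) := by
    apply intervalIntegral.integral_eq_sub_of_hasDerivAt
      (fun θ _ => hasDerivAt_b_theta D r (D.W r) θ)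
    exact (Continuous.mul hc2 (by fun_prop)).intervalIntegrable _ _
  rw [← hftc]
  have e : ∀ θ, D.gs r vr vt (cos θ) (sin θ) = -1 - (vr - r) * brs D r θ
      - vt / r * (D.bx (-(r * cos θ)) (D.W r) * (r * sin θ)) := by
    intro θ
    rw [gs_eq]
    field_simp
  rw [intervalIntegral.integral_congr (fun θ _ => e θ)]
  rw [intervalIntegral.integral_sub, intervalIntegral.integral_sub,
    intervalIntegral.integral_const_mul, intervalIntegral.integral_const_mul]
  · simp
  · exact continuous_const.intervalIntegrable _ _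
  · exact (continuous_const.mul hc1).intervalIntegrable _ _
  · exact (continuous_const.sub (continuous_const.mul hc1)).intervalIntegrable _ _
  · exact (continuous_const.mul (hc2.mul (by fun_prop))).intervalIntegrable _ _

/-- Integral of the logarithmic part. -/
lemma integral_L {r s c a b : ℝ} (hab : a ≤ b) (ha : 0 ≤ a) (hb : b < π / 2) :
    ∫ θ in a..b, (-s + c * tan θ) / r = (-s * (b - a) - c * (log (cos b) - log (cos a))) / r := by
  have hcos : ∀ θ ∈ uIcc a b, 0 < cos θ := by
    intro θ hθ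
    rw [uIcc_of_le hab] at hθ
    exact cos_pos_of_mem_Ioo ⟨by linarith [hθ.1, Real.pi_pos], by linarith [hθ.2]⟩
  have hd : ∀ θ ∈ uIcc a b, HasDerivAt (fun θ => (-s * θ - c * log (cos θ)) / r)
      ((-s + c * tan θ) / r) θ := by
    intro θ hθ
    have h1 := (hasDerivAt_cos θ).log (hcos θ hθ).ne'
    have h2 := (((hasDerivAt_id θ).const_mul (-s)).sub (h1.const_mul c)).div_const r
    refine h2.congr_deriv ?_
    rw [tan_eq_sin_div_cos]
    ring
  rw [intervalIntegral.integral_eq_sub_of_hasDerivAt hd]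
  · ring
  · apply ContinuousOn.intervalIntegrable
    intro θ hθ
    apply ContinuousAt.continuousWithinAt
    have : ContinuousAt tan θ := (hasDerivAt_tan (hcos θ hθ).ne').continuousAt
    fun_prop

lemma continuous_intBrs (D : Dat) :
    Continuous (fun p : ℝ × ℝ => ∫ θ in (0:ℝ)..p.2, brs D p.1 θ) := by
  apply intervalIntegral.continuous_parametric_intervalIntegral_of_continuous
    (f := fun (p : ℝ × ℝ) θ => brs D p.1 θ) (s := fun p : ℝ × ℝ => p.2) _ continuous_snd
  have h1 : Continuous (fun q : (ℝ × ℝ) × ℝ => (q.1.1, q.2)) := by fun_prop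
  have h2 := (continuous_brs D).comp h1
  simp only [Function.comp_def] at h2
  exact h2

lemma integral_brs_eq (D : Dat) (r a b : ℝ) :
    ∫ θ in a..b, brs D r θ = (∫ θ in (0:ℝ)..b, brs D r θ) - ∫ θ in (0:ℝ)..a, brs D r θ := by
  have hp1 : Continuous (fun θ : ℝ => (r, θ)) := by fun_prop
  have hc1 := (continuous_brs D).comp hp1
  simp only [Function.comp_def] at hc1
  rw [intervalIntegral.integral_interval_sub_left] <;> exact hc1.intervalIntegrable _ _

lemma continuousAt_mC (α ω k : ℝ) (D : Dat) {r : ℝ} (hr : 0 < r) :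
    ContinuousAt (mC α ω k D) r := by
  have hne : r ≠ 0 := hr.ne'
  have h1 : ContinuousAt (fun r => arccos (D.xL / r)) r :=
    Real.continuous_arccos.continuousAt.comp (continuousAt_const.div continuousAt_id hne)
  have h2 : ContinuousAt (fun r => arccos (-(1 / D.ρ) / r)) r :=
    Real.continuous_arccos.continuousAt.comp (continuousAt_const.div continuousAt_id hne)
  have h3 : ContinuousAt (fun r => cX α ω r + k * |r - sin α|) r := by
    unfold cX
    fun_prop
  have h4 : ContinuousAt (fun r => ∫ θ in arccos (D.xL / r)..arccos (-(1 / D.ρ) / r), brs D r θ)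
      r := by
    have e : (fun r => ∫ θ in arccos (D.xL / r)..arccos (-(1 / D.ρ) / r), brs D r θ) =
        fun r => (∫ θ in (0:ℝ)..arccos (-(1 / D.ρ) / r), brs D r θ)
          - ∫ θ in (0:ℝ)..arccos (D.xL / r), brs D r θ := by
      funext r
      exact integral_brs_eq D r _ _
    rw [e]
    have g1 := ContinuousAt.comp (x := r) (f := fun r => (r, arccos (-(1 / D.ρ) / r)))
      (continuous_intBrs D).continuousAt (continuousAt_id.prodMk h2)
    have g2 := ContinuousAt.comp (x := r) (f := fun r => (r, arccos (D.xL / r)))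
      (continuous_intBrs D).continuousAt (continuousAt_id.prodMk h1)
    simp only [Function.comp_def] at g1 g2
    exact g1.sub g2
  unfold mC
  exact ((h3.sub ((h1.sub continuousAt_const).div continuousAt_id hne)).sub h4).div_const _

/-- The main inequality of the polar reduction in the central region. -/
theorem link {D : Dat} (hD : D.Ok) {α ω k r χ : ℝ} (h : Consts α ω)
    (hρ : D.ρ = 1 / (sin α * cos ω)) (hk0 : 0 ≤ k) (hk2 : k ≤ 2) (hr : |r - sin α| ≤ 0.01)
    (h0' : 0.07 ≤ χ) (h1 : χ ≤ 0.35) (hχ : D.xL < r * cos χ)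
    (hP : ∀ θ, 0 < θ → θ < π → r * cos θ ≤ D.xL → -(1 / D.ρ) < r * cos θ →
      0 ≤ D.gs r (sin χ) (cos χ) (cos θ) (sin θ))
    (hN : ∀ θ, 0 < θ → θ < π → r * cos θ ≤ D.xL → -(1 / D.ρ) < r * cos θ →
      D.gs r (sin χ) (-cos χ) (cos θ) (sin θ) ≤ 0) :
    ∫ θ in (0:ℝ)..π, (max 0 (D.g r (sin χ) (cos χ) θ) + max 0 (D.g r (sin χ) (-cos χ) θ)) ≤
      π * (1 + mC α ω k D r * (sin χ - r)) := by
  have h0 : 0 ≤ χ := by linarith
  have hL := hD.h1L
  have hρ1 := hD.hρ
  have hρ0 : 0 < D.ρ := by linarith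
  have h1ρ : 0 < 1 / D.ρ := by positivity
  have hxL0 : 0 < D.xL := by linarith
  have hS1 := h.sal
  have hS2 := h.sau
  have hw1 := h.cwl
  have hw2 := h.cwu
  have hpi := Real.pi_gt_three
  have hpi0 := Real.pi_pos
  obtain ⟨hr1, hr2⟩ := abs_le.1 hr
  have hr0 : 0 < r := by linarith
  have hcχ : 0 < cos χ := cos_pos_of_small h0 (by linarith)
  have hsχ : 0 ≤ sin χ := sin_nonneg_of_nonneg_of_le_pi h0 (by linarith)
  -- x1 < r
  have hx1 : 1 / D.ρ = sin α * cos ω := by rw [hρ, one_div_one_div]
  have hx1r : 1 / D.ρ < r := by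
    rw [hx1]
    nlinarith
  set θL := arccos (D.xL / r) with hθL
  set θq := arccos (-(1 / D.ρ) / r) with hθq
  have hxLr : D.xL / r < 1 := by
    rw [div_lt_one hr0]
    nlinarith [cos_le_one χ]
  have hcL : cos θL = D.xL / r := by
    rw [hθL, cos_arccos]
    · have : 0 < D.xL / r := by positivity
      linarith
    · exact hxLr.le
  have hcLr : r * cos θL = D.xL := by rw [hcL]; field_simp
  have hq1 : -1 < -(1 / D.ρ) / r := by
    rw [lt_div_iff₀ hr0]
    linarith
  have hcq : cos θq = -(1 / D.ρ) / r := by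
    rw [hθq, cos_arccos hq1.le]
    have : -(1 / D.ρ) / r < 0 := div_neg_of_neg_of_pos (by linarith) hr0
    linarith
  have hcqr : r * cos θq = -(1 / D.ρ) := by rw [hcq]; field_simp
  have hθq_le : θq ≤ π := arccos_le_pi _
  have hθL0 : 0 ≤ θL := arccos_nonneg _
  have hθL2 : θL < π / 2 := by
    rw [hθL]
    exact arccos_lt_pi_div_two.2 (by positivity)
  have hanti : ∀ {a b : ℝ}, 0 ≤ a → a < b → b ≤ π → cos b < cos a :=
    fun ha hab hb => cos_lt_cos_of_nonneg_of_le_pi ha hb hab
  have hχL : χ < θL := by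
    by_contra hcon
    push Not at hcon
    have h5 : cos χ ≤ cos θL := cos_le_cos_of_nonneg_of_le_pi hθL0 (by linarith) hcon
    have := mul_le_mul_of_nonneg_left h5 hr0.le
    linarith
  have hLq : θL < θq := by
    by_contra hcon
    push Not at hcon
    have h5 : cos θL ≤ cos θq := cos_le_cos_of_nonneg_of_le_pi (arccos_nonneg _)
      (by linarith) hcon
    have := mul_le_mul_of_nonneg_left h5 hr0.le
    linarith
  -- the negative side
  have hneg : ∀ θ ∈ Icc (0:ℝ) π, D.g r (sin χ) (-cos χ) θ ≤ 0 := by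
    intro θ hθ
    unfold Dat.g
    split_ifs with h2 h3
    · apply div_nonpos_of_nonpos_of_nonneg _ hr0.le
      have hcθ : 0 < cos θ := by
        by_contra hcon
        push Not at hcon
        nlinarith
      have hsθ : 0 ≤ sin θ := sin_nonneg_of_nonneg_of_le_pi hθ.1 hθ.2
      have : 0 ≤ tan θ := by
        rw [tan_eq_sin_div_cos]
        positivity
      nlinarith [mul_nonneg hcχ.le this]
    · push Not at h2
      rcases eq_or_lt_of_le hθ.1 with h4 | h4
      · exfalso
        rw [← h4, cos_zero] at h2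
        rw [div_lt_one hr0] at hxLr
        linarith
      rcases eq_or_lt_of_le hθ.2 with h5 | h5
      · exfalso
        rw [h5, cos_pi] at h3
        linarith
      exact hN θ h4 h5 h2 h3
    · norm_num
  have hI1 : ∫ θ in (0:ℝ)..π, max 0 (D.g r (sin χ) (-cos χ) θ) = 0 := by
    rw [intervalIntegral.integral_congr (g := fun _ => (0:ℝ))]
    · simp
    · intro θ hθ
      rw [uIcc_of_le hpi0.le] at hθ
      exact max_eq_left (hneg θ hθ)
  have hint : ∀ (vt a b : ℝ), IntervalIntegrable (fun θ => max 0 (D.g r (sin χ) vt θ)) volume a b :=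
    fun vt a b => Dat.g_pos_integrable D hxL0 hr0 (sin χ) vt a b
  rw [intervalIntegral.integral_add (hint _ _ _) (hint _ _ _), hI1, add_zero]
  -- split the positive side
  have hs1 := intervalIntegral.integral_add_adjacent_intervals (hint (cos χ) 0 χ)
    (hint (cos χ) χ θL)
  have hs2 := intervalIntegral.integral_add_adjacent_intervals (hint (cos χ) 0 θL)
    (hint (cos χ) θL θq)
  have hs3 := intervalIntegral.integral_add_adjacent_intervals (hint (cos χ) 0 θq)
    (hint (cos χ) θq π)
  rw [← hs3, ← hs2, ← hs1]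
  have hA : ∫ θ in (0:ℝ)..χ, max 0 (D.g r (sin χ) (cos χ) θ) = 0 := by
    rw [intervalIntegral.integral_congr (g := fun _ => (0:ℝ))]
    · simp
    · intro θ hθ
      rw [uIcc_of_le h0] at hθ
      apply max_eq_left
      have h5 : cos χ ≤ cos θ := cos_le_cos_of_nonneg_of_le_pi hθ.1 (by linarith) hθ.2
      have h6 := mul_le_mul_of_nonneg_left h5 hr0.le
      unfold Dat.g
      rw [if_pos (by linarith)]
      apply div_nonpos_of_nonpos_of_nonneg _ hr0.le
      have h7 : sin (χ - θ) ≥ 0 := sin_nonneg_of_nonneg_of_le_pi (by linarith [hθ.2])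
        (by linarith [hθ.1])
      have hcθ : 0 < cos θ := by linarith
      have h8 : -sin χ + cos χ * tan θ = -sin (χ - θ) / cos θ := by
        rw [sin_sub, tan_eq_sin_div_cos]
        field_simp
        ring
      rw [h8]
      apply div_nonpos_of_nonpos_of_nonneg _ hcθ.le
      linarith
  have hB : ∫ θ in χ..θL, max 0 (D.g r (sin χ) (cos χ) θ) =
      ∫ θ in χ..θL, (-sin χ + cos χ * tan θ) / r := by
    apply intervalIntegral.integral_congr_ae
    have hae : ∀ᵐ x : ℝ, x ≠ θL := by
      rw [ae_iff]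
      simp
    filter_upwards [hae] with θ hne hθ
    rw [uIoc_of_le hχL.le] at hθ
    have hlt : θ < θL := lt_of_le_of_ne hθ.2 hne
    have h5 : cos θL < cos θ := hanti (by linarith [hθ.1]) hlt (by linarith)
    have h6 := mul_lt_mul_of_pos_left h5 hr0
    unfold Dat.g
    rw [if_pos (by linarith)]
    apply max_eq_right
    apply div_nonneg _ hr0.le
    have h7 : 0 ≤ sin (θ - χ) := sin_nonneg_of_nonneg_of_le_pi (by linarith [hθ.1])
      (by linarith [hθ.1])
    have hcθ : 0 < cos θ := cos_pos_of_mem_Ioo ⟨by linarith [hθ.1], by linarith⟩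
    have h8 : -sin χ + cos χ * tan θ = sin (θ - χ) / cos θ := by
      rw [sin_sub, tan_eq_sin_div_cos]
      field_simp
      ring
    rw [h8]
    positivity
  have hC : ∫ θ in θL..θq, max 0 (D.g r (sin χ) (cos χ) θ) =
      ∫ θ in θL..θq, D.gs r (sin χ) (cos χ) (cos θ) (sin θ) := by
    apply intervalIntegral.integral_congr_ae
    have hae : ∀ᵐ x : ℝ, x ≠ θq := by
      rw [ae_iff]
      simp
    filter_upwards [hae] with θ hne hθ
    rw [uIoc_of_le hLq.le] at hθ
    have hlt : θ < θq := lt_of_le_of_ne hθ.2 hne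
    have h5 : cos θq < cos θ := hanti (by linarith [hθ.1]) hlt hθq_le
    have h6 := mul_lt_mul_of_pos_left h5 hr0
    have h7 : cos θ < cos θL := hanti hθL0 hθ.1 (by linarith)
    have h8 := mul_lt_mul_of_pos_left h7 hr0
    have h9 : ¬ (D.xL < r * cos θ) := by linarith
    unfold Dat.g
    rw [if_neg h9, if_pos (by linarith)]
    apply max_eq_right
    exact hP θ (by linarith [hθ.1]) (by linarith) (by linarith) (by linarith)
  have hE : ∫ θ in θq..π, max 0 (D.g r (sin χ) (cos χ) θ) = 0 := by
    rw [intervalIntegral.integral_congr (g := fun _ => (0:ℝ))]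
    · simp
    · intro θ hθ
      rw [uIcc_of_le hθq_le] at hθ
      apply max_eq_left
      have h5 : cos θ ≤ cos θq := cos_le_cos_of_nonneg_of_le_pi (arccos_nonneg _) hθ.2 hθ.1
      have h6 := mul_le_mul_of_nonneg_left h5 hr0.le
      have h9 : ¬ (D.xL < r * cos θ) := by linarith
      have h10 : ¬ (-(1 / D.ρ) < r * cos θ) := by linarith
      unfold Dat.g
      rw [if_neg h9, if_neg h10]
      norm_num
  rw [hA, hB, hC, hE, integral_gs D hr0.ne', integral_L hχL.le h0 hθL2]
  -- boundary values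
  have hb1 : D.b (-(r * cos θq)) (D.W r) = 0 := by
    rw [hcqr, neg_neg]
    unfold Dat.b
    rw [hD.e0, hD.e2, hD.e3, hD.e4]
    ring
  have hb2 : D.b (-(r * cos θL)) (D.W r) = log (D.ρ * D.xL) := by
    rw [hcLr]
    unfold Dat.b
    rw [hD.f0, hD.f2, hD.f3, hD.f4]
    ring
  rw [hb1, hb2]
  unfold mC
  rw [← hθL, ← hθq]
  set Is := ∫ θ in θL..θq, brs D r θ with hIs
  -- the logarithms
  have hcen := h.central hr h0' h1 hk0 hk2
  have hlog1 : log (cos χ / cos ω * (r / sin α)) = log (D.ρ * D.xL) - log (cos θL) + log (cos χ) := by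
    rw [hcL, Real.log_mul hρ0.ne' hxL0.ne', Real.log_div hxL0.ne' hr0.ne']
    have hcw := h.cos_w_pos
    have hSa : 0 < sin α := by linarith
    have : cos χ / cos ω * (r / sin α) = D.ρ * r * cos χ := by
      rw [hρ]
      field_simp
    rw [this, Real.log_mul (by positivity) hcχ.ne', Real.log_mul hρ0.ne' hr0.ne']
    ring
  rw [hlog1] at hcen
  have harg : -(sin α * cos ω) / r = -(1 / D.ρ) / r := by rw [hx1]
  rw [harg, ← hθq] at hcen
  set Xk := cX α ω r + k * |r - sin α| with hXk
  have e1 : π * (1 + (Xk - (θL - α) / r - Is) / π * (sin χ - r)) =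
      π + (Xk - (θL - α) / r - Is) * (sin χ - r) := by
    field_simp
  rw [e1]
  rw [← sub_nonneg]
  have e2 : π + (Xk - (θL - α) / r - Is) * (sin χ - r) -
      (0 + (-sin χ * (θL - χ) - cos χ * (log (cos θL) - log (cos χ))) / r +
        (-(θq - θL) - (sin χ - r) * Is - cos χ / r * (0 - log (D.ρ * D.xL))) + 0) =
      (r * (π + θq - χ) + (sin χ - r) * (r * Xk + (α - χ)) -
        cos χ * (log (D.ρ * D.xL) - log (cos θL) + log (cos χ))) / r := by
    field_simp
    ring
  rw [e2]
  exact div_nonneg hcen hr0.le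

end Pool.Agent.H4.Shore
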