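import Mathlib
import Pool.Agent.H44.Shore.Grid
import Pool.Agent.H44.Shore.Kb
import Pool.Agent.H4.Shore.Link

/-!
Shoreline search: two-sided second derivative bounds for the strip integrand and for its radial
coefficient, and two-sided interpolation.
-/

open Real Set MeasureTheory

namespace Pool.Agent.H4.Shore

open Pool.Agent.H44.Shore

/-- the constant in the second derivative bound for the radial coefficient -/
noncomputable def KR (rB M10 M20 M30 M01 M11 M21 M02 M12 M03 rb a e : ℝ) : ℝ :=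
  let X1 := a + rb * e
  let X2 := 2 * a * e + rb * e ^ 2
  let W1 := 2 * rb * a / rB ^ 2
  let W2 := 2 * a ^ 2 / rB ^ 2
  let p1 := M20 * X1 + M11 * W1
  let p2 := M30 * X1 ^ 2 + 2 * (M21 * (X1 * W1)) + M12 * W1 ^ 2 + M20 * X2 + M11 * W2
  let q1 := M11 * X1 + M02 * W1
  let q2 := M21 * X1 ^ 2 + 2 * (M12 * (X1 * W1)) + M03 * W1 ^ 2 + M11 * X2 + M02 * W2
  (p2 * 1 + 2 * (p1 * e) + M10 * e ^ 2) + (0 * M01 + 2 * (2 * a / rB ^ 2 * q1) +
    2 * rb / rB ^ 2 * q2)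

/-- two-sided second derivative bound along a line: the integrand -/
theorem gs_line2 {D : Dat} {xa xb wa wb M10 M20 M30 M01 M11 M21 M02 M12 M03 : ℝ}
    (hM : MB D xa xb wa wb M10 M20 M30 M01 M11 M21 M02 M12 M03)
    (hrB : 0 < D.rB) {V rb a e : ℝ} (hV : 0 ≤ V) (hrb : rb ≤ D.rB)
    {vr u : ℝ} (hv : vr ^ 2 + u ^ 2 ≤ V ^ 2) {r0 dr θ0 dθ lo hi : ℝ}
    (hdr : |dr| ≤ a) (hdθ : |dθ| ≤ e)
    (hr : ∀ t ∈ Icc lo hi, 0 ≤ r0 + t * dr ∧ r0 + t * dr ≤ rb)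
    (hw : ∀ t ∈ Icc lo hi, 1 - (r0 + t * dr) ^ 2 / D.rB ^ 2 ∈ Icc wa wb)
    (hx : ∀ t ∈ Icc lo hi, -((r0 + t * dr) * Real.cos (θ0 + t * dθ)) ∈ Icc xa xb)
    {K : ℝ} (hK : KB D.rB M10 M20 M30 M01 M11 M21 M02 M12 M03 V rb a e ≤ K) :
    ConvexOn ℝ (Icc lo hi) (fun t => -D.gs (r0 + t * dr) vr u (Real.cos (θ0 + t * dθ))
      (Real.sin (θ0 + t * dθ)) + K * t ^ 2 / 2) := by
  have Cx := C2_x r0 dr θ0 dθ
  have Cw := C2_w r0 dr (D.rB ^ 2)
  have Cp := D.C2_bd 1 0 Cx Cw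
  have Cq := D.C2_bd 0 1 Cx Cw
  have CU := C2_U r0 dr θ0 dθ vr u
  have CQ := C2_Q r0 dr vr (D.rB ^ 2)
  have Cf := (C2_comb Cp CU CQ Cq).neg
  have hB2 : 0 < D.rB ^ 2 := by positivity
  refine ConvexOn.congr (Cf.semiconvex (a := lo) (b := hi) (K := K) ?_) ?_
  · intro t ht
    rw [abs_neg]
    obtain ⟨hr1, hr2⟩ := hr t ht
    have hx' := hx t ht
    have hw' := hw t ht
    refine le_trans ?_ hK
    unfold KB
    simp only [Nat.reduceAdd, zero_add]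
    clear Cf CQ CU Cq Cp Cw Cx
    set r := r0 + t * dr with hrdef
    set c := Real.cos (θ0 + t * dθ) with hc
    set s := Real.sin (θ0 + t * dθ) with hs
    have hc1 : |c| ≤ 1 := Real.abs_cos_le_one _
    have hs1 : |s| ≤ 1 := Real.abs_sin_le_one _
    have hrb0 : 0 ≤ rb := hr1.trans hr2
    have hra : |r| ≤ rb := by rwa [abs_of_nonneg hr1]
    have ha0 : 0 ≤ a := (abs_nonneg _).trans hdr
    have he0 : 0 ≤ e := (abs_nonneg _).trans hdθ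
    have h2 : |(2:ℝ)| ≤ 2 := by norm_num
    have hdθ2 : |dθ ^ 2| ≤ e ^ 2 := by
      rw [sq, sq]
      exact abs_mul_le hdθ hdθ
    have hdr2 : |dr ^ 2| ≤ a ^ 2 := by
      rw [sq, sq]
      exact abs_mul_le hdr hdr
    have eX1 : |-(dr * c) + r * (dθ * s)| ≤ a + rb * e := by
      refine (abs_add_le' (B := rb * (e * 1)) (A := a * 1) ?_ ?_).trans (le_of_eq (by ring))
      · rw [abs_neg]
        exact abs_mul_le hdr hc1
      · exact abs_mul_le hra (abs_mul_le hdθ hs1)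
    have eX2 : |2 * (dr * (dθ * s)) + r * (dθ ^ 2 * c)| ≤ 2 * a * e + rb * e ^ 2 := by
      refine (abs_add_le' (abs_mul_le h2 (abs_mul_le hdr (abs_mul_le hdθ hs1)))
        (abs_mul_le hra (abs_mul_le hdθ2 hc1))).trans (le_of_eq (by ring))
    have hBi : |(1:ℝ) / D.rB ^ 2| ≤ 1 / D.rB ^ 2 := by
      rw [abs_of_nonneg (by positivity)]
    have eW1 : |-(2 * r * dr / D.rB ^ 2)| ≤ 2 * rb * a / D.rB ^ 2 := by
      rw [abs_neg, show 2 * r * dr / D.rB ^ 2 = 2 * (r * dr) * (1 / D.rB ^ 2) by ring]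
      refine (abs_mul_le (abs_mul_le h2 (abs_mul_le hra hdr)) hBi).trans (le_of_eq (by ring))
    have eW2 : |-(2 * dr ^ 2 / D.rB ^ 2)| ≤ 2 * a ^ 2 / D.rB ^ 2 := by
      rw [abs_neg, show 2 * dr ^ 2 / D.rB ^ 2 = 2 * dr ^ 2 * (1 / D.rB ^ 2) by ring]
      refine (abs_mul_le (abs_mul_le h2 hdr2) hBi).trans (le_of_eq (by ring))
    have eU : |-(vr * c) + u * s + r * c| ≤ rb + V := by
      have h3 : |(-vr) * c + u * s| ≤ V := abs_cs _ _ _ _ hV (by nlinarith)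
      have h4 : |r * c| ≤ rb * 1 := abs_mul_le hra hc1
      have h5 : -(vr * c) + u * s + r * c = ((-vr) * c + u * s) + r * c := by ring
      rw [h5]
      linarith [abs_add_le' h3 h4]
    have eU1 : |dr * c + (dθ * (u * c + vr * s) - r * (dθ * s))| ≤ a + (rb + V) * e := by
      have h3 : |u * c + vr * s| ≤ V := abs_cs _ _ _ _ hV (by nlinarith)
      refine (abs_add_le' (abs_mul_le hdr hc1) (abs_sub_le' (abs_mul_le hdθ h3)
        (abs_mul_le hra (abs_mul_le hdθ hs1)))).trans (le_of_eq (by ring))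
    have eU2 : |-(2 * (dr * (dθ * s))) + (dθ ^ 2 * (vr * c + (-u) * s) - r * (dθ ^ 2 * c))| ≤
        2 * a * e + (rb + V) * e ^ 2 := by
      have h3 : |vr * c + (-u) * s| ≤ V := abs_cs _ _ _ _ hV (by nlinarith)
      refine (abs_add_le' (A := 2 * (a * (e * 1))) ?_ (abs_sub_le' (abs_mul_le hdθ2 h3)
        (abs_mul_le hra (abs_mul_le hdθ2 hc1)))).trans (le_of_eq (by ring))
      rw [abs_neg]
      exact abs_mul_le h2 (abs_mul_le hdr (abs_mul_le hdθ hs1))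
    have hvr : |vr| ≤ V := abs_le_of_sq_le_sq (by nlinarith [sq_nonneg u]) hV
    have eQ : |2 * r / D.rB ^ 2 * (vr - r)| ≤ 2 * rb / D.rB ^ 2 * (V + rb) := by
      rw [show 2 * r / D.rB ^ 2 * (vr - r) = 2 * r * (1 / D.rB ^ 2) * (vr - r) by ring]
      refine (abs_mul_le (abs_mul_le (abs_mul_le h2 hra) hBi)
        (abs_sub_le' hvr hra)).trans (le_of_eq (by ring))
    have eQ1 : |2 / D.rB ^ 2 * (vr - 2 * r) * dr| ≤ 2 / D.rB ^ 2 * (V + 2 * rb) * a := by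
      rw [show 2 / D.rB ^ 2 * (vr - 2 * r) * dr = 2 * (1 / D.rB ^ 2) * (vr - 2 * r) * dr by ring]
      refine (abs_mul_le (abs_mul_le (abs_mul_le h2 hBi)
        (abs_sub_le' hvr (abs_mul_le h2 hra))) hdr).trans (le_of_eq (by ring))
    have eQ2 : |-(4 / D.rB ^ 2 * dr ^ 2)| ≤ 4 / D.rB ^ 2 * a ^ 2 := by
      have h4 : |(4:ℝ)| ≤ 4 := by norm_num
      rw [abs_neg, show 4 / D.rB ^ 2 * dr ^ 2 = 4 * (1 / D.rB ^ 2) * dr ^ 2 by ring]
      refine (abs_mul_le (abs_mul_le h4 hBi) hdr2).trans (le_of_eq (by ring))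
    have hx2 : -(r * c) ∈ Icc xa xb := hx'
    exact comb_bound (hM.m10 _ hx2 _ hw')
      (bd_bound1 (hM.m20 _ hx2 _ hw') (hM.m11 _ hx2 _ hw') eX1 eW1)
      (bd_bound2 (hM.m30 _ hx2 _ hw') (hM.m21 _ hx2 _ hw') (hM.m12 _ hx2 _ hw')
        (hM.m20 _ hx2 _ hw') (hM.m11 _ hx2 _ hw') eX1 eW1 eX2 eW2) eU eU1 eU2 eQ eQ1 eQ2
      (hM.m01 _ hx2 _ hw')
      (bd_bound1 (hM.m11 _ hx2 _ hw') (hM.m02 _ hx2 _ hw') eX1 eW1)
      (bd_bound2 (hM.m21 _ hx2 _ hw') (hM.m12 _ hx2 _ hw') (hM.m03 _ hx2 _ hw')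
        (hM.m11 _ hx2 _ hw') (hM.m02 _ hx2 _ hw') eX1 eW1 eX2 eW2)
  · intro t ht
    obtain ⟨hr1, hr2⟩ := hr t ht
    have hW : D.W (r0 + t * dr) = 1 - (r0 + t * dr) ^ 2 / D.rB ^ 2 := by
      unfold Dat.W
      have h1 : (r0 + t * dr) ^ 2 / D.rB ^ 2 ≤ 1 := by
        rw [div_le_one (by positivity)]
        have := hr2.trans hrb
        gcongr
      rw [max_eq_right (by linarith)]
    simp only
    unfold Dat.gs
    rw [hW, Dat.bx_eq, Dat.bw_eq]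

theorem brs_eq_gs (D : Dat) (r θ : ℝ) :
    brs D r θ = D.gs r 0 0 (cos θ) (sin θ) - D.gs r 1 0 (cos θ) (sin θ) := by
  unfold brs Dat.gs
  ring

/-- the two second derivatives of the radial coefficient: convexity after adding a parabola -/
theorem brs_line {D : Dat} {xa xb wa wb M10 M20 M30 M01 M11 M21 M02 M12 M03 : ℝ}
    (hM : MB D xa xb wa wb M10 M20 M30 M01 M11 M21 M02 M12 M03)
    (hrB : 0 < D.rB) {rb a e : ℝ} (hrb : rb ≤ D.rB)
    {r0 dr θ0 dθ lo hi : ℝ}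
    (hdr : |dr| ≤ a) (hdθ : |dθ| ≤ e)
    (hr : ∀ t ∈ Icc lo hi, 0 ≤ r0 + t * dr ∧ r0 + t * dr ≤ rb)
    (hw : ∀ t ∈ Icc lo hi, 1 - (r0 + t * dr) ^ 2 / D.rB ^ 2 ∈ Icc wa wb)
    (hx : ∀ t ∈ Icc lo hi, -((r0 + t * dr) * Real.cos (θ0 + t * dθ)) ∈ Icc xa xb)
    {K : ℝ} (hK : KR D.rB M10 M20 M30 M01 M11 M21 M02 M12 M03 rb a e ≤ K) (σ : ℝ)
    (hσ : |σ| ≤ 1) :
    ConvexOn ℝ (Icc lo hi) (fun t => σ * brs D (r0 + t * dr) (θ0 + t * dθ) + K * t ^ 2 / 2) := by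
  have Cx := C2_x r0 dr θ0 dθ
  have Cw := C2_w r0 dr (D.rB ^ 2)
  have Cp := D.C2_bd 1 0 Cx Cw
  have Cq := D.C2_bd 0 1 Cx Cw
  have CU := (C2.cos_line θ0 dθ).neg
  have CQ := (C2.const (2 / D.rB ^ 2)).mul (C2.line r0 dr)
  have Cf := (((C2_comb Cp CU CQ Cq).add (C2.const 1)).mul (C2.const (-σ)))
  have hB2 : 0 < D.rB ^ 2 := by positivity
  refine ConvexOn.congr (Cf.semiconvex (a := lo) (b := hi) (K := K) ?_) ?_
  · intro t ht
    obtain ⟨hr1, hr2⟩ := hr t ht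
    have hx' := hx t ht
    have hw' := hw t ht
    refine le_trans ?_ hK
    unfold KR
    simp only [Nat.reduceAdd, zero_add]
    clear Cf CQ CU Cq Cp Cw Cx
    set r := r0 + t * dr with hrdef
    set c := Real.cos (θ0 + t * dθ) with hc
    set s := Real.sin (θ0 + t * dθ) with hs
    have hc1 : |c| ≤ 1 := Real.abs_cos_le_one _
    have hs1 : |s| ≤ 1 := Real.abs_sin_le_one _
    have hrb0 : 0 ≤ rb := hr1.trans hr2
    have hra : |r| ≤ rb := by rwa [abs_of_nonneg hr1]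
    have ha0 : 0 ≤ a := (abs_nonneg _).trans hdr
    have he0 : 0 ≤ e := (abs_nonneg _).trans hdθ
    have h2 : |(2:ℝ)| ≤ 2 := by norm_num
    have hdθ2 : |dθ ^ 2| ≤ e ^ 2 := by
      rw [sq, sq]
      exact abs_mul_le hdθ hdθ
    have hdr2 : |dr ^ 2| ≤ a ^ 2 := by
      rw [sq, sq]
      exact abs_mul_le hdr hdr
    have eX1 : |-(dr * c) + r * (dθ * s)| ≤ a + rb * e := by
      refine (abs_add_le' (B := rb * (e * 1)) (A := a * 1) ?_ ?_).trans (le_of_eq (by ring))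
      · rw [abs_neg]
        exact abs_mul_le hdr hc1
      · exact abs_mul_le hra (abs_mul_le hdθ hs1)
    have eX2 : |2 * (dr * (dθ * s)) + r * (dθ ^ 2 * c)| ≤ 2 * a * e + rb * e ^ 2 := by
      refine (abs_add_le' (abs_mul_le h2 (abs_mul_le hdr (abs_mul_le hdθ hs1)))
        (abs_mul_le hra (abs_mul_le hdθ2 hc1))).trans (le_of_eq (by ring))
    have hBi : |(1:ℝ) / D.rB ^ 2| ≤ 1 / D.rB ^ 2 := by
      rw [abs_of_nonneg (by positivity)]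
    have eW1 : |-(2 * r * dr / D.rB ^ 2)| ≤ 2 * rb * a / D.rB ^ 2 := by
      rw [abs_neg, show 2 * r * dr / D.rB ^ 2 = 2 * (r * dr) * (1 / D.rB ^ 2) by ring]
      refine (abs_mul_le (abs_mul_le h2 (abs_mul_le hra hdr)) hBi).trans (le_of_eq (by ring))
    have eW2 : |-(2 * dr ^ 2 / D.rB ^ 2)| ≤ 2 * a ^ 2 / D.rB ^ 2 := by
      rw [abs_neg, show 2 * dr ^ 2 / D.rB ^ 2 = 2 * dr ^ 2 * (1 / D.rB ^ 2) by ring]
      refine (abs_mul_le (abs_mul_le h2 hdr2) hBi).trans (le_of_eq (by ring))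
    have eU : |-c| ≤ 1 := by rwa [abs_neg]
    have eU1 : |-(-(dθ * s))| ≤ e := by
      rw [neg_neg]
      exact (abs_mul_le hdθ hs1).trans (by rw [mul_one])
    have eU2 : |-(-(dθ ^ 2 * c))| ≤ e ^ 2 := by
      rw [neg_neg]
      exact (abs_mul_le hdθ2 hc1).trans (by rw [mul_one])
    have eQ : |2 / D.rB ^ 2 * r| ≤ 2 * rb / D.rB ^ 2 := by
      rw [show 2 / D.rB ^ 2 * r = 2 * (1 / D.rB ^ 2) * r by ring]
      refine (abs_mul_le (abs_mul_le h2 hBi) hra).trans (le_of_eq (by ring))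
    have eQ1 : |0 * r + 2 / D.rB ^ 2 * dr| ≤ 2 * a / D.rB ^ 2 := by
      rw [show 0 * r + 2 / D.rB ^ 2 * dr = 2 * (1 / D.rB ^ 2) * dr by ring]
      refine (abs_mul_le (abs_mul_le h2 hBi) hdr).trans (le_of_eq (by ring))
    have eQ2 : |0 * r + 2 * (0 * dr) + 2 / D.rB ^ 2 * 0| ≤ 0 := by simp
    have hx2 : -(r * c) ∈ Icc xa xb := hx'
    have hcb := comb_bound (hM.m10 _ hx2 _ hw')
      (bd_bound1 (hM.m20 _ hx2 _ hw') (hM.m11 _ hx2 _ hw') eX1 eW1)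
      (bd_bound2 (hM.m30 _ hx2 _ hw') (hM.m21 _ hx2 _ hw') (hM.m12 _ hx2 _ hw')
        (hM.m20 _ hx2 _ hw') (hM.m11 _ hx2 _ hw') eX1 eW1 eX2 eW2) eU eU1 eU2 eQ eQ1 eQ2
      (hM.m01 _ hx2 _ hw')
      (bd_bound1 (hM.m11 _ hx2 _ hw') (hM.m02 _ hx2 _ hw') eX1 eW1)
      (bd_bound2 (hM.m21 _ hx2 _ hw') (hM.m12 _ hx2 _ hw') (hM.m03 _ hx2 _ hw')
        (hM.m11 _ hx2 _ hw') (hM.m02 _ hx2 _ hw') eX1 eW1 eX2 eW2)
    have hσ' : |(-σ)| ≤ 1 := by rwa [abs_neg]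
    have hfin := abs_mul_le hcb hσ'
    rw [mul_one] at hfin
    refine le_trans (le_of_eq ?_) hfin
    congr 1
    ring
  · intro t ht
    obtain ⟨hr1, hr2⟩ := hr t ht
    have hW : D.W (r0 + t * dr) = 1 - (r0 + t * dr) ^ 2 / D.rB ^ 2 := by
      unfold Dat.W
      have h1 : (r0 + t * dr) ^ 2 / D.rB ^ 2 ≤ 1 := by
        rw [div_le_one (by positivity)]
        have := hr2.trans hrb
        gcongr
      rw [max_eq_right (by linarith)]
    simp only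
    unfold brs
    rw [hW, Dat.bx_eq, Dat.bw_eq]
    ring

end Pool.Agent.H4.Shore
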