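import Mathlib
import Pool.Agent.H4.Shore.TwoSided
import Pool.Agent.H4.Shore.StripInt

/-!
Shoreline search: the grid hypotheses for the integrand and its radial coefficient from sup norm
bounds.
-/

open Real Set MeasureTheory

namespace Pool.Agent.H4.Shore

open Pool.Agent.H44.Shore

/-- the range of the abscissa on a cell of the polar grid -/
theorem x_range {r0 r1 A B xa xb : ℝ} (h0 : 0 ≤ r0) (hA : 0 ≤ A) (hB : B ≤ π)
    (hcA : 0 ≤ cos A) (hcB : cos B ≤ 0) (h1 : r1 * cos A ≤ -xa) (h2 : -(r1 * cos B) ≤ xb)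
    {r θ : ℝ} (hr : r ∈ Icc r0 r1) (hθ : θ ∈ Icc A B) : -(r * cos θ) ∈ Icc xa xb := by
  have hr0 : 0 ≤ r := h0.trans hr.1
  have c1 : cos θ ≤ cos A := cos_le_cos_of_nonneg_of_le_pi hA (hθ.2.trans hB) hθ.1
  have c2 : cos B ≤ cos θ := cos_le_cos_of_nonneg_of_le_pi (hA.trans hθ.1) hB hθ.2
  constructor
  · have e1 : r * cos θ ≤ r * cos A := mul_le_mul_of_nonneg_left c1 hr0
    have e2 : r * cos A ≤ r1 * cos A := mul_le_mul_of_nonneg_right hr.2 hcA
    linarith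
  · have e1 : r * cos B ≤ r * cos θ := mul_le_mul_of_nonneg_left c2 hr0
    have e2 : r1 * cos B ≤ r * cos B := by nlinarith [hr.2]
    linarith

section

variable {D : Dat} {xa xb wa wb M10 M20 M30 M01 M11 M21 M02 M12 M03 : ℝ}

theorem w_range {ra rb r : ℝ} (hrB : 0 < D.rB) (hra : 0 ≤ ra)
    (hwa : wa ≤ 1 - rb ^ 2 / D.rB ^ 2) (hwb : 1 - ra ^ 2 / D.rB ^ 2 ≤ wb)
    (h1 : ra ≤ r) (h2 : r ≤ rb) : 1 - r ^ 2 / D.rB ^ 2 ∈ Icc wa wb := by
  have h0 : 0 ≤ r := hra.trans h1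
  constructor
  · refine hwa.trans ?_
    have : r ^ 2 / D.rB ^ 2 ≤ rb ^ 2 / D.rB ^ 2 := by gcongr
    linarith
  · refine le_trans ?_ hwb
    have : ra ^ 2 / D.rB ^ 2 ≤ r ^ 2 / D.rB ^ 2 := by gcongr
    linarith

theorem sgrid_brs (hM : MB D xa xb wa wb M10 M20 M30 M01 M11 M21 M02 M12 M03)
    (hrB : 0 < D.rB) {ra rb r0 r1 δ Kr Kt : ℝ} {a b : ℕ} (hra : 0 ≤ ra) (h0 : ra ≤ r0)
    (h01 : r0 ≤ r1) (h1 : r1 ≤ rb) (hrb : rb ≤ D.rB)
    (hwa : wa ≤ 1 - rb ^ 2 / D.rB ^ 2) (hwb : 1 - ra ^ 2 / D.rB ^ 2 ≤ wb)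
    (hδ : 0 < δ) (hab : a ≤ b)
    (hx : ∀ r ∈ Icc r0 r1, ∀ θ ∈ Icc ((a:ℝ) * δ) (((b:ℝ) + 1) * δ), -(r * cos θ) ∈ Icc xa xb)
    (hKr0 : 0 ≤ Kr) (hKt0 : 0 ≤ Kt)
    (hKr : KR D.rB M10 M20 M30 M01 M11 M21 M02 M12 M03 rb 1 0 ≤ Kr)
    (hKt : KR D.rB M10 M20 M30 M01 M11 M21 M02 M12 M03 rb 0 1 ≤ Kt) {σ : ℝ} (hσ : |σ| ≤ 1) :
    SGrid (fun r θ => σ * brs D r θ) r0 r1 δ a b Kr Kt := by
  refine ⟨hδ, hab, h01, hKr0, hKt0, ?_, ?_⟩
  · intro j hj hj'
    have hθ : (j:ℝ) * δ ∈ Icc ((a:ℝ) * δ) (((b:ℝ) + 1) * δ) := by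
      have e1 : (a:ℝ) ≤ j := by exact_mod_cast hj
      have e2 : (j:ℝ) ≤ (b:ℝ) + 1 := by exact_mod_cast hj'
      constructor <;> gcongr
    have h := brs_line hM hrB hrb (r0 := 0) (dr := 1) (θ0 := (j:ℝ) * δ) (dθ := 0) (lo := r0)
      (hi := r1) (a := 1) (e := 0) (by simp) (by simp)
      (by
        intro t ht
        constructor <;> linarith [ht.1, ht.2])
      (by
        intro t ht
        have e : (0:ℝ) + t * 1 = t := by ring
        rw [e]
        exact w_range hrB hra hwa hwb (h0.trans ht.1) (ht.2.trans h1))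
      (by
        intro t ht
        have e : (0:ℝ) + t * 1 = t := by ring
        rw [e, mul_zero, add_zero]
        exact hx t ht _ hθ)
      hKr σ hσ
    refine h.congr ?_
    intro t _
    simp
  · intro r hr
    have h := brs_line hM hrB hrb (r0 := r) (dr := 0) (θ0 := 0) (dθ := 1)
      (lo := (a:ℝ) * δ) (hi := ((b:ℝ) + 1) * δ) (a := 0) (e := 1) (by simp) (by simp)
      (by
        intro t ht
        constructor <;> linarith [hr.1, hr.2])
      (by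
        intro t ht
        have e : r + t * 0 = r := by ring
        rw [e]
        exact w_range hrB hra hwa hwb (h0.trans hr.1) (hr.2.trans h1))
      (by
        intro t ht
        have e : r + t * 0 = r := by ring
        have e2 : (0:ℝ) + t * 1 = t := by ring
        rw [e, e2]
        exact hx r hr _ ht)
      hKt σ hσ
    refine h.congr ?_
    intro t _
    simp

/-- upper side for the integrand -/
theorem sgrid_gs (hM : MB D xa xb wa wb M10 M20 M30 M01 M11 M21 M02 M12 M03)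
    (hrB : 0 < D.rB) {ra rb r0 r1 δ Kr Kt V : ℝ} {a b : ℕ} (hra : 0 ≤ ra) (h0 : ra ≤ r0)
    (h01 : r0 ≤ r1) (h1 : r1 ≤ rb) (hrb : rb ≤ D.rB)
    (hwa : wa ≤ 1 - rb ^ 2 / D.rB ^ 2) (hwb : 1 - ra ^ 2 / D.rB ^ 2 ≤ wb)
    (hδ : 0 < δ) (hab : a ≤ b)
    (hx : ∀ r ∈ Icc r0 r1, ∀ θ ∈ Icc ((a:ℝ) * δ) (((b:ℝ) + 1) * δ), -(r * cos θ) ∈ Icc xa xb)
    (hKr0 : 0 ≤ Kr) (hKt0 : 0 ≤ Kt) (hV : 0 ≤ V)
    (hKr : KB D.rB M10 M20 M30 M01 M11 M21 M02 M12 M03 V rb 1 0 ≤ Kr)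
    (hKt : KB D.rB M10 M20 M30 M01 M11 M21 M02 M12 M03 V rb 0 1 ≤ Kt)
    {vr vt : ℝ} (hv : vr ^ 2 + vt ^ 2 ≤ V ^ 2) :
    SGrid (fun r θ => D.gs r vr vt (cos θ) (sin θ)) r0 r1 δ a b Kr Kt := by
  refine ⟨hδ, hab, h01, hKr0, hKt0, ?_, ?_⟩
  · intro j hj hj'
    have hθ : (j:ℝ) * δ ∈ Icc ((a:ℝ) * δ) (((b:ℝ) + 1) * δ) := by
      have e1 : (a:ℝ) ≤ j := by exact_mod_cast hj
      have e2 : (j:ℝ) ≤ (b:ℝ) + 1 := by exact_mod_cast hj'
      constructor <;> gcongr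
    have h := gs_line hM hrB hV hrb hv (r0 := 0) (dr := 1) (θ0 := (j:ℝ) * δ) (dθ := 0) (lo := r0)
      (hi := r1) (a := 1) (e := 0) (by simp) (by simp)
      (by
        intro t ht
        constructor <;> linarith [ht.1, ht.2])
      (by
        intro t ht
        have e : (0:ℝ) + t * 1 = t := by ring
        rw [e]
        exact w_range hrB hra hwa hwb (h0.trans ht.1) (ht.2.trans h1))
      (by
        intro t ht
        have e : (0:ℝ) + t * 1 = t := by ring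
        rw [e, mul_zero, add_zero]
        exact hx t ht _ hθ)
      hKr
    refine h.congr ?_
    intro t _
    simp
  · intro r hr
    have h := gs_line hM hrB hV hrb hv (r0 := r) (dr := 0) (θ0 := 0) (dθ := 1)
      (lo := (a:ℝ) * δ) (hi := ((b:ℝ) + 1) * δ) (a := 0) (e := 1) (by simp) (by simp)
      (by
        intro t ht
        constructor <;> linarith [hr.1, hr.2])
      (by
        intro t ht
        have e : r + t * 0 = r := by ring
        rw [e]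
        exact w_range hrB hra hwa hwb (h0.trans hr.1) (hr.2.trans h1))
      (by
        intro t ht
        have e : r + t * 0 = r := by ring
        have e2 : (0:ℝ) + t * 1 = t := by ring
        rw [e, e2]
        exact hx r hr _ ht)
      hKt
    refine h.congr ?_
    intro t _
    simp

/-- lower side for the integrand -/
theorem sgrid_neg_gs (hM : MB D xa xb wa wb M10 M20 M30 M01 M11 M21 M02 M12 M03)
    (hrB : 0 < D.rB) {ra rb r0 r1 δ Kr Kt V : ℝ} {a b : ℕ} (hra : 0 ≤ ra) (h0 : ra ≤ r0)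
    (h01 : r0 ≤ r1) (h1 : r1 ≤ rb) (hrb : rb ≤ D.rB)
    (hwa : wa ≤ 1 - rb ^ 2 / D.rB ^ 2) (hwb : 1 - ra ^ 2 / D.rB ^ 2 ≤ wb)
    (hδ : 0 < δ) (hab : a ≤ b)
    (hx : ∀ r ∈ Icc r0 r1, ∀ θ ∈ Icc ((a:ℝ) * δ) (((b:ℝ) + 1) * δ), -(r * cos θ) ∈ Icc xa xb)
    (hKr0 : 0 ≤ Kr) (hKt0 : 0 ≤ Kt) (hV : 0 ≤ V)
    (hKr : KB D.rB M10 M20 M30 M01 M11 M21 M02 M12 M03 V rb 1 0 ≤ Kr)
    (hKt : KB D.rB M10 M20 M30 M01 M11 M21 M02 M12 M03 V rb 0 1 ≤ Kt)
    {vr vt : ℝ} (hv : vr ^ 2 + vt ^ 2 ≤ V ^ 2) :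
    SGrid (fun r θ => -D.gs r vr vt (cos θ) (sin θ)) r0 r1 δ a b Kr Kt := by
  refine ⟨hδ, hab, h01, hKr0, hKt0, ?_, ?_⟩
  · intro j hj hj'
    have hθ : (j:ℝ) * δ ∈ Icc ((a:ℝ) * δ) (((b:ℝ) + 1) * δ) := by
      have e1 : (a:ℝ) ≤ j := by exact_mod_cast hj
      have e2 : (j:ℝ) ≤ (b:ℝ) + 1 := by exact_mod_cast hj'
      constructor <;> gcongr
    have h := gs_line2 hM hrB hV hrb hv (r0 := 0) (dr := 1) (θ0 := (j:ℝ) * δ) (dθ := 0) (lo := r0)
      (hi := r1) (a := 1) (e := 0) (by simp) (by simp)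
      (by
        intro t ht
        constructor <;> linarith [ht.1, ht.2])
      (by
        intro t ht
        have e : (0:ℝ) + t * 1 = t := by ring
        rw [e]
        exact w_range hrB hra hwa hwb (h0.trans ht.1) (ht.2.trans h1))
      (by
        intro t ht
        have e : (0:ℝ) + t * 1 = t := by ring
        rw [e, mul_zero, add_zero]
        exact hx t ht _ hθ)
      hKr
    refine h.congr ?_
    intro t _
    simp
  · intro r hr
    have h := gs_line2 hM hrB hV hrb hv (r0 := r) (dr := 0) (θ0 := 0) (dθ := 1)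
      (lo := (a:ℝ) * δ) (hi := ((b:ℝ) + 1) * δ) (a := 0) (e := 1) (by simp) (by simp)
      (by
        intro t ht
        constructor <;> linarith [hr.1, hr.2])
      (by
        intro t ht
        have e : r + t * 0 = r := by ring
        rw [e]
        exact w_range hrB hra hwa hwb (h0.trans hr.1) (hr.2.trans h1))
      (by
        intro t ht
        have e : r + t * 0 = r := by ring
        have e2 : (0:ℝ) + t * 1 = t := by ring
        rw [e, e2]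
        exact hx r hr _ ht)
      hKt
    refine h.congr ?_
    intro t _
    simp

end

/-- a value in a cell is controlled by the grid values: upper side -/
theorem SGrid.le_of_nodes {G : ℝ → ℝ → ℝ} {r0 r1 δ Kr Kt M : ℝ} {a b : ℕ}
    (h : SGrid G r0 r1 δ a b Kr Kt)
    (hn : ∀ j : ℕ, a ≤ j → j ≤ b + 1 → G r0 (j * δ) ≤ M ∧ G r1 (j * δ) ≤ M)
    {r θ : ℝ} (hr : r ∈ Icc r0 r1) (hθ : θ ∈ Icc ((a:ℝ) * δ) (((b:ℝ) + 1) * δ)) :
    G r θ ≤ M + (Kr * (r1 - r0) ^ 2 / 8 + Kt * δ ^ 2 / 8) := by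
  have hδ := h.hδ
  -- the cell containing θ
  obtain ⟨j, hj1, hj2, hj3⟩ : ∃ j : ℕ, a ≤ j ∧ j ≤ b ∧
      θ ∈ Icc ((j:ℝ) * δ) (((j:ℝ) + 1) * δ) := by
    have h0 : 0 ≤ θ / δ := div_nonneg ((by positivity : (0:ℝ) ≤ a * δ).trans hθ.1) hδ.le
    by_cases hb : θ / δ < b + 1
    · refine ⟨⌊θ / δ⌋₊, ?_, ?_, ?_, ?_⟩
      · apply Nat.le_floor
        rw [le_div_iff₀ hδ]
        exact hθ.1
      · have : ⌊θ / δ⌋₊ < b + 1 := by
          rw [Nat.floor_lt h0]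
          exact_mod_cast hb
        omega
      · rw [← le_div_iff₀ hδ]
        exact Nat.floor_le h0
      · rw [← div_le_iff₀ hδ]
        exact (Nat.lt_floor_add_one _).le
    · push Not at hb
      refine ⟨b, h.hab, le_rfl, ?_, hθ.2⟩
      rw [le_div_iff₀ hδ] at hb
      nlinarith
  rcases eq_or_lt_of_le h.hr with he | hlt
  · -- degenerate row pair
    have e0 : r = r0 := le_antisymm (hr.2.trans he.symm.le) hr.1
    have hp := h.point (lam := 0) ⟨le_rfl, zero_le_one⟩ hj1 hj2 hj3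
    have e1 : lin r0 r1 0 = r0 := by unfold lin; ring
    rw [e1] at hp
    rw [e0]
    obtain ⟨n1, n2⟩ := hn j hj1 (by omega)
    obtain ⟨n3, n4⟩ := hn (j + 1) (by omega) (by omega)
    set μ := (θ - j * δ) / δ with hμ
    have hμ0 : 0 ≤ μ := div_nonneg (by linarith [hj3.1]) hδ.le
    have hμ1 : μ ≤ 1 := by
      rw [hμ, div_le_one hδ]
      linarith [hj3.2]
    nlinarith [mul_le_mul_of_nonneg_left n3 hμ0,
      mul_le_mul_of_nonneg_left n1 (by linarith : 0 ≤ 1 - μ)]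
  · obtain ⟨lam, hl, hrl⟩ : ∃ lam ∈ Icc (0:ℝ) 1, lin r0 r1 lam = r := by
      refine ⟨(r - r0) / (r1 - r0), ⟨div_nonneg (by linarith [hr.1]) (by linarith), ?_⟩, ?_⟩
      · rw [div_le_one (by linarith)]
        linarith [hr.2]
      · unfold lin
        have : r1 - r0 ≠ 0 := by linarith
        field_simp
        ring
    have hp := h.point hl hj1 hj2 hj3
    rw [hrl] at hp
    obtain ⟨n1, n2⟩ := hn j hj1 (by omega)
    obtain ⟨n3, n4⟩ := hn (j + 1) (by omega) (by omega)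
    set μ := (θ - j * δ) / δ with hμ
    have hμ0 : 0 ≤ μ := div_nonneg (by linarith [hj3.1]) hδ.le
    have hμ1 : μ ≤ 1 := by
      rw [hμ, div_le_one hδ]
      linarith [hj3.2]
    have hl0 := hl.1
    have hl1 : 0 ≤ 1 - lam := by linarith [hl.2]
    have p1 : (1 - lam) * G r0 (j * δ) + lam * G r1 (j * δ) ≤ M := by
      nlinarith [mul_le_mul_of_nonneg_left n1 hl1, mul_le_mul_of_nonneg_left n2 hl0]
    have p2 : (1 - lam) * G r0 ((j + 1 : ℕ) * δ) + lam * G r1 ((j + 1 : ℕ) * δ) ≤ M := by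
      nlinarith [mul_le_mul_of_nonneg_left n3 hl1, mul_le_mul_of_nonneg_left n4 hl0]
    nlinarith [mul_le_mul_of_nonneg_left p2 hμ0,
      mul_le_mul_of_nonneg_left p1 (by linarith : 0 ≤ 1 - μ)]

end Pool.Agent.H4.Shore
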