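import Mathlib
import Pool.Agent.H4.Shore.Sgrid
import Pool.Agent.H44.Shore.Row
import Pool.Agent.H44.Shore.Cone

/-!
Shoreline search: the central region of the ring from finitely many sign checks at grid points.
-/

open Real Set MeasureTheory

namespace Pool.Agent.H4.Shore

open Pool.Agent.H44.Shore

/-- the integrand is affine in the velocity -/
theorem gs_affine (D : Dat) (r c s : ℝ) (p q : ℝ × ℝ) (x y ε : ℝ) :
    D.gs r (x * p.1 + y * q.1) (ε * (x * p.2 + y * q.2)) c s =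
      x * D.gs r p.1 (ε * p.2) c s + y * D.gs r q.1 (ε * q.2) c s +
        (1 - x - y) * D.gs r 0 0 c s := by
  unfold Dat.gs
  ring

/-- sign facts at the grid points of two rows -/
structure PNodes (D : Dat) (r0 r1 δ : ℝ) (a b : ℕ) (p q : ℝ × ℝ) (εP εN : ℝ) : Prop where
  pp : ∀ r, (r = r0 ∨ r = r1) → ∀ j : ℕ, a ≤ j → j ≤ b + 1 →
    εP ≤ D.gs r p.1 p.2 (cos (j * δ)) (sin (j * δ))
  pq : ∀ r, (r = r0 ∨ r = r1) → ∀ j : ℕ, a ≤ j → j ≤ b + 1 →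
    εP ≤ D.gs r q.1 q.2 (cos (j * δ)) (sin (j * δ))
  p0 : ∀ r, (r = r0 ∨ r = r1) → ∀ j : ℕ, a ≤ j → j ≤ b + 1 →
    D.gs r 0 0 (cos (j * δ)) (sin (j * δ)) ≤ -εP
  np : ∀ r, (r = r0 ∨ r = r1) → ∀ j : ℕ, a ≤ j → j ≤ b + 1 →
    D.gs r p.1 (-p.2) (cos (j * δ)) (sin (j * δ)) ≤ -εN
  nq : ∀ r, (r = r0 ∨ r = r1) → ∀ j : ℕ, a ≤ j → j ≤ b + 1 →
    D.gs r q.1 (-q.2) (cos (j * δ)) (sin (j * δ)) ≤ -εN

section

variable {D : Dat} {xa xb wa wb M10 M20 M30 M01 M11 M21 M02 M12 M03 : ℝ}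

theorem gs_zero_lower (hM : MB D xa xb wa wb M10 M20 M30 M01 M11 M21 M02 M12 M03)
    (hrB : 0 < D.rB) {ra rb r0 r1 : ℝ} (hra : 0 ≤ ra) (h0 : ra ≤ r0)
    (h1 : r1 ≤ rb) (hrb : rb ≤ D.rB)
    (hwa : wa ≤ 1 - rb ^ 2 / D.rB ^ 2) (hwb : 1 - ra ^ 2 / D.rB ^ 2 ≤ wb) {M0 : ℝ}
    (hM0 : 1 + M10 * rb + 2 * rb ^ 2 / D.rB ^ 2 * M01 ≤ M0)
    {r θ : ℝ} (hr : r ∈ Icc r0 r1) (hxx : -(r * cos θ) ∈ Icc xa xb) :
    -M0 ≤ D.gs r 0 0 (cos θ) (sin θ) := by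
  have hr0' : 0 ≤ r := (hra.trans h0).trans hr.1
  have hrrb : r ≤ rb := hr.2.trans h1
  have hww := w_range (D := D) hrB hra hwa hwb (h0.trans hr.1) hrrb
  have hW : D.W r = 1 - r ^ 2 / D.rB ^ 2 := by
    unfold Dat.W
    have : r ^ 2 / D.rB ^ 2 ≤ 1 := by
      rw [div_le_one (by positivity)]
      have := hrrb.trans hrb
      gcongr
    rw [max_eq_right (by linarith)]
  unfold Dat.gs
  rw [hW, Dat.bx_eq, Dat.bw_eq]
  have b1 := hM.m10 _ hxx _ hww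
  have b2 := hM.m01 _ hxx _ hww
  have hc1 : |r * cos θ| ≤ rb := by
    rw [abs_mul, abs_of_nonneg hr0']
    calc r * |cos θ| ≤ r * 1 := mul_le_mul_of_nonneg_left (abs_cos_le_one θ) hr0'
      _ ≤ rb := by rwa [mul_one]
  have c1 := abs_mul_le b1 hc1
  have hq1 : |2 * r / D.rB ^ 2 * (0 - r)| ≤ 2 * rb ^ 2 / D.rB ^ 2 := by
    have e : 2 * r / D.rB ^ 2 * (0 - r) = -(2 * r ^ 2 / D.rB ^ 2) := by ring
    rw [e, abs_neg, abs_of_nonneg (by positivity)]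
    gcongr
  have c2 := abs_mul_le hq1 b2
  have d1 := (abs_le.1 c1).2
  have d2 := (abs_le.1 c2).1
  have e1 : -(0 * cos θ) + 0 * sin θ + r * cos θ = r * cos θ := by ring
  rw [e1]
  linarith

theorem pn_of_nodes (hM : MB D xa xb wa wb M10 M20 M30 M01 M11 M21 M02 M12 M03)
    (hrB : 0 < D.rB) {ra rb r0 r1 δ Kr Kt V : ℝ} {a b : ℕ} (hra : 0 ≤ ra) (h0 : ra ≤ r0)
    (h01 : r0 ≤ r1) (h1 : r1 ≤ rb) (hrb : rb ≤ D.rB)
    (hwa : wa ≤ 1 - rb ^ 2 / D.rB ^ 2) (hwb : 1 - ra ^ 2 / D.rB ^ 2 ≤ wb)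
    (hδ : 0 < δ) (hab : a ≤ b)
    (hx : ∀ r ∈ Icc r0 r1, ∀ θ ∈ Icc ((a:ℝ) * δ) (((b:ℝ) + 1) * δ), -(r * cos θ) ∈ Icc xa xb)
    (hKr0 : 0 ≤ Kr) (hKt0 : 0 ≤ Kt) (hV : 0 ≤ V)
    (hKr : KB D.rB M10 M20 M30 M01 M11 M21 M02 M12 M03 V rb 1 0 ≤ Kr)
    (hKt : KB D.rB M10 M20 M30 M01 M11 M21 M02 M12 M03 V rb 0 1 ≤ Kt)
    {p q : ℝ × ℝ} (hp : p.1 ^ 2 + p.2 ^ 2 ≤ V ^ 2) (hq : q.1 ^ 2 + q.2 ^ 2 ≤ V ^ 2)
    {εP εN κ M0 : ℝ} (hN : PNodes D r0 r1 δ a b p q εP εN)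
    (hεP : Kr * (r1 - r0) ^ 2 / 8 + Kt * δ ^ 2 / 8 ≤ εP)
    (hM0 : 1 + M10 * rb + 2 * rb ^ 2 / D.rB ^ 2 * M01 ≤ M0)
    (hεN : Kr * (r1 - r0) ^ 2 / 8 + Kt * δ ^ 2 / 8 + κ * M0 ≤ εN)
    {x y : ℝ} (hx0 : 0 ≤ x) (hy0 : 0 ≤ y) (hxy : 1 ≤ x + y) (hxy' : x + y ≤ 1 + κ)
    {r θ : ℝ} (hr : r ∈ Icc r0 r1) (hθ : θ ∈ Icc ((a:ℝ) * δ) (((b:ℝ) + 1) * δ)) :
    0 ≤ D.gs r (x * p.1 + y * q.1) (x * p.2 + y * q.2) (cos θ) (sin θ) ∧
      D.gs r (x * p.1 + y * q.1) (-(x * p.2 + y * q.2)) (cos θ) (sin θ) ≤ 0 := by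
  have hz : (0:ℝ) ^ 2 + 0 ^ 2 ≤ V ^ 2 := by nlinarith [sq_nonneg V]
  have gp := (sgrid_neg_gs hM hrB hra h0 h01 h1 hrb hwa hwb hδ hab hx hKr0 hKt0 hV hKr hKt
    hp).le_of_nodes (M := -εP) (fun j hj hj' => ⟨by linarith [hN.pp r0 (Or.inl rfl) j hj hj'],
      by linarith [hN.pp r1 (Or.inr rfl) j hj hj']⟩) hr hθ
  have gq := (sgrid_neg_gs hM hrB hra h0 h01 h1 hrb hwa hwb hδ hab hx hKr0 hKt0 hV hKr hKt
    hq).le_of_nodes (M := -εP) (fun j hj hj' => ⟨by linarith [hN.pq r0 (Or.inl rfl) j hj hj'],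
      by linarith [hN.pq r1 (Or.inr rfl) j hj hj']⟩) hr hθ
  have g0 := (sgrid_gs hM hrB hra h0 h01 h1 hrb hwa hwb hδ hab hx hKr0 hKt0 hV hKr hKt
    hz).le_of_nodes (M := -εP) (fun j hj hj' => ⟨hN.p0 r0 (Or.inl rfl) j hj hj',
      hN.p0 r1 (Or.inr rfl) j hj hj'⟩) hr hθ
  have mp := (sgrid_gs hM hrB hra h0 h01 h1 hrb hwa hwb hδ hab hx hKr0 hKt0 hV hKr hKt
    (vr := p.1) (vt := -p.2) (by nlinarith)).le_of_nodes (M := -εN)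
      (fun j hj hj' => ⟨hN.np r0 (Or.inl rfl) j hj hj', hN.np r1 (Or.inr rfl) j hj hj'⟩) hr hθ
  have mq := (sgrid_gs hM hrB hra h0 h01 h1 hrb hwa hwb hδ hab hx hKr0 hKt0 hV hKr hKt
    (vr := q.1) (vt := -q.2) (by nlinarith)).le_of_nodes (M := -εN)
      (fun j hj hj' => ⟨hN.nq r0 (Or.inl rfl) j hj hj', hN.nq r1 (Or.inr rfl) j hj hj'⟩) hr hθ
  set P := D.gs r p.1 p.2 (cos θ) (sin θ) with hPdef
  set Q := D.gs r q.1 q.2 (cos θ) (sin θ) with hQdef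
  set Z := D.gs r 0 0 (cos θ) (sin θ) with hZdef
  set P' := D.gs r p.1 (-p.2) (cos θ) (sin θ) with hP'def
  set Q' := D.gs r q.1 (-q.2) (cos θ) (sin θ) with hQ'def
  have hP0 : 0 ≤ P := by linarith
  have hQ0 : 0 ≤ Q := by linarith
  have hZ0 : Z ≤ 0 := by linarith
  have hZM : -M0 ≤ Z := gs_zero_lower hM hrB hra h0 h1 hrb hwa hwb hM0 hr (hx r hr θ hθ)
  constructor
  · have e := gs_affine D r (cos θ) (sin θ) p q x y 1
    simp only [one_mul] at e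
    rw [e]
    have t1 : 0 ≤ x * P := mul_nonneg hx0 hP0
    have t2 : 0 ≤ y * Q := mul_nonneg hy0 hQ0
    have t3 : 0 ≤ (1 - x - y) * Z := mul_nonneg_of_nonpos_of_nonpos (by linarith) hZ0
    linarith
  · have e := gs_affine D r (cos θ) (sin θ) p q x y (-1)
    simp only [neg_mul, one_mul] at e
    rw [e]
    set E := Kr * (r1 - r0) ^ 2 / 8 + Kt * δ ^ 2 / 8 with hE
    have hE0 : 0 ≤ E := by positivity
    have hM00 : 0 ≤ M0 := by linarith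
    have t1 : x * P' ≤ x * (-εN + E) := mul_le_mul_of_nonneg_left mp hx0
    have t2 : y * Q' ≤ y * (-εN + E) := mul_le_mul_of_nonneg_left mq hy0
    have t3 : (1 - x - y) * Z ≤ (x + y - 1) * M0 := by
      have hz1 : -Z ≤ M0 := by linarith
      have hz2 := mul_le_mul_of_nonneg_left hz1 (by linarith : 0 ≤ x + y - 1)
      have hz3 : (1 - x - y) * Z = (x + y - 1) * -Z := by ring
      rw [hz3]
      exact hz2
    have t4 : (x + y - 1) * M0 ≤ κ * M0 := mul_le_mul_of_nonneg_right (by linarith) hM00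
    have t5 : 0 ≤ εN - E := by
      have : 0 ≤ κ := by linarith
      have := mul_nonneg this hM00
      linarith
    have t6 := mul_le_mul_of_nonneg_right hxy t5
    have t7 : x * (-εN + E) + y * (-εN + E) = -((x + y) * (εN - E)) := by ring
    linarith

end

theorem le_one_of_sq {a b : ℝ} (h : a ^ 2 + b ^ 2 = 1) : a ≤ 1 := by
  have h1 := sq_nonneg b
  by_contra hcon
  push Not at hcon
  nlinarith

theorem second_le {v1 v2 q1 q2 : ℝ} (hv : v1 ^ 2 + v2 ^ 2 = 1) (hq : q1 ^ 2 + q2 ^ 2 ≤ 1)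
    (hv1 : 0 ≤ v1) (hv2 : 0 ≤ v2) (hq2 : 0 < q2) (h3 : v1 * q2 ≤ v2 * q1) : q2 ≤ v2 := by
  by_contra hcon
  push Not at hcon
  have h4 : (v1 * q2) ^ 2 ≤ (v2 * q1) ^ 2 := by
    apply pow_le_pow_left₀ (by positivity) h3
  have h5 : (v1 * q2) ^ 2 = (1 - v2 ^ 2) * q2 ^ 2 := by
    rw [← hv]
    ring
  have h6 : (v2 * q1) ^ 2 = v2 ^ 2 * q1 ^ 2 := by ring
  have h7 : v2 ^ 2 * (q1 ^ 2 + q2 ^ 2) ≤ v2 ^ 2 * 1 :=
    mul_le_mul_of_nonneg_left hq (sq_nonneg _)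
  have h9 : v2 ^ 2 < q2 ^ 2 := by
    apply pow_lt_pow_left₀ hcon hv2
    norm_num
  rw [h5, h6] at h4
  have h10 : (1 - v2 ^ 2) * q2 ^ 2 = q2 ^ 2 - v2 ^ 2 * q2 ^ 2 := by ring
  have h11 : v2 ^ 2 * (q1 ^ 2 + q2 ^ 2) = v2 ^ 2 * q1 ^ 2 + v2 ^ 2 * q2 ^ 2 := by ring
  linarith

theorem pos_comb {x y p2 q2 : ℝ} (x0 : 0 ≤ x) (y0 : 0 ≤ y) (hxy : 1 ≤ x + y) (hp : 0 < p2)
    (hq : 0 < q2) : 0 < x * p2 + y * q2 := by
  rcases lt_or_ge 0 x with h3 | h3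
  · have h4 := mul_pos h3 hp
    have h5 := mul_nonneg y0 hq.le
    linarith
  · have h6 : 0 < y := by linarith
    have h4 := mul_nonneg x0 hp.le
    have h5 := mul_pos h6 hq
    linarith

/-- coordinates in a cone of the plane -/
theorem cone_coords {p q v : ℝ × ℝ} (hc : 0 < cross q p) (h1 : 0 ≤ cross q v)
    (h2 : 0 ≤ cross v p) (hp : p.1 ^ 2 + p.2 ^ 2 ≤ 1) (hq : q.1 ^ 2 + q.2 ^ 2 ≤ 1)
    (hv : v.1 ^ 2 + v.2 ^ 2 = 1) {m κ : ℝ} (hm1 : m ≤ p.1 ^ 2 + p.2 ^ 2)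
    (hm2 : m ≤ q.1 ^ 2 + q.2 ^ 2) (hm3 : m ≤ p.1 * q.1 + p.2 * q.2) (hκ : 0 ≤ κ)
    (hmκ : 1 ≤ (1 + κ) ^ 2 * m) :
    ∃ x y : ℝ, 0 ≤ x ∧ 0 ≤ y ∧ 1 ≤ x + y ∧ x + y ≤ 1 + κ ∧ v.1 = x * p.1 + y * q.1 ∧
      v.2 = x * p.2 + y * q.2 := by
  have hne := hc.ne'
  unfold cross at hc h1 h2 hne
  set d := q.1 * p.2 - q.2 * p.1 with hd
  refine ⟨(q.1 * v.2 - q.2 * v.1) / d, (v.1 * p.2 - v.2 * p.1) / d, div_nonneg h1 hc.le,
    div_nonneg h2 hc.le, ?_, ?_, ?_, ?_⟩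
  · -- at least one
    set x := (q.1 * v.2 - q.2 * v.1) / d with hx
    set y := (v.1 * p.2 - v.2 * p.1) / d with hy
    have x0 : 0 ≤ x := div_nonneg h1 hc.le
    have y0 : 0 ≤ y := div_nonneg h2 hc.le
    have e1 : v.1 = x * p.1 + y * q.1 := by
      rw [hx, hy]
      field_simp
      rw [hd]
      ring
    have e2 : v.2 = x * p.2 + y * q.2 := by
      rw [hx, hy]
      field_simp
      rw [hd]
      ring
    by_contra hcon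
    push Not at hcon
    have hpq : p.1 * q.1 + p.2 * q.2 ≤ 1 := by
      nlinarith [sq_nonneg (p.1 - q.1), sq_nonneg (p.2 - q.2)]
    have : v.1 ^ 2 + v.2 ^ 2 ≤ (x + y) ^ 2 := by
      rw [e1, e2]
      nlinarith [mul_nonneg x0 y0, mul_nonneg (mul_nonneg x0 y0) (sub_nonneg.2 hpq),
        mul_nonneg (mul_nonneg x0 x0) (sub_nonneg.2 hp),
        mul_nonneg (mul_nonneg y0 y0) (sub_nonneg.2 hq)]
    nlinarith
  · set x := (q.1 * v.2 - q.2 * v.1) / d with hx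
    set y := (v.1 * p.2 - v.2 * p.1) / d with hy
    have x0 : 0 ≤ x := div_nonneg h1 hc.le
    have y0 : 0 ≤ y := div_nonneg h2 hc.le
    have e1 : v.1 = x * p.1 + y * q.1 := by
      rw [hx, hy]
      field_simp
      rw [hd]
      ring
    have e2 : v.2 = x * p.2 + y * q.2 := by
      rw [hx, hy]
      field_simp
      rw [hd]
      ring
    by_contra hcon
    push Not at hcon
    have : m * (x + y) ^ 2 ≤ v.1 ^ 2 + v.2 ^ 2 := by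
      rw [e1, e2]
      nlinarith [mul_nonneg x0 y0, mul_nonneg (mul_nonneg x0 y0) (sub_nonneg.2 hm3),
        mul_nonneg (mul_nonneg x0 x0) (sub_nonneg.2 hm1),
        mul_nonneg (mul_nonneg y0 y0) (sub_nonneg.2 hm2)]
    rw [hv] at this
    have hm0 : 0 < m := by
      by_contra hcon2
      push Not at hcon2
      nlinarith [sq_nonneg (1 + κ)]
    have h5 : (1 + κ) ^ 2 < (x + y) ^ 2 := by nlinarith
    nlinarith
  · field_simp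
    rw [hd]
    ring
  · field_simp
    rw [hd]
    ring

theorem tan_facts : tan 0.07 ≤ 0.0702 ∧ 0.365 ≤ tan 0.35 := by
  constructor
  · rw [tan_eq_sin_div_cos]
    have h1 : sin 0.07 ≤ 0.07 := sin_le (by norm_num)
    have h2 : 1 - 0.07 ^ 2 / 2 ≤ cos 0.07 := one_sub_sq_div_two_le_cos
    rw [div_le_iff₀ (by nlinarith)]
    nlinarith
  · have h1 := cos035
    have h2 := sin035
    rw [tan_eq_sin_div_cos, le_div_iff₀ (by linarith [h1.1])]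
    linarith [h1.2, h2.1]

/-- **The central region of a ring cell.** -/
theorem central_cell {D : Dat} (hD : D.Ok) {α ω k : ℝ} (h : Consts α ω)
    (hρ : D.ρ = 1 / (sin α * cos ω)) (hk0 : 0 ≤ k) (hk2 : k ≤ 2)
    {xa xb wa wb M10 M20 M30 M01 M11 M21 M02 M12 M03 : ℝ}
    (hM : MB D xa xb wa wb M10 M20 M30 M01 M11 M21 M02 M12 M03)
    {ra rb r0 r1 δ Kr Kt V : ℝ} {a b : ℕ} (hra : 0 ≤ ra) (h0 : ra ≤ r0)
    (h01 : r0 ≤ r1) (h1 : r1 ≤ rb) (hrb : rb ≤ D.rB)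
    (hwa : wa ≤ 1 - rb ^ 2 / D.rB ^ 2) (hwb : 1 - ra ^ 2 / D.rB ^ 2 ≤ wb)
    (hδ : 0 < δ) (hab : a ≤ b) (hbπ : ((b:ℝ) + 1) * δ ≤ π)
    (hxa : r1 * cos (a * δ) ≤ -xa) (hxb : -(r1 * cos (((b:ℝ) + 1) * δ)) ≤ xb)
    (haL : D.xL ≤ r0 * cos (a * δ)) (hbq : r0 * cos (((b:ℝ) + 1) * δ) ≤ -(1 / D.ρ))
    (hKr0 : 0 ≤ Kr) (hKt0 : 0 ≤ Kt) (hV : 0 ≤ V)
    (hKr : KB D.rB M10 M20 M30 M01 M11 M21 M02 M12 M03 V rb 1 0 ≤ Kr)
    (hKt : KB D.rB M10 M20 M30 M01 M11 M21 M02 M12 M03 V rb 0 1 ≤ Kt)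
    {p q : ℝ × ℝ} (hV1 : 1 ≤ V) (hp : p.1 ^ 2 + p.2 ^ 2 ≤ 1) (hq : q.1 ^ 2 + q.2 ^ 2 ≤ 1)
    {εP εN κ M0 m : ℝ} (hN : PNodes D r0 r1 δ a b p q εP εN)
    (hεP : Kr * (r1 - r0) ^ 2 / 8 + Kt * δ ^ 2 / 8 ≤ εP)
    (hM0 : 1 + M10 * rb + 2 * rb ^ 2 / D.rB ^ 2 * M01 ≤ M0)
    (hεN : Kr * (r1 - r0) ^ 2 / 8 + Kt * δ ^ 2 / 8 + κ * M0 ≤ εN)
    (hm1 : m ≤ p.1 ^ 2 + p.2 ^ 2) (hm2 : m ≤ q.1 ^ 2 + q.2 ^ 2)
    (hm3 : m ≤ p.1 * q.1 + p.2 * q.2) (hκ : 0 ≤ κ) (hmκ : 1 ≤ (1 + κ) ^ 2 * m)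
    (hp2 : 0 < p.2) (hq2 : 0 < q.2) (hpt : 0.0702 * p.2 ≤ p.1) (hqt : q.1 ≤ 0.365 * q.2)
    (hcr : 0 < cross q p) (hqL : D.xL < r0 * q.2)
    (hl0 : sin α - 0.01 ≤ r0) (hl1 : r1 ≤ sin α + 0.01)
    {r : ℝ} (hr : r ∈ Icc r0 r1) {v : ℝ × ℝ} (hv : v.1 ^ 2 + v.2 ^ 2 = 1) (hv2 : 0 ≤ v.2)
    (hc1 : 0 ≤ cross q v) (hc2 : 0 ≤ cross v p) :
    FF D r (mC α ω k D r) v ≤ 0 := by
  have hrB : 0 < D.rB := hD.hrB
  have hS1 := h.sal
  have hr00 : 0 < r0 := by linarith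
  have hrpos : 0 < r := lt_of_lt_of_le hr00 hr.1
  obtain ⟨x, y, x0, y0, xy1, xy2, e1, e2⟩ := cone_coords hcr hc1 hc2 hp hq hv hm1 hm2 hm3 hκ hmκ
  have hv2' : 0 < v.2 := by
    rw [e2]
    exact pos_comb x0 y0 xy1 hp2 hq2
  have hp1 : 0 ≤ p.1 := le_trans (by positivity) hpt
  have hv1 : 0 ≤ v.1 := by
    unfold cross at hc2
    have h3 : 0 ≤ v.2 * p.1 := mul_nonneg hv2 hp1
    have h4 : 0 ≤ v.1 * p.2 := by linarith
    by_contra hcon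
    push Not at hcon
    have h5 := mul_neg_of_neg_of_pos hcon hp2
    linarith
  -- the angle
  set χ := arcsin v.1 with hχ
  have hv1' : v.1 ≤ 1 := le_one_of_sq hv
  have hsin : sin χ = v.1 := sin_arcsin (by linarith) hv1'
  have hcos : cos χ = v.2 := by
    rw [hχ, cos_arcsin]
    have : 1 - v.1 ^ 2 = v.2 ^ 2 := by linarith
    rw [this, sqrt_sq hv2]
  have hχ0 : 0 ≤ χ := arcsin_nonneg.2 hv1
  have hχ1 : χ < π / 2 := by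
    by_contra hcon
    push Not at hcon
    have h2 : χ = π / 2 := le_antisymm (arcsin_le_pi_div_two _) hcon
    rw [h2, cos_pi_div_two] at hcos
    linarith
  have htan : tan χ = v.1 / v.2 := by rw [tan_eq_sin_div_cos, hsin, hcos]
  have hpi := Real.pi_gt_three
  have ht1 : 0.07 ≤ χ := by
    by_contra hcon
    push Not at hcon
    have h2 : tan χ < tan 0.07 := tan_lt_tan_of_nonneg_of_lt_pi_div_two hχ0 (by linarith) hcon
    have h3 : tan χ < 0.0702 := lt_of_lt_of_le h2 tan_facts.1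
    rw [htan, div_lt_iff₀ hv2'] at h3
    unfold cross at hc2
    have h4 := mul_lt_mul_of_pos_right h3 hp2
    have h5 := mul_le_mul_of_nonneg_left hpt hv2
    linarith
  have ht2 : χ ≤ 0.35 := by
    by_contra hcon
    push Not at hcon
    have h2 : tan 0.35 < tan χ := tan_lt_tan_of_nonneg_of_lt_pi_div_two (by norm_num) hχ1 hcon
    have h3 : 0.365 < tan χ := lt_of_le_of_lt tan_facts.2 h2
    rw [htan, lt_div_iff₀ hv2'] at h3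
    unfold cross at hc1
    have h4 := mul_lt_mul_of_pos_right h3 hq2
    have h5 := mul_le_mul_of_nonneg_left hqt hv2
    linarith
  have hxLv : D.xL < r * cos χ := by
    rw [hcos]
    have : q.2 ≤ v.2 := by
      unfold cross at hc1
      exact second_le hv hq hv1 hv2 hq2 (by linarith)
    calc D.xL < r0 * q.2 := hqL
      _ ≤ r * v.2 := by
        have := hr.1
        gcongr
  -- the sign conditions
  have hρpos : 0 < 1 / D.ρ := by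
    have := hD.hρ
    positivity
  have hL0 : 0 < D.xL := hρpos.trans hD.h1L
  have hcosa : 0 ≤ cos (a * δ) := by
    by_contra hcon
    push Not at hcon
    have := mul_neg_of_pos_of_neg hr00 hcon
    linarith
  have hcosb : cos (((b:ℝ) + 1) * δ) ≤ 0 := by
    by_contra hcon
    push Not at hcon
    have := mul_pos hr00 hcon
    linarith
  have hxr : ∀ r ∈ Icc r0 r1, ∀ θ ∈ Icc ((a:ℝ) * δ) (((b:ℝ) + 1) * δ),
      -(r * cos θ) ∈ Icc xa xb := by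
    intro r hr θ hθ
    exact x_range hr00.le (by positivity) hbπ hcosa hcosb hxa hxb hr hθ
  have hpn : ∀ θ, 0 < θ → θ < π → r * cos θ ≤ D.xL → -(1 / D.ρ) < r * cos θ →
      0 ≤ D.gs r (sin χ) (cos χ) (cos θ) (sin θ) ∧
        D.gs r (sin χ) (-cos χ) (cos θ) (sin θ) ≤ 0 := by
    intro θ hθ0 hθ1 hθ2 hθ3
    have l1 : (a:ℝ) * δ ≤ θ := by
      by_contra hcon
      push Not at hcon
      have haπ : (a:ℝ) * δ ≤ π := by
        refine le_trans ?_ hbπ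
        have : (a:ℝ) ≤ (b:ℝ) + 1 := by
          have : (a:ℝ) ≤ b := by exact_mod_cast hab
          linarith
        gcongr
      have h3 : cos (a * δ) < cos θ := cos_lt_cos_of_nonneg_of_le_pi hθ0.le haπ hcon
      have h4 : r0 * cos (a * δ) ≤ r * cos (a * δ) := mul_le_mul_of_nonneg_right hr.1 hcosa
      have h5 := mul_lt_mul_of_pos_left h3 hrpos
      linarith
    have l2 : θ ≤ ((b:ℝ) + 1) * δ := by
      by_contra hcon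
      push Not at hcon
      have h3 : cos θ < cos (((b:ℝ) + 1) * δ) :=
        cos_lt_cos_of_nonneg_of_le_pi (by positivity) hθ1.le hcon
      have h4 : r * cos (((b:ℝ) + 1) * δ) ≤ r0 * cos (((b:ℝ) + 1) * δ) :=
        mul_le_mul_of_nonpos_right hr.1 hcosb
      have h5 := mul_lt_mul_of_pos_left h3 hrpos
      linarith
    have hVV : 1 ≤ V ^ 2 := one_le_pow₀ hV1
    have hpV : p.1 ^ 2 + p.2 ^ 2 ≤ V ^ 2 := hp.trans hVV
    have hqV : q.1 ^ 2 + q.2 ^ 2 ≤ V ^ 2 := hq.trans hVV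
    have := pn_of_nodes hM hrB hra h0 h01 h1 hrb hwa hwb hδ hab hxr hKr0 hKt0 hV hKr hKt hpV hqV
      hN hεP hM0 hεN x0 y0 xy1 xy2 hr ⟨l1, l2⟩
    rw [← e1, ← e2, ← hsin, ← hcos] at this
    exact this
  have hlink := link hD h hρ hk0 hk2 (r := r) (χ := χ)
    (by rw [abs_le]; constructor <;> linarith [hr.1, hr.2]) ht1 ht2 hxLv
    (fun θ a1 a2 a3 a4 => (hpn θ a1 a2 a3 a4).1) (fun θ a1 a2 a3 a4 => (hpn θ a1 a2 a3 a4).2)
  rw [hsin, hcos] at hlink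
  unfold FF
  linarith

end Pool.Agent.H4.Shore
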