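import Mathlib
import Pool.Agent.H4.Shore.Sgrid
import Pool.Agent.H44.Shore.Row

/-!
Shoreline search: the gauge in the ring is close to a piecewise linear function computed from
trapezoidal sums.
-/

open Real Set MeasureTheory

namespace Pool.Agent.H4.Shore

open Pool.Agent.H44.Shore

theorem lin_le_lin {a0 a1 b0 b1 lam : ℝ} (hl : lam ∈ Icc (0:ℝ) 1) (h0 : a0 ≤ b0) (h1 : a1 ≤ b1) :
    lin a0 a1 lam ≤ lin b0 b1 lam := by
  have hlam0 := hl.1
  have hlam1 : 0 ≤ 1 - lam := by linarith [hl.2]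
  unfold lin
  have e1 := mul_le_mul_of_nonneg_left h0 hlam1
  have e2 := mul_le_mul_of_nonneg_left h1 hlam0
  linarith

/-- two-sided trapezoid bound for the radial coefficient -/
theorem brs_int {D : Dat} {r0 r1 δ Kr Kt Ps0 Ps1 Lam : ℝ} {a b : ℕ}
    (h1 : SGrid (fun r θ => 1 * brs D r θ) r0 r1 δ a b Kr Kt)
    (h2 : SGrid (fun r θ => (-1) * brs D r θ) r0 r1 δ a b Kr Kt)
    (hP : Ps1 ≤ Ps0) (hb1 : (b:ℝ) * δ ≤ Ps1) (hb0 : Ps0 ≤ ((b:ℝ) + 1) * δ) (hLam : 0 ≤ Lam)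
    (hL : ∀ j j' : ℕ, (j = b ∨ j = b + 1) → (j' = b ∨ j' = b + 1) →
      |brs D r1 (j * δ) - brs D r0 (j' * δ)| ≤ Lam)
    {lam : ℝ} (hl : lam ∈ Icc (0:ℝ) 1) :
    |(∫ θ in ((a:ℝ) * δ)..(lin Ps0 Ps1 lam), brs D (lin r0 r1 lam) θ) -
      lin (TT (fun j : ℕ => brs D r0 (j * δ)) δ a b (Ps0 - b * δ))
        (TT (fun j : ℕ => brs D r1 (j * δ)) δ a b (Ps1 - b * δ)) lam| ≤
      (Ps0 - a * δ) * (Kr * (r1 - r0) ^ 2 / 8 + Kt * δ ^ 2 / 8) + (Ps0 - Ps1) * Lam / 4 := by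
  have hcont : ∀ σ r : ℝ, Continuous (fun θ => σ * brs D r θ) := by
    intro σ r
    have hp1 : Continuous (fun θ : ℝ => (r, θ)) := by fun_prop
    have hc1 := (continuous_brs D).comp hp1
    simp only [Function.comp_def] at hc1
    exact continuous_const.mul hc1
  have u := h1.int_le (hcont 1) hP hb1 hb0 hLam (by
    intro j j' hj hj'
    have := (abs_le.1 (hL j j' hj hj')).2
    simpa using this) hl
  have v := h2.int_le (hcont (-1)) hP hb1 hb0 hLam (by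
    intro j j' hj hj'
    have := (abs_le.1 (hL j j' hj hj')).1
    linarith) hl
  simp only [one_mul, neg_mul, intervalIntegral.integral_neg, TT_neg] at u v
  rw [abs_le]
  unfold lin at *
  constructor <;> linarith

/-- the convexity defect of the reciprocal -/
theorem inv_chord {r0 r1 lam : ℝ} (h0 : 0 < r0) (h : r0 ≤ r1) (hl : lam ∈ Icc (0:ℝ) 1) :
    1 / lin r0 r1 lam ≤ lin (1 / r0) (1 / r1) lam ∧
      lin (1 / r0) (1 / r1) lam ≤ 1 / lin r0 r1 lam + (r1 - r0) ^ 2 / (4 * r0 ^ 3) := by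
  have hlam0 := hl.1
  have hlam1 : 0 ≤ 1 - lam := by linarith [hl.2]
  have hr1 : 0 < r1 := by linarith
  have hr := lin_mem h hl
  have hr0 : 0 < lin r0 r1 lam := lt_of_lt_of_le h0 hr.1
  have key : lin (1 / r0) (1 / r1) lam - 1 / lin r0 r1 lam =
      lam * (1 - lam) * (r1 - r0) ^ 2 / (r0 * r1 * lin r0 r1 lam) := by
    have hne : lin r0 r1 lam ≠ 0 := hr0.ne'
    unfold lin at *
    field_simp
    ring
  have hq : lam * (1 - lam) ≤ 1 / 4 := by nlinarith [sq_nonneg (lam - 1 / 2)]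
  have hq0 : 0 ≤ lam * (1 - lam) := mul_nonneg hlam0 hlam1
  constructor
  · have : 0 ≤ lam * (1 - lam) * (r1 - r0) ^ 2 / (r0 * r1 * lin r0 r1 lam) := by positivity
    linarith
  · have h3 : lam * (1 - lam) * (r1 - r0) ^ 2 / (r0 * r1 * lin r0 r1 lam) ≤
        1 / 4 * (r1 - r0) ^ 2 / (r0 * r0 * r0) := by
      have hr' := hr.1
      gcongr
    have h4 : 1 / 4 * (r1 - r0) ^ 2 / (r0 * r0 * r0) = (r1 - r0) ^ 2 / (4 * r0 ^ 3) := by
      field_simp
    linarith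

theorem cX_lin (α ω r0 r1 lam : ℝ) : cX α ω (lin r0 r1 lam) =
    lin (cX α ω r0) (cX α ω r1) lam := by
  unfold cX lin
  ring

/-- exact decomposition of the gauge -/
theorem pi_mC_eq {D : Dat} {α ω k r A P : ℝ} :
    π * mC α ω k D r = cX α ω r + k * |r - sin α| - (A - α) / r - (∫ θ in A..P, brs D r θ)
      + (∫ θ in arccos (D.xL / r)..A, (1 / r - brs D r θ))
      + (∫ θ in arccos (-(1 / D.ρ) / r)..P, brs D r θ) := by
  have hp1 : Continuous (fun θ : ℝ => (r, θ)) := by fun_prop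
  have hc1 := (continuous_brs D).comp hp1
  simp only [Function.comp_def] at hc1
  set θL := arccos (D.xL / r)
  set θq := arccos (-(1 / D.ρ) / r)
  have i1 : ∫ θ in θL..A, (1 / r - brs D r θ) = (A - θL) * (1 / r) - ∫ θ in θL..A, brs D r θ := by
    rw [intervalIntegral.integral_sub _ (hc1.intervalIntegrable _ _)]
    · simp
    · exact continuous_const.intervalIntegrable _ _
  have i2 := intervalIntegral.integral_add_adjacent_intervals (hc1.intervalIntegrable (μ := volume)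
    θL A) (hc1.intervalIntegrable A P)
  have i3 := intervalIntegral.integral_add_adjacent_intervals (hc1.intervalIntegrable (μ := volume)
    θL θq) (hc1.intervalIntegrable θq P)
  have hpi : π ≠ 0 := Real.pi_ne_zero
  unfold mC
  rw [mul_div_cancel₀ _ hpi, i1]
  have e : (A - α) / r = A * (1 / r) - α * (1 / r) := by ring
  have e2 : (θL - α) / r = θL * (1 / r) - α * (1 / r) := by ring
  rw [e, e2]
  linarith

/-- **The gauge on a ring cell.** -/
theorem mC_chord {D : Dat} {α ω k r0 r1 δ Kr Kt Ps0 Ps1 Lam : ℝ} {a b : ℕ}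
    (h1 : SGrid (fun r θ => 1 * brs D r θ) r0 r1 δ a b Kr Kt)
    (h2 : SGrid (fun r θ => (-1) * brs D r θ) r0 r1 δ a b Kr Kt)
    (hP : Ps1 ≤ Ps0) (hb1 : (b:ℝ) * δ ≤ Ps1) (hb0 : Ps0 ≤ ((b:ℝ) + 1) * δ) (hLam : 0 ≤ Lam)
    (hL : ∀ j j' : ℕ, (j = b ∨ j = b + 1) → (j' = b ∨ j' = b + 1) →
      |brs D r1 (j * δ) - brs D r0 (j' * δ)| ≤ Lam)
    (hr0 : 0 < r0) (hk : 0 ≤ k) {σ0 σ1 wd eq Mb ek η m0 m1 : ℝ} (hσ0 : 0 ≤ σ0) (hσ1 : 0 ≤ σ1)
    (hθa : ∀ r ∈ Icc r0 r1, arccos (D.xL / r) ≤ a * δ ∧ a * δ ≤ arccos (D.xL / r) + wd)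
    (hsl : ∀ r ∈ Icc r0 r1, ∀ θ ∈ Icc (arccos (D.xL / r)) (a * δ),
      -σ0 ≤ 1 / r - brs D r θ ∧ 1 / r - brs D r θ ≤ σ1)
    (hq : ∀ lam ∈ Icc (0:ℝ) 1, |lin Ps0 Ps1 lam - arccos (-(1 / D.ρ) / lin r0 r1 lam)| ≤ eq)
    (hMb : ∀ lam ∈ Icc (0:ℝ) 1, ∀ θ ∈ uIcc (arccos (-(1 / D.ρ) / lin r0 r1 lam))
      (lin Ps0 Ps1 lam), |brs D (lin r0 r1 lam) θ| ≤ Mb)
    (hek : ∀ lam ∈ Icc (0:ℝ) 1, lin |r0 - sin α| |r1 - sin α| lam - ek ≤ |lin r0 r1 lam - sin α|)
    (hα : α ≤ a * δ)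
    (hup : ∀ r m T, ((r = r0 ∧ m = m0 ∧ T = TT (fun j : ℕ => brs D r0 (j * δ)) δ a b (Ps0 - b * δ))
        ∨ (r = r1 ∧ m = m1 ∧ T = TT (fun j : ℕ => brs D r1 (j * δ)) δ a b (Ps1 - b * δ))) →
      cX α ω r + k * |r - sin α| - (a * δ - α) / r - T +
        (((Ps0 - a * δ) * (Kr * (r1 - r0) ^ 2 / 8 + Kt * δ ^ 2 / 8) + (Ps0 - Ps1) * Lam / 4) +
          wd * σ1 + Mb * eq + (a * δ - α) * ((r1 - r0) ^ 2 / (4 * r0 ^ 3))) ≤ π * m + η)
    (hlo : ∀ r m T, ((r = r0 ∧ m = m0 ∧ T = TT (fun j : ℕ => brs D r0 (j * δ)) δ a b (Ps0 - b * δ))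
        ∨ (r = r1 ∧ m = m1 ∧ T = TT (fun j : ℕ => brs D r1 (j * δ)) δ a b (Ps1 - b * δ))) →
      π * m - η ≤ cX α ω r + k * |r - sin α| - (a * δ - α) / r - T -
        (((Ps0 - a * δ) * (Kr * (r1 - r0) ^ 2 / 8 + Kt * δ ^ 2 / 8) + (Ps0 - Ps1) * Lam / 4) +
          wd * σ0 + Mb * eq + k * ek))
    {lam : ℝ} (hl : lam ∈ Icc (0:ℝ) 1) :
    |π * mC α ω k D (lin r0 r1 lam) - π * lin m0 m1 lam| ≤ η := by
  have hI := abs_le.1 (brs_int h1 h2 hP hb1 hb0 hLam hL hl)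
  set E := (Ps0 - a * δ) * (Kr * (r1 - r0) ^ 2 / 8 + Kt * δ ^ 2 / 8) + (Ps0 - Ps1) * Lam / 4
    with hE
  set T0 := TT (fun j : ℕ => brs D r0 (j * δ)) δ a b (Ps0 - b * δ) with hT0
  set T1 := TT (fun j : ℕ => brs D r1 (j * δ)) δ a b (Ps1 - b * δ) with hT1
  have hlam0 := hl.1
  have hlam1 : 0 ≤ 1 - lam := by linarith [hl.2]
  have hrm := lin_mem h1.hr hl
  set r := lin r0 r1 lam with hr
  have hrpos : 0 < r := lt_of_lt_of_le hr0 hrm.1
  obtain ⟨w1, w2⟩ := hθa r hrm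
  have hp1 : Continuous (fun θ : ℝ => (r, θ)) := by fun_prop
  have hc1 := (continuous_brs D).comp hp1
  simp only [Function.comp_def] at hc1
  -- sliver
  have hwd0 : 0 ≤ wd := by linarith
  have s1 : ∫ θ in arccos (D.xL / r)..(a * δ), (1 / r - brs D r θ) ≤ wd * σ1 := by
    have h5 : ∫ θ in arccos (D.xL / r)..(a * δ), (1 / r - brs D r θ) ≤
        ∫ _ in arccos (D.xL / r)..(a * δ), σ1 := by
      apply intervalIntegral.integral_mono_on w1
      · exact (continuous_const.sub hc1).intervalIntegrable _ _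
      · exact continuous_const.intervalIntegrable _ _
      · intro θ hθ
        exact (hsl r hrm θ hθ).2
    rw [intervalIntegral.integral_const, smul_eq_mul] at h5
    refine h5.trans ?_
    apply mul_le_mul_of_nonneg_right (by linarith) hσ1
  have s0 : -(wd * σ0) ≤ ∫ θ in arccos (D.xL / r)..(a * δ), (1 / r - brs D r θ) := by
    have h5 : ∫ _ in arccos (D.xL / r)..(a * δ), -σ0 ≤
        ∫ θ in arccos (D.xL / r)..(a * δ), (1 / r - brs D r θ) := by
      apply intervalIntegral.integral_mono_on w1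
      · exact continuous_const.intervalIntegrable _ _
      · exact (continuous_const.sub hc1).intervalIntegrable _ _
      · intro θ hθ
        exact (hsl r hrm θ hθ).1
    rw [intervalIntegral.integral_const, smul_eq_mul] at h5
    refine le_trans ?_ h5
    have : (a * δ - arccos (D.xL / r)) * σ0 ≤ wd * σ0 :=
      mul_le_mul_of_nonneg_right (by linarith) hσ0
    linarith
  -- outer end
  have o1 : |∫ θ in arccos (-(1 / D.ρ) / r)..(lin Ps0 Ps1 lam), brs D r θ| ≤ Mb * eq := by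
    have h5 := intervalIntegral.norm_integral_le_of_norm_le_const
      (a := arccos (-(1 / D.ρ) / r)) (b := lin Ps0 Ps1 lam) (f := fun θ => brs D r θ) (C := Mb)
      (by
        intro θ hθ
        rw [Real.norm_eq_abs]
        exact hMb lam hl θ (uIoc_subset_uIcc hθ))
    rw [Real.norm_eq_abs] at h5
    refine h5.trans ?_
    have hM0 : 0 ≤ Mb := (abs_nonneg _).trans (hMb lam hl _ left_mem_uIcc)
    exact mul_le_mul_of_nonneg_left (hq lam hl) hM0
  have o2 := abs_le.1 o1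
  -- decomposition
  have hdec := pi_mC_eq (D := D) (α := α) (ω := ω) (k := k) (r := r) (A := a * δ)
    (P := lin Ps0 Ps1 lam)
  -- the explicit part
  have hX : cX α ω r = lin (cX α ω r0) (cX α ω r1) lam := cX_lin α ω r0 r1 lam
  have hinv := inv_chord hr0 h1.hr hl
  rw [← hr] at hinv
  have hc : 0 ≤ a * δ - α := by linarith
  have v1 : (a * δ - α) / r ≤ lin ((a * δ - α) / r0) ((a * δ - α) / r1) lam := by
    have h5 := mul_le_mul_of_nonneg_left hinv.1 hc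
    have e1 : (a * δ - α) * (1 / r) = (a * δ - α) / r := by ring
    have e2 : (a * δ - α) * lin (1 / r0) (1 / r1) lam =
        lin ((a * δ - α) / r0) ((a * δ - α) / r1) lam := by
      unfold lin
      ring
    rwa [e1, e2] at h5
  have v2 : lin ((a * δ - α) / r0) ((a * δ - α) / r1) lam ≤ (a * δ - α) / r +
      (a * δ - α) * ((r1 - r0) ^ 2 / (4 * r0 ^ 3)) := by
    have h5 := mul_le_mul_of_nonneg_left hinv.2 hc
    have e1 : (a * δ - α) * (1 / r + (r1 - r0) ^ 2 / (4 * r0 ^ 3)) = (a * δ - α) / r +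
        (a * δ - α) * ((r1 - r0) ^ 2 / (4 * r0 ^ 3)) := by ring
    have e2 : (a * δ - α) * lin (1 / r0) (1 / r1) lam =
        lin ((a * δ - α) / r0) ((a * δ - α) / r1) lam := by
      unfold lin
      ring
    rwa [e1, e2] at h5
  have k1 : |r - sin α| ≤ lin |r0 - sin α| |r1 - sin α| lam := by
    have e1 : r - sin α = (1 - lam) * (r0 - sin α) + lam * (r1 - sin α) := by
      rw [hr]
      unfold lin
      ring
    rw [e1]
    refine (abs_add_le _ _).trans ?_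
    rw [abs_mul, abs_mul, abs_of_nonneg hlam1, abs_of_nonneg hlam0]
    unfold lin
    linarith
  have k2 := hek lam hl
  rw [← hr] at k2
  have kk1 := mul_le_mul_of_nonneg_left k1 hk
  have kk2 := mul_le_mul_of_nonneg_left k2 hk
  -- the row inequalities
  have U0 := hup r0 m0 T0 (Or.inl ⟨rfl, rfl, rfl⟩)
  have U1 := hup r1 m1 T1 (Or.inr ⟨rfl, rfl, rfl⟩)
  have L0 := hlo r0 m0 T0 (Or.inl ⟨rfl, rfl, rfl⟩)
  have L1 := hlo r1 m1 T1 (Or.inr ⟨rfl, rfl, rfl⟩)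
  have U := lin_le_lin hl U0 U1
  have L := lin_le_lin hl L0 L1
  rw [hX] at hdec
  have hI1 := hI.1
  have hI2 := hI.2
  clear U0 U1 L0 L1 hup hlo hMb hq hek hsl hθa hI h1 h2 hL
  have o21 := o2.1
  have o22 := o2.2
  rw [abs_le, hdec]
  clear hdec hX hinv o1 o2 hrm
  unfold lin at *
  constructor
  · linarith
  · linarith

/-- passing from the computed weight to the exact gauge at a vertex -/
theorem FF_mC_le {D : Dat} {α ω k r m η s : ℝ} {p : ℝ × ℝ}
    (hm : |π * mC α ω k D r - π * m| ≤ η) (hF : FF D r m p ≤ -s) (hs : η * |p.1 - r| ≤ s) :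
    FF D r (mC α ω k D r) p ≤ 0 := by
  have e : FF D r (mC α ω k D r) p = FF D r m p - (π * mC α ω k D r - π * m) * (p.1 - r) := by
    unfold FF
    ring
  have h1 : |(π * mC α ω k D r - π * m) * (p.1 - r)| ≤ η * |p.1 - r| := by
    rw [abs_mul]
    exact mul_le_mul_of_nonneg_right hm (abs_nonneg _)
  have h2 := (abs_le.1 h1).1
  rw [e]
  linarith

end Pool.Agent.H4.Shore
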