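import Mathlib
import Pool.Agent.H4.Shore.Gauge

/-!
Shoreline search: the gauge on a ring cell, with the first partial strip treated as linear in the
radius.
-/

open Real Set MeasureTheory

namespace Pool.Agent.H4.Shore

open Pool.Agent.H44.Shore

/-- chord defect of `r * cos θ` along a segment -/
theorem rcos_chord {r0 r1 l0 l1 K lam : ℝ} (hr0 : 0 ≤ r0) (h01 : r0 ≤ r1)
    (hl : lam ∈ Icc (0:ℝ) 1) (hK : 2 * (r1 - r0) * |l1 - l0| + r1 * (l1 - l0) ^ 2 ≤ K) :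
    |lin r0 r1 lam * cos (lin l0 l1 lam) - lin (r0 * cos l0) (r1 * cos l1) lam| ≤ K / 8 := by
  have hC := C2_x r0 (r1 - r0) l0 (l1 - l0)
  have hK0 : 0 ≤ K := by
    refine le_trans ?_ hK
    have : 0 ≤ r1 - r0 := by linarith
    have : 0 ≤ r1 := hr0.trans h01
    positivity
  have hb : ∀ t ∈ Icc (0:ℝ) 1, |2 * ((r1 - r0) * ((l1 - l0) * sin (l0 + t * (l1 - l0)))) +
      (r0 + t * (r1 - r0)) * ((l1 - l0) ^ 2 * cos (l0 + t * (l1 - l0)))| ≤ K := by
    intro t ht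
    refine le_trans ?_ hK
    have h1 : |sin (l0 + t * (l1 - l0))| ≤ 1 := abs_sin_le_one _
    have h2 : |cos (l0 + t * (l1 - l0))| ≤ 1 := abs_cos_le_one _
    have h3 : |r1 - r0| ≤ r1 - r0 := by rw [abs_of_nonneg (by linarith)]
    have h4 : |r0 + t * (r1 - r0)| ≤ r1 := by
      rw [abs_of_nonneg (by nlinarith [ht.1])]
      nlinarith [ht.2]
    have h5 : |(2:ℝ)| ≤ 2 := by norm_num
    have h6 : |(l1 - l0) ^ 2| ≤ (l1 - l0) ^ 2 := by rw [abs_of_nonneg (sq_nonneg _)]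
    refine (abs_add_le' (abs_mul_le h5 (abs_mul_le h3 (abs_mul_le (le_refl |l1 - l0|) h1)))
      (abs_mul_le h4 (abs_mul_le h6 h2))).trans (le_of_eq (by ring))
  have c1 := hC.semiconvex (a := 0) (b := 1) (K := K) hb
  have c2 := hC.neg.semiconvex (a := 0) (b := 1) (K := K) (by
    intro t ht
    rw [abs_neg]
    exact hb t ht)
  have s1 := semi2' hK0 c1 (x := 0) (y := 1) ⟨le_rfl, zero_le_one⟩ ⟨zero_le_one, le_rfl⟩ hl.1 hl.2
  have s2 := semi2' hK0 c2 (x := 0) (y := 1) ⟨le_rfl, zero_le_one⟩ ⟨zero_le_one, le_rfl⟩ hl.1 hl.2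
  have e0 : (1 - lam) * 0 + lam * 1 = lam := by ring
  have e1 : r0 + lam * (r1 - r0) = lin r0 r1 lam := by
    unfold lin
    ring
  have e2 : l0 + lam * (l1 - l0) = lin l0 l1 lam := by
    unfold lin
    ring
  have e3 : r0 + 1 * (r1 - r0) = r1 := by ring
  have e4 : l0 + 1 * (l1 - l0) = l1 := by ring
  simp only [e0, e1, e2, e3, e4, zero_mul, add_zero] at s1 s2
  rw [abs_le]
  have e5 : lin (r0 * cos l0) (r1 * cos l1) lam =
      (1 - lam) * (r0 * cos l0) + lam * (r1 * cos l1) := rfl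
  rw [e5]
  constructor <;> linarith

/-- the angle where `r cos θ = y` is close to a linear function of the radius -/
theorem near_arccos {y r0 r1 l0 l1 e K lam : ℝ} (hr0 : 0 < r0) (h01 : r0 ≤ r1)
    (hl : lam ∈ Icc (0:ℝ) 1) (hK : 2 * (r1 - r0) * |l1 - l0| + r1 * (l1 - l0) ^ 2 ≤ K)
    (hm0 : 0 ≤ l0 - e) (hm1 : 0 ≤ l1 - e) (hp0 : l0 + e ≤ π) (hp1 : l1 + e ≤ π)
    (he : 0 ≤ e)
    (u0 : r0 * cos (l0 + e) + K / 8 ≤ y) (u1 : r1 * cos (l1 + e) + K / 8 ≤ y)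
    (v0 : y ≤ r0 * cos (l0 - e) - K / 8) (v1 : y ≤ r1 * cos (l1 - e) - K / 8) :
    |lin l0 l1 lam - arccos (y / lin r0 r1 lam)| ≤ e := by
  have hlam0 := hl.1
  have hlam1 : 0 ≤ 1 - lam := by linarith [hl.2]
  have hrm := lin_mem h01 hl
  have hrpos : 0 < lin r0 r1 lam := lt_of_lt_of_le hr0 hrm.1
  have a1 := abs_le.1 (rcos_chord (l0 := l0 + e) (l1 := l1 + e) (K := K) hr0.le h01 hl (by
    have : l1 + e - (l0 + e) = l1 - l0 := by ring
    rw [this]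
    exact hK))
  have a2 := abs_le.1 (rcos_chord (l0 := l0 - e) (l1 := l1 - e) (K := K) hr0.le h01 hl (by
    have : l1 - e - (l0 - e) = l1 - l0 := by ring
    rw [this]
    exact hK))
  have e1 : lin (l0 + e) (l1 + e) lam = lin l0 l1 lam + e := by
    unfold lin
    ring
  have e2 : lin (l0 - e) (l1 - e) lam = lin l0 l1 lam - e := by
    unfold lin
    ring
  rw [e1] at a1
  rw [e2] at a2
  have b1 : lin (r0 * cos (l0 + e)) (r1 * cos (l1 + e)) lam ≤ y - K / 8 :=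
    lin_le (by linarith) (by linarith) hl
  have b2 : y + K / 8 ≤ lin (r0 * cos (l0 - e)) (r1 * cos (l1 - e)) lam := by
    unfold lin
    nlinarith
  have n1 : 0 ≤ lin l0 l1 lam - e := by
    rw [← e2]
    exact lin_nonneg hm0 hm1 hl
  have n2 : lin l0 l1 lam + e ≤ π := by
    rw [← e1]
    exact lin_le hp0 hp1 hl
  have c1 : cos (lin l0 l1 lam + e) ≤ y / lin r0 r1 lam := by
    rw [le_div_iff₀ hrpos]
    have := a1.2
    linarith
  have c2 : y / lin r0 r1 lam ≤ cos (lin l0 l1 lam - e) := by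
    rw [div_le_iff₀ hrpos]
    have := a2.1
    linarith
  have d1 := arccos_le_arccos c1
  have d2 := arccos_le_arccos c2
  rw [arccos_cos (by linarith) n2] at d1
  rw [arccos_cos n1 (by linarith)] at d2
  rw [abs_le]
  constructor <;> linarith

/-- restriction of a strip grid -/
theorem SGrid.mono {G : ℝ → ℝ → ℝ} {r0 r1 δ Kr Kt : ℝ} {a b a' b' : ℕ}
    (h : SGrid G r0 r1 δ a b Kr Kt) (ha : a ≤ a') (hab : a' ≤ b') (hb : b' ≤ b) :
    SGrid G r0 r1 δ a' b' Kr Kt where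
  hδ := h.hδ
  hab := hab
  hr := h.hr
  hKr := h.hKr
  hKt := h.hKt
  hc := fun j hj hj' => h.hc j (by omega) (by omega)
  hd := by
    intro r hr
    have hδ := h.hδ
    have e1 : (a:ℝ) ≤ a' := by exact_mod_cast ha
    have e2 : (b':ℝ) ≤ b := by exact_mod_cast hb
    refine (h.hd r hr).subset ?_ (convex_Icc _ _)
    apply Icc_subset_Icc
    · gcongr
    · gcongr

/-- the radial coefficient on the first partial strip, from node values -/
theorem brs_sliver {D : Dat} {r0 r1 δ Kr Kt lo hi : ℝ} {a k b : ℕ}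
    (h1 : SGrid (fun r θ => 1 * brs D r θ) r0 r1 δ (a - k) b Kr Kt)
    (h2 : SGrid (fun r θ => (-1) * brs D r θ) r0 r1 δ (a - k) b Kr Kt)
    (hk : 1 ≤ k) (hka : k ≤ a) (hab : a ≤ b)
    (hn : ∀ r, (r = r0 ∨ r = r1) → ∀ j : ℕ, a - k ≤ j → j ≤ a →
      lo ≤ -brs D r (j * δ) ∧ -brs D r (j * δ) ≤ hi)
    {r θ : ℝ} (hr : r ∈ Icc r0 r1) (hθ : θ ∈ Icc (((a - k : ℕ):ℝ) * δ) ((a:ℝ) * δ)) :
    lo - (Kr * (r1 - r0) ^ 2 / 8 + Kt * δ ^ 2 / 8) ≤ -brs D r θ ∧
      -brs D r θ ≤ hi + (Kr * (r1 - r0) ^ 2 / 8 + Kt * δ ^ 2 / 8) := by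
  have ha1 : ((a - 1 : ℕ) : ℝ) + 1 = a := by
    rw [Nat.cast_sub (by omega)]
    push_cast
    ring
  have g1 := (h1.mono (a' := a - k) (b' := a - 1) le_rfl (by omega) (by omega)).le_of_nodes
    (M := -lo) (r := r) (θ := θ) (by
      intro j hj hj'
      have n0 := hn r0 (Or.inl rfl) j hj (by omega)
      have n1 := hn r1 (Or.inr rfl) j hj (by omega)
      constructor <;> linarith [n0.1, n1.1]) hr (by rw [ha1]; exact hθ)
  have g2 := (h2.mono (a' := a - k) (b' := a - 1) le_rfl (by omega) (by omega)).le_of_nodes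
    (M := hi) (r := r) (θ := θ) (by
      intro j hj hj'
      have n0 := hn r0 (Or.inl rfl) j hj (by omega)
      have n1 := hn r1 (Or.inr rfl) j hj (by omega)
      constructor <;> linarith [n0.2, n1.2]) hr (by rw [ha1]; exact hθ)
  constructor <;> linarith

/-- **The gauge on a ring cell**, second form. -/
theorem mC_chord2 {D : Dat} {α ω k r0 r1 δ Kr Kt Ps0 Ps1 Lam : ℝ} {a b : ℕ}
    (h1 : SGrid (fun r θ => 1 * brs D r θ) r0 r1 δ a b Kr Kt)
    (h2 : SGrid (fun r θ => (-1) * brs D r θ) r0 r1 δ a b Kr Kt)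
    (hP : Ps1 ≤ Ps0) (hb1 : (b:ℝ) * δ ≤ Ps1) (hb0 : Ps0 ≤ ((b:ℝ) + 1) * δ) (hLam : 0 ≤ Lam)
    (hL : ∀ j j' : ℕ, (j = b ∨ j = b + 1) → (j' = b ∨ j' = b + 1) →
      |brs D r1 (j * δ) - brs D r0 (j' * δ)| ≤ Lam)
    (hr0 : 0 < r0) (hk : 0 ≤ k) {σ0 σ1 Th0 Th1 eT eq Mb ek η m0 m1 : ℝ} (hσ0 : 0 ≤ σ0)
    (hσ1 : 0 ≤ σ1) (hθa : ∀ r ∈ Icc r0 r1, arccos (D.xL / r) ≤ a * δ)
    (hθ : ∀ lam ∈ Icc (0:ℝ) 1, |lin Th0 Th1 lam - arccos (D.xL / lin r0 r1 lam)| ≤ eT)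
    (hsl : ∀ r ∈ Icc r0 r1, ∀ θ ∈ Icc (arccos (D.xL / r)) (a * δ),
      σ0 ≤ 1 / r - brs D r θ ∧ 1 / r - brs D r θ ≤ σ1)
    (hq : ∀ lam ∈ Icc (0:ℝ) 1, |lin Ps0 Ps1 lam - arccos (-(1 / D.ρ) / lin r0 r1 lam)| ≤ eq)
    (hMb : ∀ lam ∈ Icc (0:ℝ) 1, ∀ θ ∈ uIcc (arccos (-(1 / D.ρ) / lin r0 r1 lam))
      (lin Ps0 Ps1 lam), |brs D (lin r0 r1 lam) θ| ≤ Mb)
    (hek : ∀ lam ∈ Icc (0:ℝ) 1, lin |r0 - sin α| |r1 - sin α| lam - ek ≤ |lin r0 r1 lam - sin α|)
    (hα : α ≤ a * δ)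
    (hup : ∀ r m T Th, ((r = r0 ∧ m = m0 ∧ Th = Th0 ∧
          T = TT (fun j : ℕ => brs D r0 (j * δ)) δ a b (Ps0 - b * δ))
        ∨ (r = r1 ∧ m = m1 ∧ Th = Th1 ∧
          T = TT (fun j : ℕ => brs D r1 (j * δ)) δ a b (Ps1 - b * δ))) →
      cX α ω r + k * |r - sin α| - (a * δ - α) / r - T +
        (((Ps0 - a * δ) * (Kr * (r1 - r0) ^ 2 / 8 + Kt * δ ^ 2 / 8) + (Ps0 - Ps1) * Lam / 4) +
          σ1 * (a * δ - Th + eT) + Mb * eq + (a * δ - α) * ((r1 - r0) ^ 2 / (4 * r0 ^ 3))) ≤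
        π * m + η)
    (hlo : ∀ r m T Th, ((r = r0 ∧ m = m0 ∧ Th = Th0 ∧
          T = TT (fun j : ℕ => brs D r0 (j * δ)) δ a b (Ps0 - b * δ))
        ∨ (r = r1 ∧ m = m1 ∧ Th = Th1 ∧
          T = TT (fun j : ℕ => brs D r1 (j * δ)) δ a b (Ps1 - b * δ))) →
      π * m - η ≤ cX α ω r + k * |r - sin α| - (a * δ - α) / r - T -
        (((Ps0 - a * δ) * (Kr * (r1 - r0) ^ 2 / 8 + Kt * δ ^ 2 / 8) + (Ps0 - Ps1) * Lam / 4) +
          Mb * eq + k * ek) + σ0 * (a * δ - Th - eT))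
    {lam : ℝ} (hl : lam ∈ Icc (0:ℝ) 1) :
    |π * mC α ω k D (lin r0 r1 lam) - π * lin m0 m1 lam| ≤ η := by
  have hI := abs_le.1 (brs_int h1 h2 hP hb1 hb0 hLam hL hl)
  set E := (Ps0 - a * δ) * (Kr * (r1 - r0) ^ 2 / 8 + Kt * δ ^ 2 / 8) + (Ps0 - Ps1) * Lam / 4
    with hE
  set T0 := TT (fun j : ℕ => brs D r0 (j * δ)) δ a b (Ps0 - b * δ) with hT0
  set T1 := TT (fun j : ℕ => brs D r1 (j * δ)) δ a b (Ps1 - b * δ) with hT1
  have hlam0 := hl.1
  have hlam1 : 0 ≤ 1 - lam := by linarith [hl.2]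
  have hrm := lin_mem h1.hr hl
  have hth := abs_le.1 (hθ lam hl)
  have o1' := hMb lam hl
  have hq' := hq lam hl
  have k2 := hek lam hl
  set r := lin r0 r1 lam with hr
  have hrpos : 0 < r := lt_of_lt_of_le hr0 hrm.1
  have w1 := hθa r hrm
  have hp1 : Continuous (fun θ : ℝ => (r, θ)) := by fun_prop
  have hc1 := (continuous_brs D).comp hp1
  simp only [Function.comp_def] at hc1
  -- sliver
  have s1 : ∫ θ in arccos (D.xL / r)..(a * δ), (1 / r - brs D r θ) ≤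
      σ1 * (a * δ - lin Th0 Th1 lam + eT) := by
    have h5 : ∫ θ in arccos (D.xL / r)..(a * δ), (1 / r - brs D r θ) ≤
        ∫ _ in arccos (D.xL / r)..(a * δ), σ1 := by
      apply intervalIntegral.integral_mono_on w1
      · exact (continuous_const.sub hc1).intervalIntegrable _ _
      · exact continuous_const.intervalIntegrable _ _
      · intro θ hθ
        exact (hsl r hrm θ hθ).2
    rw [intervalIntegral.integral_const, smul_eq_mul] at h5
    refine h5.trans ?_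
    rw [mul_comm]
    apply mul_le_mul_of_nonneg_left _ hσ1
    linarith [hth.2]
  have s0 : σ0 * (a * δ - lin Th0 Th1 lam - eT) ≤
      ∫ θ in arccos (D.xL / r)..(a * δ), (1 / r - brs D r θ) := by
    have h5 : ∫ _ in arccos (D.xL / r)..(a * δ), σ0 ≤
        ∫ θ in arccos (D.xL / r)..(a * δ), (1 / r - brs D r θ) := by
      apply intervalIntegral.integral_mono_on w1
      · exact continuous_const.intervalIntegrable _ _
      · exact (continuous_const.sub hc1).intervalIntegrable _ _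
      · intro θ hθ
        exact (hsl r hrm θ hθ).1
    rw [intervalIntegral.integral_const, smul_eq_mul] at h5
    refine le_trans ?_ h5
    rw [mul_comm (a * δ - arccos (D.xL / r))]
    apply mul_le_mul_of_nonneg_left _ hσ0
    linarith [hth.1]
  -- outer end
  have o1 : |∫ θ in arccos (-(1 / D.ρ) / r)..(lin Ps0 Ps1 lam), brs D r θ| ≤ Mb * eq := by
    have h5 := intervalIntegral.norm_integral_le_of_norm_le_const
      (a := arccos (-(1 / D.ρ) / r)) (b := lin Ps0 Ps1 lam) (f := fun θ => brs D r θ) (C := Mb)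
      (by
        intro θ hθ
        rw [Real.norm_eq_abs]
        exact o1' θ (uIoc_subset_uIcc hθ))
    rw [Real.norm_eq_abs] at h5
    refine h5.trans ?_
    have hM0 : 0 ≤ Mb := (abs_nonneg _).trans (o1' _ left_mem_uIcc)
    exact mul_le_mul_of_nonneg_left hq' hM0
  have o2 := abs_le.1 o1
  -- decomposition
  have hdec := pi_mC_eq (D := D) (α := α) (ω := ω) (k := k) (r := r) (A := a * δ)
    (P := lin Ps0 Ps1 lam)
  -- the explicit part
  have hX : cX α ω r = lin (cX α ω r0) (cX α ω r1) lam := cX_lin α ω r0 r1 lam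
  have hinv := inv_chord hr0 h1.hr hl
  rw [← hr] at hinv
  have hc : 0 ≤ a * δ - α := by linarith
  have v1 : (a * δ - α) / r ≤ lin ((a * δ - α) / r0) ((a * δ - α) / r1) lam := by
    have h5 := mul_le_mul_of_nonneg_left hinv.1 hc
    have e1 : (a * δ - α) * (1 / r) = (a * δ - α) / r := by ring
    have e2 : (a * δ - α) * lin (1 / r0) (1 / r1) lam =
        lin ((a * δ - α) / r0) ((a * δ - α) / r1) lam := by
      unfold lin
      ring
    rwa [e1, e2] at h5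
  have v2 : lin ((a * δ - α) / r0) ((a * δ - α) / r1) lam ≤ (a * δ - α) / r +
      (a * δ - α) * ((r1 - r0) ^ 2 / (4 * r0 ^ 3)) := by
    have h5 := mul_le_mul_of_nonneg_left hinv.2 hc
    have e1 : (a * δ - α) * (1 / r + (r1 - r0) ^ 2 / (4 * r0 ^ 3)) = (a * δ - α) / r +
        (a * δ - α) * ((r1 - r0) ^ 2 / (4 * r0 ^ 3)) := by ring
    have e2 : (a * δ - α) * lin (1 / r0) (1 / r1) lam =
        lin ((a * δ - α) / r0) ((a * δ - α) / r1) lam := by
      unfold lin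
      ring
    rwa [e1, e2] at h5
  have k1 : |r - sin α| ≤ lin |r0 - sin α| |r1 - sin α| lam := by
    have e1 : r - sin α = (1 - lam) * (r0 - sin α) + lam * (r1 - sin α) := by
      rw [hr]
      unfold lin
      ring
    rw [e1]
    refine (abs_add_le _ _).trans ?_
    rw [abs_mul, abs_mul, abs_of_nonneg hlam1, abs_of_nonneg hlam0]
    unfold lin
    linarith
  have kk1 := mul_le_mul_of_nonneg_left k1 hk
  have kk2 := mul_le_mul_of_nonneg_left k2 hk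
  -- the row inequalities
  have U0 := hup r0 m0 T0 Th0 (Or.inl ⟨rfl, rfl, rfl, rfl⟩)
  have U1 := hup r1 m1 T1 Th1 (Or.inr ⟨rfl, rfl, rfl, rfl⟩)
  have L0 := hlo r0 m0 T0 Th0 (Or.inl ⟨rfl, rfl, rfl, rfl⟩)
  have L1 := hlo r1 m1 T1 Th1 (Or.inr ⟨rfl, rfl, rfl, rfl⟩)
  have U := lin_le_lin hl U0 U1
  have L := lin_le_lin hl L0 L1
  rw [hX] at hdec
  have hI1 := hI.1
  have hI2 := hI.2
  clear U0 U1 L0 L1 hup hlo hMb hq hek hsl hθa hθ hI h1 h2 hL o1' hq' k1 k2 w1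
  have o21 := o2.1
  have o22 := o2.2
  rw [abs_le, hdec]
  clear hdec hX hinv o1 o2 hrm hth
  unfold lin at *
  constructor
  · linarith
  · linarith

end Pool.Agent.H4.Shore
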