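import Mathlib
import Pool.Agent.H4.Shore.Gauge2

/-!
Shoreline search: numerical constants for the gauge.
-/

open Real Set

namespace Pool.Agent.H4.Shore

theorem Consts.L_bounds {α ω : ℝ} (h : Consts α ω) :
    1.0323645948 ≤ log (cos α / cos ω) ∧ log (cos α / cos ω) ≤ 1.0323645953 := by
  have h1 := h.al
  have h2 := h.au
  have h3 := h.wl
  have h4 := h.wu
  have p1 := Real.pi_gt_d20
  have p2 := Real.pi_lt_d20
  obtain ⟨t1, t2⟩ := h.tan_bounds
  rw [← h.E1]
  have a1 : 4.85888236280 ≤ 2 * π - α - ω := by linarith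
  have a2 : 2 * π - α - ω ≤ 4.85888236284 := by linarith
  constructor
  · calc (1.0323645948:ℝ) ≤ 4.85888236280 * 0.2124695594 := by norm_num
      _ ≤ _ := mul_le_mul a1 t1.le (by norm_num) (by linarith)
  · calc (2 * π - α - ω) * tan α ≤ 4.85888236284 * 0.2124695595 :=
          mul_le_mul a2 t2.le (by linarith) (by norm_num)
      _ ≤ _ := by norm_num

theorem Consts.cX_bound {α ω : ℝ} (h : Consts α ω) {r : ℝ} (h0 : 0 ≤ r) (h1 : r ≤ 1) :
    |cX α ω r - (170942156 / 2 ^ 30 * r - 1225538240453287 / 2 ^ 50)| ≤ 1 / 10 ^ 8 := by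
  obtain ⟨l1, l2⟩ := h.L_bounds
  have s1 := h.sal
  have s2 := h.sau
  have c1 := h.cal
  have c2 := h.cau
  set L := log (cos α / cos ω) with hL
  have hs : 0 < sin α := by linarith
  have hc : 0 < cos α := by linarith
  have hsc : 0 < sin α * cos α := mul_pos hs hc
  -- the slope
  have p1 : 0.2078302662956544 * 0.97816490450775435 ≤ sin α * cos α :=
    mul_le_mul s1 c1 (by norm_num) hs.le
  have p2 : sin α * cos α ≤ 0.20783026629761079 * 0.97816490450817002 :=
    mul_le_mul s2 c2 hc.le (by norm_num)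
  have a1 : 0.159202287 ≤ (L - 1) / (sin α * cos α) := by
    rw [le_div_iff₀ hsc]
    refine (mul_le_mul_of_nonneg_left p2 (by norm_num)).trans ?_
    norm_num at l1 ⊢
    linarith
  have a2 : (L - 1) / (sin α * cos α) ≤ 0.15920229 := by
    rw [div_le_iff₀ hsc]
    refine le_trans ?_ (mul_le_mul_of_nonneg_left p1 (by norm_num))
    norm_num at l2 ⊢
    linarith
  have b1 : 1.088496617 ≤ (2 * L - 1) / cos α := by
    rw [le_div_iff₀ hc]
    refine (mul_le_mul_of_nonneg_left c2 (by norm_num)).trans ?_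
    norm_num at l1 ⊢
    linarith
  have b2 : (2 * L - 1) / cos α ≤ 1.08849662 := by
    rw [div_le_iff₀ hc]
    refine le_trans ?_ (mul_le_mul_of_nonneg_left c1 (by norm_num))
    norm_num at l2 ⊢
    linarith
  have e : cX α ω r = (L - 1) / (sin α * cos α) * r - (2 * L - 1) / cos α := by
    unfold cX
    rw [← hL]
    field_simp
    ring
  rw [e]
  set A := (L - 1) / (sin α * cos α) with hA
  set B := (2 * L - 1) / cos α with hB
  have m1 := mul_le_mul_of_nonneg_right a1 h0
  have m2 := mul_le_mul_of_nonneg_right a2 h0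
  rw [abs_le]
  norm_num at m1 m2 b1 b2 ⊢
  constructor
  · linarith
  · linarith

end Pool.Agent.H4.Shore
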