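import Mathlib
import Pool.Agent.H4.Shore.Gauge2
import Pool.Agent.H65.Shore.Full

/-!
Shoreline search: kernel check of a row for the gauge: bounds for the radial coefficient at grid
points and for its trapezoidal sum, bounds for the two end angles.
-/

open Real Set

namespace Pool.Agent.H4.Shore

open Pool.Agent.H44.Shore Pool.Agent.H65.Shore

/-! ### Trigonometric bounds -/

theorem trig_up {C S u cU sU : ℝ} (hC : C ≤ cU) (hS : S ≤ sU) (hc : 0 ≤ cU) (hs : 0 ≤ sU)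
    (hu0 : 0 ≤ u) (hu1 : u ≤ 1) : C * cos u + S * sin u ≤ cU + sU * u := by
  have hcos1 := cos_le_one u
  have hcos0 : 0 ≤ cos u := cos_nonneg_of_neg_pi_div_two_le_of_le (by
    have := pi_gt_three
    linarith) (by
    have := pi_gt_three
    linarith)
  have hsin1 : sin u ≤ u := sin_le hu0
  have hsin0 : 0 ≤ sin u := sin_nonneg_of_nonneg_of_le_pi hu0 (by
    have := pi_gt_three
    linarith)
  have h1 : C * cos u ≤ cU * 1 :=
    (mul_le_mul_of_nonneg_right hC hcos0).trans (mul_le_mul_of_nonneg_left hcos1 hc)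
  have h2 : S * sin u ≤ sU * u :=
    (mul_le_mul_of_nonneg_right hS hsin0).trans (mul_le_mul_of_nonneg_left hsin1 hs)
  linarith

theorem trig_low {C S u cL sL : ℝ} (hC : cL ≤ C) (hS : sL ≤ S) (hc : 0 ≤ cL) (hs : 0 ≤ sL)
    (hu0 : 0 ≤ u) (hu1 : u ≤ 1) : (cL + sL * u) * (1 - u ^ 2 / 2) ≤ C * cos u + S * sin u := by
  have hcos : 1 - u ^ 2 / 2 ≤ cos u := one_sub_sq_div_two_le_cos
  have hsin : u * (1 - u ^ 2 / 2) ≤ sin u := by
    rcases hu0.eq_or_lt with h0 | h0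
    · rw [← h0]
      simp
    · have := sin_gt_sub_cube h0
      nlinarith [pow_pos h0 3]
  have hk : 0 ≤ 1 - u ^ 2 / 2 := by nlinarith
  have h1 : cL * (1 - u ^ 2 / 2) ≤ C * cos u :=
    mul_le_mul hC hcos hk (hc.trans hC)
  have h2 : sL * (u * (1 - u ^ 2 / 2)) ≤ S * sin u :=
    mul_le_mul hS hsin (mul_nonneg hu0 hk) (hs.trans hS)
  linarith

/-! ### Lanes -/

/-- lanes `i, ..., i + n - 1` are in `[lo, hi]` -/
def lanesIn (X lo hi : ℕ) : ℕ → ℕ → Bool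
  | _, 0 => true
  | i, Nat.succ n => andB (Nat.ble lo (lget 128 X i)) (andB (Nat.ble (lget 128 X i) hi)
      (lanesIn X lo hi (Nat.succ i) n))

theorem lanesIn_sound {X lo hi : ℕ} (n : ℕ) : ∀ {i : ℕ}, lanesIn X lo hi i n = true →
    ∀ j, i ≤ j → j < i + n → lo ≤ lget 128 X j ∧ lget 128 X j ≤ hi := by
  induction n with
  | zero =>
    intro i _ j h1 h2
    omega
  | succ n ih =>
    intro i h j h1 h2
    obtain ⟨c1, h⟩ := andB_eq h
    obtain ⟨c2, h⟩ := andB_eq h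
    rcases eq_or_lt_of_le h1 with h3 | h3
    · rw [← h3]
      exact ⟨Nat.le_of_ble_eq_true c1, Nat.le_of_ble_eq_true c2⟩
    · exact ih h j h3 (by omega)

/-- the radial coefficient against the rational certificate -/
theorem brs_close {D : Dat} {L : List (List ℤ)} {C : ℕ} (hC : Close D L C) {r θ : ℝ} (h0 : 0 ≤ r)
    (h1 : r ≤ 1) (hx : |r * cos θ| ≤ 21 / 100) : |brs D r θ + Bf (Dq D L C) r θ| ≤ 1 / 2 ^ 21 := by
  have e1 : brs D r θ = D.gs r 0 0 (cos θ) (sin θ) - D.gs r 1 0 (cos θ) (sin θ) := brs_eq_gs D r θ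
  have e2 : brs (Dq D L C) r θ = (Dq D L C).gs r 0 0 (cos θ) (sin θ) -
    (Dq D L C).gs r 1 0 (cos θ) (sin θ) := brs_eq_gs _ r θ
  have e3 : Bf (Dq D L C) r θ = -brs (Dq D L C) r θ := by
    unfold Bf brs
    ring
  have hcs : cos θ ^ 2 + sin θ ^ 2 = 1 := cos_sq_add_sin_sq θ
  have c1 := abs_le.1 (hC r 0 0 (cos θ) (sin θ) h0 h1 (by norm_num) hcs hx)
  have c2 := abs_le.1 (hC r 1 0 (cos θ) (sin θ) h0 h1 (by norm_num) hcs hx)
  rw [e3, e1, e2, abs_le]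
  have e4 : (1:ℝ) / 2 ^ 21 = 1 / 2 ^ 22 + 1 / 2 ^ 22 := by norm_num
  rw [e4]
  constructor <;> linarith [c1.1, c1.2, c2.1, c2.2]

/-- lanes of a row against the true radial coefficient -/
theorem lane_brs {D : Dat} {L : List (List ℤ)} {C n j0 dn rn B Cc : ℕ} (hC : Close D L C)
    (hR : RowT (Dq D L C) n ((j0:ℝ) * ((dn:ℝ) / 2 ^ 30)) ((dn:ℝ) / 2 ^ 30) ((rn:ℝ) / 2 ^ 20) B Cc)
    (hrn : rn ≤ 2 ^ 20) :
    ∃ f : ℕ → ℕ, B = packN 128 n f ∧ (∀ j < n, f j ≤ 2 ^ 93) ∧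
      ∀ j, j0 ≤ j → j < j0 + n → |(rn:ℝ) / 2 ^ 20 * cos (j * ((dn:ℝ) / 2 ^ 30))| ≤ 21 / 100 →
        |(f (j - j0) : ℝ) - 2 ^ 92 + 2 ^ 72 * brs D ((rn:ℝ) / 2 ^ 20) (j * ((dn:ℝ) / 2 ^ 30))| ≤
          2 ^ 51 + 2 ^ 49 := by
  obtain ⟨b, c, hB, -, hbc⟩ := hR
  refine ⟨fun j => (b j + (2 ^ 92 : ℕ)).toNat, hB, ?_, ?_⟩
  · intro j hj
    obtain ⟨-, h2, -, -⟩ := hbc j hj
    have h3 := abs_le.1 h2
    have e : (2:ℤ) ^ 93 = 2 ^ 92 + 2 ^ 92 := by norm_num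
    have h4 : ((((b j + (2 ^ 92 : ℕ)).toNat : ℕ) : ℤ)) ≤ 2 ^ 93 := by
      rw [Int.toNat_of_nonneg (by push_cast; linarith [h3.1])]
      push_cast
      linarith [h3.2]
    exact_mod_cast h4
  · intro j hj0 hjn hx
    have hj : j - j0 < n := by omega
    obtain ⟨h1, h2, -, -⟩ := hbc (j - j0) hj
    have h3 := abs_le.1 h2
    have h4 : ((((b (j - j0) + (2 ^ 92 : ℕ)).toNat : ℕ) : ℤ)) = b (j - j0) + 2 ^ 92 := by
      rw [Int.toNat_of_nonneg (by push_cast; linarith [h3.1])]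
      push_cast
      ring
    have h5 : (((b (j - j0) + (2 ^ 92 : ℕ)).toNat : ℕ) : ℝ) = (b (j - j0) : ℝ) + 2 ^ 92 := by
      have : ((((b (j - j0) + (2 ^ 92 : ℕ)).toNat : ℕ) : ℤ) : ℝ) =
          ((b (j - j0) + 2 ^ 92 : ℤ) : ℝ) := by rw [h4]
      rw [Int.cast_natCast] at this
      rw [this]
      push_cast
      ring
    have e : (j0:ℝ) * ((dn:ℝ) / 2 ^ 30) + ((j - j0 : ℕ) : ℝ) * ((dn:ℝ) / 2 ^ 30) =
        j * ((dn:ℝ) / 2 ^ 30) := by
      rw [Nat.cast_sub hj0]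
      ring
    rw [e] at h1
    have hr1 : (rn:ℝ) / 2 ^ 20 ≤ 1 := by
      rw [div_le_one (by positivity)]
      exact_mod_cast hrn
    have h6 := abs_le.1 (brs_close hC (by positivity) hr1 hx)
    have h7 := abs_le.1 h1
    show |((((b (j - j0) + (2 ^ 92 : ℕ)).toNat : ℕ) : ℝ)) - 2 ^ 92 + _| ≤ _
    rw [h5, abs_le]
    set X := brs D ((rn:ℝ) / 2 ^ 20) (j * ((dn:ℝ) / 2 ^ 30)) with hX
    set Y := Bf (Dq D L C) ((rn:ℝ) / 2 ^ 20) (j * ((dn:ℝ) / 2 ^ 30)) with hY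
    have e3 : (2:ℝ) ^ 72 * (1 / 2 ^ 21) = 2 ^ 51 := by norm_num
    have h8 := mul_le_mul_of_nonneg_left h6.1 (by positivity : (0:ℝ) ≤ 2 ^ 72)
    have h9 := mul_le_mul_of_nonneg_left h6.2 (by positivity : (0:ℝ) ≤ 2 ^ 72)
    rw [mul_neg, e3] at h8
    rw [e3] at h9
    constructor <;> linarith [h7.1, h7.2]

/-- exact form of the integer quadrature sum -/
theorem tsum_exact {L n : ℕ} {f : ℕ → ℕ} (hf : ∀ j < n, f j < 2 ^ L) {dn wn a b j0 : ℕ}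
    (hdn : 0 < dn) (hwn : wn ≤ dn) (hab : a < b) (hbn : b + 1 < n)
    (hs : ∑ j ∈ Finset.range (b - a - 1), f (j + (a + 1)) < 2 ^ L - 1)
    {A : ℕ → ℝ} (hA : ∀ j, a ≤ j → j ≤ b + 1 → A (j0 + j) = f j) :
    ∃ t : ℝ, 0 ≤ t ∧ t ≤ 1 ∧ (tsum L (packN L n f) dn wn a b : ℝ) =
      2 ^ 31 * TT A ((dn:ℝ) / 2 ^ 30) (j0 + a) (j0 + b) ((wn:ℝ) / 2 ^ 30) +
        (t * A (j0 + b) + (1 - t) * A (j0 + b + 1)) := by
  have hdn' : (0:ℝ) < dn := by exact_mod_cast hdn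
  have e1 := lsum_eq hf (a := a + 1) (m := b - a - 1) (by omega) hs
  have e2 := lget_eq hf (a := a) (by omega)
  have e3 := lget_eq hf (a := b) (by omega)
  have e4 := lget_eq hf (a := b + 1) (by omega)
  have hq1 : ((wn * wn / dn : ℕ) : ℝ) ≤ (wn:ℝ) ^ 2 / dn := by
    have := @Nat.cast_div_le ℝ _ _ _ (wn * wn) dn
    push_cast at this
    rw [sq]
    exact this
  have hq2 : (wn:ℝ) ^ 2 / dn ≤ ((wn * wn / dn : ℕ) : ℝ) + 1 := by
    have h1 := Nat.lt_div_mul_add (a := wn * wn) hdn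
    have h2 : ((wn * wn : ℕ) : ℝ) < ((wn * wn / dn * dn + dn : ℕ) : ℝ) := by exact_mod_cast h1
    push_cast at h2
    rw [div_le_iff₀ hdn', sq]
    nlinarith
  have hq3 : wn * wn / dn ≤ dn + 2 * wn := by
    have h1 : wn * wn / dn ≤ wn := by
      calc wn * wn / dn ≤ dn * wn / dn := Nat.div_le_div_right (Nat.mul_le_mul_right _ hwn)
        _ = wn := Nat.mul_div_cancel_left _ hdn
    omega
  have e5 : (tsum L (packN L n f) dn wn a b : ℝ) =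
      2 * dn * ∑ j ∈ Finset.range (b - a - 1), (f (j + (a + 1)) : ℝ) + dn * f a +
      ((dn + 2 * wn - ((wn * wn / dn : ℕ) : ℝ)) * f b +
        (((wn * wn / dn : ℕ) : ℝ) + 1) * f (b + 1)) := by
    have : tsum L (packN L n f) dn wn a b =
        2 * dn * (lsum L (packN L n f) (a + 1) (b - a - 1)) + dn * lget L (packN L n f) a +
        ((dn + 2 * wn - wn * wn / dn) * lget L (packN L n f) b +
          (wn * wn / dn + 1) * lget L (packN L n f) (b + 1)) := rfl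
    rw [this, e1, e2, e3, e4]
    push_cast [hq3]
    ring
  refine ⟨(wn:ℝ) ^ 2 / dn - ((wn * wn / dn : ℕ) : ℝ), by linarith, by linarith, ?_⟩
  rw [TT_split _ _ (by omega : j0 + a < j0 + b), e5]
  have hsum : ∑ j ∈ Finset.range (j0 + b - (j0 + a) - 1), A (j + (j0 + a + 1)) =
      ∑ j ∈ Finset.range (b - a - 1), (f (j + (a + 1)) : ℝ) := by
    have h1 : j0 + b - (j0 + a) - 1 = b - a - 1 := by omega
    rw [h1]
    apply Finset.sum_congr rfl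
    intro j hj
    have := Finset.mem_range.mp hj
    have h2 := hA (j + (a + 1)) (by omega) (by omega)
    have h3 : j0 + (j + (a + 1)) = j + (j0 + a + 1) := by omega
    rwa [h3] at h2
  have ha := hA a le_rfl (by omega)
  have hb := hA b (by omega) (by omega)
  have hb1 : A (j0 + b + 1) = f (b + 1) := hA (b + 1) (by omega) le_rfl
  rw [hsum, ha, hb, hb1]
  field_simp
  ring

/-- two-sided bound for the trapezoidal sum of the radial coefficient from the lanes -/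
theorem TT_brs {D : Dat} {L : List (List ℤ)} {C n j0 dn rn B Cc : ℕ} (hC : Close D L C)
    (hR : RowT (Dq D L C) n ((j0:ℝ) * ((dn:ℝ) / 2 ^ 30)) ((dn:ℝ) / 2 ^ 30) ((rn:ℝ) / 2 ^ 20) B Cc)
    (hrn : rn ≤ 2 ^ 20) (hn : n ≤ 2048) {a b P : ℕ}
    (ha : j0 ≤ a) (hab : a < b) (hb : b + 1 < j0 + n) (hP0 : b * dn ≤ P) (hP1 : P ≤ (b + 1) * dn)
    (hdn : 0 < dn) (hdn4 : (b + 1) * dn ≤ 2 ^ 32)
    (hx : ∀ j : ℕ, a ≤ j → j ≤ b + 1 → |(rn:ℝ) / 2 ^ 20 * cos (j * ((dn:ℝ) / 2 ^ 30))| ≤ 21 / 100)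
    (hout : ∀ j : ℕ, b ≤ j → j ≤ b + 1 →
      |brs D ((rn:ℝ) / 2 ^ 20) (j * ((dn:ℝ) / 2 ^ 30))| ≤ 8) :
    |(tsum 128 B dn (P - b * dn) (a - j0) (b - j0) : ℝ) / 2 ^ 103 -
      (1 + 2 * ((P:ℝ) - a * dn)) / 2 ^ 11 +
      TT (fun j : ℕ => brs D ((rn:ℝ) / 2 ^ 20) (j * ((dn:ℝ) / 2 ^ 30)))
        ((dn:ℝ) / 2 ^ 30) a b ((P:ℝ) / 2 ^ 30 - b * ((dn:ℝ) / 2 ^ 30))| ≤ 3 / 2 ^ 20 := by
  obtain ⟨f, hB, hf, hfb⟩ := lane_brs hC hR hrn
  set δ : ℝ := (dn:ℝ) / 2 ^ 30 with hδdef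
  have hδ : 0 < δ := by
    rw [hδdef]
    have : (0:ℝ) < dn := by exact_mod_cast hdn
    positivity
  have hf' : ∀ j < n, f j < 2 ^ 128 := fun j hj => lt_of_le_of_lt (hf j hj) (by norm_num)
  set A : ℕ → ℝ := fun j => (f (j - j0) : ℝ) with hA
  obtain ⟨t, t0, t1, ht⟩ := tsum_exact (L := 128) hf' (dn := dn) (wn := P - b * dn) (a := a - j0)
    (b := b - j0) (j0 := j0) hdn (by
      have : (b + 1) * dn = b * dn + dn := by ring
      omega) (by omega) (by omega) (by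
      calc ∑ j ∈ Finset.range (b - j0 - (a - j0) - 1), f (j + (a - j0 + 1))
          ≤ ∑ _j ∈ Finset.range (b - j0 - (a - j0) - 1), 2 ^ 93 := by
            apply Finset.sum_le_sum
            intro j hj
            have := Finset.mem_range.mp hj
            exact hf _ (by omega)
        _ = (b - j0 - (a - j0) - 1) * 2 ^ 93 := by simp
        _ ≤ 2048 * 2 ^ 93 := by
            apply Nat.mul_le_mul_right
            omega
        _ < 2 ^ 128 - 1 := by norm_num)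
    (A := A) (by
      intro j _ _
      rw [hA]
      simp)
  have hj1 : j0 + (a - j0) = a := by omega
  have hj2 : j0 + (b - j0) = b := by omega
  rw [hj1, hj2, ← hB] at ht
  have hw : (((P - b * dn : ℕ) : ℝ)) / 2 ^ 30 = (P:ℝ) / 2 ^ 30 - b * δ := by
    rw [Nat.cast_sub hP0]
    push_cast
    rw [hδdef]
    ring
  rw [hw] at ht
  set w : ℝ := (P:ℝ) / 2 ^ 30 - b * δ with hwdef
  have hw0 : 0 ≤ w := by
    rw [hwdef, sub_nonneg, hδdef, ← mul_div_assoc, div_le_div_iff_of_pos_right (by positivity)]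
    exact_mod_cast hP0
  have hw1 : w ≤ δ := by
    have h1 : (P:ℝ) ≤ ((b:ℝ) + 1) * dn := by exact_mod_cast hP1
    have h2 : (P:ℝ) / 2 ^ 30 ≤ ((b:ℝ) + 1) * dn / 2 ^ 30 := by gcongr
    have h3 : ((b:ℝ) + 1) * dn / 2 ^ 30 = b * δ + δ := by
      rw [hδdef]
      ring
    rw [hwdef]
    linarith
  -- comparison of the lanes
  set g : ℕ → ℝ := fun j => brs D ((rn:ℝ) / 2 ^ 20) (j * δ) with hg
  have hAg : ∀ j, a ≤ j → j ≤ b + 1 → |A j - 2 ^ 92 + 2 ^ 72 * g j| ≤ 2 ^ 51 + 2 ^ 49 := by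
    intro j h1 h2
    exact hfb j (by omega) (by omega) (hx j h1 h2)
  have hlen : ((b:ℝ) - a) * δ + w ≤ 4 := by
    have h1 : (P:ℝ) / 2 ^ 30 ≤ 4 := by
      rw [div_le_iff₀ (by positivity)]
      have : P ≤ 2 ^ 32 := hP1.trans hdn4
      have : (P:ℝ) ≤ 2 ^ 32 := by exact_mod_cast this
      linarith
    have h2 : 0 ≤ (a:ℝ) * δ := by positivity
    rw [hwdef]
    linarith
  have hlen0 : 0 ≤ ((b:ℝ) - a) * δ + w := by
    have : (a:ℝ) ≤ b := by exact_mod_cast hab.le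
    have : 0 ≤ ((b:ℝ) - a) * δ := mul_nonneg (by linarith) hδ.le
    linarith
  have m1 := TT_mono (A := fun j => (-(2 ^ 72) * g j) + (2 ^ 92 - (2 ^ 51 + 2 ^ 49))) (A' := A)
    hδ hab hw0 hw1 (fun j h1 h2 => by
      have := (abs_le.1 (hAg j h1 h2)).1
      linarith)
  have m2 := TT_mono (A := A) (A' := fun j => (-(2 ^ 72) * g j) + (2 ^ 92 + (2 ^ 51 + 2 ^ 49)))
    hδ hab hw0 hw1 (fun j h1 h2 => by
      have := (abs_le.1 (hAg j h1 h2)).2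
      linarith)
  rw [TT_add_const _ hδ hab, TT_smul _ _ hab] at m1 m2
  -- the last two lanes
  have l1 := abs_le.1 (hAg b (by omega) (by omega))
  have l2 := abs_le.1 (hAg (b + 1) (by omega) le_rfl)
  have o1 : |g b| ≤ 8 := hout b le_rfl (by omega)
  have o2 : |g (b + 1)| ≤ 8 := hout (b + 1) (by omega) le_rfl
  have o1' := abs_le.1 o1
  have o2' := abs_le.1 o2
  set X := TT g δ a b w with hX
  set Y := TT A δ a b w with hY
  set len := ((b:ℝ) - a) * δ + w with hlendef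
  have b1 : A b - 2 ^ 92 ≤ 2 ^ 76 ∧ -2 ^ 76 ≤ A b - 2 ^ 92 := by
    constructor
    · linarith [l1.1, l1.2, o1'.1, o1'.2]
    · linarith [l1.1, l1.2, o1'.1, o1'.2]
  have b2 : A (b + 1) - 2 ^ 92 ≤ 2 ^ 76 ∧ -2 ^ 76 ≤ A (b + 1) - 2 ^ 92 := by
    constructor
    · linarith [l2.1, l2.2, o2'.1, o2'.2]
    · linarith [l2.1, l2.2, o2'.1, o2'.2]
  have hconv : |t * A b + (1 - t) * A (b + 1) - 2 ^ 92| ≤ 2 ^ 76 := by
    have h1 : 0 ≤ 1 - t := by linarith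
    have h2 := mul_le_mul_of_nonneg_left b1.1 t0
    have h3 := mul_le_mul_of_nonneg_left b2.1 h1
    have h4 := mul_le_mul_of_nonneg_left b1.2 t0
    have h5 := mul_le_mul_of_nonneg_left b2.2 h1
    rw [abs_le]
    constructor
    · linarith
    · linarith
  set Z := t * A b + (1 - t) * A (b + 1) with hZ
  have hlen2 : (P:ℝ) - a * dn = len * 2 ^ 30 := by
    rw [hlendef, hwdef, hδdef]
    field_simp
    ring
  rw [hlen2, ht]
  have e0 : (2 ^ 31 * Y + Z) / 2 ^ 103 - (1 + 2 * (len * 2 ^ 30)) / 2 ^ 11 + X =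
      (Y - 2 ^ 92 * len + 2 ^ 72 * X) / 2 ^ 72 + (Z - 2 ^ 92) / 2 ^ 103 := by
    field_simp
    ring
  rw [e0]
  have h6 : |Y - 2 ^ 92 * len + 2 ^ 72 * X| ≤ (2 ^ 51 + 2 ^ 49) * 4 := by
    have h7 := mul_le_mul_of_nonneg_left hlen (by positivity : (0:ℝ) ≤ 2 ^ 51 + 2 ^ 49)
    rw [abs_le]
    constructor <;> linarith
  have h8 : |(Y - 2 ^ 92 * len + 2 ^ 72 * X) / 2 ^ 72| ≤ (2 ^ 51 + 2 ^ 49) * 4 / 2 ^ 72 := by
    rw [abs_div, abs_of_pos (by positivity : (0:ℝ) < 2 ^ 72)]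
    gcongr
  have h9 : |(Z - 2 ^ 92) / 2 ^ 103| ≤ 2 ^ 76 / 2 ^ 103 := by
    rw [abs_div, abs_of_pos (by positivity : (0:ℝ) < 2 ^ 103)]
    gcongr
  refine (abs_add_le _ _).trans ((add_le_add h8 h9).trans ?_)
  norm_num

end Pool.Agent.H4.Shore
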