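import Mathlib
import Pool.Agent.H4.Shore.GRow
import Pool.Agent.H4.Shore.GNum

/-!
Shoreline search: kernel check of the two end angles of a row, and its soundness.
-/

open Real Set

namespace Pool.Agent.H4.Shore

open Pool.Agent.H44.Shore Pool.Agent.H65.Shore

theorem sub_ge' (x y : ℕ) : (x:ℝ) - y ≤ ((x - y : ℕ) : ℝ) := by
  have h : x ≤ (x - y) + y := by omega
  have h2 : (x:ℝ) ≤ ((x - y : ℕ) : ℝ) + y := by exact_mod_cast h
  linarith

/-- upper bound from a lane -/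
theorem lane_up {c M : ℕ} {x : ℝ} (hM : (M:ℝ) = 2 ^ 46) (hc : |(c:ℝ) - 2 ^ 46 - 2 ^ 44 * x| ≤ 5) :
    x ≤ ((c + 5 - M : ℕ) : ℝ) / 2 ^ 44 := by
  rw [le_div_iff₀ (by positivity)]
  have h1 := sub_ge' (c + 5) M
  have h2 := (abs_le.1 hc).1
  push_cast at h1
  rw [hM] at h1
  linarith

theorem lane_low {c M2 : ℕ} {x : ℝ} (hM : (M2:ℝ) = 2 ^ 46 + 5) (h : M2 ≤ c)
    (hc : |(c:ℝ) - 2 ^ 46 - 2 ^ 44 * x| ≤ 5) : ((c - M2 : ℕ) : ℝ) / 2 ^ 44 ≤ x := by
  rw [div_le_iff₀ (by positivity), Nat.cast_sub h, hM]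
  have h2 := (abs_le.1 hc).2
  linarith

/-- upper bound of the negative from a lane -/
theorem lane_nup {c M2 : ℕ} {x : ℝ} (hM : (M2:ℝ) = 2 ^ 46 + 5)
    (hc : |(c:ℝ) - 2 ^ 46 - 2 ^ 44 * x| ≤ 5) : -x ≤ ((M2 - c : ℕ) : ℝ) / 2 ^ 44 := by
  rw [le_div_iff₀ (by positivity)]
  have h1 := sub_ge' M2 c
  have h2 := (abs_le.1 hc).2
  rw [hM] at h1
  linarith

theorem lane_nlow {c M : ℕ} {x : ℝ} (hM : (M:ℝ) = 2 ^ 46) (h : c + 5 ≤ M)
    (hc : |(c:ℝ) - 2 ^ 46 - 2 ^ 44 * x| ≤ 5) : ((M - (c + 5) : ℕ) : ℝ) / 2 ^ 44 ≤ -x := by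
  rw [div_le_iff₀ (by positivity), Nat.cast_sub h, hM]
  have h2 := (abs_le.1 hc).1
  push_cast
  linarith

/-- check of the left angle -/
def angT (nL N rn cU sU cL sL Up Um : ℕ) : Bool :=
  andB (Nat.ble (Nat.add (Nat.mul (Nat.mul N rn) (Nat.add (Nat.mul cU 1073741824)
      (Nat.mul sU Up))) (Nat.mul N 18889465931478580854784))
    (Nat.mul nL 19807040628566084398385987584)) (
  Nat.ble (Nat.add (Nat.mul nL 45671926166590716193865151022383844364247891968)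
    (Nat.mul N 43556142965880123323311949751266331066368))
    (Nat.mul (Nat.mul N rn) (Nat.mul (Nat.add (Nat.mul cL 1073741824) (Nat.mul sL Um))
      (Nat.sub 2305843009213693952 (Nat.mul Um Um)))))

theorem angT_sound {nL N rn cU sU cL sL Up Um : ℕ} {A xL : ℝ}
    (h : angT nL N rn cU sU cL sL Up Um = true)
    (hN : 0 < N) (hxL : xL = (nL:ℝ) / N)
    (h1 : cos A ≤ (cU:ℝ) / 2 ^ 44) (h2 : sin A ≤ (sU:ℝ) / 2 ^ 44)
    (h3 : (cL:ℝ) / 2 ^ 44 ≤ cos A) (h4 : (sL:ℝ) / 2 ^ 44 ≤ sin A)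
    (hUp : Up ≤ 2 ^ 30) (hUm : Um ≤ 2 ^ 30) :
    (rn:ℝ) / 2 ^ 20 * cos (A - (Up:ℝ) / 2 ^ 30) + 1 / 2 ^ 20 ≤ xL ∧
      xL ≤ (rn:ℝ) / 2 ^ 20 * cos (A - (Um:ℝ) / 2 ^ 30) - 1 / 2 ^ 20 := by
  obtain ⟨c1, c2⟩ := andB_eq h
  have c1 : N * rn * (cU * 1073741824 + sU * Up) + N * 18889465931478580854784 ≤
    nL * 19807040628566084398385987584 := Nat.le_of_ble_eq_true c1
  have c2 : nL * 45671926166590716193865151022383844364247891968 +
    N * 43556142965880123323311949751266331066368 ≤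
    N * rn * ((cL * 1073741824 + sL * Um) * (2305843009213693952 - Um * Um)) :=
    Nat.le_of_ble_eq_true c2
  have hNR : (0:ℝ) < N := by exact_mod_cast hN
  have hr0 : (0:ℝ) ≤ rn := Nat.cast_nonneg _
  have hUpR : (Up:ℝ) / 2 ^ 30 ≤ 1 := by
    rw [div_le_one (by positivity)]
    exact_mod_cast hUp
  have hUmR : (Um:ℝ) / 2 ^ 30 ≤ 1 := by
    rw [div_le_one (by positivity)]
    exact_mod_cast hUm
  have hw2 : Um * Um ≤ 2305843009213693952 := by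
    calc Um * Um ≤ 2 ^ 30 * 2 ^ 30 := Nat.mul_le_mul hUm hUm
      _ ≤ _ := by norm_num
  have u1 := trig_up h1 h2 (by positivity) (by positivity)
    (by positivity : 0 ≤ (Up:ℝ) / 2 ^ 30) hUpR
  have u2 := trig_low h3 h4 (by positivity) (by positivity)
    (by positivity : 0 ≤ (Um:ℝ) / 2 ^ 30) hUmR
  rw [← cos_sub] at u1 u2
  have r0 : 0 ≤ (rn:ℝ) / 2 ^ 20 := by positivity
  have v1 := mul_le_mul_of_nonneg_left u1 r0
  have v2 := mul_le_mul_of_nonneg_left u2 r0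
  have k1 : (N:ℝ) * rn * (cU * 1073741824 + sU * Up) + N * 18889465931478580854784 ≤
    nL * 19807040628566084398385987584 := by exact_mod_cast c1
  have k2 : ((nL * 45671926166590716193865151022383844364247891968 +
    N * 43556142965880123323311949751266331066368 : ℕ) : ℝ) ≤
    ((N * rn * ((cL * 1073741824 + sL * Um) * (2305843009213693952 - Um * Um)) : ℕ) : ℝ) :=
    Nat.cast_le.2 c2
  clear c1 c2
  rw [Nat.cast_add, Nat.cast_mul, Nat.cast_mul, Nat.cast_mul, Nat.cast_mul, Nat.cast_mul,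
    Nat.cast_add, Nat.cast_mul, Nat.cast_mul, Nat.cast_sub hw2] at k2
  push_cast at k2
  constructor
  · rw [hxL, le_div_iff₀ hNR]
    have e1 : ((rn:ℝ) / 2 ^ 20 * (cU / 2 ^ 44 + sU / 2 ^ 44 * ((Up:ℝ) / 2 ^ 30)) + 1 / 2 ^ 20) *
        N * 2 ^ 94 =
        N * rn * (cU * 1073741824 + sU * Up) + N * 18889465931478580854784 := by
      field_simp
      ring
    have e3 : (19807040628566084398385987584:ℝ) = 2 ^ 94 := by norm_num
    rw [← e1, e3] at k1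
    have e2 := le_of_mul_le_mul_right k1 (by positivity)
    refine le_trans ?_ e2
    gcongr
  · rw [hxL, div_le_iff₀ hNR]
    have e1 : ((rn:ℝ) / 2 ^ 20 * ((cL / 2 ^ 44 + sL / 2 ^ 44 * ((Um:ℝ) / 2 ^ 30)) *
        (1 - ((Um:ℝ) / 2 ^ 30) ^ 2 / 2)) - 1 / 2 ^ 20) * N * 2 ^ 155 =
        N * rn * ((cL * 1073741824 + sL * Um) * (2305843009213693952 - Um * Um)) -
        N * 43556142965880123323311949751266331066368 := by
      field_simp
      ring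
    have e2 : (nL:ℝ) ≤ ((rn:ℝ) / 2 ^ 20 * ((cL / 2 ^ 44 + sL / 2 ^ 44 * ((Um:ℝ) / 2 ^ 30)) *
        (1 - ((Um:ℝ) / 2 ^ 30) ^ 2 / 2)) - 1 / 2 ^ 20) * N := by
      have e3 : (45671926166590716193865151022383844364247891968:ℝ) = 2 ^ 155 := by norm_num
      rw [e3] at k2
      refine le_of_mul_le_mul_right (a := (2:ℝ) ^ 155) ?_ (by positivity)
      rw [e1]
      linarith
    refine e2.trans ?_
    gcongr

/-- check of the outer angle -/
def angP (X1lo X1hi rn cU sU cL sL Up Um : ℕ) : Bool :=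
  andB (Nat.ble (Nat.add (Nat.mul rn (Nat.add (Nat.mul cU 1073741824) (Nat.mul sU Um)))
    295147905179352825856) (Nat.mul X1lo 17179869184)) (
  Nat.ble (Nat.add (Nat.mul X1hi 39614081257132168796771975168)
      680564733841876926926749214863536422912)
    (Nat.mul rn (Nat.mul (Nat.add (Nat.mul cL 1073741824) (Nat.mul sL Up))
      (Nat.sub 2305843009213693952 (Nat.mul Up Up)))))

theorem angP_sound {X1lo X1hi rn cU sU cL sL Up Um : ℕ} {B x1 : ℝ}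
    (h : angP X1lo X1hi rn cU sU cL sL Up Um = true)
    (hlo : (X1lo:ℝ) / 2 ^ 60 ≤ x1) (hhi : x1 ≤ (X1hi:ℝ) / 2 ^ 60)
    (h1 : -cos B ≤ (cU:ℝ) / 2 ^ 44) (h2 : sin B ≤ (sU:ℝ) / 2 ^ 44)
    (h3 : (cL:ℝ) / 2 ^ 44 ≤ -cos B) (h4 : (sL:ℝ) / 2 ^ 44 ≤ sin B)
    (hUp : Up ≤ 2 ^ 30) (hUm : Um ≤ 2 ^ 30) :
    (rn:ℝ) / 2 ^ 20 * cos (B + (Up:ℝ) / 2 ^ 30) + 1 / 2 ^ 26 ≤ -x1 ∧
      -x1 ≤ (rn:ℝ) / 2 ^ 20 * cos (B + (Um:ℝ) / 2 ^ 30) - 1 / 2 ^ 26 := by
  obtain ⟨c1, c2⟩ := andB_eq h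
  have c1 : rn * (cU * 1073741824 + sU * Um) + 295147905179352825856 ≤
    X1lo * 17179869184 := Nat.le_of_ble_eq_true c1
  have c2 : X1hi * 39614081257132168796771975168 + 680564733841876926926749214863536422912 ≤
    rn * ((cL * 1073741824 + sL * Up) * (2305843009213693952 - Up * Up)) :=
    Nat.le_of_ble_eq_true c2
  have hr0 : (0:ℝ) ≤ rn := Nat.cast_nonneg _
  have hUpR : (Up:ℝ) / 2 ^ 30 ≤ 1 := by
    rw [div_le_one (by positivity)]
    exact_mod_cast hUp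
  have hUmR : (Um:ℝ) / 2 ^ 30 ≤ 1 := by
    rw [div_le_one (by positivity)]
    exact_mod_cast hUm
  have hw2 : Up * Up ≤ 2305843009213693952 := by
    calc Up * Up ≤ 2 ^ 30 * 2 ^ 30 := Nat.mul_le_mul hUp hUp
      _ ≤ _ := by norm_num
  have u1 := trig_up h1 h2 (by positivity) (by positivity)
    (by positivity : 0 ≤ (Um:ℝ) / 2 ^ 30) hUmR
  have f1 : -cos B * cos ((Um:ℝ) / 2 ^ 30) + sin B * sin ((Um:ℝ) / 2 ^ 30) =
      -cos (B + (Um:ℝ) / 2 ^ 30) := by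
    rw [cos_add]
    ring
  rw [f1] at u1
  have u2 := trig_low h3 h4 (by positivity) (by positivity)
    (by positivity : 0 ≤ (Up:ℝ) / 2 ^ 30) hUpR
  have f2 : -cos B * cos ((Up:ℝ) / 2 ^ 30) + sin B * sin ((Up:ℝ) / 2 ^ 30) =
      -cos (B + (Up:ℝ) / 2 ^ 30) := by
    rw [cos_add]
    ring
  rw [f2] at u2
  have r0 : 0 ≤ (rn:ℝ) / 2 ^ 20 := by positivity
  have v1 := mul_le_mul_of_nonneg_left u1 r0
  have v2 := mul_le_mul_of_nonneg_left u2 r0
  have k1 : (rn:ℝ) * (cU * 1073741824 + sU * Um) + 295147905179352825856 ≤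
    X1lo * 17179869184 := by exact_mod_cast c1
  have k2 : ((X1hi * 39614081257132168796771975168 +
    680564733841876926926749214863536422912 : ℕ) : ℝ) ≤
    ((rn * ((cL * 1073741824 + sL * Up) * (2305843009213693952 - Up * Up)) : ℕ) : ℝ) :=
    Nat.cast_le.2 c2
  clear c1 c2
  rw [Nat.cast_add, Nat.cast_mul, Nat.cast_mul, Nat.cast_mul,
    Nat.cast_add, Nat.cast_mul, Nat.cast_mul, Nat.cast_sub hw2] at k2
  push_cast at k2
  constructor
  · have e1 : ((rn:ℝ) / 2 ^ 20 * ((cL / 2 ^ 44 + sL / 2 ^ 44 * ((Up:ℝ) / 2 ^ 30)) *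
        (1 - ((Up:ℝ) / 2 ^ 30) ^ 2 / 2))) * 2 ^ 155 =
        rn * ((cL * 1073741824 + sL * Up) * (2305843009213693952 - Up * Up)) := by
      field_simp
      ring
    rw [← e1] at k2
    have e2 : (X1hi:ℝ) * 39614081257132168796771975168 +
        680564733841876926926749214863536422912 = ((X1hi:ℝ) / 2 ^ 60 + 1 / 2 ^ 26) * 2 ^ 155 := by
      field_simp
      ring
    rw [e2] at k2
    have k3 := le_of_mul_le_mul_right k2 (by positivity)
    linarith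
  · have e1 : ((rn:ℝ) / 2 ^ 20 * (cU / 2 ^ 44 + sU / 2 ^ 44 * ((Um:ℝ) / 2 ^ 30)) + 1 / 2 ^ 26) *
        2 ^ 94 = rn * (cU * 1073741824 + sU * Um) + 295147905179352825856 := by
      field_simp
      ring
    rw [← e1] at k1
    have e2 : (X1lo:ℝ) * 17179869184 = ((X1lo:ℝ) / 2 ^ 60) * 2 ^ 94 := by
      field_simp
      ring
    rw [e2] at k1
    have k3 := le_of_mul_le_mul_right k1 (by positivity)
    linarith

end Pool.Agent.H4.Shore
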