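import Mathlib
import Pool.Agent.H4.Shore.GRow2

/-!
Shoreline search: integer evaluation of the defect of the gauge at a row.
-/

open Real Set

namespace Pool.Agent.H4.Shore

open Pool.Agent.H44.Shore Pool.Agent.H65.Shore

/-- positive part of the defect, unit `2 ^ (-50)` -/
def posS (rn S m : ℕ) : ℕ :=
  Nat.add (Nat.add (Nat.mul 170942156 rn)
    (Nat.mul 2 (Nat.add (Nat.sub (Nat.mul rn 1073741824) 233996077462456)
      (Nat.sub 233996077462456 (Nat.mul rn 1073741824)))))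
    (Nat.add (Nat.div S 9007199254740992) (Nat.div (Nat.mul 3537118876014220 m) 1048576))

/-- negative part of the defect, unit `2 ^ (-50)` -/
def negS (dn rn a P : ℕ) : ℕ :=
  Nat.add (Nat.add 1225538240453287
    (Nat.div (Nat.mul (Nat.sub (Nat.mul (Nat.mul a dn) 1048576) 235714201942651) 1048576) rn))
    (Nat.mul 549755813888 (Nat.succ (Nat.mul 2 (Nat.sub P (Nat.mul a dn)))))

theorem abs_nat (x y : ℕ) : ((x - y + (y - x) : ℕ) : ℝ) = |(x:ℝ) - y| := by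
  rcases le_total x y with h | h
  · have h1 : x - y = 0 := by omega
    rw [h1, zero_add, Nat.cast_sub h, abs_of_nonpos]
    · ring
    · have : (x:ℝ) ≤ y := by exact_mod_cast h
      linarith
  · have h1 : y - x = 0 := by omega
    rw [h1, add_zero, Nat.cast_sub h, abs_of_nonneg]
    have : (y:ℝ) ≤ x := by exact_mod_cast h
    linarith

theorem sin_near {α ω : ℝ} (h : Consts α ω) (r : ℝ) :
    |(|r - sin α| - |r - 233996077462456 / 2 ^ 50|)| ≤ 1 / 10 ^ 10 := by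
  refine (abs_abs_sub_abs_le _ _).trans ?_
  have h1 := h.sal
  have h2 := h.sau
  have e : r - sin α - (r - 233996077462456 / 2 ^ 50) = 233996077462456 / 2 ^ 50 - sin α := by ring
  rw [e, abs_le]
  norm_num at h1 h2 ⊢
  constructor <;> linarith

theorem pi_near : (3537118876014220:ℝ) / 2 ^ 50 ≤ π ∧ π ≤ 3537118876014221 / 2 ^ 50 := by
  have h1 := Real.pi_gt_d20
  have h2 := Real.pi_lt_d20
  constructor
  · norm_num at h1 ⊢
    linarith
  · norm_num at h2 ⊢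
    linarith

/-- the defect of the gauge at a row -/
theorem defect_bound {α ω : ℝ} (h : Consts α ω) {dn rn a P m S : ℕ} {X : ℝ}
    (hr0 : 2 ^ 17 ≤ rn) (hr1 : rn ≤ 2 ^ 20) (hm : m ≤ 2 ^ 22)
    (ha : 224794581 ≤ a * dn) (haP : a * dn ≤ P)
    (hX : |(S:ℝ) / 2 ^ 103 - (1 + 2 * ((P:ℝ) - a * dn)) / 2 ^ 11 + X| ≤ 3 / 2 ^ 20) :
    |(cX α ω ((rn:ℝ) / 2 ^ 20) + 2 * |(rn:ℝ) / 2 ^ 20 - sin α| -
        (a * ((dn:ℝ) / 2 ^ 30) - α) / ((rn:ℝ) / 2 ^ 20) - X - π * (-((m:ℝ) / 2 ^ 20))) -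
      ((posS rn S m : ℝ) - (negS dn rn a P : ℝ)) / 2 ^ 50| ≤ 4 / 2 ^ 20 := by
  have hrR0 : (2:ℝ) ^ 17 ≤ rn := by exact_mod_cast hr0
  have hrR1 : (rn:ℝ) ≤ 2 ^ 20 := by exact_mod_cast hr1
  have hrp : (0:ℝ) < rn := lt_of_lt_of_le (by positivity) hrR0
  have hrN : 0 < rn := by exact_mod_cast hrp
  set r : ℝ := (rn:ℝ) / 2 ^ 20 with hr
  have hr0' : 0 ≤ r := by positivity
  have hr8 : 1 / 8 ≤ r := by
    rw [hr, le_div_iff₀ (by positivity)]
    linarith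
  have hr1' : r ≤ 1 := by
    rw [hr, div_le_one (by positivity)]
    exact hrR1
  have hm0 : (0:ℝ) ≤ (m:ℝ) / 2 ^ 20 := by positivity
  have hm1 : (m:ℝ) / 2 ^ 20 ≤ 4 := by
    rw [div_le_iff₀ (by positivity)]
    have : (m:ℝ) ≤ 2 ^ 22 := by exact_mod_cast hm
    linarith
  -- the linear part
  have b1 := abs_le.1 (h.cX_bound hr0' hr1')
  -- the absolute value
  have b2 := abs_le.1 (sin_near h r)
  have e2 : |r - 233996077462456 / 2 ^ 50| =
      ((rn * 1073741824 - 233996077462456 + (233996077462456 - rn * 1073741824) : ℕ) : ℝ) /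
        2 ^ 50 := by
    have h5 : ((rn * 1073741824 - 233996077462456 + (233996077462456 - rn * 1073741824) : ℕ) : ℝ) =
      |((rn * 1073741824 : ℕ) : ℝ) - ((233996077462456 : ℕ) : ℝ)| := abs_nat _ _
    rw [h5]
    have h6 : r - 233996077462456 / 2 ^ 50 =
        (((rn * 1073741824 : ℕ) : ℝ) - ((233996077462456 : ℕ) : ℝ)) / 2 ^ 50 := by
      rw [hr]
      push_cast
      field_simp
      ring
    rw [h6, abs_div, abs_of_pos (by positivity : (0:ℝ) < 2 ^ 50)]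
  obtain ⟨Q1, hQ1⟩ : ∃ Q1 : ℝ, Q1 = ((rn * 1073741824 - 233996077462456 +
    (233996077462456 - rn * 1073741824) : ℕ) : ℝ) := ⟨_, rfl⟩
  rw [← hQ1] at e2
  -- the quotient
  have hA : 235714201942651 ≤ a * dn * 1048576 := by omega
  obtain ⟨d1, d2⟩ := div_bounds ((a * dn * 1048576 - 235714201942651) * 1048576) rn hrN
  obtain ⟨Q2, hQ2⟩ : ∃ Q2 : ℝ, Q2 = (((a * dn * 1048576 - 235714201942651) * 1048576 / rn : ℕ) : ℝ) :=
    ⟨_, rfl⟩
  rw [← hQ2] at d1 d2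
  have hN2 : (((a * dn * 1048576 - 235714201942651) * 1048576 : ℕ) : ℝ) =
      ((a:ℝ) * dn * 1048576 - 235714201942651) * 1048576 := by
    rw [Nat.cast_mul, Nat.cast_sub hA]
    push_cast
    ring
  rw [hN2] at d1 d2
  have e3 : (a * ((dn:ℝ) / 2 ^ 30) - 235714201942651 / 2 ^ 50) / r =
      ((a:ℝ) * dn * 1048576 - 235714201942651) * 1048576 / rn / 2 ^ 50 := by
    rw [hr]
    field_simp
    ring
  have hα1 := h.al
  have hα2 := h.au
  have b3 : |(a * ((dn:ℝ) / 2 ^ 30) - α) / r -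
      (a * ((dn:ℝ) / 2 ^ 30) - 235714201942651 / 2 ^ 50) / r| ≤ 1 / 10 ^ 10 := by
    rw [← sub_div, abs_div, abs_of_pos (by linarith : 0 < r), div_le_iff₀ (by linarith)]
    have e4 : a * ((dn:ℝ) / 2 ^ 30) - α - (a * ((dn:ℝ) / 2 ^ 30) - 235714201942651 / 2 ^ 50) =
        235714201942651 / 2 ^ 50 - α := by ring
    rw [e4]
    have h5 : |235714201942651 / 2 ^ 50 - α| ≤ 1 / 10 ^ 10 * (1 / 8) := by
      rw [abs_le]
      norm_num at hα1 hα2 ⊢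
      constructor <;> linarith
    refine h5.trans ?_
    gcongr
  have b3' := abs_le.1 b3
  rw [e3] at b3'
  -- the sum
  obtain ⟨g1, g2⟩ := div_bounds S 9007199254740992 (by norm_num)
  obtain ⟨Q3, hQ3⟩ : ∃ Q3 : ℝ, Q3 = ((S / 9007199254740992 : ℕ) : ℝ) := ⟨_, rfl⟩
  rw [← hQ3] at g1 g2
  have e5 : (S:ℝ) / 2 ^ 103 = (S:ℝ) / ((9007199254740992 : ℕ) : ℝ) / 2 ^ 50 := by
    push_cast
    rw [div_div]
    norm_num
  have b4 := abs_le.1 hX
  rw [e5] at b4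
  -- the weight
  obtain ⟨k1, k2⟩ := div_bounds (3537118876014220 * m) 1048576 (by norm_num)
  obtain ⟨Q4, hQ4⟩ : ∃ Q4 : ℝ, Q4 = ((3537118876014220 * m / 1048576 : ℕ) : ℝ) := ⟨_, rfl⟩
  rw [← hQ4] at k1 k2
  obtain ⟨p1, p2⟩ := pi_near
  have q1 := mul_le_mul_of_nonneg_right p1 hm0
  have q2 := mul_le_mul_of_nonneg_right p2 hm0
  have e6 : (3537118876014220:ℝ) / 2 ^ 50 * ((m:ℝ) / 2 ^ 20) =
      ((3537118876014220 * m : ℕ) : ℝ) / ((1048576 : ℕ) : ℝ) / 2 ^ 50 := by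
    push_cast
    field_simp
    norm_num
    ring
  have e7 : (3537118876014221:ℝ) / 2 ^ 50 * ((m:ℝ) / 2 ^ 20) =
      3537118876014220 / 2 ^ 50 * ((m:ℝ) / 2 ^ 20) + (m:ℝ) / 2 ^ 20 / 2 ^ 50 := by ring
  rw [e7, e6] at q2
  rw [e6] at q1
  -- the Nat expressions
  have eP : (posS rn S m : ℝ) = 170942156 * rn + 2 * Q1 + (Q3 + Q4) := by
    have : posS rn S m = 170942156 * rn + 2 * (rn * 1073741824 - 233996077462456 +
      (233996077462456 - rn * 1073741824)) + (S / 9007199254740992 +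
        3537118876014220 * m / 1048576) := rfl
    rw [this, hQ1, hQ3, hQ4]
    generalize rn * 1073741824 - 233996077462456 + (233996077462456 - rn * 1073741824) = q1
    generalize S / 9007199254740992 = q3
    generalize 3537118876014220 * m / 1048576 = q4
    push_cast
    ring
  have eN : (negS dn rn a P : ℝ) = 1225538240453287 + Q2 +
      549755813888 * (1 + 2 * ((P:ℝ) - a * dn)) := by
    have : negS dn rn a P = 1225538240453287 +
      (a * dn * 1048576 - 235714201942651) * 1048576 / rn +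
      549755813888 * (2 * (P - a * dn) + 1) := rfl
    rw [this, hQ2]
    generalize (a * dn * 1048576 - 235714201942651) * 1048576 / rn = q2
    push_cast [haP]
    ring
  rw [eP, eN]
  clear hQ1 hQ2 hQ3 hQ4
  have e8 : (170942156:ℝ) / 2 ^ 30 * r = 170942156 * rn / 2 ^ 50 := by
    rw [hr]
    field_simp
  rw [e8] at b1
  rw [e2] at b2
  have u : (0:ℝ) < 1 / 2 ^ 50 := by positivity
  have d1' : Q2 / 2 ^ 50 ≤ ((a:ℝ) * dn * 1048576 - 235714201942651) * 1048576 / rn / 2 ^ 50 := by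
    gcongr
  have d2' : ((a:ℝ) * dn * 1048576 - 235714201942651) * 1048576 / rn / 2 ^ 50 ≤
      (Q2 + 1) / 2 ^ 50 := by gcongr
  have g1' : Q3 / 2 ^ 50 ≤ (S:ℝ) / ((9007199254740992 : ℕ) : ℝ) / 2 ^ 50 := by gcongr
  have g2' : (S:ℝ) / ((9007199254740992 : ℕ) : ℝ) / 2 ^ 50 ≤ (Q3 + 1) / 2 ^ 50 := by gcongr
  have k1' : Q4 / 2 ^ 50 ≤ ((3537118876014220 * m : ℕ) : ℝ) / ((1048576 : ℕ) : ℝ) / 2 ^ 50 := by
    gcongr
  have k2' : ((3537118876014220 * m : ℕ) : ℝ) / ((1048576 : ℕ) : ℝ) / 2 ^ 50 ≤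
      (Q4 + 1) / 2 ^ 50 := by gcongr
  have hm2 : (m:ℝ) / 2 ^ 20 / 2 ^ 50 ≤ 4 / 2 ^ 50 := by gcongr
  have hπ : π * (-((m:ℝ) / 2 ^ 20)) = -(π * ((m:ℝ) / 2 ^ 20)) := by ring
  rw [hπ]
  set V1 := cX α ω r
  set V2 := |r - sin α|
  set V3 := (a * ((dn:ℝ) / 2 ^ 30) - α) / r
  set V4 := π * ((m:ℝ) / 2 ^ 20)
  set V5 := ((a:ℝ) * dn * 1048576 - 235714201942651) * 1048576 / rn / 2 ^ 50
  set V6 := (S:ℝ) / ((9007199254740992 : ℕ) : ℝ) / 2 ^ 50
  set V7 := ((3537118876014220 * m : ℕ) : ℝ) / ((1048576 : ℕ) : ℝ) / 2 ^ 50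
  set V8 := (P:ℝ) - a * dn
  set V9 := (m:ℝ) / 2 ^ 20 / 2 ^ 50
  have e9 : (170942156 * (rn:ℝ) + 2 * Q1 + (Q3 + Q4) -
      (1225538240453287 + Q2 + 549755813888 * (1 + 2 * V8))) / 2 ^ 50 =
      (170942156 * (rn:ℝ) / 2 ^ 50 - 1225538240453287 / 2 ^ 50) + 2 * (Q1 / 2 ^ 50) +
      Q3 / 2 ^ 50 + Q4 / 2 ^ 50 - Q2 / 2 ^ 50 - (1 + 2 * V8) / 2 ^ 11 := by
    field_simp
    ring
  rw [e9]
  clear e9 eP eN hX e2 e3 e5 e6 e7 e8 hN2 b3 hπ g1 g2 k1 k2 d1 d2 p1 p2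
  rw [add_div] at d2' g2' k2'
  norm_num at b1 b2 b3' b4 q1 q2 d1' d2' g1' g2' k1' k2' hm2 u ⊢
  rw [abs_le]
  constructor
  · linarith
  · linarith

end Pool.Agent.H4.Shore
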