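import Mathlib
import Pool.Agent.H4.Shore.GRow3

/-!
Shoreline search: kernel check of a row for the gauge, and its soundness.
-/

open Real Set

namespace Pool.Agent.H4.Shore

open Pool.Agent.H44.Shore Pool.Agent.H65.Shore

/-- check of a row -/
def gRow (nL N X1lo X1hi dn j0 co si B rn a b k P T m s0 s1 sl sh : ℕ) : Bool :=
  andB (Nat.ble sl 1099511627775) <|
  andB (lanesIn B (4951760157141521099596496896 + 4503599627370496 - sh * 4503599627370496)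
    (4951760157141521099596496896 - 4503599627370496 - sl * 4503599627370496) (a - k - j0)
    (Nat.succ k)) <|
  andB (lanesIn B (4951760157141521099596496896 + (681575 + 1) * 4503599627370496)
    (4951760157141521099596496896 + 765459 * 4503599627370496) (b - j0) 2) <|
  seqN (lget 128 co (a + 1 - j0)) fun ca => seqN (lget 128 si (a + 1 - j0)) fun sa =>
  andB (Nat.ble 70368744177669 ca) <| andB (Nat.ble 70368744177669 sa) <|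
  andB (Nat.ble (T + 131072) ((a + 1) * dn)) <| andB (Nat.ble T (a * dn)) <|
  andB (Nat.ble 131072 T) <| andB (Nat.ble ((a + 1) * dn + 131072) (T + 1073741824)) <|
  andB (angT nL N rn (ca + 5 - 70368744177664) (sa + 5 - 70368744177664) (ca - 70368744177669)
    (sa - 70368744177669) ((a + 1) * dn - (T + 131072)) ((a + 1) * dn + 131072 - T)) <|
  seqN (lget 128 co (b - 1 - j0)) fun cb => seqN (lget 128 si (b - 1 - j0)) fun sb =>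
  andB (Nat.ble (cb + 5) 70368744177664) <| andB (Nat.ble 70368744177669 sb) <|
  andB (Nat.ble (P + 8192) ((b - 1) * dn + 1073741824)) <|
  andB (Nat.ble ((b - 1) * dn + 8192) P) <|
  andB (angP X1lo X1hi rn (70368744177669 - cb) (sb + 5 - 70368744177664)
    (70368744177664 - (cb + 5)) (sb - 70368744177669) (P + 8192 - (b - 1) * dn)
    (P - ((b - 1) * dn + 8192))) <|
  seqN (tsum 128 B dn (P - b * dn) (a - j0) (b - j0)) fun S =>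
  seqN (posS rn S m) fun ps => seqN (negS dn rn a P) fun ns =>
  andB (Nat.ble (ps + s1 * (a * dn + 131072 - T) + 160000000000) (ns + 326510972984))
    (Nat.ble (ns + 160000000000 + s0 * (T + 131072)) (ps + s0 * (a * dn) + 326510972984))

/-- conclusions at a row -/
structure GRowOk (D : Dat) (α ω : ℝ) (dn rn a b k P T m s0 s1 sl sh : ℕ) : Prop where
  sl : ∀ j : ℕ, a - k ≤ j → j ≤ a → (sl:ℝ) / 2 ^ 20 ≤ brs D ((rn:ℝ) / 2 ^ 20) (j * ((dn:ℝ) / 2 ^ 30)) ∧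
    brs D ((rn:ℝ) / 2 ^ 20) (j * ((dn:ℝ) / 2 ^ 30)) ≤ (sh:ℝ) / 2 ^ 20
  out : ∀ j : ℕ, b ≤ j → j ≤ b + 1 → -(73 / 100) ≤ brs D ((rn:ℝ) / 2 ^ 20) (j * ((dn:ℝ) / 2 ^ 30)) ∧
    brs D ((rn:ℝ) / 2 ^ 20) (j * ((dn:ℝ) / 2 ^ 30)) ≤ -(65 / 100)
  t1 : (rn:ℝ) / 2 ^ 20 * cos ((T:ℝ) / 2 ^ 30 + 1 / 2 ^ 13) + 1 / 2 ^ 20 ≤ D.xL
  t2 : D.xL ≤ (rn:ℝ) / 2 ^ 20 * cos ((T:ℝ) / 2 ^ 30 - 1 / 2 ^ 13) - 1 / 2 ^ 20
  p1 : (rn:ℝ) / 2 ^ 20 * cos ((P:ℝ) / 2 ^ 30 + 1 / 2 ^ 17) + 1 / 2 ^ 26 ≤ -(1 / D.ρ)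
  p2 : -(1 / D.ρ) ≤ (rn:ℝ) / 2 ^ 20 * cos ((P:ℝ) / 2 ^ 30 - 1 / 2 ^ 17) - 1 / 2 ^ 26
  up : cX α ω ((rn:ℝ) / 2 ^ 20) + 2 * |(rn:ℝ) / 2 ^ 20 - sin α| -
        (a * ((dn:ℝ) / 2 ^ 30) - α) / ((rn:ℝ) / 2 ^ 20) -
        TT (fun j : ℕ => brs D ((rn:ℝ) / 2 ^ 20) (j * ((dn:ℝ) / 2 ^ 30))) ((dn:ℝ) / 2 ^ 30) a b
          ((P:ℝ) / 2 ^ 30 - b * ((dn:ℝ) / 2 ^ 30)) + 13 / 10 ^ 5 +
        (s1:ℝ) / 2 ^ 20 * (a * ((dn:ℝ) / 2 ^ 30) - (T:ℝ) / 2 ^ 30 + 1 / 2 ^ 13) ≤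
      π * (-((m:ℝ) / 2 ^ 20)) + 29 / 10 ^ 5
  lo : π * (-((m:ℝ) / 2 ^ 20)) - 29 / 10 ^ 5 ≤
      cX α ω ((rn:ℝ) / 2 ^ 20) + 2 * |(rn:ℝ) / 2 ^ 20 - sin α| -
        (a * ((dn:ℝ) / 2 ^ 30) - α) / ((rn:ℝ) / 2 ^ 20) -
        TT (fun j : ℕ => brs D ((rn:ℝ) / 2 ^ 20) (j * ((dn:ℝ) / 2 ^ 30))) ((dn:ℝ) / 2 ^ 30) a b
          ((P:ℝ) / 2 ^ 30 - b * ((dn:ℝ) / 2 ^ 30)) - 13 / 10 ^ 5 +
        (s0:ℝ) / 2 ^ 20 * (a * ((dn:ℝ) / 2 ^ 30) - (T:ℝ) / 2 ^ 30 - 1 / 2 ^ 13)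

/-- comparison of a lane with a level -/
theorem lane_ge {f c v M E : ℕ} {x : ℝ} (hM : (M:ℝ) = 2 ^ 92) (hE : (E:ℝ) = 2 ^ 52)
    (h1 : |(f:ℝ) - 2 ^ 92 + 2 ^ 72 * x| ≤ 2 ^ 51 + 2 ^ 49) (h : M + E - c * E ≤ f)
    (hv : v = c) : x ≤ (v:ℝ) / 2 ^ 20 := by
  have h2 : M + E ≤ f + c * E := by omega
  have h3 : (M:ℝ) + E ≤ f + c * E := by exact_mod_cast h2
  rw [hM, hE] at h3
  have h4 := (abs_le.1 h1).2
  rw [hv, le_div_iff₀ (by positivity)]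
  have e : (2:ℝ) ^ 72 = 2 ^ 20 * 2 ^ 52 := by norm_num
  rw [e] at h4
  have h5 : x * 2 ^ 20 * 2 ^ 52 ≤ c * 2 ^ 52 := by
    have : (2:ℝ) ^ 51 + 2 ^ 49 ≤ 2 ^ 52 := by norm_num
    linarith
  exact le_of_mul_le_mul_right h5 (by positivity)

theorem lane_le {f c M E : ℕ} {x : ℝ} (hM : (M:ℝ) = 2 ^ 92) (hE : (E:ℝ) = 2 ^ 52)
    (h1 : |(f:ℝ) - 2 ^ 92 + 2 ^ 72 * x| ≤ 2 ^ 51 + 2 ^ 49) (h : f ≤ M - E - c * E)
    (h0 : E + c * E ≤ M) : (c:ℝ) / 2 ^ 20 ≤ x := by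
  have h2 : f + (E + c * E) ≤ M := by omega
  have h3 : (f:ℝ) + (E + c * E) ≤ M := by exact_mod_cast h2
  rw [hM, hE] at h3
  have h4 := (abs_le.1 h1).1
  rw [div_le_iff₀ (by positivity)]
  have e : (2:ℝ) ^ 72 = 2 ^ 20 * 2 ^ 52 := by norm_num
  rw [e] at h4
  have h5 : (c:ℝ) * 2 ^ 52 ≤ x * 2 ^ 20 * 2 ^ 52 := by
    have : (2:ℝ) ^ 51 + 2 ^ 49 ≤ 2 ^ 52 := by norm_num
    linarith
  exact le_of_mul_le_mul_right h5 (by positivity)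

/-- comparison of a lane with a level above the offset -/
theorem lane_ge2 {f c M E : ℕ} {x : ℝ} (hM : (M:ℝ) = 2 ^ 92) (hE : (E:ℝ) = 2 ^ 52)
    (h1 : |(f:ℝ) - 2 ^ 92 + 2 ^ 72 * x| ≤ 2 ^ 51 + 2 ^ 49) (h : M + (c + 1) * E ≤ f) :
    x ≤ -((c:ℝ) / 2 ^ 20) := by
  have h3 : (M:ℝ) + (c + 1) * E ≤ f := by exact_mod_cast h
  rw [hM, hE] at h3
  have h4 := (abs_le.1 h1).2
  have e : (2:ℝ) ^ 72 = 2 ^ 20 * 2 ^ 52 := by norm_num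
  rw [e] at h4
  have h5 : (c:ℝ) * 2 ^ 52 ≤ -x * 2 ^ 20 * 2 ^ 52 := by
    have : (2:ℝ) ^ 51 + 2 ^ 49 ≤ 2 ^ 52 := by norm_num
    linarith
  have h6 := le_of_mul_le_mul_right h5 (by positivity)
  have h7 : (c:ℝ) / 2 ^ 20 ≤ -x := by
    rw [div_le_iff₀ (by positivity)]
    exact h6
  linarith

theorem lane_le2 {f c M E : ℕ} {x : ℝ} (hM : (M:ℝ) = 2 ^ 92) (hE : (E:ℝ) = 2 ^ 52)
    (h1 : |(f:ℝ) - 2 ^ 92 + 2 ^ 72 * x| ≤ 2 ^ 51 + 2 ^ 49) (h : f + E ≤ M + c * E) :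
    -((c:ℝ) / 2 ^ 20) ≤ x := by
  have h3 : (f:ℝ) + E ≤ M + c * E := by exact_mod_cast h
  rw [hM, hE] at h3
  have h4 := (abs_le.1 h1).1
  have e : (2:ℝ) ^ 72 = 2 ^ 20 * 2 ^ 52 := by norm_num
  rw [e] at h4
  have h5 : -x * 2 ^ 20 * 2 ^ 52 ≤ (c:ℝ) * 2 ^ 52 := by
    have : (2:ℝ) ^ 51 + 2 ^ 49 ≤ 2 ^ 52 := by norm_num
    linarith
  have h6 := le_of_mul_le_mul_right h5 (by positivity)
  have h7 : -x ≤ (c:ℝ) / 2 ^ 20 := by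
    rw [le_div_iff₀ (by positivity)]
    exact h6
  linarith

theorem row_up {ps ns s1 a dn T : ℕ} {X : ℝ}
    (h : ps + s1 * (a * dn + 131072 - T) + 160000000000 ≤ ns + 326510972984)
    (hT : T ≤ a * dn + 131072) (hX : X - ((ps:ℝ) - ns) / 2 ^ 50 ≤ 4 / 2 ^ 20) :
    X + 13 / 10 ^ 5 + (s1:ℝ) / 2 ^ 20 * (a * ((dn:ℝ) / 2 ^ 30) - (T:ℝ) / 2 ^ 30 + 1 / 2 ^ 13) ≤
      29 / 10 ^ 5 := by
  have h2 : ((ps + s1 * (a * dn + 131072 - T) + 160000000000 : ℕ) : ℝ) ≤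
      ((ns + 326510972984 : ℕ) : ℝ) := Nat.cast_le.2 h
  push_cast [hT] at h2
  have e : (s1:ℝ) / 2 ^ 20 * (a * ((dn:ℝ) / 2 ^ 30) - (T:ℝ) / 2 ^ 30 + 1 / 2 ^ 13) =
      (s1:ℝ) * (a * dn + 131072 - T) / 2 ^ 50 := by
    field_simp
    ring
  rw [e]
  have h3 : ((ps:ℝ) + s1 * (a * dn + 131072 - T) + 160000000000) / 2 ^ 50 ≤
      (ns + 326510972984) / 2 ^ 50 := by gcongr
  rw [add_div, add_div, add_div] at h3
  rw [sub_div] at hX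
  norm_num at h3 hX ⊢
  linarith

theorem row_lo {ps ns s0 a dn T : ℕ} {X : ℝ}
    (h : ns + 160000000000 + s0 * (T + 131072) ≤ ps + s0 * (a * dn) + 326510972984)
    (hX : -(4 / 2 ^ 20) ≤ X - ((ps:ℝ) - ns) / 2 ^ 50) :
    -(29 / 10 ^ 5) ≤ X - 13 / 10 ^ 5 +
      (s0:ℝ) / 2 ^ 20 * (a * ((dn:ℝ) / 2 ^ 30) - (T:ℝ) / 2 ^ 30 - 1 / 2 ^ 13) := by
  have h2 : ((ns + 160000000000 + s0 * (T + 131072) : ℕ) : ℝ) ≤
      ((ps + s0 * (a * dn) + 326510972984 : ℕ) : ℝ) := Nat.cast_le.2 h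
  push_cast at h2
  have e : (s0:ℝ) / 2 ^ 20 * (a * ((dn:ℝ) / 2 ^ 30) - (T:ℝ) / 2 ^ 30 - 1 / 2 ^ 13) =
      ((s0:ℝ) * (a * dn) - s0 * (T + 131072)) / 2 ^ 50 := by
    field_simp
    ring
  rw [e]
  have h3 : ((ns:ℝ) + 160000000000 + s0 * (T + 131072)) / 2 ^ 50 ≤
      (ps + s0 * (a * dn) + 326510972984) / 2 ^ 50 := by gcongr
  rw [add_div, add_div, add_div, add_div] at h3
  rw [sub_div] at hX ⊢
  norm_num at h3 hX ⊢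
  linarith

theorem gRow_sound {D : Dat} {α ω : ℝ} (hc : Consts α ω) {L : List (List ℤ)} {C : ℕ}
    (hC : Close D L C) {nL N X1lo X1hi : ℕ} (hN : 0 < N) (hxL : D.xL = (nL:ℝ) / N)
    (hlo : (X1lo:ℝ) / 2 ^ 60 ≤ 1 / D.ρ) (hhi : 1 / D.ρ ≤ (X1hi:ℝ) / 2 ^ 60)
    {n j0 dn co si B Cc rn a b k P T m s0 s1 sl sh : ℕ}
    (hco : CosT n (j0 * ((dn:ℝ) / 2 ^ 30)) ((dn:ℝ) / 2 ^ 30) co)
    (hsi : SinT n (j0 * ((dn:ℝ) / 2 ^ 30)) ((dn:ℝ) / 2 ^ 30) si)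
    (hR : RowT (Dq D L C) n ((j0:ℝ) * ((dn:ℝ) / 2 ^ 30)) ((dn:ℝ) / 2 ^ 30) ((rn:ℝ) / 2 ^ 20) B Cc)
    (hn : n ≤ 2048) (hr0 : 2 ^ 17 ≤ rn) (hr1 : rn ≤ 2 ^ 20) (hm : m ≤ 2 ^ 22)
    (ha : 224794581 ≤ a * dn) (hj : j0 + k ≤ a) (hab : a + 1 < b) (hb : b + 2 ≤ j0 + n)
    (hP0 : b * dn ≤ P) (hP1 : P ≤ (b + 1) * dn) (hdn : 0 < dn) (hdn4 : (b + 1) * dn ≤ 2 ^ 32)
    (hx : ∀ j : ℕ, a - k ≤ j → j ≤ b + 1 →
      |(rn:ℝ) / 2 ^ 20 * cos (j * ((dn:ℝ) / 2 ^ 30))| ≤ 21 / 100)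
    (h : gRow nL N X1lo X1hi dn j0 co si B rn a b k P T m s0 s1 sl sh = true) :
    GRowOk D α ω dn rn a b k P T m s0 s1 sl sh := by
  obtain ⟨f, hB, hf, hfb⟩ := lane_brs hC hR hr1
  have hf' : ∀ j < n, f j < 2 ^ 128 := fun j hj => lt_of_le_of_lt (hf j hj) (by norm_num)
  have hget : ∀ j, j < n → lget 128 B j = f j := by
    intro j hj
    rw [hB]
    exact lget_eq hf' hj
  unfold gRow at h
  obtain ⟨h0, h⟩ := andB_eq h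
  obtain ⟨h1, h⟩ := andB_eq h
  obtain ⟨h2, h⟩ := andB_eq h
  simp only [seqN_eq] at h
  obtain ⟨h3, h⟩ := andB_eq h
  obtain ⟨h4, h⟩ := andB_eq h
  obtain ⟨h5, h⟩ := andB_eq h
  obtain ⟨h6, h⟩ := andB_eq h
  obtain ⟨h7, h⟩ := andB_eq h
  obtain ⟨h8, h⟩ := andB_eq h
  obtain ⟨h9, h⟩ := andB_eq h
  obtain ⟨h10, h⟩ := andB_eq h
  obtain ⟨h11, h⟩ := andB_eq h
  obtain ⟨h12, h⟩ := andB_eq h
  obtain ⟨h13, h⟩ := andB_eq h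
  obtain ⟨h14, h⟩ := andB_eq h
  obtain ⟨h15, h16⟩ := andB_eq h
  have h0 := Nat.le_of_ble_eq_true h0
  have h3 := Nat.le_of_ble_eq_true h3
  have h4 := Nat.le_of_ble_eq_true h4
  have h5 := Nat.le_of_ble_eq_true h5
  have h6 := Nat.le_of_ble_eq_true h6
  have h7 := Nat.le_of_ble_eq_true h7
  have h8 := Nat.le_of_ble_eq_true h8
  have h10 := Nat.le_of_ble_eq_true h10
  have h11 := Nat.le_of_ble_eq_true h11
  have h12 := Nat.le_of_ble_eq_true h12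
  have h13 := Nat.le_of_ble_eq_true h13
  have h15 := Nat.le_of_ble_eq_true h15
  have h16 := Nat.le_of_ble_eq_true h16
  have gc := hco.get (by omega : j0 ≤ a + 1) (by omega : a + 1 < j0 + n)
  have gs := hsi.get (by omega : j0 ≤ a + 1) (by omega : a + 1 < j0 + n)
  have gcb := hco.get (by omega : j0 ≤ b - 1) (by omega : b - 1 < j0 + n)
  have gsb := hsi.get (by omega : j0 ≤ b - 1) (by omega : b - 1 < j0 + n)
  have hb1 : ((b - 1 : ℕ) : ℝ) = (b:ℝ) - 1 := by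
    rw [Nat.cast_sub (by omega)]
    push_cast
    ring
  -- lanes of the radial coefficient
  have HS : ∀ j : ℕ, a - k ≤ j → j ≤ a →
      (sl:ℝ) / 2 ^ 20 ≤ brs D ((rn:ℝ) / 2 ^ 20) (j * ((dn:ℝ) / 2 ^ 30)) ∧
      brs D ((rn:ℝ) / 2 ^ 20) (j * ((dn:ℝ) / 2 ^ 30)) ≤ (sh:ℝ) / 2 ^ 20 := by
    intro j hj1 hj2
    have l1 := lanesIn_sound _ h1 (j - j0) (by omega) (by omega)
    rw [hget _ (by omega)] at l1
    have l2 := hfb j (by omega) (by omega) (hx j hj1 (by omega))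
    refine ⟨?_, ?_⟩
    · refine lane_le (M := 4951760157141521099596496896) (E := 4503599627370496) (by norm_num)
        (by norm_num) l2 l1.2 ?_
      have e : (4951760157141521099596496896 : ℕ) = 1099511627776 * 4503599627370496 := by norm_num
      rw [e]
      calc 4503599627370496 + sl * 4503599627370496 = (sl + 1) * 4503599627370496 := by ring
        _ ≤ 1099511627776 * 4503599627370496 := Nat.mul_le_mul_right _ (by omega)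
    · exact lane_ge (M := 4951760157141521099596496896) (E := 4503599627370496) (by norm_num)
        (by norm_num) l2 l1.1 rfl
  have HO : ∀ j : ℕ, b ≤ j → j ≤ b + 1 →
      -(73 / 100) ≤ brs D ((rn:ℝ) / 2 ^ 20) (j * ((dn:ℝ) / 2 ^ 30)) ∧
      brs D ((rn:ℝ) / 2 ^ 20) (j * ((dn:ℝ) / 2 ^ 30)) ≤ -(65 / 100) := by
    intro j hj1 hj2
    have l1 := lanesIn_sound _ h2 (j - j0) (by omega) (by omega)
    rw [hget _ (by omega)] at l1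
    have l2 := hfb j (by omega) (by omega) (hx j (by omega) (by omega))
    refine ⟨?_, ?_⟩
    · have h6 : f (j - j0) + 4503599627370496 ≤ 4951760157141521099596496896 +
          765460 * 4503599627370496 := by
        have := l1.2
        omega
      have h5 := lane_le2 (M := 4951760157141521099596496896) (E := 4503599627370496)
        (by norm_num) (by norm_num) l2 h6
      refine le_trans ?_ h5
      norm_num
    · have h5 := lane_ge2 (M := 4951760157141521099596496896) (E := 4503599627370496)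
        (by norm_num) (by norm_num) l2 l1.1
      refine h5.trans ?_
      norm_num
  have M1 : ((70368744177664 : ℕ) : ℝ) = 2 ^ 46 := by norm_num
  have M2 : ((70368744177669 : ℕ) : ℝ) = 2 ^ 46 + 5 := by norm_num
  -- left angle
  have HT := angT_sound h9 hN hxL (lane_up M1 gc) (lane_up M1 gs) (lane_low M2 h3 gc)
    (lane_low M2 h4 gs) (by omega) (by omega)
  have eA : ((a + 1 : ℕ) : ℝ) * ((dn:ℝ) / 2 ^ 30) = ((((a + 1) * dn : ℕ)) : ℝ) / 2 ^ 30 := by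
    push_cast
    ring
  have eT1 : ((a + 1 : ℕ) : ℝ) * ((dn:ℝ) / 2 ^ 30) - (((a + 1) * dn - (T + 131072) : ℕ) : ℝ) / 2 ^ 30
      = (T:ℝ) / 2 ^ 30 + 1 / 2 ^ 13 := by
    rw [eA, Nat.cast_sub h5]
    push_cast
    ring
  have eT2 : ((a + 1 : ℕ) : ℝ) * ((dn:ℝ) / 2 ^ 30) - (((a + 1) * dn + 131072 - T : ℕ) : ℝ) / 2 ^ 30
      = (T:ℝ) / 2 ^ 30 - 1 / 2 ^ 13 := by
    rw [eA, Nat.cast_sub (by omega)]
    push_cast
    ring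
  rw [eT1, eT2] at HT
  -- outer angle
  have HP := angP_sound h14 hlo hhi (lane_nup M2 gcb) (lane_up M1 gsb) (lane_nlow M1 h10 gcb)
    (lane_low M2 h11 gsb) (by omega) (by omega)
  have eB : ((b - 1 : ℕ) : ℝ) * ((dn:ℝ) / 2 ^ 30) = ((((b - 1) * dn : ℕ)) : ℝ) / 2 ^ 30 := by
    push_cast
    ring
  have eP1 : ((b - 1 : ℕ) : ℝ) * ((dn:ℝ) / 2 ^ 30) + ((P + 8192 - (b - 1) * dn : ℕ) : ℝ) / 2 ^ 30
      = (P:ℝ) / 2 ^ 30 + 1 / 2 ^ 17 := by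
    rw [eB, Nat.cast_sub (by omega)]
    push_cast
    ring
  have eP2 : ((b - 1 : ℕ) : ℝ) * ((dn:ℝ) / 2 ^ 30) + ((P - ((b - 1) * dn + 8192) : ℕ) : ℝ) / 2 ^ 30
      = (P:ℝ) / 2 ^ 30 - 1 / 2 ^ 17 := by
    rw [eB, Nat.cast_sub (by omega)]
    push_cast
    ring
  rw [eP1, eP2] at HP
  -- the defect
  have hab2 : a * dn ≤ b * dn := Nat.mul_le_mul_right _ (by omega)
  have HD := TT_brs hC hR hr1 hn (a := a) (b := b) (P := P) (by omega) (by omega) (by omega)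
    hP0 hP1 hdn hdn4 (fun j hj1 hj2 => hx j (by omega) hj2) (fun j hj1 hj2 => by
      have := HO j hj1 hj2
      rw [abs_le]
      constructor <;> linarith [this.1, this.2])
  have HF := abs_le.1 (defect_bound hc (m := m) hr0 hr1 hm ha (hab2.trans hP0) HD)
  obtain ⟨S, hS⟩ : ∃ S : ℕ, S = H65.Shore.tsum 128 B dn (P - b * dn) (a - j0) (b - j0) := ⟨_, rfl⟩
  rw [← hS] at HF h15 h16
  clear HD hS h
  obtain ⟨ps, hps⟩ : ∃ S' : ℕ, S' = posS rn S m := ⟨_, rfl⟩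
  obtain ⟨ns, hns⟩ : ∃ S' : ℕ, S' = negS dn rn a P := ⟨_, rfl⟩
  rw [← hps, ← hns] at HF h15 h16
  have U := row_up h15 (by omega) HF.2
  have V := row_lo h16 HF.1
  refine ⟨HS, HO, HT.1, HT.2, HP.1, HP.2, ?_, ?_⟩
  · linarith
  · linarith

end Pool.Agent.H4.Shore
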