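import Mathlib
import Pool.Agent.H4.Shore.GRow4

/-!
Shoreline search: the gauge on a cell of the ring from the row checks.
-/

open Real Set

namespace Pool.Agent.H4.Shore

open Pool.Agent.H44.Shore Pool.Agent.H65.Shore

/-- sup norm bounds in the ring -/
structure RingOk (D : Dat) : Prop where
  hrB : (224217:ℝ) / 2 ^ 20 ≤ D.rB
  M : ∃ wa wb M10 M20 M30 M01 M11 M21 M02 M12 M03 : ℝ,
    MB D (-(198 / 1000)) (78119 / 2 ^ 20) wa wb M10 M20 M30 M01 M11 M21 M02 M12 M03 ∧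
    wa ≤ 1 - (224217 / 2 ^ 20) ^ 2 / D.rB ^ 2 ∧ 1 - (211634 / 2 ^ 20) ^ 2 / D.rB ^ 2 ≤ wb ∧
    KR D.rB M10 M20 M30 M01 M11 M21 M02 M12 M03 (224217 / 2 ^ 20) 1 0 ≤ 11000 ∧
    KR D.rB M10 M20 M30 M01 M11 M21 M02 M12 M03 (224217 / 2 ^ 20) 0 1 ≤ 170 ∧
    M10 + 2 * (224217 / 2 ^ 20) / D.rB ^ 2 * M01 ≤ 8 ∧
    KB D.rB M10 M20 M30 M01 M11 M21 M02 M12 M03 1 (224217 / 2 ^ 20) 1 0 ≤ 13000 ∧
    KB D.rB M10 M20 M30 M01 M11 M21 M02 M12 M03 1 (224217 / 2 ^ 20) 0 1 ≤ 220 ∧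
    1 + M10 * (224217 / 2 ^ 20) + 2 * (224217 / 2 ^ 20) ^ 2 / D.rB ^ 2 * M01 ≤ 3

/-- numerical conditions on a cell -/
structure GCellC (xL : ℝ) (dn rn0 rn1 a b k P0 P1 T0 T1 s0 s1 sl sh : ℕ) : Prop where
  c1 : 211634 ≤ rn0
  c2 : rn0 < rn1
  c3 : rn1 ≤ rn0 + 104
  c4 : rn1 ≤ 224217
  c5 : rn1 ≤ 217926 ∨ 217926 ≤ rn0
  c6 : P1 ≤ P0
  c7 : P0 ≤ P1 + 262144
  c8 : b * dn ≤ P1
  c9 : P0 ≤ (b + 1) * dn
  c10 : (b + 1) * dn ≤ 3373259426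
  c11 : T0 ≤ T1
  c12 : T1 ≤ T0 + 4194304
  c13 : 1 ≤ k
  c14 : k ≤ a
  c15 : a + 1 < b
  c16 : a * dn ≤ 536870912
  c17 : dn ≤ 923418
  c18 : P0 ≤ a * dn + 1879048192
  c19 : 1099511627776 + 64 * rn0 ≤ (s1 + sl) * rn0
  c20 : (s0 + sh + 64) * rn1 ≤ 1099511627776
  c21 : 224794581 ≤ a * dn
  c22 : 131072 ≤ T0
  c23 : 1686629714 ≤ P1
  c24 : 0 < dn
  c25 : T1 ≤ a * dn
  l1 : (rn1:ℝ) / 2 ^ 20 * cos (a * ((dn:ℝ) / 2 ^ 30)) ≤ xL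
  l2 : xL ≤ (rn0:ℝ) / 2 ^ 20 * cos (((a - k : ℕ):ℝ) * ((dn:ℝ) / 2 ^ 30))
  x1 : (rn1:ℝ) / 2 ^ 20 * cos (((a - k : ℕ):ℝ) * ((dn:ℝ) / 2 ^ 30)) ≤ 197 / 1000
  x2 : -((rn1:ℝ) / 2 ^ 20 * cos (((b:ℝ) + 1) * ((dn:ℝ) / 2 ^ 30))) ≤ 78119 / 2 ^ 20

/-- real form of the conditions on a cell -/
structure CellR (xL r0 r1 δ Ps0 Ps1 Th0 Th1 σ0 σ1 vl vh : ℝ) (a b k : ℕ) : Prop where
  c1 : 211634 / 2 ^ 20 ≤ r0
  c2 : r0 ≤ r1
  c3 : r1 - r0 ≤ 104 / 2 ^ 20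
  c4 : r1 ≤ 224217 / 2 ^ 20
  c5 : r1 ≤ 217926 / 2 ^ 20 ∨ 217926 / 2 ^ 20 ≤ r0
  c6 : Ps1 ≤ Ps0
  c7 : Ps0 - Ps1 ≤ 262144 / 2 ^ 30
  c8 : b * δ ≤ Ps1
  c9 : Ps0 ≤ (b + 1) * δ
  c10 : (b + 1) * δ ≤ 3373259426 / 2 ^ 30
  c11 : Th0 ≤ Th1
  c12 : Th1 - Th0 ≤ 4194304 / 2 ^ 30
  c13 : 1 ≤ k
  c14 : k ≤ a
  c15 : a + 1 < b
  c16 : a * δ ≤ 1 / 2
  c17 : δ ≤ 923418 / 2 ^ 30
  c18 : Ps0 ≤ a * δ + 7 / 4
  c19 : 1 / r0 - vl + 64 / 2 ^ 20 ≤ σ1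
  c20 : σ0 ≤ 1 / r1 - vh - 64 / 2 ^ 20
  c21 : 224794581 / 2 ^ 30 ≤ a * δ
  c22 : 1 / 2 ^ 13 ≤ Th0
  c23 : 1686629714 / 2 ^ 30 ≤ Ps1
  c24 : 0 < δ
  c25 : Th1 ≤ a * δ
  c26 : 0 ≤ σ0
  c27 : 0 ≤ σ1
  l1 : r1 * cos (a * δ) ≤ xL
  l2 : xL ≤ r0 * cos (((a - k : ℕ):ℝ) * δ)
  x1 : r1 * cos (((a - k : ℕ):ℝ) * δ) ≤ 197 / 1000
  x2 : -(r1 * cos (((b:ℝ) + 1) * δ)) ≤ 78119 / 2 ^ 20

theorem GCellC.toR {xL : ℝ} {dn rn0 rn1 a b k P0 P1 T0 T1 s0 s1 sl sh : ℕ}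
    (hx : GCellC xL dn rn0 rn1 a b k P0 P1 T0 T1 s0 s1 sl sh) :
    CellR xL ((rn0:ℝ) / 2 ^ 20) ((rn1:ℝ) / 2 ^ 20) ((dn:ℝ) / 2 ^ 30) ((P0:ℝ) / 2 ^ 30)
      ((P1:ℝ) / 2 ^ 30) ((T0:ℝ) / 2 ^ 30) ((T1:ℝ) / 2 ^ 30) ((s0:ℝ) / 2 ^ 20) ((s1:ℝ) / 2 ^ 20)
      ((sl:ℝ) / 2 ^ 20) ((sh:ℝ) / 2 ^ 20) a b k where
  c1 := by
    have : (211634:ℝ) ≤ rn0 := by exact_mod_cast hx.c1
    gcongr
  c2 := by
    have : (rn0:ℝ) ≤ rn1 := by exact_mod_cast hx.c2.le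
    gcongr
  c3 := by
    have : (rn1:ℝ) ≤ rn0 + 104 := by exact_mod_cast hx.c3
    rw [← sub_div]
    gcongr
    linarith
  c4 := by
    have : (rn1:ℝ) ≤ 224217 := by exact_mod_cast hx.c4
    gcongr
  c5 := by
    rcases hx.c5 with h | h
    · left
      have : (rn1:ℝ) ≤ 217926 := by exact_mod_cast h
      gcongr
    · right
      have : (217926:ℝ) ≤ rn0 := by exact_mod_cast h
      gcongr
  c6 := by
    have : (P1:ℝ) ≤ P0 := by exact_mod_cast hx.c6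
    gcongr
  c7 := by
    have : (P0:ℝ) ≤ P1 + 262144 := by exact_mod_cast hx.c7
    rw [← sub_div]
    gcongr
    linarith
  c8 := by
    have : (b:ℝ) * dn ≤ P1 := by exact_mod_cast hx.c8
    rw [← mul_div_assoc]
    gcongr
  c9 := by
    have : (P0:ℝ) ≤ ((b:ℝ) + 1) * dn := by exact_mod_cast hx.c9
    rw [← mul_div_assoc]
    gcongr
  c10 := by
    have : ((b:ℝ) + 1) * dn ≤ 3373259426 := by exact_mod_cast hx.c10
    rw [← mul_div_assoc]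
    gcongr
  c11 := by
    have : (T0:ℝ) ≤ T1 := by exact_mod_cast hx.c11
    gcongr
  c12 := by
    have : (T1:ℝ) ≤ T0 + 4194304 := by exact_mod_cast hx.c12
    rw [← sub_div]
    gcongr
    linarith
  c13 := hx.c13
  c14 := hx.c14
  c15 := hx.c15
  c16 := by
    have : (a:ℝ) * dn ≤ 536870912 := by exact_mod_cast hx.c16
    rw [← mul_div_assoc, div_le_iff₀ (by positivity)]
    linarith
  c17 := by
    have : (dn:ℝ) ≤ 923418 := by exact_mod_cast hx.c17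
    gcongr
  c18 := by
    have : (P0:ℝ) ≤ a * dn + 1879048192 := by exact_mod_cast hx.c18
    have h2 : (P0:ℝ) / 2 ^ 30 ≤ (a * dn + 1879048192) / 2 ^ 30 := by gcongr
    refine h2.trans (le_of_eq ?_)
    rw [add_div]
    norm_num
    ring
  c19 := by
    have hr : (211634:ℝ) ≤ rn0 := by exact_mod_cast hx.c1
    have hr0 : (0:ℝ) < rn0 := by linarith
    have h1 : (1099511627776:ℝ) + 64 * rn0 ≤ (s1 + sl) * rn0 := by exact_mod_cast hx.c19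
    have h2 : 1 / ((rn0:ℝ) / 2 ^ 20) = 1099511627776 / rn0 / 2 ^ 20 := by
      field_simp
      norm_num
    have h3 : 1099511627776 / (rn0:ℝ) + 64 ≤ s1 + sl := by
      have : 1099511627776 / (rn0:ℝ) + 64 = (1099511627776 + 64 * rn0) / rn0 := by field_simp
      rw [this, div_le_iff₀ hr0]
      exact h1
    rw [h2]
    have h4 : (1099511627776 / (rn0:ℝ) + 64) / 2 ^ 20 ≤ (s1 + sl) / 2 ^ 20 := by gcongr
    rw [add_div, add_div] at h4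
    linarith
  c20 := by
    have hr : (211634:ℝ) ≤ rn1 := by exact_mod_cast hx.c1.trans hx.c2.le
    have hr0 : (0:ℝ) < rn1 := by linarith
    have h1 : ((s0:ℝ) + sh + 64) * rn1 ≤ 1099511627776 := by exact_mod_cast hx.c20
    have h2 : 1 / ((rn1:ℝ) / 2 ^ 20) = 1099511627776 / rn1 / 2 ^ 20 := by
      field_simp
      norm_num
    have h3 : (s0:ℝ) + sh + 64 ≤ 1099511627776 / rn1 := by
      rw [le_div_iff₀ hr0]
      exact h1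
    rw [h2]
    have h4 : ((s0:ℝ) + sh + 64) / 2 ^ 20 ≤ 1099511627776 / rn1 / 2 ^ 20 := by gcongr
    rw [add_div, add_div] at h4
    linarith
  c21 := by
    have : (224794581:ℝ) ≤ a * dn := by exact_mod_cast hx.c21
    rw [← mul_div_assoc]
    gcongr
  c22 := by
    have : (131072:ℝ) ≤ T0 := by exact_mod_cast hx.c22
    rw [div_le_div_iff₀ (by positivity) (by positivity)]
    norm_num
    linarith
  c23 := by
    have : (1686629714:ℝ) ≤ P1 := by exact_mod_cast hx.c23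
    gcongr
  c24 := by
    have : (0:ℝ) < dn := by exact_mod_cast hx.c24
    positivity
  c25 := by
    have : (T1:ℝ) ≤ a * dn := by exact_mod_cast hx.c25
    rw [← mul_div_assoc]
    gcongr
  c26 := by positivity
  c27 := by positivity
  l1 := hx.l1
  l2 := hx.l2
  x1 := hx.x1
  x2 := hx.x2

theorem kink_chord {s r0 r1 e lam : ℝ} (hl : lam ∈ Icc (0:ℝ) 1) (h01 : r0 ≤ r1) (he : 0 ≤ e)
    (h : r1 ≤ s + e / 2 ∨ s ≤ r0) :
    lin |r0 - s| |r1 - s| lam - e ≤ |lin r0 r1 lam - s| := by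
  have hlam0 := hl.1
  have hlam1 : 0 ≤ 1 - lam := by linarith [hl.2]
  rcases h with h | h
  · rcases le_total r1 s with h1 | h1
    · have a1 : |r1 - s| = s - r1 := by rw [abs_of_nonpos (by linarith)]; ring
      have a0 : |r0 - s| = s - r0 := by rw [abs_of_nonpos (by linarith)]; ring
      rw [a0, a1]
      have := neg_abs_le (lin r0 r1 lam - s)
      unfold lin at *
      linarith
    · have a1 : |r1 - s| ≤ e / 2 := by rw [abs_of_nonneg (by linarith)]; linarith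
      rcases le_total r0 s with h0 | h0
      · have a0 : |r0 - s| = s - r0 := by rw [abs_of_nonpos (by linarith)]; ring
        rw [a0]
        have h2 := neg_abs_le (lin r0 r1 lam - s)
        have h3 := mul_le_mul_of_nonneg_left a1 hlam0
        have h4 := mul_le_mul_of_nonneg_left h hlam0
        have h5 : lam * e ≤ e := by nlinarith [hl.2]
        unfold lin at *
        linarith
      · have a0 : |r0 - s| = r0 - s := by rw [abs_of_nonneg (by linarith)]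
        have a1 : |r1 - s| = r1 - s := by rw [abs_of_nonneg (by linarith)]
        rw [a0, a1]
        have := le_abs_self (lin r0 r1 lam - s)
        unfold lin at *
        linarith
  · have a0 : |r0 - s| = r0 - s := by rw [abs_of_nonneg (by linarith)]
    have a1 : |r1 - s| = r1 - s := by rw [abs_of_nonneg (by linarith)]
    rw [a0, a1]
    have := le_abs_self (lin r0 r1 lam - s)
    unfold lin at *
    linarith

/-- the radial coefficient is bounded -/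
theorem brs_le {D : Dat} {xa xb wa wb M10 M20 M30 M01 M11 M21 M02 M12 M03 : ℝ}
    (hM : MB D xa xb wa wb M10 M20 M30 M01 M11 M21 M02 M12 M03) (hrB : 0 < D.rB)
    {ra rb r θ : ℝ} (hra : 0 ≤ ra) (hrb : rb ≤ D.rB)
    (hwa : wa ≤ 1 - rb ^ 2 / D.rB ^ 2) (hwb : 1 - ra ^ 2 / D.rB ^ 2 ≤ wb)
    (h1 : ra ≤ r) (h2 : r ≤ rb) (hx : -(r * cos θ) ∈ Icc xa xb) :
    |brs D r θ| ≤ M10 + 2 * rb / D.rB ^ 2 * M01 := by
  have hr0 : 0 ≤ r := hra.trans h1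
  have hww := w_range (D := D) hrB hra hwa hwb h1 h2
  have hW : D.W r = 1 - r ^ 2 / D.rB ^ 2 := by
    unfold Dat.W
    have : r ^ 2 / D.rB ^ 2 ≤ 1 := by
      rw [div_le_one (by positivity)]
      have := h2.trans hrb
      gcongr
    rw [max_eq_right (by linarith)]
  unfold brs
  rw [hW, Dat.bx_eq, Dat.bw_eq]
  have b1 := hM.m10 _ hx _ hww
  have b2 := hM.m01 _ hx _ hww
  have c1 : |-cos θ| ≤ 1 := by
    rw [abs_neg]
    exact abs_cos_le_one θ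
  have c2 : |2 * r / D.rB ^ 2| ≤ 2 * rb / D.rB ^ 2 := by
    rw [abs_of_nonneg (by positivity)]
    gcongr
  refine (abs_sub_le' (abs_mul_le c1 b1) (abs_mul_le c2 b2)).trans (le_of_eq (by ring))

section

variable {D : Dat} {r0 r1 δ Ps0 Ps1 Th0 Th1 σ0 σ1 vl vh : ℝ} {a b k : ℕ}

theorem CellR.pos (h : CellR D.xL r0 r1 δ Ps0 Ps1 Th0 Th1 σ0 σ1 vl vh a b k) : 0 < r0 :=
  lt_of_lt_of_le (by norm_num) h.c1

theorem CellR.bpi {xL : ℝ} (h : CellR xL r0 r1 δ Ps0 Ps1 Th0 Th1 σ0 σ1 vl vh a b k) :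
    ((b:ℝ) + 1) * δ ≤ π := by
  have hpl := Real.pi_gt_d20
  have h1 := h.c10
  norm_num at hpl h1 ⊢
  linarith

theorem CellR.kle {xL : ℝ} (h : CellR xL r0 r1 δ Ps0 Ps1 Th0 Th1 σ0 σ1 vl vh a b k) :
    0 ≤ ((a - k : ℕ) : ℝ) * δ ∧ ((a - k : ℕ) : ℝ) * δ ≤ a * δ := by
  have h1 := h.c24
  have h2 : ((a - k : ℕ) : ℝ) ≤ a := by exact_mod_cast Nat.sub_le _ _
  constructor
  · positivity
  · gcongr

theorem CellR.cosA {xL : ℝ} (h : CellR xL r0 r1 δ Ps0 Ps1 Th0 Th1 σ0 σ1 vl vh a b k) :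
    0 ≤ cos (((a - k : ℕ) : ℝ) * δ) := by
  have h1 := h.kle
  have h2 := h.c16
  have h3 := pi_gt_three
  apply cos_nonneg_of_neg_pi_div_two_le_of_le <;> linarith [h1.1, h1.2]

theorem CellR.cosB {xL : ℝ} (h : CellR xL r0 r1 δ Ps0 Ps1 Th0 Th1 σ0 σ1 vl vh a b k) :
    cos (((b:ℝ) + 1) * δ) ≤ 0 := by
  have hpu := Real.pi_lt_d20
  have h1 := h.c23.trans (h.c6.trans h.c9)
  have h2 : π / 2 ≤ 1686629714 / 2 ^ 30 := by
    norm_num at hpu ⊢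
    linarith
  exact cos_nonpos_of_pi_div_two_le_of_le (by linarith) (by linarith [h.bpi, pi_pos])

theorem CellR.xr (h : CellR D.xL r0 r1 δ Ps0 Ps1 Th0 Th1 σ0 σ1 vl vh a b k) :
    ∀ r ∈ Icc r0 r1, ∀ θ ∈ Icc (((a - k : ℕ) : ℝ) * δ) (((b:ℝ) + 1) * δ),
      -(r * cos θ) ∈ Icc (-(198 / 1000)) (78119 / 2 ^ 20) := by
  intro r hr θ hθ
  have := h.x1
  exact x_range h.pos.le h.kle.1 h.bpi h.cosA h.cosB (by linarith) h.x2 hr hθ

theorem CellR.err {xL : ℝ} (h : CellR xL r0 r1 δ Ps0 Ps1 Th0 Th1 σ0 σ1 vl vh a b k) :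
    (11000:ℝ) * (r1 - r0) ^ 2 / 8 + 170 * δ ^ 2 / 8 ≤ 293 / 10 ^ 7 := by
  have h2 := h.c2
  have e1 : (r1 - r0) ^ 2 ≤ (104 / 2 ^ 20) ^ 2 := by
    apply pow_le_pow_left₀ (by linarith) h.c3
  have e2 : δ ^ 2 ≤ (923418 / 2 ^ 30) ^ 2 := by
    apply pow_le_pow_left₀ h.c24.le h.c17
  norm_num at e1 e2 ⊢
  linarith

theorem CellR.angT (h : CellR D.xL r0 r1 δ Ps0 Ps1 Th0 Th1 σ0 σ1 vl vh a b k)
    (t10 : r0 * cos (Th0 + 1 / 2 ^ 13) + 1 / 2 ^ 20 ≤ D.xL)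
    (t11 : r1 * cos (Th1 + 1 / 2 ^ 13) + 1 / 2 ^ 20 ≤ D.xL)
    (t20 : D.xL ≤ r0 * cos (Th0 - 1 / 2 ^ 13) - 1 / 2 ^ 20)
    (t21 : D.xL ≤ r1 * cos (Th1 - 1 / 2 ^ 13) - 1 / 2 ^ 20) {lam : ℝ} (hl : lam ∈ Icc (0:ℝ) 1) :
    |lin Th0 Th1 lam - arccos (D.xL / lin r0 r1 lam)| ≤ 1 / 2 ^ 13 := by
  have h1 := h.c2
  have h2 := h.c11
  have h3 := h.c3
  have h4 := h.c12
  have h5 := h.c4
  have h6 := h.c22
  have h7 := h.c25
  have h8 := h.c16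
  have h9 := pi_gt_three
  refine near_arccos (K := 8 / 2 ^ 20) h.pos h1 hl ?_ (by linarith) (by linarith) (by linarith)
    (by linarith) (by norm_num) (by linarith) (by linarith) (by linarith) (by linarith)
  rw [abs_of_nonneg (by linarith)]
  have e1 : 2 * (r1 - r0) * (Th1 - Th0) ≤ 2 * (104 / 2 ^ 20) * (4194304 / 2 ^ 30) := by
    apply mul_le_mul
    · linarith
    · linarith
    · linarith
    · norm_num
  have e2 : r1 * (Th1 - Th0) ^ 2 ≤ 224217 / 2 ^ 20 * (4194304 / 2 ^ 30) ^ 2 := by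
    have e3 : (Th1 - Th0) ^ 2 ≤ (4194304 / 2 ^ 30) ^ 2 :=
      pow_le_pow_left₀ (by linarith) h4 2
    apply mul_le_mul h5 e3 (sq_nonneg _) (by norm_num)
  refine (add_le_add e1 e2).trans ?_
  norm_num

theorem CellR.angP {x1 : ℝ} (h : CellR D.xL r0 r1 δ Ps0 Ps1 Th0 Th1 σ0 σ1 vl vh a b k)
    (t10 : r0 * cos (Ps0 + 1 / 2 ^ 17) + 1 / 2 ^ 26 ≤ -x1)
    (t11 : r1 * cos (Ps1 + 1 / 2 ^ 17) + 1 / 2 ^ 26 ≤ -x1)
    (t20 : -x1 ≤ r0 * cos (Ps0 - 1 / 2 ^ 17) - 1 / 2 ^ 26)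
    (t21 : -x1 ≤ r1 * cos (Ps1 - 1 / 2 ^ 17) - 1 / 2 ^ 26) {lam : ℝ} (hl : lam ∈ Icc (0:ℝ) 1) :
    |lin Ps0 Ps1 lam - arccos (-x1 / lin r0 r1 lam)| ≤ 1 / 2 ^ 17 := by
  have h1 := h.c2
  have h2 := h.c6
  have h3 := h.c3
  have h4 := h.c7
  have h5 := h.c4
  have h6 := h.c23
  have h7 := h.c18
  have h8 := h.c16
  have h9 := pi_gt_three
  refine near_arccos (K := 8 / 2 ^ 26) h.pos h1 hl ?_ (by linarith) (by linarith) (by linarith)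
    (by linarith) (by norm_num) (by linarith) (by linarith) (by linarith) (by linarith)
  rw [abs_of_nonpos (by linarith)]
  have e1 : 2 * (r1 - r0) * (-(Ps1 - Ps0)) ≤ 2 * (104 / 2 ^ 20) * (262144 / 2 ^ 30) := by
    apply mul_le_mul
    · linarith
    · linarith
    · linarith
    · norm_num
  have e2 : r1 * (Ps1 - Ps0) ^ 2 ≤ 224217 / 2 ^ 20 * (262144 / 2 ^ 30) ^ 2 := by
    have e3 : (Ps1 - Ps0) ^ 2 ≤ (262144 / 2 ^ 30) ^ 2 := by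
      have e4 : (Ps1 - Ps0) ^ 2 = (Ps0 - Ps1) ^ 2 := by ring
      rw [e4]
      exact pow_le_pow_left₀ (by linarith) h4 2
    apply mul_le_mul h5 e3 (sq_nonneg _) (by norm_num)
  refine (add_le_add e1 e2).trans ?_
  norm_num

theorem CellR.thA (h : CellR D.xL r0 r1 δ Ps0 Ps1 Th0 Th1 σ0 σ1 vl vh a b k) {r : ℝ}
    (hr : r ∈ Icc r0 r1) :
    ((a - k : ℕ) : ℝ) * δ ≤ arccos (D.xL / r) ∧ arccos (D.xL / r) ≤ a * δ := by
  have hr0 : 0 < r := lt_of_lt_of_le h.pos hr.1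
  have h3 := pi_gt_three
  have h16 := h.c16
  have hk := h.kle
  have hcA : 0 ≤ cos (a * δ) := by
    have : 0 ≤ (a:ℝ) * δ := hk.1.trans hk.2
    apply cos_nonneg_of_neg_pi_div_two_le_of_le <;> linarith
  constructor
  · have h1 : D.xL / r ≤ cos (((a - k : ℕ) : ℝ) * δ) := by
      rw [div_le_iff₀ hr0]
      have h2 := h.l2
      have h4 : r0 * cos (((a - k : ℕ) : ℝ) * δ) ≤ r * cos (((a - k : ℕ) : ℝ) * δ) :=
        mul_le_mul_of_nonneg_right hr.1 h.cosA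
      linarith
    have h2 := arccos_le_arccos h1
    rwa [arccos_cos hk.1 (by linarith [hk.2])] at h2
  · have h1 : cos (a * δ) ≤ D.xL / r := by
      rw [le_div_iff₀ hr0]
      have h2 := h.l1
      have h4 : r * cos (a * δ) ≤ r1 * cos (a * δ) := mul_le_mul_of_nonneg_right hr.2 hcA
      linarith
    have h2 := arccos_le_arccos h1
    rwa [arccos_cos (hk.1.trans hk.2) (by linarith)] at h2

end

end Pool.Agent.H4.Shore
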