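import Mathlib
import Pool.Agent.H4.Shore.GCellS

/-!
Shoreline search: the gauge on a cell of the ring from the row checks, final form.
-/

open Real Set

namespace Pool.Agent.H4.Shore

open Pool.Agent.H44.Shore Pool.Agent.H65.Shore

section

variable {D : Dat} {α ω r0 r1 δ Ps0 Ps1 Th0 Th1 σ0 σ1 vl vh : ℝ} {a b k : ℕ}

theorem CellR.sgrid (h : CellR D.xL r0 r1 δ Ps0 Ps1 Th0 Th1 σ0 σ1 vl vh a b k) (hD : D.Ok)
    (hR : RingOk D) : SGrid (fun r θ => 1 * brs D r θ) r0 r1 δ (a - k) b 11000 170 ∧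
      SGrid (fun r θ => (-1) * brs D r θ) r0 r1 δ (a - k) b 11000 170 := by
  obtain ⟨wa, wb, M10, M20, M30, M01, M11, M21, M02, M12, M03, hM, hwa, hwb, hKr, hKt, -⟩ := hR.M
  have hra : (0:ℝ) ≤ 211634 / 2 ^ 20 := by norm_num
  have hab : a - k ≤ b := by
    have := h.c15
    omega
  constructor
  · exact sgrid_brs hM hD.hrB hra h.c1 h.c2 h.c4 hR.hrB hwa hwb h.c24 hab h.xr (by norm_num)
      (by norm_num) hKr hKt (by norm_num)
  · exact sgrid_brs hM hD.hrB hra h.c1 h.c2 h.c4 hR.hrB hwa hwb h.c24 hab h.xr (by norm_num)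
      (by norm_num) hKr hKt (by norm_num)

theorem CellR.sl (h : CellR D.xL r0 r1 δ Ps0 Ps1 Th0 Th1 σ0 σ1 vl vh a b k) (hD : D.Ok)
    (hR : RingOk D) (s0 : ∀ j : ℕ, a - k ≤ j → j ≤ a → vl ≤ brs D r0 (j * δ) ∧
      brs D r0 (j * δ) ≤ vh) (s1 : ∀ j : ℕ, a - k ≤ j → j ≤ a → vl ≤ brs D r1 (j * δ) ∧
      brs D r1 (j * δ) ≤ vh) {r θ : ℝ} (hr : r ∈ Icc r0 r1)
    (hθ : θ ∈ Icc (arccos (D.xL / r)) (a * δ)) :
    σ0 ≤ 1 / r - brs D r θ ∧ 1 / r - brs D r θ ≤ σ1 := by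
  obtain ⟨G1, G2⟩ := h.sgrid hD hR
  have hab : a ≤ b := by
    have := h.c15
    omega
  have hr0 : 0 < r := lt_of_lt_of_le h.pos hr.1
  have hb := brs_sliver (lo := -vh) (hi := -vl) G1 G2 h.c13 h.c14 hab (by
    intro r' hr' j hj1 hj2
    rcases hr' with e | e
    · rw [e]
      have := s0 j hj1 hj2
      constructor <;> linarith [this.1, this.2]
    · rw [e]
      have := s1 j hj1 hj2
      constructor <;> linarith [this.1, this.2]) hr ⟨(h.thA hr).1.trans hθ.1, hθ.2⟩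
  have hE := h.err
  have e1 : 1 / r ≤ 1 / r0 := one_div_le_one_div_of_le h.pos hr.1
  have e2 : 1 / r1 ≤ 1 / r := one_div_le_one_div_of_le hr0 hr.2
  have h19 := h.c19
  have h20 := h.c20
  have hsmall : (293:ℝ) / 10 ^ 7 ≤ 64 / 2 ^ 20 := by norm_num
  constructor <;> linarith [hb.1, hb.2]

theorem CellR.mb (h : CellR D.xL r0 r1 δ Ps0 Ps1 Th0 Th1 σ0 σ1 vl vh a b k) (hD : D.Ok)
    (hR : RingOk D) {x1 : ℝ} (hx0 : 0 ≤ x1) (hx1 : x1 ≤ 0.0725) {lam : ℝ}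
    (hl : lam ∈ Icc (0:ℝ) 1) {θ : ℝ}
    (hθ : θ ∈ uIcc (arccos (-x1 / lin r0 r1 lam)) (lin Ps0 Ps1 lam)) :
    |brs D (lin r0 r1 lam) θ| ≤ 8 := by
  obtain ⟨wa, wb, M10, M20, M30, M01, M11, M21, M02, M12, M03, hM, hwa, hwb, -, -, hM7, -⟩ := hR.M
  have hra : (0:ℝ) ≤ 211634 / 2 ^ 20 := by norm_num
  have hrm := lin_mem h.c2 hl
  have hbl : (b:ℝ) * δ ≤ lin Ps0 Ps1 lam := by
    have h1 := h.c8
    have h2 := h.c6
    have h3 := hl.1
    have h4 : 0 ≤ 1 - lam := by linarith [hl.2]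
    unfold lin
    nlinarith
  have hbu : lin Ps0 Ps1 lam ≤ ((b:ℝ) + 1) * δ := by
    have h1 := h.c9
    have h2 := h.c6
    exact lin_le h1 (h2.trans h1) hl
  set r := lin r0 r1 lam with hr
  set P := lin Ps0 Ps1 lam with hP
  have hrp : 0 < r := lt_of_lt_of_le h.pos hrm.1
  have hr2 : 0.2 ≤ r := by
    have := h.c1.trans hrm.1
    norm_num at this ⊢
    linarith
  refine (brs_le hM hD.hrB hra hR.hrB hwa hwb (h.c1.trans hrm.1) (hrm.2.trans h.c4) ?_).trans hM7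
  have hδ := h.c24
  have hkb : ((a - k : ℕ) : ℝ) * δ ≤ b * δ := by
    have h1 : ((a - k : ℕ) : ℝ) ≤ b := by
      have := h.c15
      exact_mod_cast (by omega : a - k ≤ b)
    gcongr
  have hPx := h.xr r hrm P ⟨hkb.trans hbl, hbu⟩
  have hP0 : 0 ≤ P := h.kle.1.trans (hkb.trans hbl)
  have hPπ : P ≤ π := hbu.trans h.bpi
  have hq0 := arccos_nonneg (-x1 / r)
  have hqπ := arccos_le_pi (-x1 / r)
  have hyr : x1 / r ≤ 1 := by
    rw [div_le_one hrp]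
    linarith
  have hyr0 : 0 ≤ x1 / r := by positivity
  have hcq : cos (arccos (-x1 / r)) = -x1 / r := by
    rw [neg_div]
    exact cos_arccos (by linarith) (by linarith)
  have hxq : -(r * cos (arccos (-x1 / r))) = x1 := by
    rw [hcq]
    field_simp
  have hxq2 : x1 ∈ Icc (-(198 / 1000) : ℝ) (78119 / 2 ^ 20) := by
    constructor
    · linarith
    · norm_num at hx1 ⊢
      linarith
  rcases le_total (arccos (-x1 / r)) P with hle | hle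
  · rw [uIcc_of_le hle] at hθ
    have c1 := cos_le_cos_of_nonneg_of_le_pi hq0 (hθ.2.trans hPπ) hθ.1
    have c2 := cos_le_cos_of_nonneg_of_le_pi (hq0.trans hθ.1) hPπ hθ.2
    have d1 := mul_le_mul_of_nonneg_left c1 hrp.le
    have d2 := mul_le_mul_of_nonneg_left c2 hrp.le
    constructor
    · linarith [hxq2.1]
    · linarith [hPx.2]
  · rw [uIcc_of_ge hle] at hθ
    have c1 := cos_le_cos_of_nonneg_of_le_pi hP0 (hθ.2.trans hqπ) hθ.1
    have c2 := cos_le_cos_of_nonneg_of_le_pi (hP0.trans hθ.1) hqπ hθ.2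
    have d1 := mul_le_mul_of_nonneg_left c1 hrp.le
    have d2 := mul_le_mul_of_nonneg_left c2 hrp.le
    constructor
    · linarith [hPx.1]
    · linarith [hxq2.2]

end

theorem CellR.small {xL α r0 r1 δ Ps0 Ps1 Th0 Th1 σ0 σ1 vl vh : ℝ} {a b k : ℕ}
    (h : CellR xL r0 r1 δ Ps0 Ps1 Th0 Th1 σ0 σ1 vl vh a b k) (hr0 : 0 < r0) (hα : 0 ≤ α)
    (hα2 : α ≤ a * δ) :
    ((Ps0 - a * δ) * (11000 * (r1 - r0) ^ 2 / 8 + 170 * δ ^ 2 / 8) +
      (Ps0 - Ps1) * (8 / 100) / 4) + 8 * (1 / 2 ^ 17) +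
      (a * δ - α) * ((r1 - r0) ^ 2 / (4 * r0 ^ 3)) + 2 * (1 / 2 ^ 21) ≤ 13 / 10 ^ 5 ∧
    0 ≤ (a * δ - α) * ((r1 - r0) ^ 2 / (4 * r0 ^ 3)) := by
  have hE := h.err
  have h1 := h.c18
  have h2 := h.c7
  have h3 := h.c3
  have h4 := h.c16
  have h5 := h.c2
  have h6 := h.c1
  have hE0 : 0 ≤ 11000 * (r1 - r0) ^ 2 / 8 + 170 * δ ^ 2 / 8 := by positivity
  have e1 : (Ps0 - a * δ) * (11000 * (r1 - r0) ^ 2 / 8 + 170 * δ ^ 2 / 8) ≤
      7 / 4 * (293 / 10 ^ 7) := by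
    refine (mul_le_mul_of_nonneg_right (by linarith : Ps0 - a * δ ≤ 7 / 4) hE0).trans ?_
    exact mul_le_mul_of_nonneg_left hE (by norm_num)
  have e2 : (r1 - r0) ^ 2 / (4 * r0 ^ 3) ≤ (104 / 2 ^ 20) ^ 2 / (4 * 0.2 ^ 3) := by
    have e3 : (r1 - r0) ^ 2 ≤ (104 / 2 ^ 20) ^ 2 := pow_le_pow_left₀ (by linarith) h3 2
    have e4 : (0.2:ℝ) ^ 3 ≤ r0 ^ 3 := by
      apply pow_le_pow_left₀ (by norm_num)
      norm_num at h6 ⊢
      linarith
    apply div_le_div₀ (by positivity) e3 (by norm_num)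
    linarith
  have e5 : 0 ≤ (r1 - r0) ^ 2 / (4 * r0 ^ 3) := by positivity
  have e6 : (a * δ - α) * ((r1 - r0) ^ 2 / (4 * r0 ^ 3)) ≤
      1 / 2 * ((104 / 2 ^ 20) ^ 2 / (4 * 0.2 ^ 3)) := by
    apply mul_le_mul (by linarith) e2 e5 (by norm_num)
  constructor
  · norm_num at e1 e6 h2 ⊢
    linarith
  · exact mul_nonneg (by linarith) e5

theorem cell_sound {D : Dat} {α ω : ℝ} (hc : Consts α ω) (hD : D.Ok) (hR : RingOk D)
    (hρ : 1 / D.ρ ≤ 0.0725) {dn rn0 rn1 a b k P0 P1 T0 T1 m0 m1 s0 s1 sl sh : ℕ}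
    (R0 : GRowOk D α ω dn rn0 a b k P0 T0 m0 s0 s1 sl sh)
    (R1 : GRowOk D α ω dn rn1 a b k P1 T1 m1 s0 s1 sl sh)
    (hx : GCellC D.xL dn rn0 rn1 a b k P0 P1 T0 T1 s0 s1 sl sh) {lam : ℝ}
    (hl : lam ∈ Icc (0:ℝ) 1) :
    |π * mC α ω 2 D (lin ((rn0:ℝ) / 2 ^ 20) ((rn1:ℝ) / 2 ^ 20) lam) -
      π * lin (-((m0:ℝ) / 2 ^ 20)) (-((m1:ℝ) / 2 ^ 20)) lam| ≤ 29 / 10 ^ 5 := by
  have h := hx.toR
  have hρ0 : 0 ≤ 1 / D.ρ := by
    have := hD.hρ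
    positivity
  obtain ⟨G1, G2⟩ := h.sgrid hD hR
  have hka : a - k ≤ a := Nat.sub_le _ _
  have hab : a ≤ b := by
    have := h.c15
    omega
  have s1' := hc.sal
  have s2' := hc.sau
  have a1' := hc.al
  have a2' := hc.au
  have hα : α ≤ a * ((dn:ℝ) / 2 ^ 30) := by
    refine le_trans ?_ h.c21
    norm_num at a2' ⊢
    linarith
  obtain ⟨sm1, sm2⟩ := h.small (α := α) h.pos (by linarith) hα
  have up0 := R0.up
  have up1 := R1.up
  have lo0 := R0.lo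
  have lo1 := R1.lo
  refine mC_chord2 (G1.mono hka hab le_rfl) (G2.mono hka hab le_rfl) h.c6 h.c8 h.c9
    (by norm_num : (0:ℝ) ≤ 8 / 100) ?_ h.pos (by norm_num) (Th0 := (T0:ℝ) / 2 ^ 30)
    (Th1 := (T1:ℝ) / 2 ^ 30) (eT := 1 / 2 ^ 13) (eq := 1 / 2 ^ 17) (Mb := 8) (ek := 1 / 2 ^ 21)
    h.c26 h.c27 (fun r hr => (h.thA hr).2) (fun lam hl => h.angT R0.t1 R1.t1 R0.t2 R1.t2 hl)
    (fun r hr θ hθ => h.sl hD hR R0.sl R1.sl hr hθ)
    (fun lam hl => h.angP R0.p1 R1.p1 R0.p2 R1.p2 hl)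
    (fun lam hl θ hθ => h.mb hD hR hρ0 hρ hl hθ) ?_ hα ?_ ?_ hl
  · intro j j' hj hj'
    have o1 := R1.out j (by omega) (by omega)
    have o0 := R0.out j' (by omega) (by omega)
    rw [abs_le]
    constructor <;> linarith [o1.1, o1.2, o0.1, o0.2]
  · intro lam hl
    apply kink_chord hl h.c2 (by norm_num)
    rcases h.c5 with h5 | h5
    · left
      refine h5.trans ?_
      norm_num at s1' ⊢
      linarith
    · right
      refine le_trans ?_ h5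
      norm_num at s2' ⊢
      linarith
  · intro r m T Th hcase
    rcases hcase with ⟨e1, e2, e3, e4⟩ | ⟨e1, e2, e3, e4⟩
    · rw [e1, e2, e3, e4]
      linarith
    · rw [e1, e2, e3, e4]
      linarith
  · intro r m T Th hcase
    rcases hcase with ⟨e1, e2, e3, e4⟩ | ⟨e1, e2, e3, e4⟩
    · rw [e1, e2, e3, e4]
      linarith
    · rw [e1, e2, e3, e4]
      linarith

end Pool.Agent.H4.Shore
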