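import Mathlib
import Pool.Agent.H4.Shore.GCellT

/-!
Shoreline search: kernel check of the gauge on a chain of ring cells, and its soundness.
-/

open Real Set

namespace Pool.Agent.H4.Shore

open Pool.Agent.H44.Shore Pool.Agent.H65.Shore

/-- data of a cell; `rn`, `m` belong to the upper row -/
structure GCell where
  a : ℕ
  b : ℕ
  k : ℕ
  P0 : ℕ
  P1 : ℕ
  T0 : ℕ
  T1 : ℕ
  s0 : ℕ
  s1 : ℕ
  sl : ℕ
  sh : ℕ
  rn : ℕ
  m : ℕ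

/-- numerical checks of a cell -/
def gCellV (nL N dn j0 n co rn0 : ℕ) (c : GCell) : Bool :=
  match c with
  | GCell.mk a b k P0 P1 T0 T1 s0 s1 sl sh rn1 m1 =>
  andB (Nat.ble 211634 rn0) <| andB (Nat.ble (rn0 + 1) rn1) <| andB (Nat.ble rn1 (rn0 + 104)) <|
  andB (Nat.ble rn1 224217) <| andB (orB (Nat.ble rn1 217926) (Nat.ble 217926 rn0)) <|
  andB (Nat.ble P1 P0) <| andB (Nat.ble P0 (P1 + 262144)) <| andB (Nat.ble (b * dn) P1) <|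
  andB (Nat.ble P0 ((b + 1) * dn)) <| andB (Nat.ble ((b + 1) * dn) 3373259426) <|
  andB (Nat.ble T0 T1) <| andB (Nat.ble T1 (T0 + 4194304)) <| andB (Nat.ble 1 k) <|
  andB (Nat.ble (j0 + k) a) <| andB (Nat.ble (a + 2) b) <| andB (Nat.ble (b + 2) (j0 + n)) <|
  andB (Nat.ble (a * dn) 536870912) <| andB (Nat.ble dn 923418) <| andB (Nat.ble 1 dn) <|
  andB (Nat.ble P0 (a * dn + 1879048192)) <|
  andB (Nat.ble (1099511627776 + 64 * rn0) ((s1 + sl) * rn0)) <|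
  andB (Nat.ble ((s0 + sh + 64) * rn1) 1099511627776) <|
  andB (Nat.ble 224794581 (a * dn)) <| andB (Nat.ble 131072 T0) <|
  andB (Nat.ble 1686629714 P1) <| andB (Nat.ble T1 (a * dn)) <| andB (Nat.ble m1 4194304) <|
  seqN (lget 128 co (a - j0)) fun ca => seqN (lget 128 co (a - k - j0)) fun ck =>
  seqN (lget 128 co (b + 1 - j0)) fun cb =>
  andB (Nat.ble (N * rn1 * (ca + 5 - 70368744177664)) (nL * 18446744073709551616)) <|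
  andB (Nat.ble 70368744177669 ck) <|
  andB (Nat.ble (nL * 18446744073709551616) (N * rn0 * (ck - 70368744177669))) <|
  andB (Nat.ble (1000 * rn1 * (ck + 5 - 70368744177664)) (197 * 18446744073709551616))
    (Nat.ble (rn1 * (70368744177669 - cb)) (78119 * 17592186044416))

theorem up_of_lane {N rn cU nL : ℕ} {x : ℝ} (h : N * rn * cU ≤ nL * 18446744073709551616)
    (hN : 0 < N) (hx : x ≤ (cU:ℝ) / 2 ^ 44) : (rn:ℝ) / 2 ^ 20 * x ≤ (nL:ℝ) / N := by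
  have hNR : (0:ℝ) < N := by exact_mod_cast hN
  have h1 : (N:ℝ) * rn * cU ≤ nL * 18446744073709551616 := by exact_mod_cast h
  have hr : (0:ℝ) ≤ (rn:ℝ) / 2 ^ 20 := by positivity
  refine (mul_le_mul_of_nonneg_left hx hr).trans ?_
  rw [le_div_iff₀ hNR]
  have e : (rn:ℝ) / 2 ^ 20 * (cU / 2 ^ 44) * N = (N * rn * cU) / 18446744073709551616 := by
    field_simp
    norm_num
    ring
  rw [e, div_le_iff₀ (by norm_num)]
  exact h1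

theorem low_of_lane {N rn cL nL : ℕ} {x : ℝ} (h : nL * 18446744073709551616 ≤ N * rn * cL)
    (hN : 0 < N) (hx : (cL:ℝ) / 2 ^ 44 ≤ x) : (nL:ℝ) / N ≤ (rn:ℝ) / 2 ^ 20 * x := by
  have hNR : (0:ℝ) < N := by exact_mod_cast hN
  have h1 : (nL:ℝ) * 18446744073709551616 ≤ N * rn * cL := by exact_mod_cast h
  have hr : (0:ℝ) ≤ (rn:ℝ) / 2 ^ 20 := by positivity
  refine le_trans ?_ (mul_le_mul_of_nonneg_left hx hr)
  rw [div_le_iff₀ hNR]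
  have e : (rn:ℝ) / 2 ^ 20 * (cL / 2 ^ 44) * N = (N * rn * cL) / 18446744073709551616 := by
    field_simp
    norm_num
    ring
  rw [e, le_div_iff₀ (by norm_num)]
  exact h1

structure GSt (dn j0 n rn0 : ℕ) (c : GCell) : Prop where
  h1 : j0 + c.k ≤ c.a
  h2 : c.b + 2 ≤ j0 + n
  h3 : c.m ≤ 2 ^ 22

theorem gCellV_sound {xL : ℝ} {nL N dn j0 n co rn0 : ℕ} {c : GCell} (hN : 0 < N)
    (hxL : xL = (nL:ℝ) / N)
    (hco : CosT n (j0 * ((dn:ℝ) / 2 ^ 30)) ((dn:ℝ) / 2 ^ 30) co)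
    (h : gCellV nL N dn j0 n co rn0 c = true) :
    GCellC xL dn rn0 c.rn c.a c.b c.k c.P0 c.P1 c.T0 c.T1 c.s0 c.s1 c.sl c.sh ∧
      GSt dn j0 n rn0 c := by
  obtain ⟨a, b, k, P0, P1, T0, T1, s0, s1, sl, sh, rn1, m1⟩ := c
  simp only [gCellV, seqN_eq] at h
  obtain ⟨h1, h⟩ := andB_eq h
  obtain ⟨h2, h⟩ := andB_eq h
  obtain ⟨h3, h⟩ := andB_eq h
  obtain ⟨h4, h⟩ := andB_eq h
  obtain ⟨h5, h⟩ := andB_eq h
  obtain ⟨h6, h⟩ := andB_eq h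
  obtain ⟨h7, h⟩ := andB_eq h
  obtain ⟨h8, h⟩ := andB_eq h
  obtain ⟨h9, h⟩ := andB_eq h
  obtain ⟨h10, h⟩ := andB_eq h
  obtain ⟨h11, h⟩ := andB_eq h
  obtain ⟨h12, h⟩ := andB_eq h
  obtain ⟨h13, h⟩ := andB_eq h
  obtain ⟨h14, h⟩ := andB_eq h
  obtain ⟨h15, h⟩ := andB_eq h
  obtain ⟨h16, h⟩ := andB_eq h
  obtain ⟨h17, h⟩ := andB_eq h
  obtain ⟨h18, h⟩ := andB_eq h
  obtain ⟨h19, h⟩ := andB_eq h
  obtain ⟨h20, h⟩ := andB_eq h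
  obtain ⟨h21, h⟩ := andB_eq h
  obtain ⟨h22, h⟩ := andB_eq h
  obtain ⟨h23, h⟩ := andB_eq h
  obtain ⟨h24, h⟩ := andB_eq h
  obtain ⟨h25, h⟩ := andB_eq h
  obtain ⟨h26, h⟩ := andB_eq h
  obtain ⟨h27, h⟩ := andB_eq h
  obtain ⟨h28, h⟩ := andB_eq h
  obtain ⟨h29, h⟩ := andB_eq h
  obtain ⟨h30, h⟩ := andB_eq h
  obtain ⟨h31, h32⟩ := andB_eq h
  clear h
  replace h1 := Nat.le_of_ble_eq_true h1
  replace h2 := Nat.le_of_ble_eq_true h2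
  replace h3 := Nat.le_of_ble_eq_true h3
  replace h4 := Nat.le_of_ble_eq_true h4
  replace h5 := orB_eq h5
  replace h6 := Nat.le_of_ble_eq_true h6
  replace h7 := Nat.le_of_ble_eq_true h7
  replace h8 := Nat.le_of_ble_eq_true h8
  replace h9 := Nat.le_of_ble_eq_true h9
  replace h10 := Nat.le_of_ble_eq_true h10
  replace h11 := Nat.le_of_ble_eq_true h11
  replace h12 := Nat.le_of_ble_eq_true h12
  replace h13 := Nat.le_of_ble_eq_true h13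
  replace h14 := Nat.le_of_ble_eq_true h14
  replace h15 := Nat.le_of_ble_eq_true h15
  replace h16 := Nat.le_of_ble_eq_true h16
  replace h17 := Nat.le_of_ble_eq_true h17
  replace h18 := Nat.le_of_ble_eq_true h18
  replace h19 := Nat.le_of_ble_eq_true h19
  replace h20 := Nat.le_of_ble_eq_true h20
  replace h21 := Nat.le_of_ble_eq_true h21
  replace h22 := Nat.le_of_ble_eq_true h22
  replace h23 := Nat.le_of_ble_eq_true h23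
  replace h24 := Nat.le_of_ble_eq_true h24
  replace h25 := Nat.le_of_ble_eq_true h25
  replace h26 := Nat.le_of_ble_eq_true h26
  replace h27 := Nat.le_of_ble_eq_true h27
  replace h28 := Nat.le_of_ble_eq_true h28
  replace h29 := Nat.le_of_ble_eq_true h29
  replace h30 := Nat.le_of_ble_eq_true h30
  replace h31 := Nat.le_of_ble_eq_true h31
  replace h32 := Nat.le_of_ble_eq_true h32
  have h5' : rn1 ≤ 217926 ∨ 217926 ≤ rn0 := by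
    rcases h5 with h | h
    · exact Or.inl (Nat.le_of_ble_eq_true h)
    · exact Or.inr (Nat.le_of_ble_eq_true h)
  have M1 : ((70368744177664 : ℕ) : ℝ) = 2 ^ 46 := by norm_num
  have M2 : ((70368744177669 : ℕ) : ℝ) = 2 ^ 46 + 5 := by norm_num
  have ga := lane_up M1 (hco.get (by omega : j0 ≤ a) (by omega : a < j0 + n))
  have gk := hco.get (by omega : j0 ≤ a - k) (by omega : a - k < j0 + n)
  have gk1 := lane_up M1 gk
  have gk2 := lane_low M2 h29 gk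
  have gb := lane_nup M2 (hco.get (by omega : j0 ≤ b + 1) (by omega : b + 1 < j0 + n))
  have k1 : rn0 < rn1 := by omega
  have k2 : k ≤ a := by omega
  have k3 : a + 1 < b := by omega
  refine ⟨⟨h1, k1, h3, h4, h5', h6, h7, h8, h9, h10, h11, h12, h13, k2, k3, h17,
    h18, h20, h21, h22, h23, h24, h25, h19, h26, ?_, ?_, ?_, ?_⟩, ⟨h14, h16, ?_⟩⟩
  · rw [hxL]
    exact up_of_lane h28 hN ga
  · rw [hxL]
    exact low_of_lane h30 hN gk2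
  · have := up_of_lane (N := 1000) (nL := 197) (rn := rn1) h31 (by norm_num) gk1
    refine this.trans (le_of_eq ?_)
    norm_num
  · have h33 : 1 * rn1 * (70368744177669 - lget 128 co (b + 1 - j0)) ≤
        78119 * 17592186044416 := by
      rw [one_mul]
      exact h32
    have e1 : ((b + 1 : ℕ) : ℝ) = (b:ℝ) + 1 := by push_cast; ring
    rw [e1] at gb
    have hr : (0:ℝ) ≤ (rn1:ℝ) / 2 ^ 20 := div_nonneg (Nat.cast_nonneg _) (pow_nonneg (by norm_num) _)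
    have g2 := mul_le_mul_of_nonneg_left gb hr
    have e2 : (rn1:ℝ) / 2 ^ 20 * -cos (((b:ℝ) + 1) * ((dn:ℝ) / 2 ^ 30)) =
        -((rn1:ℝ) / 2 ^ 20 * cos (((b:ℝ) + 1) * ((dn:ℝ) / 2 ^ 30))) := by ring
    rw [e2] at g2
    refine g2.trans ?_
    obtain ⟨z, hz⟩ : ∃ z : ℕ, z = 70368744177669 - lget 128 co (b + 1 - j0) := ⟨_, rfl⟩
    rw [← hz] at h32 ⊢
    have h34 : (rn1:ℝ) * z ≤ 78119 * 17592186044416 := by exact_mod_cast h32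
    have e3 : (rn1:ℝ) / 2 ^ 20 * (z / 2 ^ 44) = (rn1 * z) / 2 ^ 64 := by
      field_simp
    rw [e3, div_le_div_iff₀ (by positivity) (by positivity)]
    norm_num
    linarith
  · refine h27.trans ?_
    norm_num

/-- full check of a cell -/
def gCell (K : Cst) (X1lo dn j0 n o co si : ℕ) (Ps Qs : List ℤ) (rn m : ℕ) (c : GCell) : Bool :=
  andB (gCellV K.nL K.N dn j0 n co rn c) <|
  andB (rowTab K.Lm K.C K.on K.od o Ps Qs rn fun B _ =>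
    gRow K.nL K.N X1lo K.X1 dn j0 co si B rn c.a c.b c.k c.P0 c.T0 m c.s0 c.s1 c.sl c.sh) <|
  rowTab K.Lm K.C K.on K.od o Ps Qs c.rn fun B _ =>
    gRow K.nL K.N X1lo K.X1 dn j0 co si B c.rn c.a c.b c.k c.P1 c.T1 c.m c.s0 c.s1 c.sl c.sh

/-- check of a chain of cells -/
def gLoop (K : Cst) (X1lo dn j0 n o co si : ℕ) (Ps Qs : List ℤ) : ℕ → ℕ → List GCell → Bool
  | _, _, [] => true
  | rn, m, c :: cs => andB (gCell K X1lo dn j0 n o co si Ps Qs rn m c)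
      (gLoop K X1lo dn j0 n o co si Ps Qs c.rn c.m cs)

/-- the conclusion for a chain of cells -/
def GaugeF (D : Dat) (α ω : ℝ) : ℕ → ℕ → List (ℕ × ℕ) → Prop
  | _, _, [] => True
  | rn, m, c :: cs => (rn < c.1 ∧ ∀ lam ∈ Icc (0:ℝ) 1,
      |π * mC α ω 2 D (lin ((rn:ℝ) / 2 ^ 20) ((c.1:ℝ) / 2 ^ 20) lam) -
        π * lin (-((m:ℝ) / 2 ^ 20)) (-((c.2:ℝ) / 2 ^ 20)) lam| ≤ 29 / 10 ^ 5) ∧
      GaugeF D α ω c.1 c.2 cs

theorem gCell_sound {D : Dat} {α ω : ℝ} (hc : Consts α ω) (hD : D.Ok) (hR : RingOk D) {K : Cst}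
    (hK : CstOk D K) (hρ : 1 / D.ρ ≤ 0.0725) {X1lo : ℕ} (hlo : (X1lo:ℝ) / 2 ^ 60 ≤ 1 / D.ρ)
    {dn j0 n co si : ℕ} {Ps Qs : List ℤ} (hn : n ≤ 2048)
    (hP : LAs 128 n 5 (2 ^ 46) Ps (hcos ((j0:ℝ) * ((dn:ℝ) / 2 ^ 30)) ((dn:ℝ) / 2 ^ 30)))
    (hQ : LAs 128 n 5 (2 ^ 46) Qs (hsin ((j0:ℝ) * ((dn:ℝ) / 2 ^ 30)) ((dn:ℝ) / 2 ^ 30)))
    (hP8 : Ps.length = 8) (hQ7 : Qs.length = 7)
    (hco : CosT n (j0 * ((dn:ℝ) / 2 ^ 30)) ((dn:ℝ) / 2 ^ 30) co)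
    (hsi : SinT n (j0 * ((dn:ℝ) / 2 ^ 30)) ((dn:ℝ) / 2 ^ 30) si) {rn m : ℕ} (hm : m ≤ 2 ^ 22)
    {c : GCell} (h : gCell K X1lo dn j0 n (ones 128 n) co si Ps Qs rn m c = true) :
    (rn < c.rn ∧ c.m ≤ 2 ^ 22) ∧ ∀ lam ∈ Icc (0:ℝ) 1,
      |π * mC α ω 2 D (lin ((rn:ℝ) / 2 ^ 20) ((c.rn:ℝ) / 2 ^ 20) lam) -
        π * lin (-((m:ℝ) / 2 ^ 20)) (-((c.m:ℝ) / 2 ^ 20)) lam| ≤ 29 / 10 ^ 5 := by
  obtain ⟨h1, h⟩ := andB_eq h
  obtain ⟨h2, h3⟩ := andB_eq h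
  obtain ⟨C, S⟩ := gCellV_sound hK.hN hK.hxL hco h1
  have hR0 := C.toR
  have r1 : c.rn ≤ 2 ^ 20 := C.c4.trans (by norm_num)
  have r0 : rn ≤ 2 ^ 20 := C.c2.le.trans r1
  have r00 : 2 ^ 17 ≤ rn := le_trans (by norm_num) C.c1
  have r10 : 2 ^ 17 ≤ c.rn := r00.trans C.c2.le
  have hb32 : (c.b + 1) * dn ≤ 2 ^ 32 := C.c10.trans (by norm_num)
  have P01 : c.P1 ≤ (c.b + 1) * dn := C.c6.trans C.c9
  have P10 : c.b * dn ≤ c.P0 := C.c8.trans C.c6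
  have hx : ∀ r ∈ Icc ((rn:ℝ) / 2 ^ 20) ((c.rn:ℝ) / 2 ^ 20), ∀ j : ℕ, c.a - c.k ≤ j →
      j ≤ c.b + 1 → |r * cos (j * ((dn:ℝ) / 2 ^ 30))| ≤ 21 / 100 := by
    intro r hr j hj1 hj2
    have hδ := hR0.c24
    have e1 : ((c.a - c.k : ℕ) : ℝ) ≤ j := by exact_mod_cast hj1
    have e2 : (j:ℝ) ≤ (c.b:ℝ) + 1 := by exact_mod_cast hj2
    have := hR0.xr r hr (j * ((dn:ℝ) / 2 ^ 30)) ⟨by gcongr, by gcongr⟩
    rw [abs_le]
    have h4 : (78119:ℝ) / 2 ^ 20 ≤ 21 / 100 := by norm_num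
    constructor <;> linarith [this.1, this.2]
  have hle := hR0.c2
  obtain ⟨B0, Cc0, hRow0, g0⟩ := rowTab_sound (apx_q D hK.l5 hK.l8 hK.l1 (C := K.C))
    (by positivity) hK.hod hK.hon hK.ho hK.hrB2 r0 hP hQ hP8 hQ7 h2
  obtain ⟨B1, Cc1, hRow1, g1⟩ := rowTab_sound (apx_q D hK.l5 hK.l8 hK.l1 (C := K.C))
    (by positivity) hK.hod hK.hon hK.ho hK.hrB2 r1 hP hQ hP8 hQ7 h3
  have R0 := gRow_sound hc hK.close hK.hN hK.hxL hlo hK.hX1 hco hsi hRow0 hn r00 r0 hm C.c21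
    S.h1 C.c15 S.h2 P10 C.c9 C.c24 hb32 (fun j hj1 hj2 => hx _ ⟨le_rfl, hle⟩ j hj1 hj2) g0
  have R1 := gRow_sound hc hK.close hK.hN hK.hxL hlo hK.hX1 hco hsi hRow1 hn r10 r1 S.h3 C.c21
    S.h1 C.c15 S.h2 C.c8 P01 C.c24 hb32 (fun j hj1 hj2 => hx _ ⟨hle, le_rfl⟩ j hj1 hj2) g1
  exact ⟨⟨C.c2, S.h3⟩, fun lam hl => cell_sound hc hD hR hρ R0 R1 C hl⟩

theorem gLoop_sound {D : Dat} {α ω : ℝ} (hc : Consts α ω) (hD : D.Ok) (hR : RingOk D) {K : Cst}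
    (hK : CstOk D K) (hρ : 1 / D.ρ ≤ 0.0725) {X1lo : ℕ} (hlo : (X1lo:ℝ) / 2 ^ 60 ≤ 1 / D.ρ)
    {dn j0 n co si : ℕ} {Ps Qs : List ℤ} (hn : n ≤ 2048)
    (hP : LAs 128 n 5 (2 ^ 46) Ps (hcos ((j0:ℝ) * ((dn:ℝ) / 2 ^ 30)) ((dn:ℝ) / 2 ^ 30)))
    (hQ : LAs 128 n 5 (2 ^ 46) Qs (hsin ((j0:ℝ) * ((dn:ℝ) / 2 ^ 30)) ((dn:ℝ) / 2 ^ 30)))
    (hP8 : Ps.length = 8) (hQ7 : Qs.length = 7)
    (hco : CosT n (j0 * ((dn:ℝ) / 2 ^ 30)) ((dn:ℝ) / 2 ^ 30) co)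
    (hsi : SinT n (j0 * ((dn:ℝ) / 2 ^ 30)) ((dn:ℝ) / 2 ^ 30) si) (cs : List GCell) :
    ∀ {rn m : ℕ}, m ≤ 2 ^ 22 →
      gLoop K X1lo dn j0 n (ones 128 n) co si Ps Qs rn m cs = true →
      GaugeF D α ω rn m (cs.map fun c => (c.rn, c.m)) := by
  induction cs with
  | nil => intro rn m _ _; trivial
  | cons c cs ih =>
    intro rn m hm h
    obtain ⟨h1, h2⟩ := andB_eq h
    obtain ⟨h3, h4⟩ := gCell_sound hc hD hR hK hρ hlo hn hP hQ hP8 hQ7 hco hsi hm h1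
    exact ⟨⟨h3.1, h4⟩, ih h3.2 h2⟩

/-- check of a chain, including the tables -/
def gaugeAll (K : Cst) (X1lo dn : ℕ) (bits : List Bool) (m2 rn m : ℕ) (cs : List GCell) : Bool :=
  andB (Nat.ble m 4194304) <|
  tabs dn bits m2 1 [] fun j0 o Ps Qs co si _ =>
    gLoop K X1lo dn j0 (Nat.pow 2 m2) o co si Ps Qs rn m cs

/-- **Soundness of the gauge check.** -/
theorem gaugeAll_sound {D : Dat} {α ω : ℝ} (hc : Consts α ω) (hD : D.Ok) (hR : RingOk D) {K : Cst}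
    (hK : CstOk D K) (hρ : 1 / D.ρ ≤ 0.0725) {X1lo : ℕ} (hlo : (X1lo:ℝ) / 2 ^ 60 ≤ 1 / D.ρ)
    {dn m2 rn m : ℕ} {bits : List Bool} {cs : List GCell}
    (h : gaugeAll K X1lo dn bits m2 rn m cs = true) :
    GaugeF D α ω rn m (cs.map fun c => (c.rn, c.m)) := by
  obtain ⟨h0, h⟩ := andB_eq h
  obtain ⟨a1, a2, a3, a4, j0, Ps, Qs, co, si, xs, p1, p2, p3, p4, c1, c2, x1, x3, h⟩ := tabs_sound h
  exact gLoop_sound hc hD hR hK hρ hlo a3 p1 p2 p3 p4 c1 c2 cs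
    ((Nat.le_of_ble_eq_true h0).trans (by norm_num)) h

end Pool.Agent.H4.Shore
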