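import Mathlib
import Pool.Agent.H4.Shore.Link

/-!
Shoreline search: the main inequality of the polar reduction near the tight point, without a sign
condition on the strip; the part of the strip where the integrand is negative enters as an error.
-/

open Real Set MeasureTheory

namespace Pool.Agent.H4.Shore

open Pool.Agent.H44.Shore (Dat)

/-- `r` times the explicit margin function. -/
noncomputable def cF (α ω k r χ : ℝ) : ℝ :=
  r * (π + arccos (-(sin α * cos ω) / r) - χ)
    + (sin χ - r) * (r * (cX α ω r + k * |r - sin α|) + (α - χ))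
    - cos χ * log (cos χ / cos ω * (r / sin α))

/-- Lower bound for the extension of the logarithmic part. -/
lemma integral_L_ge {r χ θL xL : ℝ} (hr : 0 < r) (h0 : 0 ≤ θL) (h1 : θL ≤ χ) (h2 : χ < π / 2)
    (hL : r * cos θL = xL) :
    (1 - cos (χ - θL)) / xL ≤
      (-sin χ * (θL - χ) - cos χ * (log (cos θL) - log (cos χ))) / r := by
  have e0 := integral_L (r := r) (s := sin χ) (c := cos χ) h1 h0 h2
  have e1 : (-sin χ * (θL - χ) - cos χ * (log (cos θL) - log (cos χ))) / r =
      -∫ θ in θL..χ, (-sin χ + cos χ * tan θ) / r := by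
    rw [e0]; ring
  rw [e1, ← intervalIntegral.integral_neg]
  have hcosL : 0 < cos θL := cos_pos_of_mem_Ioo ⟨by linarith [Real.pi_pos], by linarith⟩
  have hxL : 0 < xL := by rw [← hL]; positivity
  have e2 : (1 - cos (χ - θL)) / xL = ∫ θ in θL..χ, sin (χ - θ) / xL := by
    have hd : ∀ θ ∈ uIcc θL χ, HasDerivAt (fun θ => cos (χ - θ) / xL) (sin (χ - θ) / xL) θ := by
      intro θ _
      have h3 := ((hasDerivAt_id θ).const_sub χ).cos.div_const xL
      refine h3.congr_deriv ?_
      simp
    rw [intervalIntegral.integral_eq_sub_of_hasDerivAt hd]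
    · simp
      ring
    · apply Continuous.intervalIntegrable
      fun_prop
  rw [e2]
  apply intervalIntegral.integral_mono_on h1
  · apply Continuous.intervalIntegrable
    fun_prop
  · apply ContinuousOn.intervalIntegrable
    intro θ hθ
    rw [uIcc_of_le h1] at hθ
    apply ContinuousAt.continuousWithinAt
    have hcθ : 0 < cos θ := cos_pos_of_mem_Ioo
      ⟨by linarith [hθ.1, Real.pi_pos], by linarith [hθ.2]⟩
    have : ContinuousAt tan θ := (hasDerivAt_tan hcθ.ne').continuousAt
    fun_prop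
  · intro θ hθ
    have hcθ : 0 < cos θ := cos_pos_of_mem_Ioo
      ⟨by linarith [hθ.1, Real.pi_pos], by linarith [hθ.2]⟩
    have h5 : cos θ ≤ cos θL := cos_le_cos_of_nonneg_of_le_pi h0
      (by linarith [hθ.2, Real.pi_pos]) hθ.1
    have h6 : r * cos θ ≤ xL := by
      rw [← hL]
      exact mul_le_mul_of_nonneg_left h5 hr.le
    have h7 : 0 ≤ sin (χ - θ) := sin_nonneg_of_nonneg_of_le_pi (by linarith [hθ.2])
      (by linarith [hθ.1])
    have h8 : -((-sin χ + cos χ * tan θ) / r) = sin (χ - θ) / (r * cos θ) := by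
      rw [sin_sub, tan_eq_sin_div_cos]
      field_simp
      ring
    rw [h8]
    apply div_le_div_of_nonneg_left h7 (by positivity) h6

/-- The main inequality of the polar reduction near the tight point, with an error integral. -/
theorem link_ext {D : Dat} (hD : D.Ok) {α ω k r χ : ℝ} (h : Consts α ω)
    (hρ : D.ρ = 1 / (sin α * cos ω)) (hr : |r - sin α| ≤ 0.01)
    (h0 : 0 ≤ χ) (h1 : χ ≤ 1) (hxr : D.xL < r)
    (hE : r * (∫ θ in arccos (D.xL / r)..arccos (-(1 / D.ρ) / r),
        max 0 (-D.gs r (sin χ) (cos χ) (cos θ) (sin θ))) ≤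
      cF α ω k r χ + r * ((1 - cos (max 0 (χ - arccos (D.xL / r)))) / D.xL))
    (hN : ∀ θ, 0 < θ → θ < π → r * cos θ ≤ D.xL → -(1 / D.ρ) < r * cos θ →
      D.gs r (sin χ) (-cos χ) (cos θ) (sin θ) ≤ 0) :
    ∫ θ in (0:ℝ)..π, (max 0 (D.g r (sin χ) (cos χ) θ) + max 0 (D.g r (sin χ) (-cos χ) θ)) ≤
      π * (1 + mC α ω k D r * (sin χ - r)) := by
  have hL := hD.h1L
  have hρ1 := hD.hρ
  have hρ0 : 0 < D.ρ := by linarith
  have h1ρ : 0 < 1 / D.ρ := by positivity
  have hxL0 : 0 < D.xL := by linarith
  have hS1 := h.sal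
  have hS2 := h.sau
  have hw1 := h.cwl
  have hw2 := h.cwu
  have hpi := Real.pi_gt_three
  have hpi0 := Real.pi_pos
  obtain ⟨hr1, hr2⟩ := abs_le.1 hr
  have hr0 : 0 < r := by linarith
  have hcχ : 0 < cos χ := cos_pos_of_small h0 h1
  have hsχ : 0 ≤ sin χ := sin_nonneg_of_nonneg_of_le_pi h0 (by linarith)
  -- x1 < r
  have hx1 : 1 / D.ρ = sin α * cos ω := by rw [hρ, one_div_one_div]
  have hx1r : 1 / D.ρ < r := by linarith
  set θL := arccos (D.xL / r) with hθL
  set θq := arccos (-(1 / D.ρ) / r) with hθq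
  have hxLr : D.xL / r < 1 := by
    rw [div_lt_one hr0]
    exact hxr
  have hcL : cos θL = D.xL / r := by
    rw [hθL, cos_arccos]
    · have : 0 < D.xL / r := by positivity
      linarith
    · exact hxLr.le
  have hcLr : r * cos θL = D.xL := by rw [hcL]; field_simp
  have hq1 : -1 < -(1 / D.ρ) / r := by
    rw [lt_div_iff₀ hr0]
    linarith
  have hcq : cos θq = -(1 / D.ρ) / r := by
    rw [hθq, cos_arccos hq1.le]
    have : -(1 / D.ρ) / r < 0 := div_neg_of_neg_of_pos (by linarith) hr0
    linarith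
  have hcqr : r * cos θq = -(1 / D.ρ) := by rw [hcq]; field_simp
  have hθq_le : θq ≤ π := arccos_le_pi _
  have hθL0 : 0 ≤ θL := arccos_nonneg _
  have hθL2 : θL < π / 2 := by
    rw [hθL]
    exact arccos_lt_pi_div_two.2 (by positivity)
  have hanti : ∀ {a b : ℝ}, 0 ≤ a → a < b → b ≤ π → cos b < cos a :=
    fun ha hab hb => cos_lt_cos_of_nonneg_of_le_pi ha hb hab
  have hLq : θL < θq := by
    by_contra hcon
    push Not at hcon
    have h5 : cos θL ≤ cos θq := cos_le_cos_of_nonneg_of_le_pi (arccos_nonneg _)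
      (by linarith) hcon
    have := mul_le_mul_of_nonneg_left h5 hr0.le
    linarith
  -- the negative side
  have hneg : ∀ θ ∈ Icc (0:ℝ) π, D.g r (sin χ) (-cos χ) θ ≤ 0 := by
    intro θ hθ
    unfold Dat.g
    split_ifs with h2 h3
    · apply div_nonpos_of_nonpos_of_nonneg _ hr0.le
      have hcθ : 0 < cos θ := by
        by_contra hcon
        push Not at hcon
        nlinarith
      have hsθ : 0 ≤ sin θ := sin_nonneg_of_nonneg_of_le_pi hθ.1 hθ.2
      have : 0 ≤ tan θ := by
        rw [tan_eq_sin_div_cos]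
        positivity
      nlinarith [mul_nonneg hcχ.le this]
    · push Not at h2
      rcases eq_or_lt_of_le hθ.1 with h4 | h4
      · exfalso
        rw [← h4, cos_zero] at h2
        rw [div_lt_one hr0] at hxLr
        linarith
      rcases eq_or_lt_of_le hθ.2 with h5 | h5
      · exfalso
        rw [h5, cos_pi] at h3
        linarith
      exact hN θ h4 h5 h2 h3
    · norm_num
  have hI1 : ∫ θ in (0:ℝ)..π, max 0 (D.g r (sin χ) (-cos χ) θ) = 0 := by
    rw [intervalIntegral.integral_congr (g := fun _ => (0:ℝ))]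
    · simp
    · intro θ hθ
      rw [uIcc_of_le hpi0.le] at hθ
      exact max_eq_left (hneg θ hθ)
  have hint : ∀ (vt a b : ℝ), IntervalIntegrable (fun θ => max 0 (D.g r (sin χ) vt θ)) volume a b :=
    fun vt a b => Dat.g_pos_integrable D hxL0 hr0 (sin χ) vt a b
  rw [intervalIntegral.integral_add (hint _ _ _) (hint _ _ _), hI1, add_zero]
  have hs2 := intervalIntegral.integral_add_adjacent_intervals (hint (cos χ) 0 θL)
    (hint (cos χ) θL θq)
  have hs3 := intervalIntegral.integral_add_adjacent_intervals (hint (cos χ) 0 θq)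
    (hint (cos χ) θq π)
  rw [← hs3, ← hs2]
  -- the value on the logarithmic part
  have hgL : ∀ θ, 0 ≤ θ → θ < θL →
      D.g r (sin χ) (cos χ) θ = (-sin χ + cos χ * tan θ) / r := by
    intro θ ha hb
    have h5 : cos θL < cos θ := hanti ha hb (by linarith)
    have h6 := mul_lt_mul_of_pos_left h5 hr0
    unfold Dat.g
    rw [if_pos (by linarith)]
  have hform : ∀ θ, 0 ≤ θ → θ < π / 2 → -sin χ + cos χ * tan θ = sin (θ - χ) / cos θ := by
    intro θ ha hb
    have hcθ : 0 < cos θ := cos_pos_of_mem_Ioo ⟨by linarith, hb⟩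
    rw [sin_sub, tan_eq_sin_div_cos]
    field_simp
    ring
  have hLpart : ∫ θ in (0:ℝ)..θL, max 0 (D.g r (sin χ) (cos χ) θ) ≤
      (-sin χ * (θL - χ) - cos χ * (log (cos θL) - log (cos χ))) / r
        - (1 - cos (max 0 (χ - θL))) / D.xL := by
    have hae : ∀ᵐ x : ℝ, x ≠ θL := by
      rw [ae_iff]
      simp
    rcases lt_or_ge χ θL with hlt | hge
    · rw [max_eq_left (by linarith), cos_zero, sub_self, zero_div, sub_zero,
        ← integral_L hlt.le h0 hθL2]
      have hs1 := intervalIntegral.integral_add_adjacent_intervals (hint (cos χ) 0 χ)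
        (hint (cos χ) χ θL)
      rw [← hs1]
      have hA : ∫ θ in (0:ℝ)..χ, max 0 (D.g r (sin χ) (cos χ) θ) = 0 := by
        rw [intervalIntegral.integral_congr (g := fun _ => (0:ℝ))]
        · simp
        · intro θ hθ
          rw [uIcc_of_le h0] at hθ
          apply max_eq_left
          rw [hgL θ hθ.1 (by linarith [hθ.2]), hform θ hθ.1 (by linarith [hθ.2])]
          apply div_nonpos_of_nonpos_of_nonneg _ hr0.le
          have hcθ : 0 < cos θ := cos_pos_of_mem_Ioo ⟨by linarith [hθ.1], by linarith [hθ.2]⟩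
          apply div_nonpos_of_nonpos_of_nonneg _ hcθ.le
          exact sin_nonpos_of_nonpos_of_neg_pi_le (by linarith [hθ.2]) (by linarith [hθ.1])
      have hB : ∫ θ in χ..θL, max 0 (D.g r (sin χ) (cos χ) θ) =
          ∫ θ in χ..θL, (-sin χ + cos χ * tan θ) / r := by
        apply intervalIntegral.integral_congr_ae
        filter_upwards [hae] with θ hne hθ
        rw [uIoc_of_le hlt.le] at hθ
        have hlt' : θ < θL := lt_of_le_of_ne hθ.2 hne
        rw [hgL θ (by linarith [hθ.1]) hlt']
        apply max_eq_right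
        rw [hform θ (by linarith [hθ.1]) (by linarith)]
        have hcθ : 0 < cos θ := cos_pos_of_mem_Ioo ⟨by linarith [hθ.1], by linarith⟩
        have h7 : 0 ≤ sin (θ - χ) := sin_nonneg_of_nonneg_of_le_pi (by linarith [hθ.1])
          (by linarith [hθ.1])
        positivity
      rw [hA, hB, zero_add]
    · rw [max_eq_right (by linarith)]
      have hA : ∫ θ in (0:ℝ)..θL, max 0 (D.g r (sin χ) (cos χ) θ) = 0 := by
        rw [intervalIntegral.integral_congr_ae (g := fun _ => (0:ℝ))]
        · simp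
        · filter_upwards [hae] with θ hne hθ
          rw [uIoc_of_le hθL0] at hθ
          have hlt' : θ < θL := lt_of_le_of_ne hθ.2 hne
          rw [hgL θ hθ.1.le hlt']
          apply max_eq_left
          rw [hform θ hθ.1.le (by linarith)]
          apply div_nonpos_of_nonpos_of_nonneg _ hr0.le
          have hcθ : 0 < cos θ := cos_pos_of_mem_Ioo ⟨by linarith [hθ.1], by linarith⟩
          apply div_nonpos_of_nonpos_of_nonneg _ hcθ.le
          exact sin_nonpos_of_nonpos_of_neg_pi_le (by linarith) (by linarith [hθ.1])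
      rw [hA]
      have := integral_L_ge hr0 hθL0 hge (by linarith) hcLr
      linarith
  have hCont : Continuous (fun θ => D.gs r (sin χ) (cos χ) (cos θ) (sin θ)) := by
    have h5 := (Dat.gs_continuous D r (sin χ) (cos χ)).comp
      (f := fun θ : ℝ => (cos θ, sin θ)) (by fun_prop)
    simp only [Function.comp_def] at h5
    exact h5
  have hC : ∫ θ in θL..θq, max 0 (D.g r (sin χ) (cos χ) θ) =
      (∫ θ in θL..θq, D.gs r (sin χ) (cos χ) (cos θ) (sin θ)) +
        ∫ θ in θL..θq, max 0 (-D.gs r (sin χ) (cos χ) (cos θ) (sin θ)) := by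
    have hCm : Continuous (fun θ => max 0 (-D.gs r (sin χ) (cos χ) (cos θ) (sin θ))) :=
      continuous_const.max hCont.neg
    rw [← intervalIntegral.integral_add (hCont.intervalIntegrable _ _)
      (hCm.intervalIntegrable _ _)]
    apply intervalIntegral.integral_congr_ae
    have hae : ∀ᵐ x : ℝ, x ≠ θq := by
      rw [ae_iff]
      simp
    filter_upwards [hae] with θ hne hθ
    rw [uIoc_of_le hLq.le] at hθ
    have hlt : θ < θq := lt_of_le_of_ne hθ.2 hne
    have h5 : cos θq < cos θ := hanti (by linarith [hθ.1]) hlt hθq_le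
    have h6 := mul_lt_mul_of_pos_left h5 hr0
    have h7 : cos θ < cos θL := hanti hθL0 hθ.1 (by linarith)
    have h8 := mul_lt_mul_of_pos_left h7 hr0
    have h9 : ¬ (D.xL < r * cos θ) := by linarith
    unfold Dat.g
    rw [if_neg h9, if_pos (by linarith)]
    rcases le_total 0 (D.gs r (sin χ) (cos χ) (cos θ) (sin θ)) with hp | hp
    · rw [max_eq_right hp, max_eq_left (by linarith)]
      ring
    · rw [max_eq_left hp, max_eq_right (by linarith)]
      ring
  have hE0 : ∫ θ in θq..π, max 0 (D.g r (sin χ) (cos χ) θ) = 0 := by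
    rw [intervalIntegral.integral_congr (g := fun _ => (0:ℝ))]
    · simp
    · intro θ hθ
      rw [uIcc_of_le hθq_le] at hθ
      apply max_eq_left
      have h5 : cos θ ≤ cos θq := cos_le_cos_of_nonneg_of_le_pi (arccos_nonneg _) hθ.2 hθ.1
      have h6 := mul_le_mul_of_nonneg_left h5 hr0.le
      have h9 : ¬ (D.xL < r * cos θ) := by linarith
      have h10 : ¬ (-(1 / D.ρ) < r * cos θ) := by linarith
      unfold Dat.g
      rw [if_neg h9, if_neg h10]
      norm_num
  rw [hC, hE0, add_zero, integral_gs D hr0.ne']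
  -- boundary values
  have hb1 : D.b (-(r * cos θq)) (D.W r) = 0 := by
    rw [hcqr, neg_neg]
    unfold Dat.b
    rw [hD.e0, hD.e2, hD.e3, hD.e4]
    ring
  have hb2 : D.b (-(r * cos θL)) (D.W r) = log (D.ρ * D.xL) := by
    rw [hcLr]
    unfold Dat.b
    rw [hD.f0, hD.f2, hD.f3, hD.f4]
    ring
  rw [hb1, hb2]
  unfold mC
  rw [← hθL, ← hθq]
  set Is := ∫ θ in θL..θq, brs D r θ with hIs
  set Er := ∫ θ in θL..θq, max 0 (-D.gs r (sin χ) (cos χ) (cos θ) (sin θ)) with hEr
  -- the logarithms
  have hlog1 : log (cos χ / cos ω * (r / sin α)) = log (D.ρ * D.xL) - log (cos θL) + log (cos χ) := by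
    rw [hcL, Real.log_mul hρ0.ne' hxL0.ne', Real.log_div hxL0.ne' hr0.ne']
    have hcw := h.cos_w_pos
    have hSa : 0 < sin α := by linarith
    have : cos χ / cos ω * (r / sin α) = D.ρ * r * cos χ := by
      rw [hρ]
      field_simp
    rw [this, Real.log_mul (by positivity) hcχ.ne', Real.log_mul hρ0.ne' hr0.ne']
    ring
  unfold cF at hE
  rw [hlog1] at hE
  have harg : -(sin α * cos ω) / r = -(1 / D.ρ) / r := by rw [hx1]
  rw [harg, ← hθq] at hE
  set Xk := cX α ω r + k * |r - sin α| with hXk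
  set K1 := (1 - cos (max 0 (χ - θL))) / D.xL with hK1
  have e1 : π * (1 + (Xk - (θL - α) / r - Is) / π * (sin χ - r)) =
      π + (Xk - (θL - α) / r - Is) * (sin χ - r) := by
    field_simp
  rw [e1]
  have hE' : Er ≤ (r * (π + θq - χ) + (sin χ - r) * (r * Xk + (α - χ)) -
        cos χ * (log (D.ρ * D.xL) - log (cos θL) + log (cos χ))) / r + K1 := by
    rw [div_add' _ _ _ hr0.ne', le_div_iff₀ hr0]
    linarith
  have e2 : π + (Xk - (θL - α) / r - Is) * (sin χ - r) -
      (((-sin χ * (θL - χ) - cos χ * (log (cos θL) - log (cos χ))) / r - K1) +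
        ((-(θq - θL) - (sin χ - r) * Is - cos χ / r * (0 - log (D.ρ * D.xL))) + Er)) =
      ((r * (π + θq - χ) + (sin χ - r) * (r * Xk + (α - χ)) -
        cos χ * (log (D.ρ * D.xL) - log (cos θL) + log (cos χ))) / r + K1) - Er := by
    field_simp
    ring
  linarith

end Pool.Agent.H4.Shore
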