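import Mathlib
import Pool.Agent.H4.Shore.Bridge

/-!
Shoreline search: a certificate for any `ρ₀ > 1` gives the lower bound `ρ₀` for the minimax ratio.
-/

open Real Set
open scoped ENNReal NNReal

namespace Pool.Agent.H4.Shore

/-- Every trajectory has competitive ratio at least `ρ₀`. -/
theorem ratio_ge_of_cert {ρ₀ : ℝ} (h1 : 1 < ρ₀) {β N : ℂ → ℝ} {Kr : Set ℝ}
    (hC : H44.Shore.Cert ρ₀ β N Kr) (γ : ℝ≥0 → Plane) (hγ : IsTrajectory γ) :
    ENNReal.ofReal ρ₀ ≤ ratio γ := by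
  by_contra hcon
  push Not at hcon
  set ρ := max (ratio γ).toReal ((1 + ρ₀) / 2) with hρ
  have hne : ratio γ ≠ ⊤ := ne_top_of_lt hcon
  have h5 : (ratio γ).toReal < ρ₀ := by
    rw [ENNReal.lt_ofReal_iff_toReal_lt hne] at hcon
    exact hcon
  have h6 : ρ < ρ₀ := max_lt h5 (by linarith)
  have h7 : 1 < ρ := lt_of_lt_of_le (by linarith) (le_max_right _ _)
  have h8 : ratio γ ≤ ENNReal.ofReal ρ := by
    rw [← ENNReal.ofReal_toReal hne]
    exact ENNReal.ofReal_le_ofReal (le_max_left _ _)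
  exact H44.Shore.not_covers hC h7 h6 (isTraj_gC γ hγ).toH44
    (covers_of_ratio_le γ hγ ρ (by linarith) h8).toH44

/-- The minimax ratio is at least `ρ₀`. -/
theorem minimax_ge_of_cert {ρ₀ : ℝ} (h1 : 1 < ρ₀) {β N : ℂ → ℝ} {Kr : Set ℝ}
    (hC : H44.Shore.Cert ρ₀ β N Kr) : ENNReal.ofReal ρ₀ ≤ minimaxRatio := by
  unfold minimaxRatio
  exact le_iInf₂ (fun γ hγ => ratio_ge_of_cert h1 hC γ hγ)

/-- Stage one statement: the lower bound together with the upper bound by the spiral. -/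
theorem stage_one {ρ₀ : ℝ} (h1 : 1 < ρ₀) {β N : ℂ → ℝ} {Kr : Set ℝ}
    (hC : H44.Shore.Cert ρ₀ β N Kr) :
    (∀ γ : ℝ≥0 → Plane, IsTrajectory γ → ENNReal.ofReal ρ₀ ≤ ratio γ) ∧
      ENNReal.ofReal ρ₀ ≤ minimaxRatio :=
  ⟨ratio_ge_of_cert h1 hC, minimax_ge_of_cert h1 hC⟩

end Pool.Agent.H4.Shore
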