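import Mathlib
import Pool.Agent.H4.Shore.GMain
import Pool.Agent.H81.Shore.GlueC

/-!
Shoreline search: the side fans of the ring with the exact gauge, and the covering of the
half plane by the fans and the central cone.
-/

open Real Set

namespace Pool.Agent.H4.Shore

open Pool.Agent.H44.Shore Pool.Agent.H65.Shore Pool.Agent.H81.Shore

/-- the slack dominates the error of the weight at both ends -/
def sideC (s a b : ℕ) : List (ℤ × ℕ) → Bool
  | [] => true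
  | p :: vs => andB (Nat.ble (Nat.mul (Int.natAbs (Int.sub p.1 (Int.ofNat a))) 30408704)
      (Nat.mul s 100000)) (andB (Nat.ble (Nat.mul (Int.natAbs (Int.sub p.1 (Int.ofNat b))) 30408704)
      (Nat.mul s 100000)) (sideC s a b vs))

theorem side_one {s a : ℕ} {x : ℤ} (h : (x - a).natAbs * 30408704 ≤ s * 100000) :
    29 / 10 ^ 5 * |(x:ℝ) / 2 ^ 20 - (a:ℝ) / 2 ^ 20| ≤ (s:ℝ) / 2 ^ 40 := by
  have h1 : (((x - a).natAbs : ℕ) : ℝ) * 30408704 ≤ s * 100000 := by exact_mod_cast h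
  have e1 : (((x - a).natAbs : ℕ) : ℝ) = |(x:ℝ) - a| := by
    rw [Nat.cast_natAbs]
    push_cast
    rfl
  rw [e1] at h1
  have e2 : (x:ℝ) / 2 ^ 20 - (a:ℝ) / 2 ^ 20 = (x - a) / 2 ^ 20 := by ring
  rw [e2, abs_div, abs_of_pos (by positivity : (0:ℝ) < 2 ^ 20), le_div_iff₀ (by positivity)]
  have e3 : 29 / 10 ^ 5 * (|(x:ℝ) - a| / 2 ^ 20) * 2 ^ 40 = |(x:ℝ) - a| * 30408704 / 100000 := by
    ring
  rw [e3, div_le_iff₀ (by positivity)]
  exact h1

theorem sideC_sound {s a b : ℕ} {vs : List (ℤ × ℕ)} (h : sideC s a b vs = true) {r : ℝ}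
    (h1 : (a:ℝ) / 2 ^ 20 ≤ r) (h2 : r ≤ (b:ℝ) / 2 ^ 20) :
    ∀ p ∈ vs, 29 / 10 ^ 5 * |(vec p).1 - r| ≤ (s:ℝ) / 2 ^ 40 := by
  induction vs with
  | nil => simp
  | cons q vs ih =>
    obtain ⟨k1, h⟩ := andB_eq h
    obtain ⟨k2, h⟩ := andB_eq h
    have k1 := side_one (x := q.1) (Nat.le_of_ble_eq_true k1)
    have k2 := side_one (x := q.1) (Nat.le_of_ble_eq_true k2)
    intro p hp
    rcases List.mem_cons.mp hp with rfl | hp
    · show 29 / 10 ^ 5 * |(p.1:ℝ) / 2 ^ 20 - r| ≤ (s:ℝ) / 2 ^ 40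
      rcases le_total ((p.1:ℝ) / 2 ^ 20 - r) 0 with h3 | h3
      · rw [abs_of_nonpos h3]
        refine le_trans (mul_le_mul_of_nonneg_left ?_ (by positivity)) k2
        refine le_trans ?_ (neg_le_abs _)
        linarith
      · rw [abs_of_nonneg h3]
        refine le_trans (mul_le_mul_of_nonneg_left ?_ (by positivity)) k1
        refine le_trans ?_ (le_abs_self _)
        linarith
    · exact ih h p hp

theorem lin_inv {x y r : ℝ} (h : 0 < y - x) : lin x y ((r - x) / (y - x)) = r := by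
  unfold lin
  field_simp
  ring

/-- the inequality along a chain, with the exact gauge -/
theorem side_loop {D : Dat} {α ω s : ℝ} {vs : List (ℤ × ℕ)} (cs : List Cell) :
    ∀ {rn m : ℕ} {c : Cell}, 0 < rn → ChainF D s vs rn m (c :: cs) →
      GaugeF D α ω rn m ((c :: cs).map fun c => (c.rn, c.m)) →
      ∀ r, (rn:ℝ) / 2 ^ 20 ≤ r → r ≤ (endR rn (c :: cs) : ℝ) / 2 ^ 20 → ∀ p ∈ vs,
        29 / 10 ^ 5 * |(vec p).1 - r| ≤ s → FF D r (mC α ω 2 D r) (vec p) ≤ 0 := by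
  have hcell : ∀ {rn m : ℕ} {c : Cell} {cs : List Cell}, 0 < rn →
      ChainF D s vs rn m (c :: cs) → GaugeF D α ω rn m ((c :: cs).map fun c => (c.rn, c.m)) →
      ∀ r, (rn:ℝ) / 2 ^ 20 ≤ r → r ≤ (c.rn : ℝ) / 2 ^ 20 → ∀ p ∈ vs,
        29 / 10 ^ 5 * |(vec p).1 - r| ≤ s → FF D r (mC α ω 2 D r) (vec p) ≤ 0 := by
    intro rn m c cs hrn h hG r h1 h2 p hp hs
    obtain ⟨⟨h3, h4⟩, -⟩ := h
    obtain ⟨⟨-, g4⟩, -⟩ := hG
    have h01 : (rn:ℝ) / 2 ^ 20 < (c.rn:ℝ) / 2 ^ 20 := by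
      have : (rn:ℝ) < c.rn := by exact_mod_cast h3
      gcongr
    have hr0 : (0:ℝ) < (rn:ℝ) / 2 ^ 20 := by
      have : (0:ℝ) < rn := by exact_mod_cast hrn
      positivity
    obtain ⟨lam, hl⟩ : ∃ lam, lam = (r - (rn:ℝ) / 2 ^ 20) / ((c.rn:ℝ) / 2 ^ 20 - (rn:ℝ) / 2 ^ 20) :=
      ⟨_, rfl⟩
    have hd : 0 < (c.rn:ℝ) / 2 ^ 20 - (rn:ℝ) / 2 ^ 20 := by linarith
    have hlm : lam ∈ Icc (0:ℝ) 1 := by
      rw [hl]
      refine ⟨div_nonneg (by linarith) hd.le, ?_⟩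
      rw [div_le_one hd]
      linarith
    have hlr : lin ((rn:ℝ) / 2 ^ 20) ((c.rn:ℝ) / 2 ^ 20) lam = r := by
      rw [hl]
      exact lin_inv hd
    have f4 := h4 lam hlm (by rw [hlr]; linarith) p hp
    have f5 := g4 lam hlm
    rw [hlr] at f4 f5
    exact FF_mC_le f5 f4 hs
  induction cs with
  | nil => intro rn m c hrn h hG; exact hcell hrn h hG
  | cons d cs ih =>
    intro rn m c hrn h hG r h1 h2 p hp hs
    rcases le_total r ((c.rn:ℝ) / 2 ^ 20) with h3 | h3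
    · exact hcell hrn h hG r h1 h3 p hp hs
    · exact ih (lt_trans hrn h.1.1) h.2 hG.2 r h3 h2 p hp hs

/-- **The side fans with the exact gauge.** -/
theorem side_of {D : Dat} {α ω : ℝ} {K : Cst} (hK : CstOk D K) {ch : ChD}
    (hg : RegOk D (51 / 50) ch.g) (h : chainAll K ch = true) {rn m : ℕ} {L : List (ℕ × ℕ)}
    (hG : GaugeF D α ω rn m L) (e1 : ch.rn = rn) (e2 : ch.m = m)
    (e3 : (ch.cells.map fun c => (c.rn, c.m)) = L) (hrn : 0 < rn) {b : ℕ}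
    (hne : ch.cells ≠ []) (hb : endR ch.rn ch.cells = b)
    (hs : sideC ch.g.s rn b ch.vs = true) {r : ℝ} (h1 : (rn:ℝ) / 2 ^ 20 ≤ r)
    (h2 : r ≤ (b:ℝ) / 2 ^ 20) : ∀ p ∈ ch.vs, FF D r (mC α ω 2 D r) (vec p) ≤ 0 := by
  have h3 := chainAll_sound hK hg h
  obtain ⟨c, cs, hcs⟩ := List.exists_cons_of_ne_nil hne
  rw [hcs] at h3 e3 hb
  rw [e1] at hb h3
  rw [e2] at h3
  rw [← e3] at hG
  rw [← hb] at h2 hs
  intro p hp
  exact side_loop cs hrn h3 hG r h1 h2 p hp (sideC_sound hs h1 h2 p hp)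

/-- left of implies left of -/
theorem cross_trans {f z v : ℝ × ℝ} (h1 : 0 ≤ cross f z) (h2 : 0 ≤ cross z v) (hf : 0 ≤ f.2)
    (hz : 0 < z.2) (hv : 0 ≤ v.2) : 0 ≤ cross f v := by
  have e : z.2 * cross f v = f.2 * cross z v + v.2 * cross f z := by
    unfold cross
    ring
  have h3 : 0 ≤ z.2 * cross f v := by
    rw [e]
    exact add_nonneg (mul_nonneg hf h2) (mul_nonneg hv h1)
  by_contra hcon
  push Not at hcon
  have := mul_neg_of_pos_of_neg hz hcon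
  linarith

theorem cross_anti (f v : ℝ × ℝ) : cross v f = -cross f v := by
  unfold cross
  ring

/-- integer cross product -/
def crossZ (p q : ℤ × ℕ) : ℤ := p.1 * q.2 - p.2 * q.1

theorem crossZ_vec {p q : ℤ × ℕ} (h : 0 ≤ crossZ p q) : 0 ≤ cross (vec p) (vec q) := by
  have hc : cross (vec p) (vec q) = ((crossZ p q : ℤ) : ℝ) / 2 ^ 40 := by
    unfold cross vec crossZ
    push_cast
    field_simp
    try ring
  rw [hc]
  have : (0:ℝ) ≤ ((crossZ p q : ℤ) : ℝ) := by exact_mod_cast h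
  positivity

/-- a piece of the half plane -/
def Sector (F : ℝ × ℝ → ℝ) (f z : ℤ × ℕ) : Prop :=
  ∀ v : ℝ × ℝ, v.1 ^ 2 + v.2 ^ 2 ≤ 1 → 0 ≤ v.2 → 0 ≤ cross (vec f) v → 0 ≤ cross v (vec z) →
    F v ≤ 0

theorem Sector.glue {F : ℝ × ℝ → ℝ} {f z g w : ℤ × ℕ} (h1 : Sector F f z) (h2 : Sector F g w)
    (h : 0 ≤ crossZ g z) (hz : 0 < z.2) : Sector F f w := by
  intro v hv hv2 k1 k2
  rcases le_or_gt 0 (cross v (vec z)) with h3 | h3
  · exact h1 v hv hv2 k1 h3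
  · refine h2 v hv hv2 (cross_trans (crossZ_vec h) ?_ ?_ ?_ hv2) k2
    · rw [cross_anti]
      linarith
    · unfold vec
      positivity
    · unfold vec
      have : (0:ℝ) < (z.2:ℝ) := by exact_mod_cast hz
      positivity

theorem Sector.of_fan {F : ℝ × ℝ → ℝ} (hF : ConvexOn ℝ univ F) (F0 : F 0 ≤ 0)
    {p : ℤ × ℕ} {rest : List (ℤ × ℕ)} (h : fanC p rest = true)
    (hq : ∀ q ∈ p :: rest, F (vec q) ≤ 0) : Sector F p (lastV p rest) :=
  fun v hv _ k1 k2 => fan_sound hF F0 rest p h hq v hv k1 k2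

/-- from unit vectors to the disc -/
theorem Sector.of_unit {F : ℝ × ℝ → ℝ} (hF : ConvexOn ℝ univ F) (F0 : F 0 ≤ 0) {f z : ℤ × ℕ}
    (h : ∀ v : ℝ × ℝ, v.1 ^ 2 + v.2 ^ 2 = 1 → 0 ≤ v.2 → 0 ≤ cross (vec f) v →
      0 ≤ cross v (vec z) → F v ≤ 0) : Sector F f z := by
  intro v hv hv2 k1 k2
  rcases eq_or_ne (v.1 ^ 2 + v.2 ^ 2) 0 with h0 | h0
  · have a1 : v.1 = 0 := by nlinarith [sq_nonneg v.1, sq_nonneg v.2]
    have a2 : v.2 = 0 := by nlinarith [sq_nonneg v.1, sq_nonneg v.2]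
    have : v = 0 := Prod.ext a1 a2
    rw [this]
    exact F0
  · have hp : 0 < v.1 ^ 2 + v.2 ^ 2 := lt_of_le_of_ne (by positivity) (Ne.symm h0)
    obtain ⟨n, hn⟩ : ∃ n, n = √(v.1 ^ 2 + v.2 ^ 2) := ⟨_, rfl⟩
    have hn2 : n ^ 2 = v.1 ^ 2 + v.2 ^ 2 := by rw [hn]; exact Real.sq_sqrt hp.le
    have hn0 : 0 < n := by rw [hn]; exact Real.sqrt_pos.2 hp
    have hn1 : n ≤ 1 := by nlinarith
    have hu := h (v.1 / n, v.2 / n) (by
      simp only
      field_simp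
      linarith) (div_nonneg hv2 hn0.le) (by
      have : cross (vec f) (v.1 / n, v.2 / n) = cross (vec f) v / n := by
        unfold cross
        simp only
        ring
      rw [this]
      exact div_nonneg k1 hn0.le) (by
      have : cross (v.1 / n, v.2 / n) (vec z) = cross v (vec z) / n := by
        unfold cross
        simp only
        ring
      rw [this]
      exact div_nonneg k2 hn0.le)
    have hc := hF.2 (mem_univ (v.1 / n, v.2 / n)) (mem_univ (0 : ℝ × ℝ)) hn0.le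
      (by linarith : 0 ≤ 1 - n) (by ring)
    have e : n • ((v.1 / n, v.2 / n) : ℝ × ℝ) + (1 - n) • (0 : ℝ × ℝ) = v := by
      refine Prod.ext ?_ ?_
      · simp only [smul_zero, add_zero, Prod.smul_mk, smul_eq_mul]
        field_simp
      · simp only [smul_zero, add_zero, Prod.smul_mk, smul_eq_mul]
        field_simp
    rw [e] at hc
    refine hc.trans ?_
    rw [smul_eq_mul, smul_eq_mul]
    nlinarith [mul_nonneg hn0.le (neg_nonneg.2 hu), mul_nonneg (by linarith : 0 ≤ 1 - n)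
      (neg_nonneg.2 F0)]

/-- the whole half plane -/
theorem Sector.all {F : ℝ × ℝ → ℝ} {f z : ℤ × ℕ} (h : Sector F f z) (hf : f.2 = 0) (hf1 : 0 ≤ f.1)
    (hz : z.2 = 0) (hz1 : z.1 ≤ 0) {v : ℝ × ℝ} (hv : v.1 ^ 2 + v.2 ^ 2 ≤ 1) (hv2 : 0 ≤ v.2) :
    F v ≤ 0 := by
  refine h v hv hv2 ?_ ?_
  · unfold cross vec
    rw [hf]
    have : (0:ℝ) ≤ (f.1:ℝ) := by exact_mod_cast hf1
    simp only [Nat.cast_zero, zero_div, zero_mul, sub_zero]
    positivity
  · unfold cross vec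
    rw [hz]
    have : (z.1:ℝ) ≤ 0 := by exact_mod_cast hz1
    simp only [Nat.cast_zero, zero_div, mul_zero, zero_sub]
    have h3 : v.2 * ((z.1:ℝ) / 2 ^ 20) ≤ 0 :=
      mul_nonpos_of_nonneg_of_nonpos hv2 (div_nonpos_of_nonpos_of_nonneg this (by positivity))
    linarith

end Pool.Agent.H4.Shore
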