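import Mathlib
import Pool.Agent.H4.Shore.Side
import Pool.Agent.H4.Shore.CentralCell

/-!
Shoreline search: kernel check of the signs at the grid points of the central cells.
-/

open Real Set

namespace Pool.Agent.H4.Shore

open Pool.Agent.H44.Shore Pool.Agent.H65.Shore Pool.Agent.H81.Shore

/-- checks at a grid point -/
def signL (M EP EN dp dq tp tq rn lb lc : ℕ) : Bool :=
  andB (Nat.ble (M + EP + dp * lb + tp * M) (tp * lc + dp * M)) <|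
  andB (Nat.ble (M + EP + dq * M + tq * M) (dq * lb + tq * lc)) <|
  andB (Nat.ble (EP + rn * M) (M + rn * lb)) <|
  andB (Nat.ble (EN + dp * M + tp * M) (M + dp * lb + tp * lc))
    (Nat.ble (EN + dq * lb + tq * M) (M + dq * M + tq * lc))

def signLoop (M EP EN dp dq tp tq rn B C : ℕ) : ℕ → ℕ → Bool
  | _, 0 => true
  | i, Nat.succ n => seqN (lget 128 B i) fun lb => seqN (lget 128 C i) fun lc =>
      andB (signL M EP EN dp dq tp tq rn lb lc)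
        (signLoop M EP EN dp dq tp tq rn B C (Nat.succ i) n)

theorem signLoop_sound {M EP EN dp dq tp tq rn B C : ℕ} (n : ℕ) : ∀ {i : ℕ},
    signLoop M EP EN dp dq tp tq rn B C i n = true → ∀ j, i ≤ j → j < i + n →
      signL M EP EN dp dq tp tq rn (lget 128 B j) (lget 128 C j) = true := by
  induction n with
  | zero => intro i _ j h1 h2; omega
  | succ n ih =>
    intro i h j h1 h2
    unfold signLoop at h
    simp only [seqN_eq] at h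
    obtain ⟨c1, h⟩ := andB_eq h
    rcases eq_or_lt_of_le h1 with h3 | h3
    · rw [← h3]
      exact c1
    · exact ih h j h3 (by omega)

/-- lanes of a row -/
theorem lane_row {D : Dat} {n j0 dn rn B Cc : ℕ}
    (hR : RowT D n ((j0:ℝ) * ((dn:ℝ) / 2 ^ 30)) ((dn:ℝ) / 2 ^ 30) ((rn:ℝ) / 2 ^ 20) B Cc) :
    ∀ j, j0 ≤ j → j < j0 + n →
      |(lget 128 B (j - j0) : ℝ) - 2 ^ 92 - 2 ^ 72 * Bf D ((rn:ℝ) / 2 ^ 20)
        (j * ((dn:ℝ) / 2 ^ 30))| ≤ 2 ^ 49 ∧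
      |(lget 128 Cc (j - j0) : ℝ) - 2 ^ 92 - 2 ^ 72 * Cf D ((rn:ℝ) / 2 ^ 20)
        (j * ((dn:ℝ) / 2 ^ 30))| ≤ 2 ^ 49 := by
  obtain ⟨b, c, hB, hCc, hbc⟩ := hR
  have gen : ∀ {X : ℕ} {x : ℕ → ℤ}, X = packN 128 n (fun j => (x j + (2 ^ 92 : ℕ)).toNat) →
      (∀ j < n, |x j| ≤ 2 ^ 92) → ∀ j < n, (lget 128 X j : ℝ) = (x j : ℝ) + 2 ^ 92 := by
    intro X x hX hx j hj
    have h3 := abs_le.1 (hx j hj)
    have h4 : ((((x j + (2 ^ 92 : ℕ)).toNat : ℕ) : ℤ)) = x j + 2 ^ 92 := by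
      rw [Int.toNat_of_nonneg (by push_cast; linarith [h3.1])]
      push_cast
      ring
    have h5 : (((x j + (2 ^ 92 : ℕ)).toNat : ℕ) : ℝ) = (x j : ℝ) + 2 ^ 92 := by
      have : ((((x j + (2 ^ 92 : ℕ)).toNat : ℕ) : ℤ) : ℝ) =
          ((x j + 2 ^ 92 : ℤ) : ℝ) := by rw [h4]
      rw [Int.cast_natCast] at this
      rw [this]
      push_cast
      ring
    rw [hX, lget_eq (f := fun j => (x j + (2 ^ 92 : ℕ)).toNat) (fun i hi => by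
      have h3 := abs_le.1 (hx i hi)
      have h4 : ((((x i + (2 ^ 92 : ℕ)).toNat : ℕ) : ℤ)) < 2 ^ 128 := by
        rw [Int.toNat_of_nonneg (by push_cast; linarith [h3.1])]
        push_cast
        have : (2:ℤ) ^ 92 + 2 ^ 92 < 2 ^ 128 := by norm_num
        linarith [h3.2]
      exact_mod_cast h4) hj]
    exact h5
  intro j h0 hn
  have hj : j - j0 < n := by omega
  obtain ⟨h1, -, h3, -⟩ := hbc (j - j0) hj
  have e : (j0:ℝ) * ((dn:ℝ) / 2 ^ 30) + ((j - j0 : ℕ) : ℝ) * ((dn:ℝ) / 2 ^ 30) =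
      j * ((dn:ℝ) / 2 ^ 30) := by
    rw [Nat.cast_sub h0]
    ring
  rw [e] at h1 h3
  rw [gen hB (fun j hj => (hbc j hj).2.1) _ hj, gen hCc (fun j hj => (hbc j hj).2.2.2) _ hj]
  constructor
  · rw [show (b (j - j0) : ℝ) + 2 ^ 92 - 2 ^ 92 = b (j - j0) by ring]
    exact h1
  · rw [show (c (j - j0) : ℝ) + 2 ^ 92 - 2 ^ 92 = c (j - j0) by ring]
    exact h3

/-- the integrand from the lanes -/
theorem gs_lane {D : Dat} {L : List (List ℤ)} {C : ℕ} (hC : Close D L C) {rn : ℕ}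
    (hrn : rn ≤ 2 ^ 20) {θ : ℝ} (hx : |(rn:ℝ) / 2 ^ 20 * cos θ| ≤ 21 / 100) {x t lb lc : ℝ}
    (hlb : |lb - 2 ^ 92 - 2 ^ 72 * Bf (Dq D L C) ((rn:ℝ) / 2 ^ 20) θ| ≤ 2 ^ 49)
    (hlc : |lc - 2 ^ 92 - 2 ^ 72 * Cf (Dq D L C) ((rn:ℝ) / 2 ^ 20) θ| ≤ 2 ^ 49)
    (hxt : |x - rn| + |t| ≤ 2 ^ 22) (hv : (x / 2 ^ 20) ^ 2 + (t / 2 ^ 20) ^ 2 ≤ (51 / 50) ^ 2) :
    |2 ^ 92 * D.gs ((rn:ℝ) / 2 ^ 20) (x / 2 ^ 20) (t / 2 ^ 20) (cos θ) (sin θ) -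
      (-2 ^ 92 + (x - rn) * (lb - 2 ^ 92) + t * (lc - 2 ^ 92))| ≤ 2 ^ 72 := by
  have hr1 : (rn:ℝ) / 2 ^ 20 ≤ 1 := by
    rw [div_le_one (by positivity)]
    exact_mod_cast hrn
  have c1 := hC ((rn:ℝ) / 2 ^ 20) (x / 2 ^ 20) (t / 2 ^ 20) (cos θ) (sin θ) (by positivity) hr1 hv
    (cos_sq_add_sin_sq θ) hx
  rw [H65.Shore.gs_eq (Dq D L C)] at c1
  obtain ⟨G, hG⟩ : ∃ G, G = D.gs ((rn:ℝ) / 2 ^ 20) (x / 2 ^ 20) (t / 2 ^ 20) (cos θ) (sin θ) :=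
    ⟨_, rfl⟩
  obtain ⟨β, hβ⟩ : ∃ β, β = Bf (Dq D L C) ((rn:ℝ) / 2 ^ 20) θ := ⟨_, rfl⟩
  obtain ⟨γ, hγ⟩ : ∃ γ, γ = Cf (Dq D L C) ((rn:ℝ) / 2 ^ 20) θ := ⟨_, rfl⟩
  rw [← hG, ← hβ, ← hγ] at c1
  rw [← hβ] at hlb
  rw [← hγ] at hlc
  rw [← hG]
  have e : 2 ^ 92 * G - (-2 ^ 92 + (x - rn) * (lb - 2 ^ 92) + t * (lc - 2 ^ 92)) =
      2 ^ 92 * (G - (-1 + (x / 2 ^ 20 - (rn:ℝ) / 2 ^ 20) * β + t / 2 ^ 20 * γ)) -
      (x - rn) * (lb - 2 ^ 92 - 2 ^ 72 * β) - t * (lc - 2 ^ 92 - 2 ^ 72 * γ) := by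
    field_simp
    ring
  rw [e]
  have k1 : |2 ^ 92 * (G - (-1 + (x / 2 ^ 20 - (rn:ℝ) / 2 ^ 20) * β + t / 2 ^ 20 * γ))| ≤ 2 ^ 70 := by
    rw [abs_mul, abs_of_pos (by positivity : (0:ℝ) < 2 ^ 92)]
    calc _ ≤ (2:ℝ) ^ 92 * (1 / 2 ^ 22) := mul_le_mul_of_nonneg_left c1 (by positivity)
      _ = 2 ^ 70 := by norm_num
  have k2 : |(x - rn) * (lb - 2 ^ 92 - 2 ^ 72 * β)| ≤ |x - rn| * 2 ^ 49 := by
    rw [abs_mul]
    exact mul_le_mul_of_nonneg_left hlb (abs_nonneg _)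
  have k3 : |t * (lc - 2 ^ 92 - 2 ^ 72 * γ)| ≤ |t| * 2 ^ 49 := by
    rw [abs_mul]
    exact mul_le_mul_of_nonneg_left hlc (abs_nonneg _)
  have k4 : |x - rn| * 2 ^ 49 + |t| * 2 ^ 49 ≤ 2 ^ 71 := by
    calc |x - rn| * 2 ^ 49 + |t| * 2 ^ 49 = (|x - rn| + |t|) * 2 ^ 49 := by ring
      _ ≤ 2 ^ 22 * 2 ^ 49 := mul_le_mul_of_nonneg_right hxt (by positivity)
      _ = 2 ^ 71 := by norm_num
  refine (abs_sub _ _).trans ?_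
  refine (add_le_add (abs_sub _ _) le_rfl).trans ?_
  calc _ ≤ (2:ℝ) ^ 70 + |x - rn| * 2 ^ 49 + |t| * 2 ^ 49 := add_le_add (add_le_add k1 k2) k3
    _ = 2 ^ 70 + (|x - rn| * 2 ^ 49 + |t| * 2 ^ 49) := add_assoc _ _ _
    _ ≤ 2 ^ 70 + 2 ^ 71 := add_le_add le_rfl k4
    _ ≤ 2 ^ 72 := by norm_num

/-- conclusions at a grid point -/
structure SignOk (D : Dat) (r θ : ℝ) (p q : ℝ × ℝ) : Prop where
  pp : 1 / 200 ≤ D.gs r p.1 p.2 (cos θ) (sin θ)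
  pq : 1 / 200 ≤ D.gs r q.1 q.2 (cos θ) (sin θ)
  p0 : D.gs r 0 0 (cos θ) (sin θ) ≤ -(1 / 200)
  np : D.gs r p.1 (-p.2) (cos θ) (sin θ) ≤ -(1 / 4)
  nq : D.gs r q.1 (-q.2) (cos θ) (sin θ) ≤ -(1 / 4)

theorem lowG {K E G d1 t1 lb lc e ε : ℝ} (hK : 0 < K)
    (g : -e ≤ K * G - (-K + d1 * (lb - K) + t1 * (lc - K)))
    (c : K + E ≤ d1 * (lb - K) + t1 * (lc - K)) (hE : K * ε + e ≤ E) : ε ≤ G := by
  have : K * ε ≤ K * G := by linarith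
  exact le_of_mul_le_mul_left this hK

theorem upG {K E G d1 t1 lb lc e ε : ℝ} (hK : 0 < K)
    (g : K * G - (-K + d1 * (lb - K) + t1 * (lc - K)) ≤ e)
    (c : E + d1 * (lb - K) + t1 * (lc - K) ≤ K) (hE : K * ε + e ≤ E) : G ≤ -ε := by
  have : K * G ≤ K * -ε := by linarith
  exact le_of_mul_le_mul_left this hK

theorem signL_sound {D : Dat} {L : List (List ℤ)} {C : ℕ} (hC : Close D L C)
    {M EP EN xp xq tp tq rn lb lc : ℕ} (hM : (M:ℝ) = 2 ^ 92) (hEP : 2 ^ 92 / 200 + 2 ^ 72 ≤ (EP:ℝ))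
    (hEN : 2 ^ 92 / 4 + 2 ^ 72 ≤ (EN:ℝ)) (hrn : rn ≤ 2 ^ 20) {θ : ℝ}
    (hx : |(rn:ℝ) / 2 ^ 20 * cos θ| ≤ 21 / 100)
    (hlb : |(lb:ℝ) - 2 ^ 92 - 2 ^ 72 * Bf (Dq D L C) ((rn:ℝ) / 2 ^ 20) θ| ≤ 2 ^ 49)
    (hlc : |(lc:ℝ) - 2 ^ 92 - 2 ^ 72 * Cf (Dq D L C) ((rn:ℝ) / 2 ^ 20) θ| ≤ 2 ^ 49)
    (h1 : xp ≤ rn) (h2 : rn ≤ xq) (h3 : rn + tp ≤ 2 ^ 22) (h4 : xq + tq ≤ 2 ^ 22)
    (hp : ((xp:ℝ) / 2 ^ 20) ^ 2 + ((tp:ℝ) / 2 ^ 20) ^ 2 ≤ (51 / 50) ^ 2)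
    (hq : ((xq:ℝ) / 2 ^ 20) ^ 2 + ((tq:ℝ) / 2 ^ 20) ^ 2 ≤ (51 / 50) ^ 2)
    (h : signL M EP EN (rn - xp) (xq - rn) tp tq rn lb lc = true) :
    SignOk D ((rn:ℝ) / 2 ^ 20) θ ((xp:ℝ) / 2 ^ 20, (tp:ℝ) / 2 ^ 20)
      ((xq:ℝ) / 2 ^ 20, (tq:ℝ) / 2 ^ 20) := by
  obtain ⟨c1, h⟩ := andB_eq h
  obtain ⟨c2, h⟩ := andB_eq h
  obtain ⟨c3, h⟩ := andB_eq h
  obtain ⟨c4, c5⟩ := andB_eq h
  have h1R : (xp:ℝ) ≤ rn := by exact_mod_cast h1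
  have h2R : (rn:ℝ) ≤ xq := by exact_mod_cast h2
  have h3R : (rn:ℝ) + tp ≤ 2 ^ 22 := by exact_mod_cast h3
  have h4R : (xq:ℝ) + tq ≤ 2 ^ 22 := by exact_mod_cast h4
  have n1 : (0:ℝ) ≤ rn := Nat.cast_nonneg _
  have n2 : (0:ℝ) ≤ tp := Nat.cast_nonneg _
  have n3 : (0:ℝ) ≤ tq := Nat.cast_nonneg _
  have n4 : (0:ℝ) ≤ xp := Nat.cast_nonneg _
  have n5 : (0:ℝ) ≤ xq := Nat.cast_nonneg _
  have c1R : (M:ℝ) + EP + (rn - xp) * lb + tp * M ≤ tp * lc + (rn - xp) * M := by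
    have := Nat.le_of_ble_eq_true c1
    have h5 : (M:ℝ) + EP + ((rn - xp : ℕ):ℝ) * lb + tp * M ≤ tp * lc + ((rn - xp : ℕ):ℝ) * M := by
      exact_mod_cast this
    rw [Nat.cast_sub h1] at h5
    exact h5
  have c2R : (M:ℝ) + EP + (xq - rn) * M + tq * M ≤ (xq - rn) * lb + tq * lc := by
    have := Nat.le_of_ble_eq_true c2
    have h5 : (M:ℝ) + EP + ((xq - rn : ℕ):ℝ) * M + tq * M ≤ ((xq - rn : ℕ):ℝ) * lb + tq * lc := by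
      exact_mod_cast this
    rw [Nat.cast_sub h2] at h5
    exact h5
  have c3R : (EP:ℝ) + rn * M ≤ M + rn * lb := by exact_mod_cast Nat.le_of_ble_eq_true c3
  have c4R : (EN:ℝ) + (rn - xp) * M + tp * M ≤ M + (rn - xp) * lb + tp * lc := by
    have := Nat.le_of_ble_eq_true c4
    have h5 : (EN:ℝ) + ((rn - xp : ℕ):ℝ) * M + tp * M ≤ M + ((rn - xp : ℕ):ℝ) * lb + tp * lc := by
      exact_mod_cast this
    rw [Nat.cast_sub h1] at h5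
    exact h5
  have c5R : (EN:ℝ) + (xq - rn) * lb + tq * M ≤ M + (xq - rn) * M + tq * lc := by
    have := Nat.le_of_ble_eq_true c5
    have h5 : (EN:ℝ) + ((xq - rn : ℕ):ℝ) * lb + tq * M ≤ M + ((xq - rn : ℕ):ℝ) * M + tq * lc := by
      exact_mod_cast this
    rw [Nat.cast_sub h2] at h5
    exact h5
  clear c1 c2 c3 c4 c5 h
  have ap : |(xp:ℝ) - rn| = rn - xp := by rw [abs_of_nonpos (by linarith)]; ring
  have aq : |(xq:ℝ) - rn| = xq - rn := abs_of_nonneg (by linarith)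
  have g1 := (abs_le.1 (gs_lane hC hrn hx (x := xp) (t := tp) hlb hlc
    (by rw [ap, abs_of_nonneg n2]; linarith) hp)).1
  have g2 := (abs_le.1 (gs_lane hC hrn hx (x := xq) (t := tq) hlb hlc
    (by rw [aq, abs_of_nonneg n3]; linarith) hq)).1
  have g3 := (abs_le.1 (gs_lane hC hrn hx (x := 0) (t := 0) hlb hlc
    (by rw [zero_sub, abs_neg, abs_of_nonneg n1, abs_zero]; linarith) (by norm_num))).2
  have g4 := (abs_le.1 (gs_lane hC hrn hx (x := xp) (t := -tp) hlb hlc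
    (by rw [ap, abs_neg, abs_of_nonneg n2]; linarith) (by
      rw [neg_div, neg_sq]
      exact hp))).2
  have g5 := (abs_le.1 (gs_lane hC hrn hx (x := xq) (t := -tq) hlb hlc
    (by rw [aq, abs_neg, abs_of_nonneg n3]; linarith) (by
      rw [neg_div, neg_sq]
      exact hq))).2
  rw [zero_div] at g3
  rw [neg_div] at g4 g5
  have hpos : (0:ℝ) < 2 ^ 92 := by positivity
  have hEP' : (2:ℝ) ^ 92 * (1 / 200) + 2 ^ 72 ≤ EP := by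
    refine le_trans (le_of_eq ?_) hEP
    ring
  have hEN' : (2:ℝ) ^ 92 * (1 / 4) + 2 ^ 72 ≤ EN := by
    refine le_trans (le_of_eq ?_) hEN
    ring
  rw [hM] at c1R c2R c3R c4R c5R
  obtain ⟨K, hK⟩ : ∃ K : ℝ, K = 2 ^ 92 := ⟨_, rfl⟩
  rw [← hK] at c1R c2R c3R c4R c5R g1 g2 g3 g4 g5 hpos hEP' hEN'
  constructor
  · exact lowG hpos g1 (by linarith) hEP'
  · exact lowG hpos g2 (by linarith) hEP'
  · exact upG hpos g3 (by linarith) hEP'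
  · exact upG hpos g4 (by linarith) hEN'
  · exact upG hpos g5 (by linarith) hEN'

end Pool.Agent.H4.Shore
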