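import Mathlib
import Pool.Agent.H4.Shore.Sign

/-!
Shoreline search: kernel check of a central cell of the ring, and its soundness.
-/

open Real Set

namespace Pool.Agent.H4.Shore

open Pool.Agent.H44.Shore Pool.Agent.H65.Shore Pool.Agent.H81.Shore

/-- numerical conditions on the cell -/
def signV (nL N X1 dn j0 n co rn0 rn1 a b : ℕ) : Bool :=
  andB (Nat.ble 211634 rn0) <| andB (Nat.ble rn0 rn1) <| andB (Nat.ble rn1 (rn0 + 1049)) <|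
  andB (Nat.ble rn1 224217) <| andB (Nat.ble 1 dn) <| andB (Nat.ble dn 3221225) <|
  andB (Nat.ble j0 a) <| andB (Nat.ble a b) <| andB (Nat.ble (b + 2) (j0 + n)) <|
  andB (Nat.ble ((b + 1) * dn) 3373259426) <| andB (Nat.ble 1686629714 ((b + 1) * dn)) <|
  andB (Nat.ble (a * dn) 536870912) <|
  seqN (lget 128 co (a - j0)) fun ca => seqN (lget 128 co (b + 1 - j0)) fun cb =>
  andB (Nat.ble (1000 * rn1 * (ca + 5 - 70368744177664)) (198 * 18446744073709551616)) <|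
  andB (Nat.ble 70368744177669 ca) <|
  andB (Nat.ble (nL * 18446744073709551616) (N * rn0 * (ca - 70368744177669))) <|
  andB (Nat.ble (1 * rn1 * (70368744177669 - cb)) (78119 * 17592186044416)) <|
  andB (Nat.ble (cb + 5) 70368744177664)
    (Nat.ble (X1 * 16) (rn0 * (70368744177664 - (cb + 5))))

/-- conclusions -/
structure SignVOk (D : Dat) (dn j0 n rn0 rn1 a b : ℕ) : Prop where
  v1 : 211634 ≤ rn0
  v2 : rn0 ≤ rn1
  v3 : rn1 ≤ rn0 + 1049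
  v4 : rn1 ≤ 224217
  v5 : 1 ≤ dn
  v6 : dn ≤ 3221225
  v7 : j0 ≤ a
  v8 : a ≤ b
  v9 : b + 2 ≤ j0 + n
  v10 : (b + 1) * dn ≤ 3373259426
  v11 : 1686629714 ≤ (b + 1) * dn
  v12 : a * dn ≤ 536870912
  x1 : (rn1:ℝ) / 2 ^ 20 * cos (a * ((dn:ℝ) / 2 ^ 30)) ≤ 198 / 1000
  x2 : D.xL ≤ (rn0:ℝ) / 2 ^ 20 * cos (a * ((dn:ℝ) / 2 ^ 30))
  x3 : -((rn1:ℝ) / 2 ^ 20 * cos (((b:ℝ) + 1) * ((dn:ℝ) / 2 ^ 30))) ≤ 78119 / 2 ^ 20
  x4 : (rn0:ℝ) / 2 ^ 20 * cos (((b:ℝ) + 1) * ((dn:ℝ) / 2 ^ 30)) ≤ -(1 / D.ρ)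

theorem nup_of_lane {rn z c : ℕ} {y : ℝ} (h : 1 * rn * z ≤ c * 17592186044416)
    (hy : -y ≤ (z:ℝ) / 2 ^ 44) : -((rn:ℝ) / 2 ^ 20 * y) ≤ (c:ℝ) / 2 ^ 20 := by
  have hr : (0:ℝ) ≤ (rn:ℝ) / 2 ^ 20 := div_nonneg (Nat.cast_nonneg _) (pow_nonneg (by norm_num) _)
  have g2 := mul_le_mul_of_nonneg_left hy hr
  have e2 : (rn:ℝ) / 2 ^ 20 * -y = -((rn:ℝ) / 2 ^ 20 * y) := by ring
  rw [e2] at g2
  refine g2.trans ?_
  have h34 : (1:ℝ) * rn * z ≤ c * 17592186044416 := by exact_mod_cast h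
  have e3 : (rn:ℝ) / 2 ^ 20 * (z / 2 ^ 44) = (1 * rn * z) / 17592186044416 / 2 ^ 20 := by
    field_simp
    ring
  rw [e3]
  apply div_le_div_of_nonneg_right _ (by positivity)
  rw [div_le_iff₀ (by positivity)]
  exact h34

theorem nlow_of_lane {rn z X : ℕ} {y : ℝ} (h : X * 16 ≤ rn * z)
    (hy : (z:ℝ) / 2 ^ 44 ≤ -y) : (rn:ℝ) / 2 ^ 20 * y ≤ -((X:ℝ) / 2 ^ 60) := by
  have hr : (0:ℝ) ≤ (rn:ℝ) / 2 ^ 20 := div_nonneg (Nat.cast_nonneg _) (pow_nonneg (by norm_num) _)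
  have g2 := mul_le_mul_of_nonneg_left hy hr
  have h34 : (X:ℝ) * 16 ≤ rn * z := by exact_mod_cast h
  have e3 : (rn:ℝ) / 2 ^ 20 * (z / 2 ^ 44) = (rn * z) / 2 ^ 64 := by
    field_simp
  rw [e3] at g2
  have e4 : (X:ℝ) / 2 ^ 60 = (X * 16) / 2 ^ 64 := by
    field_simp
    norm_num
  have h5 : (X:ℝ) / 2 ^ 60 ≤ (rn * z) / 2 ^ 64 := by
    rw [e4]
    gcongr
  linarith

theorem signV_sound {D : Dat} {nL N X1 dn j0 n co rn0 rn1 a b : ℕ} (hN : 0 < N)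
    (hxL : D.xL = (nL:ℝ) / N) (hX1 : 1 / D.ρ ≤ (X1:ℝ) / 2 ^ 60)
    (hco : CosT n (j0 * ((dn:ℝ) / 2 ^ 30)) ((dn:ℝ) / 2 ^ 30) co)
    (h : signV nL N X1 dn j0 n co rn0 rn1 a b = true) : SignVOk D dn j0 n rn0 rn1 a b := by
  unfold signV at h
  simp only [seqN_eq] at h
  obtain ⟨h1, h⟩ := andB_eq h
  obtain ⟨h2, h⟩ := andB_eq h
  obtain ⟨h3, h⟩ := andB_eq h
  obtain ⟨h4, h⟩ := andB_eq h
  obtain ⟨h5, h⟩ := andB_eq h
  obtain ⟨h6, h⟩ := andB_eq h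
  obtain ⟨h7, h⟩ := andB_eq h
  obtain ⟨h8, h⟩ := andB_eq h
  obtain ⟨h9, h⟩ := andB_eq h
  obtain ⟨h10, h⟩ := andB_eq h
  obtain ⟨h11, h⟩ := andB_eq h
  obtain ⟨h12, h⟩ := andB_eq h
  obtain ⟨c1, h⟩ := andB_eq h
  obtain ⟨c2, h⟩ := andB_eq h
  obtain ⟨c3, h⟩ := andB_eq h
  obtain ⟨c4, h⟩ := andB_eq h
  obtain ⟨c5, c6⟩ := andB_eq h
  clear h
  replace h1 := Nat.le_of_ble_eq_true h1
  replace h2 := Nat.le_of_ble_eq_true h2
  replace h3 := Nat.le_of_ble_eq_true h3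
  replace h4 := Nat.le_of_ble_eq_true h4
  replace h5 := Nat.le_of_ble_eq_true h5
  replace h6 := Nat.le_of_ble_eq_true h6
  replace h7 := Nat.le_of_ble_eq_true h7
  replace h8 := Nat.le_of_ble_eq_true h8
  replace h9 := Nat.le_of_ble_eq_true h9
  replace h10 := Nat.le_of_ble_eq_true h10
  replace h11 := Nat.le_of_ble_eq_true h11
  replace h12 := Nat.le_of_ble_eq_true h12
  replace c1 := Nat.le_of_ble_eq_true c1
  replace c2 := Nat.le_of_ble_eq_true c2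
  replace c3 := Nat.le_of_ble_eq_true c3
  replace c4 := Nat.le_of_ble_eq_true c4
  replace c5 := Nat.le_of_ble_eq_true c5
  replace c6 := Nat.le_of_ble_eq_true c6
  have M1 : ((70368744177664 : ℕ) : ℝ) = 2 ^ 46 := by norm_num
  have M2 : ((70368744177669 : ℕ) : ℝ) = 2 ^ 46 + 5 := by norm_num
  have ga := hco.get (by omega : j0 ≤ a) (by omega : a < j0 + n)
  have gb := hco.get (by omega : j0 ≤ b + 1) (by omega : b + 1 < j0 + n)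
  have e1 : ((b + 1 : ℕ) : ℝ) = (b:ℝ) + 1 := by push_cast; ring
  rw [e1] at gb
  refine ⟨h1, h2, h3, h4, h5, h6, h7, h8, h9, h10, h11, h12, ?_, ?_, ?_, ?_⟩
  · have := up_of_lane (N := 1000) (nL := 198) (rn := rn1) c1 (by norm_num) (lane_up M1 ga)
    refine this.trans (le_of_eq ?_)
    norm_num
  · rw [hxL]
    exact low_of_lane c3 hN (lane_low M2 c2 ga)
  · have := nup_of_lane (c := 78119) c4 (lane_nup M2 gb)
    refine this.trans (le_of_eq ?_)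
    norm_num
  · refine (nlow_of_lane c6 (lane_nlow M1 c5 gb)).trans ?_
    linarith

/-- conditions on the two vectors -/
def signW (nL N rn0 rn1 xp tp xq tq : ℕ) : Bool :=
  andB (Nat.ble xp rn0) <| andB (Nat.ble rn1 xq) <| andB (Nat.ble (rn1 + tp) 4194304) <|
  andB (Nat.ble (xq + tq) 4194304) <| andB (Nat.ble (xp * xp + tp * tp) 1099511627776) <|
  andB (Nat.ble (xq * xq + tq * tq) 1099511627776) <|
  andB (Nat.ble (925 * 1099511627776) (1000 * (xp * xp + tp * tp))) <|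
  andB (Nat.ble (925 * 1099511627776) (1000 * (xq * xq + tq * tq))) <|
  andB (Nat.ble (925 * 1099511627776) (1000 * (xp * xq + tp * tq))) <|
  andB (Nat.ble 1 tp) <| andB (Nat.ble 1 tq) <| andB (Nat.ble (702 * tp) (10000 * xp)) <|
  andB (Nat.ble (1000 * xq) (365 * tq)) <| andB (Nat.ble (tq * xp + 1) (xq * tp))
    (Nat.ble (nL * 1099511627776 + 1) (N * rn0 * tq))

structure SignWOk (xL : ℝ) (rn0 rn1 xp tp xq tq : ℕ) : Prop where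
  w1 : xp ≤ rn0
  w2 : rn1 ≤ xq
  w3 : rn1 + tp ≤ 2 ^ 22
  w4 : xq + tq ≤ 2 ^ 22
  w5 : ((xp:ℝ) / 2 ^ 20) ^ 2 + ((tp:ℝ) / 2 ^ 20) ^ 2 ≤ 1
  w6 : ((xq:ℝ) / 2 ^ 20) ^ 2 + ((tq:ℝ) / 2 ^ 20) ^ 2 ≤ 1
  w7 : 925 / 1000 ≤ ((xp:ℝ) / 2 ^ 20) ^ 2 + ((tp:ℝ) / 2 ^ 20) ^ 2
  w8 : 925 / 1000 ≤ ((xq:ℝ) / 2 ^ 20) ^ 2 + ((tq:ℝ) / 2 ^ 20) ^ 2
  w9 : 925 / 1000 ≤ ((xp:ℝ) / 2 ^ 20) * ((xq:ℝ) / 2 ^ 20) + ((tp:ℝ) / 2 ^ 20) * ((tq:ℝ) / 2 ^ 20)
  w10 : (0:ℝ) < (tp:ℝ) / 2 ^ 20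
  w11 : (0:ℝ) < (tq:ℝ) / 2 ^ 20
  w12 : 0.0702 * ((tp:ℝ) / 2 ^ 20) ≤ (xp:ℝ) / 2 ^ 20
  w13 : (xq:ℝ) / 2 ^ 20 ≤ 0.365 * ((tq:ℝ) / 2 ^ 20)
  w14 : 0 < cross ((xq:ℝ) / 2 ^ 20, (tq:ℝ) / 2 ^ 20) ((xp:ℝ) / 2 ^ 20, (tp:ℝ) / 2 ^ 20)
  w15 : xL < (rn0:ℝ) / 2 ^ 20 * ((tq:ℝ) / 2 ^ 20)

theorem signW_sound {nL N rn0 rn1 xp tp xq tq : ℕ} {xL : ℝ} (hN : 0 < N) (hxL : xL = (nL:ℝ) / N)
    (h : signW nL N rn0 rn1 xp tp xq tq = true) : SignWOk xL rn0 rn1 xp tp xq tq := by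
  unfold signW at h
  obtain ⟨h1, h⟩ := andB_eq h
  obtain ⟨h2, h⟩ := andB_eq h
  obtain ⟨h3, h⟩ := andB_eq h
  obtain ⟨h4, h⟩ := andB_eq h
  obtain ⟨h5, h⟩ := andB_eq h
  obtain ⟨h6, h⟩ := andB_eq h
  obtain ⟨h7, h⟩ := andB_eq h
  obtain ⟨h8, h⟩ := andB_eq h
  obtain ⟨h9, h⟩ := andB_eq h
  obtain ⟨h10, h⟩ := andB_eq h
  obtain ⟨h11, h⟩ := andB_eq h
  obtain ⟨h12, h⟩ := andB_eq h
  obtain ⟨h13, h⟩ := andB_eq h
  obtain ⟨h14, h15⟩ := andB_eq h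
  clear h
  replace h1 := Nat.le_of_ble_eq_true h1
  replace h2 := Nat.le_of_ble_eq_true h2
  replace h3 := Nat.le_of_ble_eq_true h3
  replace h4 := Nat.le_of_ble_eq_true h4
  replace h5 := Nat.le_of_ble_eq_true h5
  replace h6 := Nat.le_of_ble_eq_true h6
  replace h7 := Nat.le_of_ble_eq_true h7
  replace h8 := Nat.le_of_ble_eq_true h8
  replace h9 := Nat.le_of_ble_eq_true h9
  replace h10 := Nat.le_of_ble_eq_true h10
  replace h11 := Nat.le_of_ble_eq_true h11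
  replace h12 := Nat.le_of_ble_eq_true h12
  replace h13 := Nat.le_of_ble_eq_true h13
  replace h14 := Nat.le_of_ble_eq_true h14
  replace h15 := Nat.le_of_ble_eq_true h15
  have h5R : (xp:ℝ) * xp + tp * tp ≤ 1099511627776 := by exact_mod_cast h5
  have h6R : (xq:ℝ) * xq + tq * tq ≤ 1099511627776 := by exact_mod_cast h6
  have h7R : (925:ℝ) * 1099511627776 ≤ 1000 * (xp * xp + tp * tp) := by exact_mod_cast h7
  have h8R : (925:ℝ) * 1099511627776 ≤ 1000 * (xq * xq + tq * tq) := by exact_mod_cast h8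
  have h9R : (925:ℝ) * 1099511627776 ≤ 1000 * (xp * xq + tp * tq) := by exact_mod_cast h9
  have h10R : (1:ℝ) ≤ tp := by exact_mod_cast h10
  have h11R : (1:ℝ) ≤ tq := by exact_mod_cast h11
  have h12R : (702:ℝ) * tp ≤ 10000 * xp := by exact_mod_cast h12
  have h13R : (1000:ℝ) * xq ≤ 365 * tq := by exact_mod_cast h13
  have h14R : (tq:ℝ) * xp + 1 ≤ xq * tp := by exact_mod_cast h14
  have h15R : (nL:ℝ) * 1099511627776 + 1 ≤ N * rn0 * tq := by exact_mod_cast h15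
  have K : (2:ℝ) ^ 40 = 1099511627776 := by norm_num
  have gsq : ∀ x t y u : ℝ, x / 2 ^ 20 * (y / 2 ^ 20) + t / 2 ^ 20 * (u / 2 ^ 20) =
      (x * y + t * u) / 1099511627776 := by
    intro x t y u
    rw [← K]
    field_simp
  refine ⟨h1, h2, h3.trans (by norm_num), h4.trans (by norm_num), ?_, ?_, ?_, ?_, ?_,
    by positivity, by positivity, ?_, ?_, ?_, ?_⟩
  · rw [sq, sq, gsq, div_le_one (by positivity)]
    exact h5R
  · rw [sq, sq, gsq, div_le_one (by positivity)]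
    exact h6R
  · rw [sq, sq, gsq, div_le_div_iff₀ (by positivity) (by positivity)]
    linarith
  · rw [sq, sq, gsq, div_le_div_iff₀ (by positivity) (by positivity)]
    linarith
  · rw [gsq, div_le_div_iff₀ (by positivity) (by positivity)]
    linarith
  · rw [← mul_div_assoc]
    apply div_le_div_of_nonneg_right _ (by positivity)
    linarith
  · rw [← mul_div_assoc]
    apply div_le_div_of_nonneg_right _ (by positivity)
    linarith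
  · unfold cross
    have e : (xq:ℝ) / 2 ^ 20 * ((tp:ℝ) / 2 ^ 20) - (tq:ℝ) / 2 ^ 20 * ((xp:ℝ) / 2 ^ 20) =
        (xq * tp - tq * xp) / 2 ^ 40 := by
      field_simp
    rw [e]
    apply div_pos _ (by positivity)
    linarith
  · rw [hxL]
    have hNR : (0:ℝ) < N := by exact_mod_cast hN
    have e : (rn0:ℝ) / 2 ^ 20 * ((tq:ℝ) / 2 ^ 20) = (rn0 * tq) / 1099511627776 := by
      rw [← K]
      field_simp
    rw [e, div_lt_div_iff₀ hNR (by positivity)]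
    have e2 : (rn0:ℝ) * tq * N = N * rn0 * tq := by ring
    rw [e2]
    linarith

end Pool.Agent.H4.Shore
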