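import Mathlib
import Pool.Agent.H4.Shore.SignAll

/-!
Shoreline search: the central sector of a ring cell from the kernel check.
-/

open Real Set

namespace Pool.Agent.H4.Shore

open Pool.Agent.H44.Shore Pool.Agent.H65.Shore Pool.Agent.H81.Shore

/-- sign check of a row -/
def signRow (K : Cst) (j0 o : ℕ) (Ps Qs : List ℤ) (rn a b xp tp xq tq : ℕ) : Bool :=
  rowTab K.Lm K.C K.on K.od o Ps Qs rn fun B Cc =>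
    signLoop 4951760157141521099596496896 24763523152190475143196181 1237944761651863144544337920
      (rn - xp) (xq - rn) tp tq rn B Cc (a - j0) (b + 2 - a)

/-- sign check of a cell -/
def signAll (K : Cst) (dn : ℕ) (bits : List Bool) (m2 rn0 rn1 a b xp tp xq tq : ℕ) : Bool :=
  andB (signW K.nL K.N rn0 rn1 xp tp xq tq) <|
  tabs dn bits m2 1 [] fun j0 o Ps Qs co _ _ =>
    andB (signV K.nL K.N K.X1 dn j0 (Nat.pow 2 m2) co rn0 rn1 a b) <|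
    andB (signRow K j0 o Ps Qs rn0 a b xp tp xq tq) (signRow K j0 o Ps Qs rn1 a b xp tp xq tq)

theorem signRow_sound {D : Dat} {K : Cst} (hK : CstOk D K) {dn j0 n rn a b xp tp xq tq : ℕ}
    {Ps Qs : List ℤ}
    (hP : LAs 128 n 5 (2 ^ 46) Ps (hcos ((j0:ℝ) * ((dn:ℝ) / 2 ^ 30)) ((dn:ℝ) / 2 ^ 30)))
    (hQ : LAs 128 n 5 (2 ^ 46) Qs (hsin ((j0:ℝ) * ((dn:ℝ) / 2 ^ 30)) ((dn:ℝ) / 2 ^ 30)))
    (hP8 : Ps.length = 8) (hQ7 : Qs.length = 7) (hrn : rn ≤ 2 ^ 20)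
    (ha : j0 ≤ a) (hab : a ≤ b) (hb : b + 2 ≤ j0 + n)
    (hx : ∀ j : ℕ, a ≤ j → j ≤ b + 1 →
      |(rn:ℝ) / 2 ^ 20 * cos (j * ((dn:ℝ) / 2 ^ 30))| ≤ 21 / 100)
    (h1 : xp ≤ rn) (h2 : rn ≤ xq) (h3 : rn + tp ≤ 2 ^ 22) (h4 : xq + tq ≤ 2 ^ 22)
    (hp : ((xp:ℝ) / 2 ^ 20) ^ 2 + ((tp:ℝ) / 2 ^ 20) ^ 2 ≤ (51 / 50) ^ 2)
    (hq : ((xq:ℝ) / 2 ^ 20) ^ 2 + ((tq:ℝ) / 2 ^ 20) ^ 2 ≤ (51 / 50) ^ 2)
    (h : signRow K j0 (ones 128 n) Ps Qs rn a b xp tp xq tq = true) :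
    ∀ j : ℕ, a ≤ j → j ≤ b + 1 → SignOk D ((rn:ℝ) / 2 ^ 20) (j * ((dn:ℝ) / 2 ^ 30))
      ((xp:ℝ) / 2 ^ 20, (tp:ℝ) / 2 ^ 20) ((xq:ℝ) / 2 ^ 20, (tq:ℝ) / 2 ^ 20) := by
  obtain ⟨B, Cc, hR, g⟩ := rowTab_sound (apx_q D hK.l5 hK.l8 hK.l1 (C := K.C))
    (by positivity) hK.hod hK.hon hK.ho hK.hrB2 hrn hP hQ hP8 hQ7 h
  intro j hj1 hj2
  have g1 := signLoop_sound _ g (j - j0) (by omega) (by omega)
  have g2 := lane_row hR j (ha.trans hj1) (by omega)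
  refine signL_sound hK.close (by norm_num) (by norm_num) (by norm_num) hrn (hx j hj1 hj2)
    g2.1 g2.2 h1 h2 h3 h4 hp hq g1

theorem signAll_sector {α ω : ℝ} (hc : Consts α ω) {D : Dat} (hD : D.Ok)
    (hρ : D.ρ = 1 / (sin α * cos ω)) (hR : RingOk D) {K : Cst} (hK : CstOk D K)
    {dn m2 rn0 rn1 a b xp tp xq tq : ℕ} {bits : List Bool}
    (h : signAll K dn bits m2 rn0 rn1 a b xp tp xq tq = true) {r : ℝ}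
    (hr : r ∈ Icc ((rn0:ℝ) / 2 ^ 20) ((rn1:ℝ) / 2 ^ 20)) (F0 : FF D r (mC α ω 2 D r) 0 ≤ 0) :
    Sector (FF D r (mC α ω 2 D r)) ((xq:ℤ), tq) ((xp:ℤ), tp) := by
  obtain ⟨hW, h⟩ := andB_eq h
  obtain ⟨a1, a2, a3, a4, j0, Ps, Qs, co, si, xs, p1, p2, p3, p4, c1, c2, x1, x3, h⟩ := tabs_sound h
  obtain ⟨hV, h⟩ := andB_eq h
  obtain ⟨g0, g1⟩ := andB_eq h
  have W := signW_sound hK.hN hK.hxL hW
  have V := signV_sound hK.hN hK.hxL hK.hX1 c1 hV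
  clear hW hV h
  obtain ⟨δ, hδ⟩ : ∃ δ : ℝ, δ = (dn:ℝ) / 2 ^ 30 := ⟨_, rfl⟩
  have hdn : (1:ℝ) ≤ dn := by exact_mod_cast V.v5
  have hδ0 : 0 < δ := by rw [hδ]; positivity
  have hδ1 : δ ≤ 3221225 / 2 ^ 30 := by
    rw [hδ]
    have : (dn:ℝ) ≤ 3221225 := by exact_mod_cast V.v6
    gcongr
  have v1 := V.v1
  have v2 := V.v2
  have v3 := V.v3
  have v4 := V.v4
  have w1 := W.w1
  have w2 := W.w2
  have w3 := W.w3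
  have w4 := W.w4
  have r00 : (211634:ℝ) / 2 ^ 20 ≤ (rn0:ℝ) / 2 ^ 20 := by
    have : (211634:ℝ) ≤ rn0 := by exact_mod_cast v1
    gcongr
  have r01 : (rn0:ℝ) / 2 ^ 20 ≤ (rn1:ℝ) / 2 ^ 20 := by
    have : (rn0:ℝ) ≤ rn1 := by exact_mod_cast v2
    gcongr
  have r11 : (rn1:ℝ) / 2 ^ 20 ≤ 224217 / 2 ^ 20 := by
    have : (rn1:ℝ) ≤ 224217 := by exact_mod_cast v4
    gcongr
  have r10 : (rn1:ℝ) / 2 ^ 20 - (rn0:ℝ) / 2 ^ 20 ≤ 1049 / 2 ^ 20 := by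
    have : (rn1:ℝ) ≤ rn0 + 1049 := by exact_mod_cast v3
    rw [← sub_div]
    apply div_le_div_of_nonneg_right _ (by positivity)
    linarith
  have hrpos : (0:ℝ) < (rn0:ℝ) / 2 ^ 20 := lt_of_lt_of_le (by positivity) r00
  -- angles
  have hbπ : ((b:ℝ) + 1) * δ ≤ π := by
    have h10 : ((b:ℝ) + 1) * dn ≤ 3373259426 := by exact_mod_cast V.v10
    have hpl := Real.pi_gt_d20
    rw [hδ, ← mul_div_assoc, div_le_iff₀ (by positivity)]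
    norm_num at hpl ⊢
    linarith
  have hA0 : 0 ≤ (a:ℝ) * δ := by positivity
  have hA1 : (a:ℝ) * δ ≤ 1 / 2 := by
    have h12 : (a:ℝ) * dn ≤ 536870912 := by exact_mod_cast V.v12
    rw [hδ, ← mul_div_assoc, div_le_iff₀ (by positivity)]
    norm_num at h12 ⊢
    linarith
  have hB0 : π / 2 ≤ ((b:ℝ) + 1) * δ := by
    have h11 : (1686629714:ℝ) ≤ ((b:ℝ) + 1) * dn := by exact_mod_cast V.v11
    have hpu := Real.pi_lt_d20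
    rw [hδ, ← mul_div_assoc, le_div_iff₀ (by positivity)]
    norm_num at hpu ⊢
    linarith
  have hcA : 0 ≤ cos (a * δ) := by
    have h3 := pi_gt_three
    apply cos_nonneg_of_neg_pi_div_two_le_of_le <;> linarith
  have hcB : cos (((b:ℝ) + 1) * δ) ≤ 0 :=
    cos_nonpos_of_pi_div_two_le_of_le hB0 (by linarith [pi_pos])
  have X1 := V.x1
  have X2 := V.x2
  have X3 := V.x3
  have X4 := V.x4
  rw [← hδ] at X1 X2 X3 X4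
  have hxr : ∀ r ∈ Icc ((rn0:ℝ) / 2 ^ 20) ((rn1:ℝ) / 2 ^ 20), ∀ j : ℕ, a ≤ j → j ≤ b + 1 →
      |r * cos (j * ((dn:ℝ) / 2 ^ 30))| ≤ 21 / 100 := by
    intro r hr j hj1 hj2
    rw [← hδ]
    have e1 : (a:ℝ) ≤ j := by exact_mod_cast hj1
    have e2 : (j:ℝ) ≤ (b:ℝ) + 1 := by exact_mod_cast hj2
    have := x_range (xa := -(198 / 1000)) (xb := 78119 / 2 ^ 20) hrpos.le hA0 hbπ hcA hcB
      (by linarith) X3 hr (θ := j * δ) ⟨by gcongr, by gcongr⟩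
    rw [abs_le]
    have h4 : (78119:ℝ) / 2 ^ 20 ≤ 21 / 100 := by norm_num
    constructor <;> linarith [this.1, this.2]
  have hp' : ((xp:ℝ) / 2 ^ 20) ^ 2 + ((tp:ℝ) / 2 ^ 20) ^ 2 ≤ (51 / 50) ^ 2 :=
    W.w5.trans (by norm_num)
  have hq' : ((xq:ℝ) / 2 ^ 20) ^ 2 + ((tq:ℝ) / 2 ^ 20) ^ 2 ≤ (51 / 50) ^ 2 :=
    W.w6.trans (by norm_num)
  have rb0 : rn0 ≤ 2 ^ 20 := (v2.trans v4).trans (by norm_num)
  have rb1 : rn1 ≤ 2 ^ 20 := v4.trans (by norm_num)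
  have S0 := signRow_sound hK p1 p2 p3 p4 rb0 V.v7 V.v8 V.v9
    (fun j h1 h2 => hxr _ ⟨le_rfl, r01⟩ j h1 h2) w1 (v2.trans w2) (by omega) w4 hp' hq' g0
  have S1 := signRow_sound hK p1 p2 p3 p4 rb1 V.v7 V.v8 V.v9
    (fun j h1 h2 => hxr _ ⟨r01, le_rfl⟩ j h1 h2) (w1.trans v2) w2 w3 w4 hp' hq' g1
  rw [← hδ] at S0 S1
  have SS : ∀ r, (r = (rn0:ℝ) / 2 ^ 20 ∨ r = (rn1:ℝ) / 2 ^ 20) → ∀ j : ℕ, a ≤ j → j ≤ b + 1 →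
      SignOk D r (j * δ) ((xp:ℝ) / 2 ^ 20, (tp:ℝ) / 2 ^ 20) ((xq:ℝ) / 2 ^ 20, (tq:ℝ) / 2 ^ 20) := by
    rintro r (rfl | rfl) j h1 h2
    · exact S0 j h1 h2
    · exact S1 j h1 h2
  have hN : PNodes D ((rn0:ℝ) / 2 ^ 20) ((rn1:ℝ) / 2 ^ 20) δ a b
      ((xp:ℝ) / 2 ^ 20, (tp:ℝ) / 2 ^ 20) ((xq:ℝ) / 2 ^ 20, (tq:ℝ) / 2 ^ 20) (1 / 200) (1 / 4) :=
    ⟨fun r hr j h1 h2 => (SS r hr j h1 h2).pp, fun r hr j h1 h2 => (SS r hr j h1 h2).pq,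
      fun r hr j h1 h2 => (SS r hr j h1 h2).p0, fun r hr j h1 h2 => (SS r hr j h1 h2).np,
      fun r hr j h1 h2 => (SS r hr j h1 h2).nq⟩
  have hd2 : ((rn1:ℝ) / 2 ^ 20 - (rn0:ℝ) / 2 ^ 20) ^ 2 ≤ (1049 / 2 ^ 20) ^ 2 :=
    pow_le_pow_left₀ (by linarith) r10 2
  have hδ2 : δ ^ 2 ≤ (3221225 / 2 ^ 30) ^ 2 := pow_le_pow_left₀ hδ0.le hδ1 2
  have herr : (13000:ℝ) * ((rn1:ℝ) / 2 ^ 20 - (rn0:ℝ) / 2 ^ 20) ^ 2 / 8 + 220 * δ ^ 2 / 8 ≤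
      1 / 200 := by
    norm_num at hd2 hδ2 ⊢
    linarith
  obtain ⟨wa, wb, M10, M20, M30, M01, M11, M21, M02, M12, M03, hM, m1, m2', m3, m4, m5, m6, m7,
    m8⟩ := hR.M
  have hs1 := hc.sal
  have hs2 := hc.sau
  have hl0 : sin α - 0.01 ≤ (rn0:ℝ) / 2 ^ 20 := by
    norm_num at r00 ⊢
    linarith
  have hl1 : (rn1:ℝ) / 2 ^ 20 ≤ sin α + 0.01 := by
    norm_num at r11 ⊢
    linarith
  have hrp : 0 < r := lt_of_lt_of_le hrpos hr.1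
  have hXL : 0 < D.xL := hK.hxL0
  refine Sector.of_unit (FF_convex D hXL hrp _) F0 ?_
  intro v hv hv2 k1 k2
  have e1 : vec ((xq:ℤ), tq) = ((xq:ℝ) / 2 ^ 20, (tq:ℝ) / 2 ^ 20) := by
    unfold vec
    simp
  have e2 : vec ((xp:ℤ), tp) = ((xp:ℝ) / 2 ^ 20, (tp:ℝ) / 2 ^ 20) := by
    unfold vec
    simp
  rw [e1] at k1
  rw [e2] at k2
  exact central_cell (κ := 1 / 25) (M0 := 3) (m := 925 / 1000) (Kr := 13000) (Kt := 220) (V := 1)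
    hD hc hρ (by norm_num) le_rfl hM
    (by positivity : (0:ℝ) ≤ 211634 / 2 ^ 20) r00 r01 r11 hR.hrB m1 m2' hδ0 V.v8 hbπ
    (by linarith) X3 X2 X4 (by norm_num) (by norm_num) (by norm_num) m6 m7 le_rfl W.w5 W.w6 hN
    herr m8 (by linarith) W.w7 W.w8 W.w9 (by norm_num) (by norm_num) W.w10 W.w11 W.w12 W.w13
    W.w14 W.w15 hl0 hl1 hr hv hv2 k1 k2

end Pool.Agent.H4.Shore
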