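import Mathlib
import Pool.Agent.H4.Shore.SignCell

/-!
Shoreline search: the inequality on a subrange of the ring from five fans, the gauge and the
central cell.
-/

open Real Set

namespace Pool.Agent.H4.Shore

open Pool.Agent.H44.Shore Pool.Agent.H65.Shore Pool.Agent.H81.Shore

/-- the data of a fan fit a subrange -/
def FanM (ch : ChD) (rn m b : ℕ) (L : List (ℕ × ℕ)) (p e : ℤ × ℕ) : Prop :=
  ch.rn = rn ∧ ch.m = m ∧ (ch.cells.map fun c => (c.rn, c.m)) = L ∧ ch.cells ≠ [] ∧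
    endR ch.rn ch.cells = b ∧ sideC ch.g.s rn b ch.vs = true ∧
    ch.vs.take 2 = [((0:ℤ), 0), p] ∧ fanC p (ch.vs.drop 2) = true ∧ lastV p (ch.vs.drop 2) = e

/-- two consecutive sectors can be joined -/
def JoinM (z g : ℤ × ℕ) : Prop :=
  0 < z.2 ∧ 0 < g.2 ∧ (0 ≤ crossZ g z ∨ (0 < crossZ z g ∧ 1099511627776 ≤ z.1 * z.1 + z.2 * z.2 ∧
    1099511627776 ≤ g.1 * g.1 + g.2 * g.2 ∧
    (0 ≤ (g.1 - z.1) * z.1 + ((g.2:ℤ) - z.2) * z.2 ∨
      0 ≤ (z.1 - g.1) * g.1 + ((z.2:ℤ) - g.2) * g.2)))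

instance (ch : ChD) (rn m b : ℕ) (L : List (ℕ × ℕ)) (p e : ℤ × ℕ) :
    Decidable (FanM ch rn m b L p e) := by
  unfold FanM
  infer_instance

instance (z g : ℤ × ℕ) : Decidable (JoinM z g) := by
  unfold JoinM
  infer_instance

/-- a cone spanned by two points such that the segment between them is outside the disc -/
theorem cone_small {F : ℝ × ℝ → ℝ} (hF : ConvexOn ℝ univ F) (F0 : F 0 ≤ 0) {p q v : ℝ × ℝ}
    (hd : 0 < cross p q) (hp : 1 ≤ p.1 ^ 2 + p.2 ^ 2) (hq : 1 ≤ q.1 ^ 2 + q.2 ^ 2)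
    (hpq : 0 ≤ (q.1 - p.1) * p.1 + (q.2 - p.2) * p.2 ∨
      0 ≤ (p.1 - q.1) * q.1 + (p.2 - q.2) * q.2)
    (hv : v.1 ^ 2 + v.2 ^ 2 ≤ 1) (h1 : 0 ≤ cross p v) (h2 : 0 ≤ cross v q)
    (Fp : F p ≤ 0) (Fq : F q ≤ 0) : F v ≤ 0 := by
  obtain ⟨d, hdd⟩ : ∃ d, d = cross p q := ⟨_, rfl⟩
  obtain ⟨x, hx⟩ : ∃ x, x = cross v q / d := ⟨_, rfl⟩
  obtain ⟨y, hy⟩ : ∃ y, y = cross p v / d := ⟨_, rfl⟩
  rw [← hdd] at hd
  have x0 : 0 ≤ x := by rw [hx]; exact div_nonneg h2 hd.le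
  have y0 : 0 ≤ y := by rw [hy]; exact div_nonneg h1 hd.le
  have e1 : v.1 = x * p.1 + y * q.1 := by
    rw [hx, hy]
    field_simp
    rw [hdd]
    unfold cross
    ring
  have e2 : v.2 = x * p.2 + y * q.2 := by
    rw [hx, hy]
    field_simp
    rw [hdd]
    unfold cross
    ring
  have hs : x + y ≤ 1 := by
    by_contra hcon
    push Not at hcon
    have hs0 : 1 < (x + y) ^ 2 := by nlinarith
    rcases hpq with h | h
    · have e3 : v.1 ^ 2 + v.2 ^ 2 = (x + y) ^ 2 * (p.1 ^ 2 + p.2 ^ 2) +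
          2 * ((x + y) * y) * ((q.1 - p.1) * p.1 + (q.2 - p.2) * p.2) +
          y ^ 2 * ((q.1 - p.1) ^ 2 + (q.2 - p.2) ^ 2) := by
        rw [e1, e2]
        ring
      have t1 : (x + y) ^ 2 * 1 ≤ (x + y) ^ 2 * (p.1 ^ 2 + p.2 ^ 2) :=
        mul_le_mul_of_nonneg_left hp (sq_nonneg _)
      have t2 : 0 ≤ 2 * ((x + y) * y) * ((q.1 - p.1) * p.1 + (q.2 - p.2) * p.2) := by positivity
      have t3 : 0 ≤ y ^ 2 * ((q.1 - p.1) ^ 2 + (q.2 - p.2) ^ 2) := by positivity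
      linarith
    · have e3 : v.1 ^ 2 + v.2 ^ 2 = (x + y) ^ 2 * (q.1 ^ 2 + q.2 ^ 2) +
          2 * ((x + y) * x) * ((p.1 - q.1) * q.1 + (p.2 - q.2) * q.2) +
          x ^ 2 * ((p.1 - q.1) ^ 2 + (p.2 - q.2) ^ 2) := by
        rw [e1, e2]
        ring
      have t1 : (x + y) ^ 2 * 1 ≤ (x + y) ^ 2 * (q.1 ^ 2 + q.2 ^ 2) :=
        mul_le_mul_of_nonneg_left hq (sq_nonneg _)
      have t2 : 0 ≤ 2 * ((x + y) * x) * ((p.1 - q.1) * q.1 + (p.2 - q.2) * q.2) := by positivity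
      have t3 : 0 ≤ x ^ 2 * ((p.1 - q.1) ^ 2 + (p.2 - q.2) ^ 2) := by positivity
      linarith
  rcases eq_or_lt_of_le (add_nonneg x0 y0) with h0 | h0
  · have hx0 : x = 0 := by linarith
    have hy0 : y = 0 := by linarith
    have : v = 0 := by
      refine Prod.ext ?_ ?_
      · rw [e1, hx0, hy0]; simp
      · rw [e2, hx0, hy0]; simp
    rw [this]
    exact F0
  · obtain ⟨s, hs'⟩ : ∃ s, s = x + y := ⟨_, rfl⟩
    rw [← hs'] at h0 hs
    have hxs : 0 ≤ x / s := div_nonneg x0 h0.le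
    have hys : 0 ≤ y / s := div_nonneg y0 h0.le
    have hsum : x / s + y / s = 1 := by
      rw [← add_div, ← hs', div_self h0.ne']
    have c1 := hF.2 (mem_univ p) (mem_univ q) hxs hys hsum
    have c2 := hF.2 (mem_univ ((x / s) • p + (y / s) • q)) (mem_univ (0 : ℝ × ℝ)) h0.le
      (by linarith : 0 ≤ 1 - s) (by ring)
    have e : s • ((x / s) • p + (y / s) • q) + (1 - s) • (0 : ℝ × ℝ) = v := by
      refine Prod.ext ?_ ?_
      · simp only [smul_zero, add_zero, Prod.smul_fst, Prod.fst_add, smul_eq_mul]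
        rw [e1]
        field_simp
      · simp only [smul_zero, add_zero, Prod.smul_snd, Prod.snd_add, smul_eq_mul]
        rw [e2]
        field_simp
    rw [e] at c2
    simp only [smul_eq_mul] at c1 c2
    have c3 : F ((x / s) • p + (y / s) • q) ≤ 0 := by
      refine c1.trans ?_
      have i1 : x / s * F p ≤ 0 := mul_nonpos_of_nonneg_of_nonpos hxs Fp
      have i2 : y / s * F q ≤ 0 := mul_nonpos_of_nonneg_of_nonpos hys Fq
      linarith
    have i1 : s * F ((x / s) • p + (y / s) • q) ≤ 0 := mul_nonpos_of_nonneg_of_nonpos h0.le c3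
    have i2 : (1 - s) * F 0 ≤ 0 := mul_nonpos_of_nonneg_of_nonpos (by linarith) F0
    linarith

theorem Sector.join {F : ℝ × ℝ → ℝ} (hF : ConvexOn ℝ univ F) (F0 : F 0 ≤ 0)
    {f z g w : ℤ × ℕ} (h1 : Sector F f z) (h2 : Sector F g w) (hz : F (vec z) ≤ 0)
    (hg : F (vec g) ≤ 0) (h : JoinM z g) : Sector F f w := by
  obtain ⟨z0, g0, h⟩ := h
  rcases h with h | ⟨a1, a2, a3, a4⟩
  · exact h1.glue h2 h z0
  · have hself : ∀ p : ℤ × ℕ, 0 ≤ crossZ p p := by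
      intro p
      unfold crossZ
      rw [mul_comm]
      simp
    have hgap : Sector F z g := by
      intro v hv _ k1 k2
      have K : (2:ℝ) ^ 40 = 1099511627776 := by norm_num
      have nrm : ∀ p : ℤ × ℕ, (vec p).1 ^ 2 + (vec p).2 ^ 2 =
          ((p.1 * p.1 + p.2 * p.2 : ℤ) : ℝ) / 1099511627776 := by
        intro p
        unfold vec
        push_cast
        rw [← K]
        field_simp
      have dot : ∀ p q : ℤ × ℕ, ((vec q).1 - (vec p).1) * (vec p).1 +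
          ((vec q).2 - (vec p).2) * (vec p).2 =
          (((q.1 - p.1) * p.1 + ((q.2:ℤ) - p.2) * p.2 : ℤ) : ℝ) / 1099511627776 := by
        intro p q
        unfold vec
        push_cast
        rw [← K]
        field_simp
      have b1 : 0 < cross (vec z) (vec g) := by
        have hc : cross (vec z) (vec g) = ((crossZ z g : ℤ) : ℝ) / 2 ^ 40 := by
          unfold cross vec crossZ
          push_cast
          field_simp
          try ring
        rw [hc]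
        have : (0:ℝ) < ((crossZ z g : ℤ) : ℝ) := by exact_mod_cast a1
        positivity
      refine cone_small hF F0 b1 ?_ ?_ ?_ hv k1 k2 hz hg
      · rw [nrm, le_div_iff₀ (by positivity), one_mul]
        exact_mod_cast a2
      · rw [nrm, le_div_iff₀ (by positivity), one_mul]
        exact_mod_cast a3
      · rw [dot, dot]
        rcases a4 with a4 | a4
        · left
          apply div_nonneg _ (by positivity)
          exact_mod_cast a4
        · right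
          apply div_nonneg _ (by positivity)
          exact_mod_cast a4
    exact (h1.glue hgap (hself z) z0).glue h2 (hself g) g0

theorem lastV_mem : ∀ (rest : List (ℤ × ℕ)) (p : ℤ × ℕ), lastV p rest ∈ p :: rest := by
  intro rest
  induction rest with
  | nil => intro p; exact List.mem_singleton_self _
  | cons q rest ih => intro p; exact List.mem_cons_of_mem _ (ih q)

/-- a side fan -/
theorem fan_sector {D : Dat} {α ω : ℝ} {K : Cst} (hK : CstOk D K) {ch : ChD}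
    (hg : RegOk D (51 / 50) ch.g) (h : chainAll K ch = true) {rn m b : ℕ} {L : List (ℕ × ℕ)}
    (hG : GaugeF D α ω rn m L) {p e : ℤ × ℕ} (hM : FanM ch rn m b L p e) (hrn : 0 < rn) {r : ℝ}
    (h1 : (rn:ℝ) / 2 ^ 20 ≤ r) (h2 : r ≤ (b:ℝ) / 2 ^ 20) :
    FF D r (mC α ω 2 D r) 0 ≤ 0 ∧ Sector (FF D r (mC α ω 2 D r)) p e ∧
      FF D r (mC α ω 2 D r) (vec p) ≤ 0 ∧ FF D r (mC α ω 2 D r) (vec e) ≤ 0 := by
  obtain ⟨m1, m2, m3, m4, m5, m6, m7, m8, m9⟩ := hM
  have hall := side_of hK hg h hG m1 m2 m3 hrn m4 m5 m6 h1 h2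
  have hvs : ch.vs = ((0:ℤ), 0) :: p :: ch.vs.drop 2 := by
    conv_lhs => rw [← List.take_append_drop 2 ch.vs]
    rw [m7]
    rfl
  have hr : 0 < r := by
    refine lt_of_lt_of_le ?_ h1
    have : (0:ℝ) < rn := by exact_mod_cast hrn
    positivity
  have F0 : FF D r (mC α ω 2 D r) 0 ≤ 0 := by
    have := hall ((0:ℤ), 0) (by rw [hvs]; simp)
    have e : vec ((0:ℤ), 0) = 0 := by
      unfold vec
      simp
    rwa [e] at this
  have hmem : ∀ q ∈ p :: ch.vs.drop 2, FF D r (mC α ω 2 D r) (vec q) ≤ 0 := by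
    intro q hq
    apply hall
    rw [hvs]
    exact List.mem_cons_of_mem _ hq
  refine ⟨F0, ?_, hmem p (by simp), ?_⟩
  · have := Sector.of_fan (FF_convex D hK.hxL0 hr _) F0 m8 hmem
    rwa [m9] at this
  · rw [← m9]
    exact hmem _ (lastV_mem _ _)

/-- **The inequality on a subrange of the ring.** -/
theorem ring_sub {α ω : ℝ} (hc : Consts α ω) {D : Dat} (hD : D.Ok)
    (hρ : D.ρ = 1 / (sin α * cos ω)) (hR : RingOk D) {K : Cst} (hK : CstOk D K)
    (hρ2 : 1 / D.ρ ≤ 0.0725) {X1lo : ℕ} (hlo : (X1lo:ℝ) / 2 ^ 60 ≤ 1 / D.ρ)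
    {dn m2 rn m b : ℕ} {bits : List Bool} {cs : List GCell}
    (hg : gaugeAll K X1lo dn bits m2 rn m cs = true)
    {dn' m2' a' b' xp tp xq tq : ℕ} {bits' : List Bool}
    (hs : signAll K dn' bits' m2' rn b a' b' xp tp xq tq = true)
    {f0 f1 f2 f3 f4 : ChD} (g0 : RegOk D (51 / 50) f0.g) (g1 : RegOk D (51 / 50) f1.g)
    (g2 : RegOk D (51 / 50) f2.g) (g3 : RegOk D (51 / 50) f3.g) (g4 : RegOk D (51 / 50) f4.g)
    (c0 : chainAll K f0 = true) (c1 : chainAll K f1 = true) (c2 : chainAll K f2 = true)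
    (c3 : chainAll K f3 = true) (c4 : chainAll K f4 = true)
    {p0 e0 p1 e1 p2 e2 p3 e3 p4 e4 : ℤ × ℕ}
    (k0 : FanM f0 rn m b (cs.map fun c => (c.rn, c.m)) p0 e0)
    (k1 : FanM f1 rn m b (cs.map fun c => (c.rn, c.m)) p1 e1)
    (k2 : FanM f2 rn m b (cs.map fun c => (c.rn, c.m)) p2 e2)
    (k3 : FanM f3 rn m b (cs.map fun c => (c.rn, c.m)) p3 e3)
    (k4 : FanM f4 rn m b (cs.map fun c => (c.rn, c.m)) p4 e4)
    (hrn : 0 < rn) (hrb : rn ≤ b) (hp0 : p0.2 = 0 ∧ 0 ≤ p0.1) (he4 : e4.2 = 0 ∧ e4.1 ≤ 0)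
    (j0 : JoinM e0 p1) (j1 : JoinM e1 p2)
    (j2 : 0 < e2.2 ∧ 0 ≤ crossZ ((xq:ℤ), tq) e2) (j3 : 0 < tp ∧ 0 ≤ crossZ p3 ((xp:ℤ), tp))
    (j4 : JoinM e3 p4) : PP D ((rn:ℝ) / 2 ^ 20) ((b:ℝ) / 2 ^ 20) := by
  have hG := gaugeAll_sound hc hD hR hK hρ2 hlo hg
  have hrR : (rn:ℝ) ≤ b := by exact_mod_cast hrb
  have h0 : (0:ℝ) < (rn:ℝ) / 2 ^ 20 := by
    have : (0:ℝ) < rn := by exact_mod_cast hrn
    positivity
  refine PP.of_cont (m := mC α ω 2 D) (by gcongr) ?_ ?_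
  · intro r hr
    exact continuousAt_mC α ω 2 D (lt_of_lt_of_le h0 hr.1)
  · intro r h1 h2 v hv hv2
    have hr : 0 < r := lt_of_lt_of_le h0 h1
    obtain ⟨F0, s0, -, ve0⟩ := fan_sector hK g0 c0 hG k0 hrn h1 h2
    obtain ⟨-, s1, vp1, ve1⟩ := fan_sector hK g1 c1 hG k1 hrn h1 h2
    obtain ⟨-, s2, vp2, ve2⟩ := fan_sector hK g2 c2 hG k2 hrn h1 h2
    obtain ⟨-, s3, vp3, ve3⟩ := fan_sector hK g3 c3 hG k3 hrn h1 h2
    obtain ⟨-, s4, vp4, ve4⟩ := fan_sector hK g4 c4 hG k4 hrn h1 h2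
    have sc := signAll_sector hc hD hρ hR hK hs ⟨h1, h2⟩ F0
    have hF := FF_convex D hK.hxL0 hr (mC α ω 2 D r)
    have t1 := s0.join hF F0 s1 ve0 vp1 j0
    have t2 := t1.join hF F0 s2 ve1 vp2 j1
    have t3 := t2.glue sc j2.2 j2.1
    have t4 := t3.glue s3 j3.2 j3.1
    have t5 := t4.join hF F0 s4 ve3 vp4 j4
    exact t5.all hp0.1 hp0.2 he4.1 he4.2 hv hv2

end Pool.Agent.H4.Shore
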