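import Mathlib
import Pool.Agent.H44.Shore.Ad
import Pool.Agent.H44.Shore.Mb
import Pool.Agent.H65.Shore.Pack

/-!
Shoreline search: kernel check of the range of an integer polynomial on a grid, all points at once.
-/

open Finset

namespace Pool.Agent.H4.Shore.Simd

open Pool.Agent.H44.Shore Pool.Agent.H44.Shore.MBC

open Pool.Agent.H65.Shore (packN packN_eq_sum packN_lt testBit_packN packN_congr packN_mul)

/-- integer evaluation -/
def iev : List ℤ → ℤ → ℤ
  | [], _ => 0
  | c :: q, y => c + y * iev q y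

def iev2 : List (List ℤ) → ℤ → ℤ → ℤ
  | [], _, _ => 0
  | p :: Q, y, z => iev p y + z * iev2 Q y z

theorem iev_cast (p : List ℤ) (y : ℤ) : ((iev p y : ℤ) : ℝ) = ev p (y : ℝ) := by
  induction p with
  | nil => simp [iev, ev]
  | cons c q ih =>
    rw [iev, ev, ← ih]
    push_cast
    ring

theorem iev2_cast (P : List (List ℤ)) (y z : ℤ) : ((iev2 P y z : ℤ) : ℝ) = ev2 P (y : ℝ) z := by
  induction P with
  | nil => simp [iev2, ev2]
  | cons p Q ih =>
    rw [iev2, ev2, ← ih, ← iev_cast]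
    push_cast
    ring

/-- packed values of `f` -/
def pS (X : ℤ) (n : ℕ) (f : ℕ → ℤ) : ℤ := ∑ i ∈ range n, f i * X ^ i

theorem pw_aux {X : ℤ} (hX : 1 < X) (n : ℕ) (f : ℕ → ℤ) {R : ℤ}
    (hR : R = pS X n (fun i => f (i + 1) - f i)) :
    Int.ediv (f n * X ^ n - f 0 - X * R) (X - 1) = pS X n f := by
  have h1 := Finset.sum_range_sub (fun i => f i * X ^ i) n
  have h2 : f n * X ^ n - f 0 - X * R = (X - 1) * pS X n f := by
    rw [hR]
    unfold pS
    have h3 : ∑ i ∈ range n, (f (i + 1) * X ^ (i + 1) - f i * X ^ i) =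
        X * (∑ i ∈ range n, (f (i + 1) - f i) * X ^ i) + (X - 1) * ∑ i ∈ range n, f i * X ^ i := by
      rw [Finset.mul_sum, Finset.mul_sum, ← Finset.sum_add_distrib]
      apply Finset.sum_congr rfl
      intro i _
      ring
    rw [h3] at h1
    simp only [pow_zero, mul_one] at h1
    linarith
  rw [h2]
  exact Int.mul_ediv_cancel_left _ (by omega)

/-- the five first packed powers -/
def pow5 (n : ℕ) (X Xn y st : ℤ) (k : ℤ → ℤ → ℤ → ℤ → ℤ → Bool) : Bool :=
  seqI (Int.add y (Int.mul (n : ℤ) st)) fun e =>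
  seqI (Int.sub X 1) fun X1 =>
  seqI (Int.ediv (Int.sub (Int.sub Xn 1) 0) X1) fun Y0 =>
  seqI (Int.ediv (Int.sub (Int.sub (Int.mul e Xn) y) (Int.mul X (Int.mul st Y0))) X1) fun Y1 =>
  seqI (Int.mul st st) fun s2 => seqI (Int.mul e e) fun e2 => seqI (Int.mul y y) fun y2 =>
  seqI (Int.ediv (Int.sub (Int.sub (Int.mul e2 Xn) y2) (Int.mul X (Int.add
    (Int.mul (Int.mul 2 st) Y1) (Int.mul s2 Y0)))) X1) fun Y2 =>
  seqI (Int.mul st s2) fun s3 => seqI (Int.mul e e2) fun e3 => seqI (Int.mul y y2) fun y3 =>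
  seqI (Int.ediv (Int.sub (Int.sub (Int.mul e3 Xn) y3) (Int.mul X (Int.add (Int.add
    (Int.mul (Int.mul 3 st) Y2) (Int.mul (Int.mul 3 s2) Y1)) (Int.mul s3 Y0)))) X1) fun Y3 =>
  seqI (Int.mul st s3) fun s4 => seqI (Int.mul e e3) fun e4 => seqI (Int.mul y y3) fun y4 =>
  seqI (Int.ediv (Int.sub (Int.sub (Int.mul e4 Xn) y4) (Int.mul X (Int.add (Int.add (Int.add
    (Int.mul (Int.mul 4 st) Y3) (Int.mul (Int.mul 6 s2) Y2)) (Int.mul (Int.mul 4 s3) Y1))
    (Int.mul s4 Y0)))) X1) fun Y4 => k Y0 Y1 Y2 Y3 Y4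

theorem pow5_eq {n : ℕ} {X y st : ℤ} (hX : 1 < X) {k : ℤ → ℤ → ℤ → ℤ → ℤ → Bool} :
    pow5 n X (X ^ n) y st k = k (pS X n fun i => (y + i * st) ^ 0) (pS X n fun i => (y + i * st) ^ 1)
      (pS X n fun i => (y + i * st) ^ 2) (pS X n fun i => (y + i * st) ^ 3)
      (pS X n fun i => (y + i * st) ^ 4) := by
  have h0 := pw_aux hX n (fun i => (y + i * st) ^ 0) (R := 0) (by simp [pS])
  have h1 := pw_aux hX n (fun i => (y + i * st) ^ 1) (R := st * pS X n fun i => (y + i * st) ^ 0) (by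
    unfold pS
    rw [Finset.mul_sum]
    apply Finset.sum_congr rfl
    intro i _
    push_cast
    ring)
  have h2 := pw_aux hX n (fun i => (y + i * st) ^ 2)
    (R := 2 * st * (pS X n fun i => (y + i * st) ^ 1) + st * st * pS X n fun i => (y + i * st) ^ 0)
    (by
    unfold pS
    simp only [Finset.mul_sum, ← Finset.sum_add_distrib]
    apply Finset.sum_congr rfl
    intro i _
    push_cast
    ring)
  have h3 := pw_aux hX n (fun i => (y + i * st) ^ 3)
    (R := 3 * st * (pS X n fun i => (y + i * st) ^ 2) +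
      3 * (st * st) * (pS X n fun i => (y + i * st) ^ 1) +
      st * (st * st) * pS X n fun i => (y + i * st) ^ 0)
    (by
    unfold pS
    simp only [Finset.mul_sum, ← Finset.sum_add_distrib]
    apply Finset.sum_congr rfl
    intro i _
    push_cast
    ring)
  have h4 := pw_aux hX n (fun i => (y + i * st) ^ 4)
    (R := 4 * st * (pS X n fun i => (y + i * st) ^ 3) +
      6 * (st * st) * (pS X n fun i => (y + i * st) ^ 2) +
      4 * (st * (st * st)) * (pS X n fun i => (y + i * st) ^ 1) +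
      st * (st * (st * st)) * pS X n fun i => (y + i * st) ^ 0)
    (by
    unfold pS
    simp only [Finset.mul_sum, ← Finset.sum_add_distrib]
    apply Finset.sum_congr rfl
    intro i _
    push_cast
    ring)
  unfold pow5
  simp only [seqI_eq]
  have c0 : Int.ediv (Int.sub (Int.sub (X ^ n) 1) 0) (Int.sub X 1) =
      pS X n fun i => (y + i * st) ^ 0 := by
    rw [← h0]
    show Int.ediv (X ^ n - 1 - 0) (X - 1) = _
    congr 1
    simp
  rw [c0]
  have c1 : Int.ediv (Int.sub (Int.sub (Int.mul (Int.add y (Int.mul (n : ℤ) st)) (X ^ n)) y)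
      (Int.mul X (Int.mul st (pS X n fun i => (y + i * st) ^ 0)))) (Int.sub X 1) =
      pS X n fun i => (y + i * st) ^ 1 := by
    rw [← h1]
    show Int.ediv ((y + n * st) * X ^ n - y - X * (st * pS X n fun i => (y + i * st) ^ 0)) (X - 1) = _
    congr 1
    simp
  rw [c1]
  have c2 : Int.ediv (Int.sub (Int.sub (Int.mul (Int.mul (Int.add y (Int.mul (n : ℤ) st))
      (Int.add y (Int.mul (n : ℤ) st))) (X ^ n)) (Int.mul y y)) (Int.mul X (Int.add
      (Int.mul (Int.mul 2 st) (pS X n fun i => (y + i * st) ^ 1))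
      (Int.mul (Int.mul st st) (pS X n fun i => (y + i * st) ^ 0))))) (Int.sub X 1) =
      pS X n fun i => (y + i * st) ^ 2 := by
    rw [← h2]
    show Int.ediv ((y + n * st) * (y + n * st) * X ^ n - y * y - X * (2 * st *
      (pS X n fun i => (y + i * st) ^ 1) + st * st * pS X n fun i => (y + i * st) ^ 0)) (X - 1) = _
    congr 1
    simp
    ring
  rw [c2]
  have c3 : Int.ediv (Int.sub (Int.sub (Int.mul (Int.mul (Int.add y (Int.mul (n : ℤ) st))
      (Int.mul (Int.add y (Int.mul (n : ℤ) st)) (Int.add y (Int.mul (n : ℤ) st)))) (X ^ n))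
      (Int.mul y (Int.mul y y))) (Int.mul X (Int.add (Int.add
      (Int.mul (Int.mul 3 st) (pS X n fun i => (y + i * st) ^ 2))
      (Int.mul (Int.mul 3 (Int.mul st st)) (pS X n fun i => (y + i * st) ^ 1)))
      (Int.mul (Int.mul st (Int.mul st st)) (pS X n fun i => (y + i * st) ^ 0))))) (Int.sub X 1) =
      pS X n fun i => (y + i * st) ^ 3 := by
    rw [← h3]
    show Int.ediv ((y + n * st) * ((y + n * st) * (y + n * st)) * X ^ n - y * (y * y) - X * (3 * st *
      (pS X n fun i => (y + i * st) ^ 2) + 3 * (st * st) * (pS X n fun i => (y + i * st) ^ 1) +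
      st * (st * st) * pS X n fun i => (y + i * st) ^ 0)) (X - 1) = _
    congr 1
    simp
    ring
  rw [c3]
  have c4 : Int.ediv (Int.sub (Int.sub (Int.mul (Int.mul (Int.add y (Int.mul (n : ℤ) st))
      (Int.mul (Int.add y (Int.mul (n : ℤ) st)) (Int.mul (Int.add y (Int.mul (n : ℤ) st))
      (Int.add y (Int.mul (n : ℤ) st))))) (X ^ n)) (Int.mul y (Int.mul y (Int.mul y y))))
      (Int.mul X (Int.add (Int.add (Int.add
      (Int.mul (Int.mul 4 st) (pS X n fun i => (y + i * st) ^ 3))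
      (Int.mul (Int.mul 6 (Int.mul st st)) (pS X n fun i => (y + i * st) ^ 2)))
      (Int.mul (Int.mul 4 (Int.mul st (Int.mul st st))) (pS X n fun i => (y + i * st) ^ 1)))
      (Int.mul (Int.mul st (Int.mul st (Int.mul st st))) (pS X n fun i => (y + i * st) ^ 0)))))
      (Int.sub X 1) = pS X n fun i => (y + i * st) ^ 4 := by
    rw [← h4]
    show Int.ediv ((y + n * st) * ((y + n * st) * ((y + n * st) * (y + n * st))) * X ^ n -
      y * (y * (y * y)) - X * (4 * st * (pS X n fun i => (y + i * st) ^ 3) +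
      6 * (st * st) * (pS X n fun i => (y + i * st) ^ 2) +
      4 * (st * (st * st)) * (pS X n fun i => (y + i * st) ^ 1) +
      st * (st * (st * st)) * pS X n fun i => (y + i * st) ^ 0)) (X - 1) = _
    congr 1
    simp
    ring
  rw [c4]

/-- the eight first packed powers -/
def pow8 (n : ℕ) (X Xn y st : ℤ) (k : List ℤ → Bool) : Bool :=
  pow5 n X Xn y st fun Y0 Y1 Y2 Y3 Y4 =>
  seqI (Int.add y (Int.mul (n : ℤ) st)) fun e =>
  seqI (Int.sub X 1) fun X1 =>
  seqI (Int.mul st st) fun s2 => seqI (Int.mul e e) fun e2 => seqI (Int.mul y y) fun y2 =>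
  seqI (Int.mul st s2) fun s3 => seqI (Int.mul e e2) fun e3 => seqI (Int.mul y y2) fun y3 =>
  seqI (Int.mul st s3) fun s4 => seqI (Int.mul e e3) fun e4 => seqI (Int.mul y y3) fun y4 =>
  seqI (Int.mul st s4) fun s5 => seqI (Int.mul e e4) fun e5 => seqI (Int.mul y y4) fun y5 =>
  seqI (Int.ediv (Int.sub (Int.sub (Int.mul e5 Xn) y5) (Int.mul X
    (Int.add (Int.add (Int.add (Int.add (Int.mul (Int.mul 5 st) Y4)
      (Int.mul (Int.mul 10 s2) Y3))
      (Int.mul (Int.mul 10 s3) Y2))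
      (Int.mul (Int.mul 5 s4) Y1))
      (Int.mul s5 Y0)))) X1) fun Y5 =>
  seqI (Int.mul st s5) fun s6 => seqI (Int.mul e e5) fun e6 => seqI (Int.mul y y5) fun y6 =>
  seqI (Int.ediv (Int.sub (Int.sub (Int.mul e6 Xn) y6) (Int.mul X
    (Int.add (Int.add (Int.add (Int.add (Int.add (Int.mul (Int.mul 6 st) Y5)
      (Int.mul (Int.mul 15 s2) Y4))
      (Int.mul (Int.mul 20 s3) Y3))
      (Int.mul (Int.mul 15 s4) Y2))
      (Int.mul (Int.mul 6 s5) Y1))
      (Int.mul s6 Y0)))) X1) fun Y6 =>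
  seqI (Int.mul st s6) fun s7 => seqI (Int.mul e e6) fun e7 => seqI (Int.mul y y6) fun y7 =>
  seqI (Int.ediv (Int.sub (Int.sub (Int.mul e7 Xn) y7) (Int.mul X
    (Int.add (Int.add (Int.add (Int.add (Int.add (Int.add (Int.mul (Int.mul 7 st) Y6)
      (Int.mul (Int.mul 21 s2) Y5))
      (Int.mul (Int.mul 35 s3) Y4))
      (Int.mul (Int.mul 35 s4) Y3))
      (Int.mul (Int.mul 21 s5) Y2))
      (Int.mul (Int.mul 7 s6) Y1))
      (Int.mul s7 Y0)))) X1) fun Y7 =>
  k [Y0, Y1, Y2, Y3, Y4, Y5, Y6, Y7]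

theorem pow8_eq {n : ℕ} {X y st : ℤ} (hX : 1 < X) {k : List ℤ → Bool} :
    pow8 n X (X ^ n) y st k = k [pS X n fun i => (y + i * st) ^ 0, pS X n fun i => (y + i * st) ^ 1,
      pS X n fun i => (y + i * st) ^ 2, pS X n fun i => (y + i * st) ^ 3,
      pS X n fun i => (y + i * st) ^ 4, pS X n fun i => (y + i * st) ^ 5,
      pS X n fun i => (y + i * st) ^ 6, pS X n fun i => (y + i * st) ^ 7] := by
  unfold pow8
  rw [pow5_eq hX]
  simp only [seqI_eq]
  have h5 := pw_aux hX n (fun i => (y + i * st) ^ 5)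
    (R := 5 * st * (pS X n fun i => (y + i * st) ^ 4) +
      10 * (st * st) * (pS X n fun i => (y + i * st) ^ 3) +
      10 * (st * (st * st)) * (pS X n fun i => (y + i * st) ^ 2) +
      5 * (st * (st * (st * st))) * (pS X n fun i => (y + i * st) ^ 1) +
      (st * (st * (st * (st * st)))) * (pS X n fun i => (y + i * st) ^ 0))
    (by
    unfold pS
    simp only [Finset.mul_sum, ← Finset.sum_add_distrib]
    apply Finset.sum_congr rfl
    intro i _
    push_cast
    ring)
  have c5 : Int.ediv (Int.sub (Int.sub (Int.mul (Int.mul ((Int.add y (Int.mul (n : ℤ) st))) (Int.mul ((Int.add y (Int.mul (n : ℤ) st))) (Int.mul ((Int.add y (Int.mul (n : ℤ) st))) (Int.mul ((Int.add y (Int.mul (n : ℤ) st))) ((Int.add y (Int.mul (n : ℤ) st))))))) (X ^ n)) (Int.mul y (Int.mul y (Int.mul y (Int.mul y y)))))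
      (Int.mul X (Int.add (Int.add (Int.add (Int.add (Int.mul (Int.mul 5 st) (pS X n fun i => (y + i * st) ^ 4))
      (Int.mul (Int.mul 10 (Int.mul st st)) (pS X n fun i => (y + i * st) ^ 3)))
      (Int.mul (Int.mul 10 (Int.mul st (Int.mul st st))) (pS X n fun i => (y + i * st) ^ 2)))
      (Int.mul (Int.mul 5 (Int.mul st (Int.mul st (Int.mul st st)))) (pS X n fun i => (y + i * st) ^ 1)))
      (Int.mul (Int.mul st (Int.mul st (Int.mul st (Int.mul st st)))) (pS X n fun i => (y + i * st) ^ 0))))) (Int.sub X 1) =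
      pS X n fun i => (y + i * st) ^ 5 := by
    rw [← h5]
    show Int.ediv ((((y + n * st)) * (((y + n * st)) * (((y + n * st)) * (((y + n * st)) * ((y + n * st)))))) * X ^ n - (y * (y * (y * (y * y)))) - X * (5 * st * (pS X n fun i => (y + i * st) ^ 4) +
      10 * (st * st) * (pS X n fun i => (y + i * st) ^ 3) +
      10 * (st * (st * st)) * (pS X n fun i => (y + i * st) ^ 2) +
      5 * (st * (st * (st * st))) * (pS X n fun i => (y + i * st) ^ 1) +
      (st * (st * (st * (st * st)))) * (pS X n fun i => (y + i * st) ^ 0))) (X - 1) = _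
    congr 1
    simp
    ring
  rw [c5]
  have h6 := pw_aux hX n (fun i => (y + i * st) ^ 6)
    (R := 6 * st * (pS X n fun i => (y + i * st) ^ 5) +
      15 * (st * st) * (pS X n fun i => (y + i * st) ^ 4) +
      20 * (st * (st * st)) * (pS X n fun i => (y + i * st) ^ 3) +
      15 * (st * (st * (st * st))) * (pS X n fun i => (y + i * st) ^ 2) +
      6 * (st * (st * (st * (st * st)))) * (pS X n fun i => (y + i * st) ^ 1) +
      (st * (st * (st * (st * (st * st))))) * (pS X n fun i => (y + i * st) ^ 0))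
    (by
    unfold pS
    simp only [Finset.mul_sum, ← Finset.sum_add_distrib]
    apply Finset.sum_congr rfl
    intro i _
    push_cast
    ring)
  have c6 : Int.ediv (Int.sub (Int.sub (Int.mul (Int.mul ((Int.add y (Int.mul (n : ℤ) st))) (Int.mul ((Int.add y (Int.mul (n : ℤ) st))) (Int.mul ((Int.add y (Int.mul (n : ℤ) st))) (Int.mul ((Int.add y (Int.mul (n : ℤ) st))) (Int.mul ((Int.add y (Int.mul (n : ℤ) st))) ((Int.add y (Int.mul (n : ℤ) st)))))))) (X ^ n)) (Int.mul y (Int.mul y (Int.mul y (Int.mul y (Int.mul y y))))))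
      (Int.mul X (Int.add (Int.add (Int.add (Int.add (Int.add (Int.mul (Int.mul 6 st) (pS X n fun i => (y + i * st) ^ 5))
      (Int.mul (Int.mul 15 (Int.mul st st)) (pS X n fun i => (y + i * st) ^ 4)))
      (Int.mul (Int.mul 20 (Int.mul st (Int.mul st st))) (pS X n fun i => (y + i * st) ^ 3)))
      (Int.mul (Int.mul 15 (Int.mul st (Int.mul st (Int.mul st st)))) (pS X n fun i => (y + i * st) ^ 2)))
      (Int.mul (Int.mul 6 (Int.mul st (Int.mul st (Int.mul st (Int.mul st st))))) (pS X n fun i => (y + i * st) ^ 1)))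
      (Int.mul (Int.mul st (Int.mul st (Int.mul st (Int.mul st (Int.mul st st))))) (pS X n fun i => (y + i * st) ^ 0))))) (Int.sub X 1) =
      pS X n fun i => (y + i * st) ^ 6 := by
    rw [← h6]
    show Int.ediv ((((y + n * st)) * (((y + n * st)) * (((y + n * st)) * (((y + n * st)) * (((y + n * st)) * ((y + n * st))))))) * X ^ n - (y * (y * (y * (y * (y * y))))) - X * (6 * st * (pS X n fun i => (y + i * st) ^ 5) +
      15 * (st * st) * (pS X n fun i => (y + i * st) ^ 4) +
      20 * (st * (st * st)) * (pS X n fun i => (y + i * st) ^ 3) +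
      15 * (st * (st * (st * st))) * (pS X n fun i => (y + i * st) ^ 2) +
      6 * (st * (st * (st * (st * st)))) * (pS X n fun i => (y + i * st) ^ 1) +
      (st * (st * (st * (st * (st * st))))) * (pS X n fun i => (y + i * st) ^ 0))) (X - 1) = _
    congr 1
    simp
    ring
  rw [c6]
  have h7 := pw_aux hX n (fun i => (y + i * st) ^ 7)
    (R := 7 * st * (pS X n fun i => (y + i * st) ^ 6) +
      21 * (st * st) * (pS X n fun i => (y + i * st) ^ 5) +
      35 * (st * (st * st)) * (pS X n fun i => (y + i * st) ^ 4) +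
      35 * (st * (st * (st * st))) * (pS X n fun i => (y + i * st) ^ 3) +
      21 * (st * (st * (st * (st * st)))) * (pS X n fun i => (y + i * st) ^ 2) +
      7 * (st * (st * (st * (st * (st * st))))) * (pS X n fun i => (y + i * st) ^ 1) +
      (st * (st * (st * (st * (st * (st * st)))))) * (pS X n fun i => (y + i * st) ^ 0))
    (by
    unfold pS
    simp only [Finset.mul_sum, ← Finset.sum_add_distrib]
    apply Finset.sum_congr rfl
    intro i _
    push_cast
    ring)
  have c7 : Int.ediv (Int.sub (Int.sub (Int.mul (Int.mul ((Int.add y (Int.mul (n : ℤ) st))) (Int.mul ((Int.add y (Int.mul (n : ℤ) st))) (Int.mul ((Int.add y (Int.mul (n : ℤ) st))) (Int.mul ((Int.add y (Int.mul (n : ℤ) st))) (Int.mul ((Int.add y (Int.mul (n : ℤ) st))) (Int.mul ((Int.add y (Int.mul (n : ℤ) st))) ((Int.add y (Int.mul (n : ℤ) st))))))))) (X ^ n)) (Int.mul y (Int.mul y (Int.mul y (Int.mul y (Int.mul y (Int.mul y y)))))))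
      (Int.mul X (Int.add (Int.add (Int.add (Int.add (Int.add (Int.add (Int.mul (Int.mul 7 st) (pS X n fun i => (y + i * st) ^ 6))
      (Int.mul (Int.mul 21 (Int.mul st st)) (pS X n fun i => (y + i * st) ^ 5)))
      (Int.mul (Int.mul 35 (Int.mul st (Int.mul st st))) (pS X n fun i => (y + i * st) ^ 4)))
      (Int.mul (Int.mul 35 (Int.mul st (Int.mul st (Int.mul st st)))) (pS X n fun i => (y + i * st) ^ 3)))
      (Int.mul (Int.mul 21 (Int.mul st (Int.mul st (Int.mul st (Int.mul st st))))) (pS X n fun i => (y + i * st) ^ 2)))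
      (Int.mul (Int.mul 7 (Int.mul st (Int.mul st (Int.mul st (Int.mul st (Int.mul st st)))))) (pS X n fun i => (y + i * st) ^ 1)))
      (Int.mul (Int.mul st (Int.mul st (Int.mul st (Int.mul st (Int.mul st (Int.mul st st)))))) (pS X n fun i => (y + i * st) ^ 0))))) (Int.sub X 1) =
      pS X n fun i => (y + i * st) ^ 7 := by
    rw [← h7]
    show Int.ediv ((((y + n * st)) * (((y + n * st)) * (((y + n * st)) * (((y + n * st)) * (((y + n * st)) * (((y + n * st)) * ((y + n * st)))))))) * X ^ n - (y * (y * (y * (y * (y * (y * y)))))) - X * (7 * st * (pS X n fun i => (y + i * st) ^ 6) +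
      21 * (st * st) * (pS X n fun i => (y + i * st) ^ 5) +
      35 * (st * (st * st)) * (pS X n fun i => (y + i * st) ^ 4) +
      35 * (st * (st * (st * st))) * (pS X n fun i => (y + i * st) ^ 3) +
      21 * (st * (st * (st * (st * st)))) * (pS X n fun i => (y + i * st) ^ 2) +
      7 * (st * (st * (st * (st * (st * st))))) * (pS X n fun i => (y + i * st) ^ 1) +
      (st * (st * (st * (st * (st * (st * st)))))) * (pS X n fun i => (y + i * st) ^ 0))) (X - 1) = _
    congr 1
    simp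
    ring
  rw [c7]

/-- packed powers list -/
def PL (S : ℕ → ℤ) : ℕ → List ℤ → Prop
  | _, [] => True
  | b, Y :: Ys => Y = S b ∧ PL S (b + 1) Ys

def dotK : List ℤ → List ℤ → ℤ → (ℤ → Bool) → Bool
  | [], _, acc, k => k acc
  | _ :: _, [], _, _ => false
  | p :: ps, Y :: Ys, acc, k => seqI (Int.add acc (Int.mul p Y)) fun a => dotK ps Ys a k

theorem dotK_sound {X : ℤ} {n : ℕ} {y : ℕ → ℤ} (ps : List ℤ) : ∀ {b : ℕ} {Ys : List ℤ} {acc : ℤ}
    {k : ℤ → Bool}, PL (fun b => pS X n fun i => y i ^ b) b Ys → dotK ps Ys acc k = true →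
    k (acc + pS X n fun i => iev ps (y i) * y i ^ b) = true := by
  induction ps with
  | nil =>
    intro b Ys acc k _ h
    have e : (pS X n fun i => iev [] (y i) * y i ^ b) = 0 := by
      unfold pS
      simp [iev]
    rw [e, add_zero]
    exact h
  | cons p ps ih =>
    intro b Ys acc k hY h
    cases Ys with
    | nil => exact absurd h (by simp [dotK])
    | cons Y Ys =>
      rw [dotK, seqI_eq] at h
      have h2 := ih hY.2 h
      have e : acc + (pS X n fun i => iev (p :: ps) (y i) * y i ^ b) =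
          Int.add acc (Int.mul p Y) + pS X n fun i => iev ps (y i) * y i ^ (b + 1) := by
        rw [hY.1]
        show _ = acc + p * (pS X n fun i => y i ^ b) + pS X n fun i => iev ps (y i) * y i ^ (b + 1)
        unfold pS
        rw [Finset.mul_sum, add_assoc, ← Finset.sum_add_distrib]
        congr 1
        apply Finset.sum_congr rfl
        intro i _
        simp only [iev]
        ring
      rw [e]
      exact h2

def rowsK (Ys : List ℤ) : List (List ℤ) → List ℤ → ℤ → (ℤ → Bool) → Bool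
  | [], _, acc, k => k acc
  | _ :: _, [], _, _ => false
  | p :: ps, Z :: Zs, acc, k => dotK p Ys 0 fun v =>
      seqI (Int.add acc (Int.mul Z v)) fun a => rowsK Ys ps Zs a k

theorem rowsK_sound {X Xn : ℤ} {n m : ℕ} {y z : ℕ → ℤ} {Ys : List ℤ}
    (hY : PL (fun b => pS X n fun i => y i ^ b) 0 Ys) (P : List (List ℤ)) :
    ∀ {b : ℕ} {Zs : List ℤ} {acc : ℤ} {k : ℤ → Bool},
    PL (fun b => pS Xn m fun i => z i ^ b) b Zs → rowsK Ys P Zs acc k = true →
    k (acc + pS Xn m fun l => (pS X n fun i => iev2 P (y i) (z l)) * z l ^ b) = true := by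
  induction P with
  | nil =>
    intro b Zs acc k _ h
    have e : (pS Xn m fun l => (pS X n fun i => iev2 [] (y i) (z l)) * z l ^ b) = 0 := by
      unfold pS
      simp [iev2]
    rw [e, add_zero]
    exact h
  | cons p P ih =>
    intro b Zs acc k hZ h
    cases Zs with
    | nil => exact absurd h (by simp [rowsK])
    | cons Z Zs =>
      rw [rowsK] at h
      have h1 := dotK_sound p hY h
      rw [seqI_eq, zero_add] at h1
      have h2 := ih hZ.2 h1
      have e : acc + (pS Xn m fun l => (pS X n fun i => iev2 (p :: P) (y i) (z l)) * z l ^ b) =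
          Int.add acc (Int.mul Z (pS X n fun i => iev p (y i) * y i ^ 0)) +
            pS Xn m fun l => (pS X n fun i => iev2 P (y i) (z l)) * z l ^ (b + 1) := by
        rw [hZ.1]
        show _ = acc + (pS Xn m fun l => z l ^ b) * (pS X n fun i => iev p (y i) * y i ^ 0) +
          pS Xn m fun l => (pS X n fun i => iev2 P (y i) (z l)) * z l ^ (b + 1)
        rw [add_assoc]
        congr 1
        have e1 : ∀ l, (pS X n fun i => iev2 (p :: P) (y i) (z l)) =
            (pS X n fun i => iev p (y i) * y i ^ 0) + z l * pS X n fun i => iev2 P (y i) (z l) := by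
          intro l
          unfold pS
          rw [Finset.mul_sum, ← Finset.sum_add_distrib]
          apply Finset.sum_congr rfl
          intro i _
          simp only [iev2]
          ring
        simp only [e1]
        generalize (pS X n fun i => iev p (y i) * y i ^ 0) = A
        unfold pS
        rw [Finset.sum_mul, ← Finset.sum_add_distrib]
        apply Finset.sum_congr rfl
        intro l _
        ring
      rw [e]
      exact h2

/-- nested packing -/
def pk2 (L n m : ℕ) (h : ℕ → ℕ → ℕ) : ℕ := packN (L * n) m fun l => packN L n (h l)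

theorem pk2_cast {L n m : ℕ} (h : ℕ → ℕ → ℕ) : ((pk2 L n m h : ℕ) : ℤ) =
    pS ((2 ^ L) ^ n) m fun l => pS (2 ^ L) n fun i => (h l i : ℤ) := by
  unfold pk2 pS
  rw [packN_eq_sum]
  push_cast
  apply Finset.sum_congr rfl
  intro l _
  rw [packN_eq_sum, pow_mul]
  push_cast
  rfl

theorem pk2_testBit {L n m : ℕ} (hL : 0 < L) {h : ℕ → ℕ → ℕ}
    (hh : ∀ l < m, ∀ i < n, h l i < 2 ^ L) {l i : ℕ} (hl : l < m) (hi : i < n) :
    (pk2 L n m h).testBit (L * n * l + (L * i + (L - 1))) = (h l i).testBit (L - 1) := by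
  have hn : 0 < n := by omega
  have hLn : 0 < L * n := Nat.mul_pos hL hn
  have hlt : L * i + (L - 1) < L * n := by
    have : L * (i + 1) ≤ L * n := Nat.mul_le_mul_left _ hi
    have e : L * (i + 1) = L * i + L := by ring
    omega
  unfold pk2
  rw [testBit_packN hLn (fun l hl => by
    have := packN_lt (L := L) (n := n) (f := h l) (hh l hl)
    rwa [← pow_mul] at this)]
  have e1 : (L * n * l + (L * i + (L - 1))) / (L * n) = l := by
    rw [Nat.mul_add_div hLn, Nat.div_eq_of_lt hlt, add_zero]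
  have e2 : (L * n * l + (L * i + (L - 1))) % (L * n) = L * i + (L - 1) := by
    rw [Nat.mul_add_mod, Nat.mod_eq_of_lt hlt]
  rw [e1, e2, testBit_packN hL (hh l hl)]
  have e3 : (L * i + (L - 1)) / L = i := by
    rw [Nat.mul_add_div hL, Nat.div_eq_of_lt (by omega), add_zero]
  have e4 : (L * i + (L - 1)) % L = L - 1 := by
    rw [Nat.mul_add_mod, Nat.mod_eq_of_lt (by omega)]
  rw [e3, e4]
  simp [hl, hi]

theorem pk2_const {L n m c : ℕ} : pk2 L n m (fun _ _ => c) = c * pk2 L n m (fun _ _ => 1) := by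
  unfold pk2
  have h1 : (fun _ : ℕ => packN L n fun _ => c) = fun _ : ℕ => (packN L n fun _ => 1) * c := by
    funext _
    rw [← packN_mul]
    simp
  rw [h1, packN_mul, mul_comm]

/-- all lanes are at least half of the range -/
theorem lanes_ge {L n m : ℕ} (hL : 0 < L) {h : ℕ → ℕ → ℕ}
    (hh : ∀ l < m, ∀ i < n, h l i < 2 ^ L)
    (hc : Nat.land (pk2 L n m h) (pk2 L n m fun _ _ => 2 ^ (L - 1)) =
      pk2 L n m fun _ _ => 2 ^ (L - 1)) : ∀ l < m, ∀ i < n, 2 ^ (L - 1) ≤ h l i := by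
  intro l hl i hi
  have hlt : (2:ℕ) ^ (L - 1) < 2 ^ L := Nat.pow_lt_pow_right (by norm_num) (by omega)
  have t1 := pk2_testBit hL hh hl hi
  have t2 := pk2_testBit (h := fun _ _ => 2 ^ (L - 1)) hL (fun _ _ _ _ => hlt) hl hi
  have t3 : (Nat.land (pk2 L n m h) (pk2 L n m fun _ _ => 2 ^ (L - 1))).testBit
      (L * n * l + (L * i + (L - 1))) = true := by
    rw [hc, t2]
    exact Nat.testBit_two_pow_self
  have e0 : Nat.land (pk2 L n m h) (pk2 L n m fun _ _ => 2 ^ (L - 1)) =
    (pk2 L n m h) &&& (pk2 L n m fun _ _ => 2 ^ (L - 1)) := rfl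
  rw [e0, Nat.testBit_and, Bool.and_eq_true, t1] at t3
  by_contra hcon
  push Not at hcon
  have := Nat.testBit_lt_two_pow hcon
  rw [this] at t3
  exact absurd t3.1 (by simp)

def lanC (mask : ℕ) (F : ℤ) : Bool :=
  match F with
  | Int.ofNat H => Nat.beq (Nat.land H mask) mask
  | Int.negSucc _ => false

theorem lanC_sound {L n m : ℕ} (hL : 0 < L) {v : ℕ → ℕ → ℤ}
    (hv : ∀ l < m, ∀ i < n, -2 ^ (L - 1) < v l i ∧ v l i < 2 ^ (L - 1))
    (hc : lanC (pk2 L n m fun _ _ => 2 ^ (L - 1))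
      (pS ((2 ^ L) ^ n) m fun l => pS (2 ^ L) n fun i => v l i + 2 ^ (L - 1)) = true) :
    ∀ l < m, ∀ i < n, 0 ≤ v l i := by
  have hLL : (2:ℤ) ^ L = 2 ^ (L - 1) + 2 ^ (L - 1) := by
    conv_lhs => rw [← Nat.sub_add_cancel hL]
    rw [pow_succ]
    ring
  have e : (pS ((2 ^ L) ^ n) m fun l => pS (2 ^ L) n fun i => v l i + 2 ^ (L - 1)) =
      ((pk2 L n m fun l i => (v l i + 2 ^ (L - 1)).toNat : ℕ) : ℤ) := by
    rw [pk2_cast]
    unfold pS
    apply Finset.sum_congr rfl
    intro l hl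
    congr 1
    apply Finset.sum_congr rfl
    intro i hi
    have := hv l (Finset.mem_range.mp hl) i (Finset.mem_range.mp hi)
    have h5 := Int.toNat_of_nonneg (a := v l i + 2 ^ (L - 1)) (by linarith [this.1])
    simp only [h5]
  rw [e] at hc
  have hc' : Nat.beq (Nat.land (pk2 L n m fun l i => (v l i + 2 ^ (L - 1)).toNat)
    (pk2 L n m fun _ _ => 2 ^ (L - 1))) (pk2 L n m fun _ _ => 2 ^ (L - 1)) = true := hc
  have h1 := lanes_ge hL (h := fun l i => (v l i + 2 ^ (L - 1)).toNat) (fun l hl i hi => by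
    have := hv l hl i hi
    have h2 : (((v l i + 2 ^ (L - 1)).toNat : ℕ) : ℤ) < 2 ^ L := by
      rw [Int.toNat_of_nonneg (by linarith [this.1]), hLL]
      linarith [this.2]
    exact_mod_cast h2) (Nat.eq_of_beq_eq_true hc')
  intro l hl i hi
  have h3 := h1 l hl i hi
  have := hv l hl i hi
  have h4 : (((2 ^ (L - 1) : ℕ)) : ℤ) ≤ (((v l i + 2 ^ (L - 1)).toNat : ℕ) : ℤ) := by
    exact_mod_cast h3
  rw [Int.toNat_of_nonneg (by linarith [this.1])] at h4
  push_cast at h4
  linarith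

/-- range check on a grid, all points at once -/
def chkS (P : List (List ℤ)) (lo hi : ℤ) (st : ℕ) (ys : ℤ) (n g m : ℕ) (z : ℤ) : Bool :=
  seqN (Nat.add (Nat.add (bnd2 (Nat.add ys.natAbs (Nat.mul n st)) (Nat.add z.natAbs (Nat.mul m g))
    P) lo.natAbs) hi.natAbs) fun cr =>
  seqN (Nat.succ (Nat.log2 cr)) fun L1 =>
  seqN (Nat.pow 2 L1) fun half =>
  seqI (Int.ofNat (Nat.pow 2 (Nat.succ L1))) fun X =>
  seqI (Int.ofNat (Nat.pow 2 (Nat.mul (Nat.succ L1) n))) fun Xn =>
  seqI (Int.ofNat (Nat.pow 2 (Nat.mul (Nat.mul (Nat.succ L1) n) m))) fun Xnm =>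
  pow8 n X Xn ys (Int.ofNat st) fun Ys =>
  pow5 m Xn Xnm z (Int.ofNat g) fun Z0 Z1 Z2 Z3 Z4 =>
  rowsK Ys P [Z0, Z1, Z2, Z3, Z4] 0 fun F =>
  match Ys with
  | [] => false
  | Y0 :: _ =>
    seqI (Int.mul Y0 Z0) fun O =>
    seqN (Nat.mul half O.toNat) fun mask =>
    match lanC mask (Int.add F (Int.mul (Int.sub (Int.ofNat half) lo) O)) with
    | false => false
    | true => lanC mask (Int.sub (Int.mul (Int.add hi (Int.ofNat half)) O) F)

theorem pS_one_mul {X Xn c : ℤ} {n m : ℕ} (f : ℕ → ℕ → ℤ) :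
    (pS Xn m fun l => pS X n fun i => f l i) +
      c * ((pS X n fun _ => 1) * (pS Xn m fun _ => 1)) =
      pS Xn m fun l => pS X n fun i => f l i + c := by
  unfold pS
  rw [Finset.mul_sum, Finset.mul_sum, ← Finset.sum_add_distrib]
  apply Finset.sum_congr rfl
  intro l _
  have e : ∑ i ∈ range n, (f l i + c) * X ^ i =
      ∑ i ∈ range n, f l i * X ^ i + c * ∑ i ∈ range n, 1 * X ^ i := by
    rw [Finset.mul_sum, ← Finset.sum_add_distrib]
    apply Finset.sum_congr rfl
    intro i _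
    ring
  beta_reduce
  rw [e]
  ring

theorem ia (a b : ℤ) : Int.add a b = a + b := rfl

theorem im (a b : ℤ) : Int.mul a b = a * b := rfl

theorem isb (a b : ℤ) : Int.sub a b = a - b := rfl

theorem pS_neg {X Xn c : ℤ} {n m : ℕ} (f : ℕ → ℕ → ℤ) :
    c * ((pS X n fun _ => 1) * (pS Xn m fun _ => 1)) -
      (pS Xn m fun l => pS X n fun i => f l i) = pS Xn m fun l => pS X n fun i => -f l i + c := by
  rw [← pS_one_mul]
  have e : (pS Xn m fun l => pS X n fun i => -f l i) = -(pS Xn m fun l => pS X n fun i => f l i) := by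
    unfold pS
    simp only [neg_mul, Finset.sum_neg_distrib]
  rw [e]
  ring

theorem abs_node {y : ℤ} {i n st : ℕ} (h : i ≤ n) :
    |((y + i * Int.ofNat st : ℤ) : ℝ)| ≤ ((Nat.add y.natAbs (Nat.mul n st) : ℕ) : ℝ) := by
  have e1 : ((y + i * Int.ofNat st : ℤ) : ℝ) = y + i * st := by
    push_cast
    simp
  have e2 : ((Nat.add y.natAbs (Nat.mul n st) : ℕ) : ℝ) = |(y:ℝ)| + n * st := by
    show ((y.natAbs + n * st : ℕ) : ℝ) = _
    push_cast
    rw [Nat.cast_natAbs]
    push_cast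
    ring
  rw [e1, e2]
  have h1 := abs_add_le (y:ℝ) (i * st)
  have hin : (i:ℝ) ≤ n := by exact_mod_cast h
  have h2 : |(i:ℝ) * st| ≤ n * st := by
    rw [abs_of_nonneg (by positivity)]
    gcongr
  linarith

theorem and_of_match {a b : Bool} (h : (match a with
    | false => false
    | true => b) = true) : a = true ∧ b = true := by
  cases a with
  | false => exact absurd h (by simp)
  | true => exact ⟨rfl, h⟩

/-- **Soundness of the simultaneous range check.** -/
theorem chkS_sound {P : List (List ℤ)} {lo hi : ℤ} {st : ℕ} {ys : ℤ} {n g m : ℕ} {z : ℤ}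
    (h : chkS P lo hi st ys n g m z = true) : ∀ k, k < n → ∀ l, l < m →
      (lo:ℝ) ≤ ev2 P (ys + k * st) (z + l * g) ∧ ev2 P (ys + k * st) (z + l * g) ≤ (hi:ℝ) := by
  intro k hk l hl
  have hn : 0 < n := by omega
  unfold chkS at h
  simp only [seqN_eq, seqI_eq] at h
  obtain ⟨cr, hcr⟩ : ∃ cr, cr = Nat.add (Nat.add (bnd2 (Nat.add ys.natAbs (Nat.mul n st))
    (Nat.add z.natAbs (Nat.mul m g)) P) lo.natAbs) hi.natAbs := ⟨_, rfl⟩
  rw [← hcr] at h
  obtain ⟨L, hL⟩ : ∃ L, L = Nat.succ (Nat.succ (Nat.log2 cr)) := ⟨_, rfl⟩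
  have hL0 : 0 < L := by omega
  have hL1 : Nat.succ (Nat.log2 cr) = L - 1 := by omega
  have hcrL : cr < 2 ^ (L - 1) := by
    rw [← hL1]
    exact Nat.lt_log2_self
  rw [← hL, hL1] at h
  have x1 : Int.ofNat (Nat.pow 2 L) = (2:ℤ) ^ L := by
    show (((2 ^ L : ℕ)) : ℤ) = _
    push_cast
    rfl
  have x2 : Int.ofNat (Nat.pow 2 (Nat.mul L n)) = ((2:ℤ) ^ L) ^ n := by
    show (((2 ^ (L * n) : ℕ)) : ℤ) = _
    push_cast
    rw [pow_mul]
  have x3 : Int.ofNat (Nat.pow 2 (Nat.mul (Nat.mul L n) m)) = (((2:ℤ) ^ L) ^ n) ^ m := by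
    show (((2 ^ (L * n * m) : ℕ)) : ℤ) = _
    push_cast
    rw [pow_mul, pow_mul]
  have x4 : Int.ofNat (Nat.pow 2 (L - 1)) = (2:ℤ) ^ (L - 1) := by
    show (((2 ^ (L - 1) : ℕ)) : ℤ) = _
    push_cast
    rfl
  have hX : (1:ℤ) < 2 ^ L := one_lt_pow₀ (by norm_num) (by omega)
  have hXn : (1:ℤ) < (2 ^ L) ^ n := one_lt_pow₀ hX (by omega)
  rw [x1, x2, x3, x4, pow8_eq hX] at h
  dsimp only at h
  rw [pow5_eq hXn] at h
  have hR := rowsK_sound (X := 2 ^ L) (Xn := (2 ^ L) ^ n) (n := n) (m := m)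
    (y := fun i => ys + i * Int.ofNat st) (z := fun l => z + l * Int.ofNat g) (b := 0)
    (Ys := [pS (2 ^ L) n fun i => (ys + i * Int.ofNat st) ^ 0,
      pS (2 ^ L) n fun i => (ys + i * Int.ofNat st) ^ 1,
      pS (2 ^ L) n fun i => (ys + i * Int.ofNat st) ^ 2,
      pS (2 ^ L) n fun i => (ys + i * Int.ofNat st) ^ 3,
      pS (2 ^ L) n fun i => (ys + i * Int.ofNat st) ^ 4,
      pS (2 ^ L) n fun i => (ys + i * Int.ofNat st) ^ 5,
      pS (2 ^ L) n fun i => (ys + i * Int.ofNat st) ^ 6,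
      pS (2 ^ L) n fun i => (ys + i * Int.ofNat st) ^ 7])
    (Zs := [pS ((2 ^ L) ^ n) m fun i => (z + i * Int.ofNat g) ^ 0,
      pS ((2 ^ L) ^ n) m fun i => (z + i * Int.ofNat g) ^ 1,
      pS ((2 ^ L) ^ n) m fun i => (z + i * Int.ofNat g) ^ 2,
      pS ((2 ^ L) ^ n) m fun i => (z + i * Int.ofNat g) ^ 3,
      pS ((2 ^ L) ^ n) m fun i => (z + i * Int.ofNat g) ^ 4])
    (by simp only [PL, Nat.reduceAdd, and_self]) P (by simp only [PL, Nat.reduceAdd, and_self]) h
  rw [zero_add] at hR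
  simp only [pow_zero, mul_one, ia, im, isb] at hR
  -- the ones
  have hO : (pS (2 ^ L) n fun _ => (1:ℤ)) * (pS ((2 ^ L) ^ n) m fun _ => (1:ℤ)) =
      ((pk2 L n m fun _ _ => 1 : ℕ) : ℤ) := by
    rw [pk2_cast]
    push_cast
    unfold pS
    rw [Finset.mul_sum]
    apply Finset.sum_congr rfl
    intro l _
    ring
  have hmask : Nat.mul (Nat.pow 2 (L - 1)) (Int.toNat ((pS (2 ^ L) n fun _ => (1:ℤ)) *
      (pS ((2 ^ L) ^ n) m fun _ => (1:ℤ)))) = pk2 L n m fun _ _ => 2 ^ (L - 1) := by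
    rw [hO, Int.toNat_natCast]
    exact (pk2_const (c := 2 ^ (L - 1))).symm
  rw [hmask] at hR
  -- values
  have hval : ∀ l < m, ∀ i < n, |iev2 P (ys + i * Int.ofNat st) (z + l * Int.ofNat g)| + |lo| +
      |hi| < 2 ^ (L - 1) := by
    intro l hl i hi'
    have b1 := abs_node (y := ys) (st := st) hi'.le
    have b2 := abs_node (y := z) (st := g) hl.le
    have b3 := abs_ev2_le _ _ P b1 b2
    rw [← iev2_cast] at b3
    have b4 : |iev2 P (ys + i * Int.ofNat st) (z + l * Int.ofNat g)| ≤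
        ((bnd2 (Nat.add ys.natAbs (Nat.mul n st)) (Nat.add z.natAbs (Nat.mul m g)) P : ℕ) : ℤ) := by
      exact_mod_cast b3
    have b5 : (cr:ℤ) = ((bnd2 (Nat.add ys.natAbs (Nat.mul n st))
        (Nat.add z.natAbs (Nat.mul m g)) P : ℕ) : ℤ) + |lo| + |hi| := by
      rw [hcr]
      show ((_ + lo.natAbs + hi.natAbs : ℕ) : ℤ) = _
      push_cast
      simp
    have b6 : (cr:ℤ) < 2 ^ (L - 1) := by exact_mod_cast hcrL
    linarith
  have d1 : (pS ((2 ^ L) ^ n) m fun l =>
      pS (2 ^ L) n fun i => iev2 P (ys + i * Int.ofNat st) (z + l * Int.ofNat g)) +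
      (2 ^ (L - 1) - lo) * ((pS (2 ^ L) n fun _ => (1:ℤ)) *
      (pS ((2 ^ L) ^ n) m fun _ => (1:ℤ))) = pS ((2 ^ L) ^ n) m fun l => pS (2 ^ L) n fun i =>
      (iev2 P (ys + i * Int.ofNat st) (z + l * Int.ofNat g) - lo) + 2 ^ (L - 1) := by
    rw [pS_one_mul]
    unfold pS
    apply Finset.sum_congr rfl
    intro l _
    congr 1
    apply Finset.sum_congr rfl
    intro i _
    ring
  have d2 : (hi + 2 ^ (L - 1)) * ((pS (2 ^ L) n fun _ => (1:ℤ)) *
      (pS ((2 ^ L) ^ n) m fun _ => (1:ℤ))) - (pS ((2 ^ L) ^ n) m fun l =>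
      pS (2 ^ L) n fun i => iev2 P (ys + i * Int.ofNat st) (z + l * Int.ofNat g)) =
      pS ((2 ^ L) ^ n) m fun l => pS (2 ^ L) n fun i =>
      (hi - iev2 P (ys + i * Int.ofNat st) (z + l * Int.ofNat g)) + 2 ^ (L - 1) := by
    rw [pS_neg]
    unfold pS
    apply Finset.sum_congr rfl
    intro l _
    congr 1
    apply Finset.sum_congr rfl
    intro i _
    ring
  rw [d1, d2] at hR
  obtain ⟨c1, c2⟩ := and_of_match hR
  have r1 := lanC_sound hL0 (fun l hl i hi' => by
    have h3 := hval l hl i hi'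
    have h4 := abs_le.1 (le_refl |iev2 P (ys + i * Int.ofNat st) (z + l * Int.ofNat g)|)
    have h5 := abs_le.1 (le_refl |lo|)
    have h6 := abs_nonneg hi
    constructor <;> linarith [h4.1, h4.2, h5.1, h5.2]) c1 l hl k hk
  have r2 := lanC_sound hL0 (fun l hl i hi' => by
    have h3 := hval l hl i hi'
    have h4 := abs_le.1 (le_refl |iev2 P (ys + i * Int.ofNat st) (z + l * Int.ofNat g)|)
    have h5 := abs_le.1 (le_refl |hi|)
    have h6 := abs_nonneg lo
    constructor <;> linarith [h4.1, h4.2, h5.1, h5.2]) c2 l hl k hk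
  have e : ev2 P (ys + k * st) (z + l * g) =
      ((iev2 P (ys + k * Int.ofNat st) (z + l * Int.ofNat g) : ℤ) : ℝ) := by
    rw [iev2_cast]
    push_cast
    simp
  rw [e]
  constructor
  · have : lo ≤ iev2 P (ys + k * Int.ofNat st) (z + l * Int.ofNat g) := by linarith
    exact_mod_cast this
  · have : iev2 P (ys + k * Int.ofNat st) (z + l * Int.ofNat g) ≤ hi := by linarith
    exact_mod_cast this

end Pool.Agent.H4.Shore.Simd
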