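import Mathlib
import Pool.Agent.H44.Shore.Reg3
import Pool.Agent.H44.Shore.Cert
import Pool.Agent.H65.Shore.Data.KX
import Pool.Agent.H4.Shore.GCellS

/-!
Shoreline search: sup norm bounds of the exact certificate in the ring.
-/

open Real Set

namespace Pool.Agent.H4.Shore

open Pool.Agent.H44.Shore Pool.Agent.H44.Shore.MBC

open Pool.Agent.H65.Shore (KX Reg RegOk)

/-- the exact certificate for the region checks -/
def rcX : RC := ⟨KX.Lm, 1152921504607, 325059, 49, 250⟩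

theorem LX_lit : LX = KX.Lm := by decide +kernel

theorem rcX_ok {α ω : ℝ} (h : Consts α ω) : RCOk (DX α ω) rcX := by
  have hA := apxX h
  rw [LX_lit] at hA
  refine ⟨⟨hA.deg, hA.l5, hA.l8, by positivity, fun k hk m hm => (hA.h k hk m hm).trans ?_⟩,
    by decide +kernel, by decide, ?_, by decide, by decide, ?_⟩
  · show (1:ℝ) / 10 ^ 6 ≤ ((1152921504607 : ℕ) : ℝ) / 2 ^ 60
    norm_num
  · show RX.rB = ((325059 : ℕ) : ℝ) / 2 ^ 20
    rw [RX_rB]
    norm_num
  · show RX.xL = ((49 : ℕ) : ℝ) / ((250 : ℕ) : ℝ)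
    rw [RX_xL]
    norm_num

def ringB : Bx := ⟨9, 8, -102, 1, 141, 134, 1, 14, 102, 148⟩

def ringM : M9 := ⟨6185206120, 46730591207, 1672940484610, 375818686, 5572639116, 256959210537,
  1039722246, 70765158579, 8432293664⟩

theorem ring_chk : (ringB.ok && nineC rcX ringB ringM) = true := by decide +kernel

theorem ringOkX {α ω : ℝ} (h : Consts α ω) : RingOk (DX α ω) := by
  have hK := rcX_ok h
  have hrB : (DX α ω).rB = 325059 / 2 ^ 20 := by
    have := hK.hrB
    simpa [rcX] using this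
  have hc := ring_chk
  rw [Bool.and_eq_true] at hc
  refine ⟨?_, 1 - (224217 / 2 ^ 20) ^ 2 / (DX α ω).rB ^ 2, 1 - (211634 / 2 ^ 20) ^ 2 / (DX α ω).rB ^ 2,
    _, _, _, _, _, _, _, _, _, nineC_sound hK hc.1 hc.2 ?_ ?_ ?_ ?_, le_rfl, le_rfl, ?_⟩
  · rw [hrB]
    norm_num
  · norm_num [ringB]
  · norm_num [ringB]
  · rw [hrB]
    norm_num [ringB]
  · rw [hrB]
    norm_num [ringB]
  · rw [hrB]
    simp only [ringM]
    refine ⟨?_, ?_, ?_, ?_, ?_, ?_⟩
    · norm_num [KR]
    · norm_num [KR]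
    · norm_num
    · norm_num [KB]
    · norm_num [KB]
    · norm_num

end Pool.Agent.H4.Shore
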