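import Mathlib
import Pool.Agent.H65.Shore.Data.CR0
import Pool.Agent.H65.Shore.Data.CR1
import Pool.Agent.H65.Shore.Data.CR2
import Pool.Agent.H65.Shore.Data.CR3
import Pool.Agent.H65.Shore.Data.CR4
import Pool.Agent.H65.Shore.Data.CR5
import Pool.Agent.H65.Shore.Data.CR6
import Pool.Agent.H65.Shore.Data.CR7
import Pool.Agent.H65.Shore.Data.CR8
import Pool.Agent.H65.Shore.Data.CR9
import Pool.Agent.H65.Shore.Data.CR10
import Pool.Agent.H65.Shore.Data.CR11
import Pool.Agent.H4.Shore.GData
import Pool.Agent.H4.Shore.SData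
import Pool.Agent.H4.Shore.Ring
import Pool.Agent.H4.Shore.RingBox

/-!
Shoreline search: the ring.
-/

open Real Set

namespace Pool.Agent.H4.Shore

open Pool.Agent.H44.Shore Pool.Agent.H65.Shore Pool.Agent.H81.Shore

/-- the slack is not used in the conditions of a region -/
theorem regOk_s {D : Dat} {V : ℝ} {g : Reg} (h : RegOk D V g) (s : ℕ) :
    RegOk D V { g with s := s } := ⟨h.semi, h.lip, h.xb1, h.sliv⟩

/-- the region of the ring -/
def gR : Reg := ⟨211634, 224217, 78119, 11596, 190, 131, 23, 0, 329853489, 0⟩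

theorem rho_lo {α ω : ℝ} (h : Consts α ω) :
    ((83477678670722639 : ℕ) : ℝ) / 2 ^ 60 ≤ 1 / (DX α ω).ρ := by
  have e : 1 / (DX α ω).ρ = sin α * cos ω := by
    show 1 / (1 / (sin α * cos ω)) = _
    rw [one_div_one_div]
  rw [e]
  have h1 := h.sal
  have h2 := h.cwl
  have h3 : (0.2078302662956544:ℝ) * 0.34838691084614861 ≤ sin α * cos ω :=
    mul_le_mul h1 h2 (by norm_num) (by linarith)
  refine le_trans ?_ h3
  norm_num

theorem rho_hi {α ω : ℝ} (h : Consts α ω) : 1 / (DX α ω).ρ ≤ 0.0725 := by
  have e : 1 / (DX α ω).ρ = sin α * cos ω := by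
    show 1 / (1 / (sin α * cos ω)) = _
    rw [one_div_one_div]
  rw [e]
  have h1 := h.sau
  have h2 := h.cwu
  have h3 : sin α * cos ω ≤ 0.20783026629761079 * 0.3483869108536475 :=
    mul_le_mul h1 h2 (by linarith [h.cwl]) (by norm_num)
  refine h3.trans ?_
  norm_num

section

variable {α ω : ℝ} (h : Consts α ω) (hK : CstOk (DX α ω) KX) (hg : RegOk (DX α ω) (51 / 50) gR)

include h hK hg

theorem ring0 : PP (DX α ω) (((211634 : ℕ) : ℝ) / 2 ^ 20) (((212683 : ℕ) : ℝ) / 2 ^ 20) :=
  ring_sub h (okX h) rfl (ringOkX h) hK (rho_hi h) (rho_lo h) gcs0_ok scs0_ok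
    (regOk_s hg _) (regOk_s hg _) (regOk_s hg _) (regOk_s hg _) (regOk_s hg _)
    cr0_ok cr1_ok cr2_ok cr3_ok cr4_ok
    (p0 := (1049945, 0)) (e0 := (674205, 803486))
    (p1 := (674225, 803510)) (e1 := (492301, 925883))
    (p2 := (492334, 925945)) (e2 := (237975, 1021251))
    (p3 := (74975, 1045950)) (e3 := (-91396, 1044664))
    (p4 := (-91401, 1044719)) (e4 := (-1051123, 0))
    (by decide +kernel) (by decide +kernel) (by decide +kernel) (by decide +kernel)
    (by decide +kernel) (by decide) (by decide) (by decide) (by decide) (by decide +kernel)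
    (by decide +kernel) (by decide +kernel) (by decide +kernel) (by decide +kernel)

theorem ring1 : PP (DX α ω) (((212683 : ℕ) : ℝ) / 2 ^ 20) (((213731 : ℕ) : ℝ) / 2 ^ 20) :=
  ring_sub h (okX h) rfl (ringOkX h) hK (rho_hi h) (rho_lo h) gcs1_ok scs1_ok
    (regOk_s hg _) (regOk_s hg _) (regOk_s hg _) (regOk_s hg _) (regOk_s hg _)
    cr5_ok cr6_ok cr7_ok cr8_ok cr9_ok
    (p0 := (1049769, 0)) (e0 := (674076, 803332))
    (p1 := (674193, 803472)) (e1 := (492319, 925917))
    (p2 := (492321, 925922)) (e2 := (257661, 1016489))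
    (p3 := (74974, 1045945)) (e3 := (-91396, 1044658))
    (p4 := (-91405, 1044764)) (e4 := (-1050767, 0))
    (by decide +kernel) (by decide +kernel) (by decide +kernel) (by decide +kernel)
    (by decide +kernel) (by decide) (by decide) (by decide) (by decide) (by decide +kernel)
    (by decide +kernel) (by decide +kernel) (by decide +kernel) (by decide +kernel)

theorem ring2 : PP (DX α ω) (((213731 : ℕ) : ℝ) / 2 ^ 20) (((214780 : ℕ) : ℝ) / 2 ^ 20) :=
  ring_sub h (okX h) rfl (ringOkX h) hK (rho_hi h) (rho_lo h) gcs2_ok scs2_ok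
    (regOk_s hg _) (regOk_s hg _) (regOk_s hg _) (regOk_s hg _) (regOk_s hg _)
    cr10_ok cr11_ok cr12_ok cr13_ok cr14_ok
    (p0 := (1049610, 0)) (e0 := (674113, 803376))
    (p1 := (674169, 803443)) (e1 := (492294, 925871))
    (p2 := (492313, 925906)) (e2 := (275722, 1011704))
    (p3 := (74974, 1045945)) (e3 := (-91394, 1044641))
    (p4 := (-91409, 1044815)) (e4 := (-1051548, 0))
    (by decide +kernel) (by decide +kernel) (by decide +kernel) (by decide +kernel)
    (by decide +kernel) (by decide) (by decide) (by decide) (by decide) (by decide +kernel)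
    (by decide +kernel) (by decide +kernel) (by decide +kernel) (by decide +kernel)

theorem ring3 : PP (DX α ω) (((214780 : ℕ) : ℝ) / 2 ^ 20) (((215828 : ℕ) : ℝ) / 2 ^ 20) :=
  ring_sub h (okX h) rfl (ringOkX h) hK (rho_hi h) (rho_lo h) gcs3_ok scs3_ok
    (regOk_s hg _) (regOk_s hg _) (regOk_s hg _) (regOk_s hg _) (regOk_s hg _)
    cr15_ok cr16_ok cr17_ok cr18_ok cr19_ok
    (p0 := (1049467, 0)) (e0 := (674061, 803314))
    (p1 := (674151, 803422)) (e1 := (492304, 925889))
    (p2 := (492309, 925899)) (e2 := (292504, 1006979))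
    (p3 := (74974, 1045947)) (e3 := (-91401, 1044717))
    (p4 := (-91415, 1044873)) (e4 := (-1053030, 0))
    (by decide +kernel) (by decide +kernel) (by decide +kernel) (by decide +kernel)
    (by decide +kernel) (by decide) (by decide) (by decide) (by decide) (by decide +kernel)
    (by decide +kernel) (by decide +kernel) (by decide +kernel) (by decide +kernel)

theorem ring4 : PP (DX α ω) (((215828 : ℕ) : ℝ) / 2 ^ 20) (((216877 : ℕ) : ℝ) / 2 ^ 20) :=
  ring_sub h (okX h) rfl (ringOkX h) hK (rho_hi h) (rho_lo h) gcs4_ok scs4_ok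
    (regOk_s hg _) (regOk_s hg _) (regOk_s hg _) (regOk_s hg _) (regOk_s hg _)
    cr20_ok cr21_ok cr22_ok cr23_ok cr24_ok
    (p0 := (1049336, 0)) (e0 := (674099, 803360))
    (p1 := (674140, 803409)) (e1 := (492309, 925899))
    (p2 := (492308, 925896)) (e2 := (308176, 1002303))
    (p3 := (74975, 1045955)) (e3 := (-91397, 1044670))
    (p4 := (-91420, 1044937)) (e4 := (-1050836, 0))
    (by decide +kernel) (by decide +kernel) (by decide +kernel) (by decide +kernel)
    (by decide +kernel) (by decide) (by decide) (by decide) (by decide) (by decide +kernel)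
    (by decide +kernel) (by decide +kernel) (by decide +kernel) (by decide +kernel)

theorem ring5 : PP (DX α ω) (((216877 : ℕ) : ℝ) / 2 ^ 20) (((217926 : ℕ) : ℝ) / 2 ^ 20) :=
  ring_sub h (okX h) rfl (ringOkX h) hK (rho_hi h) (rho_lo h) gcs5_ok scs5_ok
    (regOk_s hg _) (regOk_s hg _) (regOk_s hg _) (regOk_s hg _) (regOk_s hg _)
    cr25_ok cr26_ok cr27_ok cr28_ok cr29_ok
    (p0 := (1049215, 0)) (e0 := (674147, 803417))
    (p1 := (674135, 803403)) (e1 := (492310, 925901))
    (p2 := (492308, 925896)) (e2 := (322915, 997629))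
    (p3 := (74976, 1045970)) (e3 := (-91405, 1044769))
    (p4 := (-91426, 1045008)) (e4 := (-1052863, 0))
    (by decide +kernel) (by decide +kernel) (by decide +kernel) (by decide +kernel)
    (by decide +kernel) (by decide) (by decide) (by decide) (by decide) (by decide +kernel)
    (by decide +kernel) (by decide +kernel) (by decide +kernel) (by decide +kernel)

theorem ring6 : PP (DX α ω) (((217926 : ℕ) : ℝ) / 2 ^ 20) (((218974 : ℕ) : ℝ) / 2 ^ 20) :=
  ring_sub h (okX h) rfl (ringOkX h) hK (rho_hi h) (rho_lo h) gcs6_ok scs6_ok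
    (regOk_s hg _) (regOk_s hg _) (regOk_s hg _) (regOk_s hg _) (regOk_s hg _)
    cr30_ok cr31_ok cr32_ok cr33_ok cr34_ok
    (p0 := (1049215, 0)) (e0 := (674147, 803417))
    (p1 := (674135, 803403)) (e1 := (492309, 925899))
    (p2 := (492310, 925901)) (e2 := (336849, 993029))
    (p3 := (74978, 1045991)) (e3 := (-91400, 1044712))
    (p4 := (-91433, 1045084)) (e4 := (-1051246, 0))
    (by decide +kernel) (by decide +kernel) (by decide +kernel) (by decide +kernel)
    (by decide +kernel) (by decide) (by decide) (by decide) (by decide) (by decide +kernel)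
    (by decide +kernel) (by decide +kernel) (by decide +kernel) (by decide +kernel)

theorem ring7 : PP (DX α ω) (((218974 : ℕ) : ℝ) / 2 ^ 20) (((220023 : ℕ) : ℝ) / 2 ^ 20) :=
  ring_sub h (okX h) rfl (ringOkX h) hK (rho_hi h) (rho_lo h) gcs7_ok scs7_ok
    (regOk_s hg _) (regOk_s hg _) (regOk_s hg _) (regOk_s hg _) (regOk_s hg _)
    cr35_ok cr36_ok cr37_ok cr38_ok cr39_ok
    (p0 := (1049263, 0)) (e0 := (674091, 803350))
    (p1 := (674186, 803463)) (e1 := (492311, 925902))
    (p2 := (492336, 925949)) (e2 := (350054, 988476))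
    (p3 := (74978, 1045991)) (e3 := (-91400, 1044709))
    (p4 := (-91435, 1045107)) (e4 := (-1050699, 0))
    (by decide +kernel) (by decide +kernel) (by decide +kernel) (by decide +kernel)
    (by decide +kernel) (by decide) (by decide) (by decide) (by decide) (by decide +kernel)
    (by decide +kernel) (by decide +kernel) (by decide +kernel) (by decide +kernel)

theorem ring8 : PP (DX α ω) (((220023 : ℕ) : ℝ) / 2 ^ 20) (((221071 : ℕ) : ℝ) / 2 ^ 20) :=
  ring_sub h (okX h) rfl (ringOkX h) hK (rho_hi h) (rho_lo h) gcs8_ok scs8_ok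
    (regOk_s hg _) (regOk_s hg _) (regOk_s hg _) (regOk_s hg _) (regOk_s hg _)
    cr40_ok cr41_ok cr42_ok cr43_ok cr44_ok
    (p0 := (1049317, 0)) (e0 := (674208, 803490))
    (p1 := (674240, 803528)) (e1 := (492340, 925957))
    (p2 := (492362, 925998)) (e2 := (357601, 985770))
    (p3 := (74978, 1045997)) (e3 := (-91399, 1044697))
    (p4 := (-91437, 1045135)) (e4 := (-1050332, 0))
    (by decide +kernel) (by decide +kernel) (by decide +kernel) (by decide +kernel)
    (by decide +kernel) (by decide) (by decide) (by decide) (by decide) (by decide +kernel)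
    (by decide +kernel) (by decide +kernel) (by decide +kernel) (by decide +kernel)

theorem ring9 : PP (DX α ω) (((221071 : ℕ) : ℝ) / 2 ^ 20) (((222120 : ℕ) : ℝ) / 2 ^ 20) :=
  ring_sub h (okX h) rfl (ringOkX h) hK (rho_hi h) (rho_lo h) gcs9_ok scs9_ok
    (regOk_s hg _) (regOk_s hg _) (regOk_s hg _) (regOk_s hg _) (regOk_s hg _)
    cr45_ok cr46_ok cr47_ok cr48_ok cr49_ok
    (p0 := (1049377, 0)) (e0 := (674131, 803399))
    (p1 := (674302, 803602)) (e1 := (492314, 925908))
    (p2 := (492390, 926051)) (e2 := (357624, 985832))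
    (p3 := (74979, 1046008)) (e3 := (-91420, 1044936))
    (p4 := (-91440, 1045168)) (e4 := (-1050126, 0))
    (by decide +kernel) (by decide +kernel) (by decide +kernel) (by decide +kernel)
    (by decide +kernel) (by decide) (by decide) (by decide) (by decide) (by decide +kernel)
    (by decide +kernel) (by decide +kernel) (by decide +kernel) (by decide +kernel)

theorem ring10 : PP (DX α ω) (((222120 : ℕ) : ℝ) / 2 ^ 20) (((223168 : ℕ) : ℝ) / 2 ^ 20) :=
  ring_sub h (okX h) rfl (ringOkX h) hK (rho_hi h) (rho_lo h) gcs10_ok scs10_ok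
    (regOk_s hg _) (regOk_s hg _) (regOk_s hg _) (regOk_s hg _) (regOk_s hg _)
    cr50_ok cr51_ok cr52_ok cr53_ok cr54_ok
    (p0 := (1049442, 0)) (e0 := (674338, 803645))
    (p1 := (674368, 803680)) (e1 := (492387, 926046))
    (p2 := (492420, 926108)) (e2 := (357612, 985798))
    (p3 := (74980, 1046025)) (e3 := (-91413, 1044855))
    (p4 := (-91444, 1045206)) (e4 := (-1049833, 0))
    (by decide +kernel) (by decide +kernel) (by decide +kernel) (by decide +kernel)
    (by decide +kernel) (by decide) (by decide) (by decide) (by decide) (by decide +kernel)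
    (by decide +kernel) (by decide +kernel) (by decide +kernel) (by decide +kernel)

theorem ring11 : PP (DX α ω) (((223168 : ℕ) : ℝ) / 2 ^ 20) (((224217 : ℕ) : ℝ) / 2 ^ 20) :=
  ring_sub h (okX h) rfl (ringOkX h) hK (rho_hi h) (rho_lo h) gcs11_ok scs11_ok
    (regOk_s hg _) (regOk_s hg _) (regOk_s hg _) (regOk_s hg _) (regOk_s hg _)
    cr55_ok cr56_ok cr57_ok cr58_ok cr59_ok
    (p0 := (1049509, 0)) (e0 := (674272, 803566))
    (p1 := (674436, 803762)) (e1 := (492360, 925995))
    (p2 := (492451, 926167)) (e2 := (357607, 985784))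
    (p3 := (74982, 1046047)) (e3 := (-91410, 1044822))
    (p4 := (-91447, 1045249)) (e4 := (-1049627, 0))
    (by decide +kernel) (by decide +kernel) (by decide +kernel) (by decide +kernel)
    (by decide +kernel) (by decide) (by decide) (by decide) (by decide) (by decide +kernel)
    (by decide +kernel) (by decide +kernel) (by decide +kernel) (by decide +kernel)

/-- **The ring.** -/
theorem ring_all : PP (DX α ω) (((211634 : ℕ) : ℝ) / 2 ^ 20) (((224217 : ℕ) : ℝ) / 2 ^ 20) :=
  (ring0 h hK hg).glue (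
  (ring1 h hK hg).glue (
  (ring2 h hK hg).glue (
  (ring3 h hK hg).glue (
  (ring4 h hK hg).glue (
  (ring5 h hK hg).glue (
  (ring6 h hK hg).glue (
  (ring7 h hK hg).glue (
  (ring8 h hK hg).glue (
  (ring9 h hK hg).glue (
  (ring10 h hK hg).glue (
  ring11 h hK hg)))))))))))

end

end Pool.Agent.H4.Shore
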