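import Pool.Agent.H65.Shore.Data.KX
import Pool.Agent.H4.Shore.SignCell

/-!
Shoreline search: sign data of the twelve central cells of the ring.
-/

namespace Pool.Agent.H4.Shore

open Pool.Agent.H44.Shore Pool.Agent.H65.Shore

theorem scs0_ok : signAll KX 3221225 [true, false, true, false, false, false, false] 10 211634 212683 80 645 74386 1045932 239497 1020856 = true := by
  decide +kernel

theorem scs1_ok : signAll KX 3221225 [true, false, true, false, true, true, false] 10 212683 213731 86 645 74386 1045932 259170 1016040 = true := by
  decide +kernel

theorem scs2_ok : signAll KX 3221225 [true, false, true, true, true, false, false] 10 213731 214780 92 644 74386 1045932 277232 1011261 = true := by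
  decide +kernel

theorem scs3_ok : signAll KX 3221225 [true, true, false, false, false, true, false] 10 214780 215828 98 644 74386 1045932 294005 1006512 = true := by
  decide +kernel

theorem scs4_ok : signAll KX 3221225 [true, true, false, false, true, true, true] 10 215828 216877 103 643 74386 1045932 309668 1001804 = true := by
  decide +kernel

theorem scs5_ok : signAll KX 3221225 [true, true, false, true, true, false, false] 10 216877 217926 108 642 74386 1045932 324406 997129 = true := by
  decide +kernel

theorem scs6_ok : signAll KX 3221225 [true, true, true, false, false, false, true] 10 217926 218974 113 642 74386 1045932 338327 992492 = true := by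
  decide +kernel

theorem scs7_ok : signAll KX 3221225 [true, true, true, false, true, false, true] 10 218974 220023 117 641 74386 1045932 351517 987898 = true := by
  decide +kernel

theorem scs8_ok : signAll KX 3221225 [true, true, true, true, false, false, true] 10 220023 221071 121 641 74386 1045932 358568 985360 = true := by
  decide +kernel

theorem scs9_ok : signAll KX 3221225 [true, true, true, true, true, false, true] 10 221071 222120 125 640 74386 1045932 358568 985360 = true := by
  decide +kernel

theorem scs10_ok : signAll KX 3221225 [true, false, false, false, false, false, false, true] 10 222120 223168 129 639 74386 1045932 358568 985360 = true := by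
  decide +kernel

theorem scs11_ok : signAll KX 3221225 [true, false, false, false, false, true, false, true] 10 223168 224217 133 639 74386 1045932 358568 985360 = true := by
  decide +kernel

end Pool.Agent.H4.Shore
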